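import Pool.Agent.MP_0be28d_co.Mg.Seven

section

/-!
Regular subgraphs of almost regular graphs without 4-cycles: definitions, basic counting lemmas
and the statements of the steps.
-/

set_option autoImplicit false

namespace Pool.Agent.MP_0be28d_co.A55

open Finset

variable {V : Type}

open Classical in
/-- number of neighbours of `v` in `M` -/
noncomputable def dg (G : SimpleGraph V) (M : Finset V) (v : V) : ℤ :=
  ((M.filter fun w => G.Adj v w).card : ℤ)

/-- number of ordered adjacent pairs in `M × N` -/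
noncomputable def ee (G : SimpleGraph V) (M N : Finset V) : ℤ := ∑ u ∈ M, dg G N u

/-- total deficiency of the vertices of `M` inside `P` -/
noncomputable def out (G : SimpleGraph V) (k : ℤ) (P M : Finset V) : ℤ :=
  ∑ u ∈ M, (k - dg G P u)

/-- the cut of the pair `(B, A)` in the bipartite double cover of `G[P]` -/
noncomputable def cut [DecidableEq V] (G : SimpleGraph V) (P B A : Finset V) : ℤ :=
  ee G B (P \ A) + ee G A (P \ B)

/-- the potential of a pair -/
noncomputable def FF [DecidableEq V] (G : SimpleGraph V) (k : ℤ) (d : ℕ) (P B A : Finset V) : ℤ :=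
  4 * d * (out G k P A - out G k P B) + (k - d) * cut G P B A

/-- maximum degree at most `k` -/
def Deg (G : SimpleGraph V) (k : ℤ) : Prop := ∀ (M : Finset V) (v : V), dg G M v ≤ k

/-- two distinct vertices have at most one common neighbour -/
def NoC4 (G : SimpleGraph V) : Prop :=
  ∀ a b c c', a ≠ b → G.Adj a c → G.Adj b c → G.Adj a c' → G.Adj b c' → c = c'

/-- every vertex of `P` has at least `k - J` neighbours in `P` -/
def Clean (G : SimpleGraph V) (k : ℤ) (P : Finset V) (J : ℤ) : Prop :=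
  ∀ v ∈ P, k ≤ dg G P v + J

/-- every cut of `G[P]` with fewer than `L` edges has a side with fewer than `s` vertices -/
def Conn [DecidableEq V] (G : SimpleGraph V) (P : Finset V) (L s : ℤ) : Prop :=
  ∀ U ⊆ P, ee G U (P \ U) < L → (U.card : ℤ) < s ∨ ((P \ U).card : ℤ) < s

/-- the potential is at least `-E` -/
def Bal [DecidableEq V] (G : SimpleGraph V) (k : ℤ) (d : ℕ) (P : Finset V) (E : ℤ) : Prop :=
  ∀ B ⊆ P, ∀ A ⊆ P, -E ≤ FF G k d P B A

/-- `(B, A)` is a disjoint pair minimising the potential, with value `-δ` -/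
structure MinPair [DecidableEq V] (G : SimpleGraph V) (k : ℤ) (d : ℕ) (P B A : Finset V) (δ : ℤ) :
    Prop where
  hB : B ⊆ P
  hA : A ⊆ P
  disj : Disjoint A B
  val : FF G k d P B A = -δ
  bal : Bal G k d P δ

/-- deleting `v` will lower the violation -/
def Good [DecidableEq V] (G : SimpleGraph V) (k : ℤ) (d : ℕ) (P B A : Finset V) (δ : ℤ) (v : V) :
    Prop :=
  ∀ B₁ ⊆ B, ∀ A₁ ⊆ A, 7 * d * k - 2 * δ ≤ 2 * (FF G k d P B₁ A₁ + 4 * d * dg G A₁ v)

/-- `G` has a subgraph that is `d`-regular on `P` (all other vertices isolated) -/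
def Fac (G : SimpleGraph V) (P : Finset V) (d : ℕ) : Prop :=
  ∃ H : SimpleGraph V, H ≤ G ∧ RegOn H P d

/-- the basic inequalities between the parameters -/
structure Base (k : ℤ) (d : ℕ) (J h : ℤ) : Prop where
  d_pos : 0 < d
  kd : k ≤ 2 * d
  p8 : 8 ≤ k - d
  J0 : 0 ≤ J
  Jp : 8 * J ≤ k - d
  h1 : 1 ≤ h
  hk : 2 * (J + 2 * h) ≤ k

theorem Base.mono {k : ℤ} {d : ℕ} {J J' h : ℤ} (b : Base k d J h) (h0 : 0 ≤ J') (hle : J' ≤ J) :
    Base k d J' h :=
  ⟨b.d_pos, b.kd, b.p8, h0, by linarith [b.Jp], b.h1, by linarith only [b.hk, hle]⟩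

section basic

variable {G : SimpleGraph V}

theorem dg_nonneg (M : Finset V) (v : V) : 0 ≤ dg G M v := Int.natCast_nonneg _

open Classical in
theorem dg_eq_sum (M : Finset V) (v : V) :
    dg G M v = ∑ w ∈ M, if G.Adj v w then (1 : ℤ) else 0 := by
  unfold dg
  rw [Finset.card_filter]
  push_cast
  rfl

theorem dg_empty (v : V) : dg G ∅ v = 0 := by simp [dg]

theorem dg_le_card (M : Finset V) (v : V) : dg G M v ≤ M.card := by
  classical
  unfold dg
  exact_mod_cast card_filter_le _ _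

theorem dg_mono {M N : Finset V} (h : M ⊆ N) (v : V) : dg G M v ≤ dg G N v := by
  classical
  unfold dg
  exact_mod_cast card_le_card (filter_subset_filter _ h)

theorem dg_le_of_le {H : SimpleGraph V} (hle : H ≤ G) (M : Finset V) (v : V) :
    dg H M v ≤ dg G M v := by
  unfold dg
  exact_mod_cast card_le_card fun w hw => by
    simp only [mem_filter] at hw ⊢
    exact ⟨hw.1, hle hw.2⟩

theorem dg_union [DecidableEq V] {M N : Finset V} (h : Disjoint M N) (v : V) :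
    dg G (M ∪ N) v = dg G M v + dg G N v := by
  simp only [dg_eq_sum]
  exact sum_union h

theorem dg_union_le [DecidableEq V] (M N : Finset V) (v : V) :
    dg G (M ∪ N) v ≤ dg G M v + dg G N v := by
  rw [← union_sdiff_self_eq_union, dg_union disjoint_sdiff]
  linarith [dg_mono (G := G) (sdiff_subset (s := N) (t := M)) v]

theorem dg_sdiff [DecidableEq V] {M N : Finset V} (h : N ⊆ M) (v : V) :
    dg G (M \ N) v = dg G M v - dg G N v := by
  have := dg_union (G := G) (disjoint_sdiff (s := N) (t := M)) v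
  rw [union_sdiff_of_subset h] at this
  linarith only [this]

theorem dg_sdiff_add_inter [DecidableEq V] (M N : Finset V) (v : V) :
    dg G (M \ N) v + dg G (M ∩ N) v = dg G M v := by
  rw [← dg_union (disjoint_sdiff_inter M N), sdiff_union_inter]

open Classical in
theorem dg_singleton (u v : V) : dg G {u} v = if G.Adj v u then 1 else 0 := by
  rw [dg_eq_sum, sum_singleton]

/-- link with decidable adjacency -/
theorem dg_eq_card [DecidableRel G.Adj] (M : Finset V) (v : V) :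
    dg G M v = ((M.filter fun w => G.Adj v w).card : ℤ) := by
  unfold dg
  congr

theorem ee_nonneg (M N : Finset V) : 0 ≤ ee G M N := sum_nonneg fun _ _ => dg_nonneg _ _

theorem ee_comm (M N : Finset V) : ee G M N = ee G N M := by
  classical
  simp only [ee, dg_eq_sum]
  rw [sum_comm]
  refine sum_congr rfl fun u _ => sum_congr rfl fun w _ => ?_
  simp only [G.adj_comm]

theorem ee_empty_left (N : Finset V) : ee G ∅ N = 0 := by simp [ee]

theorem ee_empty_right (M : Finset V) : ee G M ∅ = 0 := by simp [ee, dg_empty]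

theorem ee_mono {M M' N N' : Finset V} (h : M ⊆ M') (h' : N ⊆ N') : ee G M N ≤ ee G M' N' :=
  (sum_le_sum fun u _ => dg_mono h' u).trans
    (sum_le_sum_of_subset_of_nonneg h fun _ _ _ => dg_nonneg _ _)

theorem ee_le_of_le {H : SimpleGraph V} (hle : H ≤ G) (M N : Finset V) : ee H M N ≤ ee G M N :=
  sum_le_sum fun u _ => dg_le_of_le hle N u

theorem ee_union_left [DecidableEq V] {M M' : Finset V} (h : Disjoint M M') (N : Finset V) :
    ee G (M ∪ M') N = ee G M N + ee G M' N := sum_union h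

theorem ee_union_right [DecidableEq V] (M : Finset V) {N N' : Finset V} (h : Disjoint N N') :
    ee G M (N ∪ N') = ee G M N + ee G M N' := by
  simp only [ee, dg_union h, sum_add_distrib]

theorem ee_sdiff_right [DecidableEq V] (M : Finset V) {N N' : Finset V} (h : N' ⊆ N) :
    ee G M (N \ N') = ee G M N - ee G M N' := by
  simp only [ee, dg_sdiff h, sum_sub_distrib]

theorem ee_le_mul {k : ℤ} (hD : Deg G k) (M N : Finset V) : ee G M N ≤ k * M.card := by
  have := sum_le_sum (s := M) fun u _ => hD N u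
  simpa only [ee, ge_iff_le, sum_const, Int.nsmul_eq_mul, mul_comm] using this

theorem out_eq (k : ℤ) (P M : Finset V) : out G k P M = k * M.card - ee G M P := by
  simp [out, ee, sum_sub_distrib, mul_comm]

theorem out_empty (k : ℤ) (P : Finset V) : out G k P ∅ = 0 := by simp [out]

theorem out_nonneg {k : ℤ} (hD : Deg G k) (P M : Finset V) : 0 ≤ out G k P M :=
  sum_nonneg fun u _ => sub_nonneg.mpr (hD P u)

theorem out_mono {k : ℤ} (hD : Deg G k) (P : Finset V) {M M' : Finset V} (h : M ⊆ M') :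
    out G k P M ≤ out G k P M' :=
  sum_le_sum_of_subset_of_nonneg h fun u _ _ => sub_nonneg.mpr (hD P u)

theorem out_union [DecidableEq V] (k : ℤ) (P : Finset V) {M M' : Finset V} (h : Disjoint M M') :
    out G k P (M ∪ M') = out G k P M + out G k P M' := sum_union h

theorem out_le_of_clean {k J : ℤ} {P M : Finset V} (hC : Clean G k P J) (h : M ⊆ P) :
    out G k P M ≤ J * M.card := by
  have := sum_le_sum (s := M) (f := fun u => k - dg G P u) (g := fun _ => J)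
    fun u hu => by linarith [hC u (h hu)]
  simpa only [out, sum_sub_distrib, sum_const, Int.nsmul_eq_mul, mul_comm, tsub_le_iff_right, ge_iff_le] using this

theorem cut_nonneg [DecidableEq V] (P B A : Finset V) : 0 ≤ cut G P B A :=
  add_nonneg (ee_nonneg _ _) (ee_nonneg _ _)

theorem cut_comm [DecidableEq V] (P B A : Finset V) : cut G P B A = cut G P A B := add_comm _ _

/-- the cut in terms of degrees -/
theorem cut_eq [DecidableEq V] {P B A : Finset V} (hB : B ⊆ P) (hA : A ⊆ P) :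
    cut G P B A = ee G B P + ee G A P - 2 * ee G A B := by
  unfold cut
  rw [ee_sdiff_right _ hA, ee_sdiff_right _ hB, ee_comm B A]
  ring

theorem FF_empty [DecidableEq V] (k : ℤ) (d : ℕ) (P : Finset V) : FF G k d P ∅ ∅ = 0 := by
  simp [FF, cut, out_empty, ee_empty_left]

theorem Deg.anti {H : SimpleGraph V} {k : ℤ} (hD : Deg G k) (hle : H ≤ G) : Deg H k :=
  fun M v => (dg_le_of_le hle M v).trans (hD M v)

theorem NoC4.anti {H : SimpleGraph V} (h : NoC4 G) (hle : H ≤ G) : NoC4 H :=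
  fun a b c c' hab h1 h2 h3 h4 => h a b c c' hab (hle h1) (hle h2) (hle h3) (hle h4)

theorem Clean.mono {k J J' : ℤ} {P : Finset V} (h : Clean G k P J) (hle : J ≤ J') :
    Clean G k P J' := fun v hv => by linarith [h v hv]

theorem Conn.mono [DecidableEq V] {P : Finset V} {L L' s : ℤ} (h : Conn G P L s) (hle : L' ≤ L) :
    Conn G P L' s := fun U hU hlt => h U hU (by linarith)

theorem Bal.mono [DecidableEq V] {k : ℤ} {d : ℕ} {P : Finset V} {E E' : ℤ} (h : Bal G k d P E)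
    (hle : E ≤ E') : Bal G k d P E' := fun B hB A hA => by linarith [h B hB A hA]

theorem Fac.mono {H : SimpleGraph V} {P : Finset V} {d : ℕ} (h : Fac H P d) (hle : H ≤ G) :
    Fac G P d := let ⟨K, h1, h2⟩ := h; ⟨K, h1.trans hle, h2⟩

/-- the scaled Tutte expression dominates the potential plus three cuts -/
theorem ident [DecidableEq V] {k : ℤ} {d : ℕ} (hkd : k ≤ 2 * d) {P B A : Finset V} (hB : B ⊆ P)
    (hA : A ⊆ P) :
    FF G k d P B A + 3 * (k - d) * cut G P B A ≤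
      4 * k * (d * A.card + (ee G B P - d * B.card) - ee G A B) := by
  have h1 := ee_sdiff_right (G := G) B hA
  have h2 := ee_sdiff_right (G := G) A hB
  have h3 := ee_nonneg (G := G) A (P \ B)
  have h4 := ee_comm (G := G) B A
  have h5 : 0 ≤ (2 * d - k) * ee G A (P \ B) := mul_nonneg (by linarith) h3
  unfold FF cut
  rw [out_eq, out_eq, h1, h4]
  rw [h2] at h5 ⊢
  linarith only [h5]

end basic

end Pool.Agent.MP_0be28d_co.A55

end

section

/-!
The statements of the steps.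
-/

set_option autoImplicit false

namespace Pool.Agent.MP_0be28d_co.A55

open Finset

def SPair : Prop := ∀ (V : Type) (G : SimpleGraph V), NoC4 G → ∀ T M : Finset V,
  ∑ u ∈ M, dg G T u * (dg G T u - 1) ≤ (T.card : ℤ) * T.card

def SSparse : Prop := ∀ (V : Type) (G : SimpleGraph V), NoC4 G → ∀ h : ℤ, 1 ≤ h →
  ∀ U : Finset V, (U.card : ℤ) ≤ h * h → ee G U U ≤ 2 * h * U.card

def SScut : Prop := ∀ (V : Type) [DecidableEq V] (G : SimpleGraph V) (k : ℤ) (d : ℕ) (J h : ℤ)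
  (P U : Finset V), Base k d J h → NoC4 G → Clean G k P J → U ⊆ P → (U.card : ℤ) ≤ h * h →
  k * U.card ≤ 2 * ee G U (P \ U)

def SBig : Prop := ∀ (V : Type) (G : SimpleGraph V) (k : ℤ) (d : ℕ) (J h : ℤ)
  (P : Finset V), Base k d J h → NoC4 G → Clean G k P J → P.Nonempty → h * h < (P.card : ℤ)

def SSmallB : Prop := ∀ (V : Type) [DecidableEq V] (G : SimpleGraph V) (k : ℤ) (d : ℕ) (J h : ℤ)
  (P B A : Finset V), Base k d J h → Deg G k → NoC4 G → Clean G k P J → B ⊆ P → A ⊆ P →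
  Disjoint A B → 5 * (B.card : ℤ) ≤ h * h → 0 ≤ FF G k d P B A

def SSubmod : Prop := ∀ (V : Type) [DecidableEq V] (G : SimpleGraph V) (k : ℤ) (d : ℕ)
  (P B A B' A' : Finset V), (d : ℤ) ≤ k → B ⊆ P → A ⊆ P → B' ⊆ P → A' ⊆ P →
  FF G k d P (B ∩ B') (A ∩ A') + FF G k d P (B ∪ B') (A ∪ A') ≤
    FF G k d P B A + FF G k d P B' A'

def SMirror : Prop := ∀ (V : Type) [DecidableEq V] (G : SimpleGraph V) (k : ℤ) (d : ℕ)
  (P B A : Finset V), B ⊆ P → A ⊆ P → FF G k d P (P \ A) (P \ B) = FF G k d P B A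

def SMinPair : Prop := ∀ (V : Type) [DecidableEq V] (G : SimpleGraph V) (k : ℤ) (d : ℕ)
  (P : Finset V), (d : ℤ) ≤ k → ∃ B A δ, MinPair G k d P B A δ

/-- passing to a subgraph on a subset -/
def SPert : Prop := ∀ (V : Type) [DecidableEq V] (G H : SimpleGraph V) (k : ℤ) (d : ℕ)
  (P Q : Finset V) (E N : ℤ), (d : ℤ) ≤ k → k ≤ 2 * d → Deg G k → H ≤ G → Q ⊆ P →
  ∑ u ∈ Q, (dg G P u - dg H Q u) ≤ N →
  (Bal G k d P E → Bal H k d Q (E + 6 * d * N)) ∧ out H k Q Q ≤ out G k P P + N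

def SDel : Prop := ∀ (V : Type) [DecidableEq V] (G : SimpleGraph V) (k : ℤ) (d : ℕ)
  (P B A : Finset V) (δ : ℤ) (v : V), (d : ℤ) ≤ k → k ≤ 2 * d → Deg G k →
  MinPair G k d P B A δ → v ∈ P → Good G k d P B A δ v → Bal G k d (P.erase v) (δ - d * k)

/-- a sufficient condition for a `d`-factor (from Tutte's theorem) -/
def STutte : Prop := ∀ (V : Type) [DecidableEq V] (G : SimpleGraph V) (d : ℕ) (P : Finset V),
  (∀ v ∈ P, (d : ℤ) ≤ dg G P v) → Even (d * P.card) →
  (∀ A ⊆ P, ∀ B ⊆ P, Disjoint A B → ∀ (ι : Type) [DecidableEq ι] (κ : V → ι),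
    2 * (((P \ (A ∪ B)).image κ).card : ℤ) ≤
      2 + 2 * (d * A.card + (ee G B P - d * B.card) - ee G A B) +
        ∑ u ∈ P \ (A ∪ B), dg G ((P \ (A ∪ B)).filter fun w => κ w ≠ κ u) u) →
  Fac G P d

/-- the Ore-Ryser condition for a `d`-factor of the bipartite graph between `X` and `Y` -/
def SOre : Prop := ∀ (V : Type) [DecidableEq V] (G : SimpleGraph V) (d : ℕ) (X Y : Finset V),
  Disjoint X Y → X.card = Y.card →
  (∀ B ⊆ X, ∀ A ⊆ Y, (d : ℤ) * B.card ≤ d * A.card + ee G B (Y \ A)) → Fac G (X ∪ Y) d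

/-- the inequalities used to find a good vertex -/
structure StarPar (k : ℤ) (d : ℕ) (J h L s Dm β σ : ℤ) (m : ℕ) : Prop where
  base : Base k d J h
  m2 : 2 ≤ m
  i1 : 7 * (m + 2) * d * k ≤ (k - d) * L
  i2 : 24 * d * Dm < m * (k - d) * L
  i3 : 16 * (J + s) ≤ k
  i4 : (k - d) * k * β + 16 * (4 * m * d * k + 8 * d * Dm) ≤ (k - d) * k * σ
  i5 : 5 * σ ≤ h * h

def SStar : Prop := ∀ (V : Type) [DecidableEq V] (G : SimpleGraph V) (k : ℤ) (d : ℕ)
  (J h L s Dm β σ : ℤ) (m : ℕ) (P B A Bl : Finset V) (δ : ℤ),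
  StarPar k d J h L s Dm β σ m → Deg G k → NoC4 G → Clean G k P J → Conn G P L s →
  out G k P P ≤ Dm → (Bl.card : ℤ) ≤ β → MinPair G k d P B A δ → 4 * m * d * k < δ →
  ∃ v ∈ P, v ∉ Bl ∧ Good G k d P B A δ v

/-- the inequalities used in the last step -/
structure FinPar (k : ℤ) (d : ℕ) (J h L s E Δ L2 ta z : ℤ) : Prop where
  base : Base k d (J + 2 * Δ) h
  J0 : 0 ≤ J
  Δ0 : 0 < Δ
  f1 : 4 * k ≤ (k - d) * L
  f2 : 5 * s ≤ h * h
  f3 : E ≤ 2 * (k - d) * L2
  f4 : L2 ≤ L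
  f5 : L2 ≤ ta * Δ
  f6 : E + 5 * d * L2 ≤ 4 * d * k * z
  f7 : 2 * ta + z ≤ Δ
  f8 : E + 6 * d * (L2 + k * (2 * ta + z)) ≤ 3 * (k - d) * (L - (L2 + k * (2 * ta + z)))
  f9 : s + (2 * ta + z) ≤ h * h

def STstep : Prop := ∀ (V : Type) [DecidableEq V] (G : SimpleGraph V) (k : ℤ) (d : ℕ)
  (J h L s E Δ L2 ta z : ℤ) (P : Finset V), FinPar k d J h L s E Δ L2 ta z →
  Deg G k → NoC4 G → Clean G k P J → Conn G P L s → Bal G k d P E → Even (d * P.card) →
  Fac G P d ∨ ∃ A ⊆ P, ∃ B ⊆ P, Disjoint A B ∧ cut G P B A < L2 ∧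
    ((P \ (A ∪ B)).card : ℤ) < s

def SBstep : Prop := ∀ (V : Type) [DecidableEq V] (G : SimpleGraph V) (k : ℤ) (d : ℕ)
  (J h L s E Δ L2 ta z : ℤ) (P A B : Finset V), FinPar k d J h L s E Δ L2 ta z →
  Deg G k → NoC4 G → Clean G k P J → Conn G P L s → Bal G k d P E → P.Nonempty →
  A ⊆ P → B ⊆ P → Disjoint A B → cut G P B A < L2 → ((P \ (A ∪ B)).card : ℤ) < s →
  ∃ W ⊆ P, W.Nonempty ∧ Fac G W d

def SFinal : Prop := ∀ (V : Type) [DecidableEq V] (G : SimpleGraph V) (k : ℤ) (d : ℕ)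
  (J h L s E Δ L2 ta z : ℤ) (P : Finset V), 0 ≤ J →
  FinPar k d (J + 1) h (L - k) s (E + 6 * d * k) Δ L2 ta z →
  Deg G k → NoC4 G → Clean G k P J → Conn G P L s → Bal G k d P E → P.Nonempty →
  ∃ W ⊆ P, W.Nonempty ∧ Fac G W d

/-- all parameters of the recursion -/
structure Par (k : ℤ) (d : ℕ) where
  Δ : ℤ
  ρ : ℕ
  h : ℤ
  L : ℤ
  s : ℤ
  m : ℕ
  tc : ℤ
  t1 : ℤ
  Dm : ℤ
  β0 : ℤ
  σ : ℤ
  L2 : ℤ
  ta : ℤ
  z : ℤ
  Δ2 : 2 ≤ Δ
  L0 : 0 ≤ L
  r1 : L ≤ tc * Δ
  r2 : tc ≤ Δ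
  r3 : tc < s
  r4 : 8 * (k * k) + 6 * ρ * (L + k * tc) ≤ k * t1
  r5 : 2 * (k * k) + ρ * (L + k * tc) + k * t1 ≤ Dm
  r6 : t1 * t1 ≤ β0 * (Δ * (Δ - 1))
  star : StarPar k d (Δ * (2 * ρ + 1)) h L s Dm (k * β0) σ m
  fin : FinPar k d (Δ * (2 * ρ + 1) + 1) h (L - k) s (4 * m * d * k + 6 * d * k) Δ L2 ta z

/-- the regular subgraph lemma -/
def SRec : Prop := ∀ (V : Type) [DecidableEq V] (G : SimpleGraph V) (k : ℤ) (d : ℕ)
  (par : Par k d) (P : Finset V), Deg G k → NoC4 G → P.Nonempty → Clean G k P (2 * par.Δ) →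
  out G k P P ≤ 2 * (k * k) → P.card < 2 ^ par.ρ → ∃ W ⊆ P, W.Nonempty ∧ Fac G W d

def SPar : Prop := ∀ y k d : ℕ, 10 ^ 6 ≤ y → y ^ 28 ≤ k → k ≤ 4 * y ^ 28 → d + y ^ 26 ≤ k →
  k ≤ 2 * d → ∃ par : Par (k : ℤ) d, par.ρ = y ∧ par.Δ = (y : ℤ) ^ 24

def SInit : Prop := ∀ (V : Type) [Fintype V] (G : SimpleGraph V) (k : ℕ) (Δ : ℤ)
  (S C : Finset V), (∀ v, dg G univ v = k) → NoC4 G → 1 ≤ k → Sep G (k - 1) S C → 0 < Δ →
  (k : ℤ) * k ≤ Δ * Δ * Δ → 2 * Δ < k →
  ∃ P ⊆ C, P.Nonempty ∧ Clean G k P (2 * Δ) ∧ out G k P P ≤ 2 * ((k : ℤ) * k)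

/-- Erdos-Sachs -/
def SES : Prop := ∀ k g : ℕ, 3 ≤ g →
  ∃ G : SimpleGraph (Fin (4 * (k + 1) ^ g + 2)), RegOn G univ k ∧ GirthGe G g

/-- no `k`-regular graph of girth `g` has fewer than `n` vertices -/
def MinOrd (k g n : ℕ) : Prop := ∀ m : ℕ, m < n →
  ∀ (H : SimpleGraph (Fin m)) [DecidableRel H.Adj],
    ¬ (H.IsRegularOfDegree k ∧ H.egirth = (g : ℕ∞))

/-- a regular graph with a small cut has at least twice the order of a cage of smaller degree -/
def SHalf : Prop := ∀ (g y k d n : ℕ) (V : Type) [Fintype V] (G : SimpleGraph V)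
  [DecidableRel G.Adj], 5 ≤ g → 10 ^ 6 ≤ y → y ^ 28 ≤ k → k ≤ 4 * y ^ 28 → d + y ^ 26 ≤ k →
  k ≤ 2 * d → G.IsRegularOfDegree k → G.egirth = (g : ℕ∞) → Fintype.card V < 2 ^ y →
  MinOrd d g n →
  ¬ (k < Fintype.card V ∧ ∀ S : Finset V, S.card < k →
      (G.induce ((↑S : Set V)ᶜ)).Connected) →
  2 * n ≤ Fintype.card V

/-- girth three and four -/
def SSmallG : Prop := ∀ (k g : ℕ), 2 ≤ k → 3 ≤ g → g ≤ 4 →
  ∀ (V : Type) [Fintype V] (G : SimpleGraph V) [DecidableRel G.Adj],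
    G.IsRegularOfDegree k → G.egirth = (g : ℕ∞) → MinOrd k g (Fintype.card V) →
    (k < Fintype.card V ∧ ∀ S : Finset V, S.card < k → (G.induce ((↑S : Set V)ᶜ)).Connected)

def SGrow : Prop := ∀ g : ℕ, ∃ y0 : ℕ, ∀ y, y0 ≤ y → 4 * (4 * y ^ 28 + 1) ^ g + 2 < 2 ^ y

/-- counting the exceptional degrees -/
def SCount : Prop := ∀ (Bd : ℕ → Prop) (n : ℕ → ℕ) (y0 : ℕ), ¬ Bd 0 →
  (∀ y, y0 ≤ y → ∀ k, Bd k → k ≤ 4 * y ^ 28 → 0 < n k ∧ n k < 2 ^ y) →
  (∀ y, y0 ≤ y → ∀ d k, Bd d → Bd k → y ^ 28 ≤ k → k ≤ 4 * y ^ 28 → d + y ^ 26 ≤ k →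
    k ≤ 2 * d → 2 * n d ≤ n k) →
  ∃ C : ℝ, ∀ K : ℕ, (({k | k ≤ K ∧ Bd k} : Set ℕ).ncard : ℝ) ≤ C * (K : ℝ) ^ (27 / 28 : ℝ)

end Pool.Agent.MP_0be28d_co.A55

end

section

set_option autoImplicit false

namespace Pool.Agent.MP_0be28d_co.A55

open Finset

theorem pair : SPair := by
  intro V G hG T M
  classical
  have h1 : ∀ u, dg G T u * (dg G T u - 1) =
      (((T.filter fun w => G.Adj u w).offDiag.card : ℕ) : ℤ) := fun u => by
    rw [dg_eq_card, offDiag_card, Nat.cast_sub (Nat.le_mul_self _)]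
    push_cast; ring
  simp only [h1]
  have h2 : ∑ u ∈ M, (T.filter fun w => G.Adj u w).offDiag.card ≤ (T ×ˢ T).card := by
    rw [← card_biUnion]
    · refine card_le_card fun p hp => ?_
      obtain ⟨u, -, hu⟩ := mem_biUnion.1 hp
      rw [mem_offDiag, mem_filter, mem_filter] at hu
      exact mem_product.2 ⟨hu.1.1, hu.2.1.1⟩
    · intro u _ v _ huv
      refine disjoint_left.2 fun p h3 h4 => huv ?_
      rw [mem_offDiag, mem_filter, mem_filter] at h3 h4
      exact hG p.1 p.2 u v h3.2.2 h3.1.2.symm h3.2.1.2.symm h4.1.2.symm h4.2.1.2.symm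
  rw [card_product] at h2
  exact_mod_cast h2

theorem sparse : SSparse := by
  intro V G hG h h1 U hU
  have h2 := pair V G hG U U
  have h3 : ∑ u ∈ U, ((2 * h - 1) * dg G U u - h * h) ≤ ∑ u ∈ U, dg G U u * (dg G U u - 1) :=
    sum_le_sum fun u _ => by linarith only [sq_nonneg (dg G U u - h)]
  rw [sum_sub_distrib, ← mul_sum, sum_const, nsmul_eq_mul] at h3
  have h4 : (0 : ℤ) ≤ U.card := Int.natCast_nonneg _
  have h5 : (U.card : ℤ) * U.card ≤ U.card * (h * h) := mul_le_mul_of_nonneg_left hU h4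
  have h6 : h * h ≤ h * (2 * h - 1) := by nlinarith only []
  have h7 := mul_le_mul_of_nonneg_left h6 h4
  refine le_of_mul_le_mul_left (a := 2 * h - 1) ?_ (by linarith)
  unfold ee
  linarith only [h2, h3, h5, h7]

theorem ta_lower {V : Type} {G : SimpleGraph V} {k J : ℤ} {P U : Finset V} (hC : Clean G k P J)
    (h : U ⊆ P) : (k - J) * U.card ≤ ee G U P := by
  have h1 := out_le_of_clean hC h
  rw [out_eq] at h1
  linarith

theorem scut : SScut := by
  intro V _ G k d J h P U b hG hC hU hs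
  have h1 := sparse V G hG h b.h1 U hs
  have h2 := ta_lower hC hU
  have h3 := mul_le_mul_of_nonneg_right b.hk (Int.natCast_nonneg U.card)
  rw [ee_sdiff_right _ hU]
  linarith

theorem big : SBig := by
  intro V G k d J h P b hG hC hP
  classical
  by_contra hn
  have h1 := scut V G k d J h P P b hG hC Subset.rfl (not_lt.1 hn)
  rw [sdiff_self, bot_eq_empty, ee_empty_right] at h1
  have h2 : (0 : ℤ) < P.card := by exact_mod_cast hP.card_pos
  have h3 : (0 : ℤ) < k := by linarith [b.p8, Int.natCast_nonneg d]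
  nlinarith only [h1, h2, h3]

theorem smallB : SSmallB := by
  intro V _ G k d J h P B A b hD hG hC hB hA hAB hs
  have a0 : (0 : ℤ) ≤ A.card := Int.natCast_nonneg _
  have b0 : (0 : ℤ) ≤ B.card := Int.natCast_nonneg _
  have d0 : (0 : ℤ) ≤ d := Int.natCast_nonneg _
  have p8 := b.p8
  have hk := b.hk
  have h1 := b.h1
  have J0 := b.J0
  have k0 : 0 ≤ k := by linarith
  have c1 := ta_lower hC hB
  have c2 := ta_lower hC hA
  have hc : k * B.card ≤ 2 * cut G P B A := by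
    rw [cut_eq hB hA]
    rcases le_total (4 * (B.card : ℤ)) A.card with h4 | h4
    · have e1 := ee_le_mul hD B A
      rw [ee_comm] at e1
      have e2 : 0 ≤ (k - 2 * J) * ((A.card : ℤ) + B.card) := mul_nonneg (by linarith only [hk, h1]) (by linarith)
      have e3 := mul_le_mul_of_nonneg_left h4 k0
      linarith
    · have e0 : ((A ∪ B).card : ℤ) = A.card + B.card := by
        rw [card_union_of_disjoint hAB]; push_cast; rfl
      have e1 := sparse V G hG h h1 (A ∪ B) (by linarith only [hs, h4, e0])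
      rw [ee_union_left hAB, ee_union_right _ hAB, ee_union_right _ hAB, ee_comm B A, e0] at e1
      have e2 := ee_nonneg (G := G) A A
      have e3 := ee_nonneg (G := G) B B
      have e4 := mul_le_mul_of_nonneg_right hk (add_nonneg a0 b0)
      have e5 := mul_nonneg k0 a0
      linarith
  have o1 := out_nonneg hD P A
  have o2 := out_le_of_clean hC hB
  have t1 := mul_le_mul_of_nonneg_left hc (by linarith only [p8] : 0 ≤ k - d)
  have t2 : d * (8 * J) ≤ k * (k - d) := mul_le_mul (by linarith only [p8]) b.Jp (by linarith only [J0]) k0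
  have t3 := mul_le_mul_of_nonneg_right t2 b0
  have t4 := mul_le_mul_of_nonneg_left o2 d0
  have t5 := mul_nonneg d0 o1
  unfold FF
  linarith only [t1, t3, t4, t5]

end Pool.Agent.MP_0be28d_co.A55

end

section

set_option autoImplicit false

namespace Pool.Agent.MP_0be28d_co.A55

open Finset

open Classical in
theorem tb_ee {V : Type} [DecidableEq V] (G : SimpleGraph V) {P B : Finset V} (A : Finset V)
    (hB : B ⊆ P) : ee G B (P \ A) =
      ∑ u ∈ P, ∑ x ∈ P, if u ∈ B ∧ x ∉ A ∧ G.Adj u x then (1 : ℤ) else 0 := by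
  unfold ee
  rw [← sum_subset hB (f := fun u => ∑ x ∈ P,
    if u ∈ B ∧ x ∉ A ∧ G.Adj u x then (1 : ℤ) else 0) (fun u _ hu => by simp [hu])]
  refine sum_congr rfl fun u hu => ?_
  rw [dg_eq_sum, ← sum_subset (sdiff_subset (s := P) (t := A)) (f := fun x =>
    if u ∈ B ∧ x ∉ A ∧ G.Adj u x then (1 : ℤ) else 0) (fun x hx hx' => by
      have : x ∈ A := by
        by_contra h
        exact hx' (mem_sdiff.mpr ⟨hx, h⟩)
      simp [this])]
  refine sum_congr rfl fun x hx => ?_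
  simp [hu, (mem_sdiff.mp hx).2]

theorem tb_sub {V : Type} [DecidableEq V] (G : SimpleGraph V) {P B B' : Finset V}
    (A A' : Finset V) (hB : B ⊆ P) (hB' : B' ⊆ P) :
    ee G (B ∩ B') (P \ (A ∩ A')) + ee G (B ∪ B') (P \ (A ∪ A')) ≤
      ee G B (P \ A) + ee G B' (P \ A') := by
  rw [tb_ee G _ hB, tb_ee G _ hB', tb_ee G _ (inter_subset_left.trans hB),
    tb_ee G _ (union_subset hB hB'), ← sum_add_distrib, ← sum_add_distrib]
  refine sum_le_sum fun u _ => ?_
  rw [← sum_add_distrib, ← sum_add_distrib]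
  refine sum_le_sum fun x _ => ?_
  by_cases h1 : u ∈ B <;> by_cases h2 : u ∈ B' <;> by_cases h3 : x ∈ A <;>
    by_cases h4 : x ∈ A' <;> by_cases h5 : G.Adj u x <;> simp [h1, h2, h3, h4, h5]

theorem tb_out {V : Type} [DecidableEq V] (G : SimpleGraph V) (k : ℤ) (P M M' : Finset V) :
    out G k P (M ∪ M') + out G k P (M ∩ M') = out G k P M + out G k P M' :=
  sum_union_inter

theorem submod : SSubmod := by
  intro V _ G k d P B A B' A' hd hB hA hB' hA'
  have h1 := tb_sub G A A' hB hB'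
  have h2 := tb_sub G B B' hA hA'
  have h3 := tb_out G k P A A'
  have h4 := tb_out G k P B B'
  have h5 := mul_le_mul_of_nonneg_left (add_le_add h1 h2) (sub_nonneg.mpr hd)
  have h6 : 4 * (d : ℤ) * (out G k P (A ∪ A') + out G k P (A ∩ A') -
      (out G k P (B ∪ B') + out G k P (B ∩ B'))) =
      4 * d * (out G k P A + out G k P A' - (out G k P B + out G k P B')) := by
    rw [h3, h4]
  unfold FF cut
  linarith

theorem mirror : SMirror := by
  intro V _ G k d P B A hB hA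
  have h1 : out G k P (P \ A) + out G k P A = out G k P P := sum_sdiff hA
  have h2 : out G k P (P \ B) + out G k P B = out G k P P := sum_sdiff hB
  have h3 : out G k P (P \ B) - out G k P (P \ A) = out G k P A - out G k P B := by linarith only [h1, h2]
  unfold FF cut
  rw [h3, Finset.sdiff_sdiff_eq_self hA, Finset.sdiff_sdiff_eq_self hB, ee_comm (P \ A) B,
    ee_comm (P \ B) A]

theorem minPair : SMinPair := by
  intro V _ G k d P hd
  obtain ⟨⟨B, A⟩, hm, hmin⟩ := exists_min_image (P.powerset ×ˢ P.powerset)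
    (fun x => FF G k d P x.1 x.2) ⟨(∅, ∅), by simp⟩
  simp only [mem_product, mem_powerset] at hm
  obtain ⟨hB, hA⟩ := hm
  have hmin' : ∀ B' ⊆ P, ∀ A' ⊆ P, FF G k d P B A ≤ FF G k d P B' A' := fun B' h1 A' h2 =>
    hmin (B', A') (mem_product.mpr ⟨mem_powerset.mpr h1, mem_powerset.mpr h2⟩)
  have h1 := submod V G k d P B A (P \ A) (P \ B) hd hB hA sdiff_subset sdiff_subset
  rw [mirror V G k d P B A hB hA] at h1
  have h2 := hmin' _ (union_subset hB (sdiff_subset (t := A))) _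
    (union_subset hA (sdiff_subset (t := B)))
  have hB1 : B ∩ (P \ A) ⊆ P := inter_subset_left.trans hB
  have hA1 : A ∩ (P \ B) ⊆ P := inter_subset_left.trans hA
  have h3 := hmin' _ hB1 _ hA1
  refine ⟨B ∩ (P \ A), A ∩ (P \ B), -FF G k d P B A, hB1, hA1, ?_, by linarith only [h1, h2, h3],
    fun B' h4 A' h5 => by linarith only [hmin' B' h4 A' h5]⟩
  refine disjoint_left.mpr fun x hx hx' => ?_
  exact (mem_sdiff.mp (mem_inter.mp hx').2).2 (mem_inter.mp hx).1

theorem pert : SPert := by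
  intro V _ G H k d P Q E N hd hk hD hle hQ hN
  have hn : ∀ u, 0 ≤ dg G P u - dg H Q u := fun u =>
    sub_nonneg.mpr ((dg_le_of_le hle Q u).trans (dg_mono hQ u))
  have hM : ∀ M ⊆ Q, 0 ≤ ee G M P - ee H M Q ∧ ee G M P - ee H M Q ≤ N := fun M hM => by
    have e : ee G M P - ee H M Q = ∑ u ∈ M, (dg G P u - dg H Q u) := by
      simp only [ee, sum_sub_distrib]
    rw [e]
    exact ⟨sum_nonneg fun u _ => hn u,
      (sum_le_sum_of_subset_of_nonneg hM fun u _ _ => hn u).trans hN⟩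
  refine ⟨fun hb B hB A hA => ?_, ?_⟩
  · have h0 := hb B (hB.trans hQ) A (hA.trans hQ)
    obtain ⟨b0, b1⟩ := hM B hB
    obtain ⟨a0, a1⟩ := hM A hA
    have h1 := ee_le_of_le hle A B
    have hp : 0 ≤ k - d := sub_nonneg.mpr hd
    have hd0 : (0 : ℤ) ≤ d := Int.natCast_nonneg d
    unfold FF at h0 ⊢
    rw [cut_eq (hB.trans hQ) (hA.trans hQ), out_eq, out_eq] at h0
    rw [cut_eq hB hA, out_eq, out_eq]
    have t1 := mul_nonneg hd0 a0
    have t2 := mul_nonneg hd0 (sub_nonneg.mpr b1)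
    have t3 := mul_nonneg hp (sub_nonneg.mpr a1)
    have t4 := mul_nonneg hp (sub_nonneg.mpr b1)
    have t5 := mul_nonneg hp (sub_nonneg.mpr h1)
    have t6 := mul_nonneg (show (0 : ℤ) ≤ 2 * d - k by linarith only [hk]) (a0.trans a1)
    linarith only [h0, t1, t2, t3, t4, t5, t6]
  · have h1 := out_mono hD P hQ
    have h2 := (hM Q subset_rfl).2
    rw [out_eq] at h1 ⊢
    linarith

end Pool.Agent.MP_0be28d_co.A55

end

section

set_option autoImplicit false

namespace Pool.Agent.MP_0be28d_co.A55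

open Finset

theorem tc_ee_single {V : Type} (G : SimpleGraph V) (M : Finset V) (v : V) :
    ee G M {v} = dg G M v := by
  rw [ee_comm]
  simp [ee]

theorem tc_out {V : Type} [DecidableEq V] (G : SimpleGraph V) (k : ℤ) {P : Finset V} (M : Finset V)
    {v : V} (hv : v ∈ P) : out G k (P.erase v) M = out G k P M + dg G M v := by
  rw [out_eq, out_eq, ← sdiff_singleton_eq_erase,
    ee_sdiff_right _ (singleton_subset_iff.mpr hv), tc_ee_single]
  ring

theorem tc_ee {V : Type} [DecidableEq V] (G : SimpleGraph V) {P A : Finset V} (M : Finset V)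
    {v : V} (hv : v ∈ P) (hA : v ∉ A) :
    ee G M (P.erase v \ A) = ee G M (P \ A) - dg G M v := by
  have h : P.erase v \ A = (P \ A) \ {v} := by
    ext x
    simp only [mem_sdiff, mem_erase, mem_singleton]
    tauto
  rw [h, ee_sdiff_right _ (singleton_subset_iff.mpr (mem_sdiff.mpr ⟨hv, hA⟩)), tc_ee_single]

theorem delStep (hS : SSubmod) (hM : SMirror) : SDel := by
  intro V _ G k d P B A δ v hdk hkd hD hmp hv hg B' hB' A' hA'
  have hB'P : B' ⊆ P := hB'.trans (erase_subset _ _)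
  have hA'P : A' ⊆ P := hA'.trans (erase_subset _ _)
  have hvB : v ∉ B' := fun h => by simpa using hB' h
  have hvA : v ∉ A' := fun h => by simpa using hA' h
  have hBP := hmp.hB
  have hAP := hmp.hA
  have hdisj := hmp.disj
  have e0 : FF G k d (P.erase v) B' A' = FF G k d P B' A' +
      4 * d * (dg G A' v - dg G B' v) - (k - d) * (dg G A' v + dg G B' v) := by
    unfold FF cut
    rw [tc_out G k A' hv, tc_out G k B' hv, tc_ee G B' hv hvA, tc_ee G A' hv hvB]
    ring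
  have s1 := hS V G k d P B' A' B A hdk hB'P hA'P hBP hAP
  have s2 := hS V G k d P (B' ∪ B) (A' ∪ A) (P \ A) (P \ B) hdk (union_subset hB'P hBP)
    (union_subset hA'P hAP) sdiff_subset sdiff_subset
  have m1 := hM V G k d P B A hBP hAP
  have b1 := hmp.bal ((B' ∪ B) ∩ (P \ A)) (inter_subset_right.trans sdiff_subset)
    ((A' ∪ A) ∩ (P \ B)) (inter_subset_right.trans sdiff_subset)
  have m2 := hM V G k d P (B \ A') (A \ B') (sdiff_subset.trans hBP) (sdiff_subset.trans hAP)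
  have hd : ∀ x, x ∈ A → x ∉ B := fun x hx => disjoint_left.mp hdisj hx
  have u1 : B' ∪ B ∪ P \ A = P \ (A \ B') := by
    ext x
    have h1 := @hB'P x
    have h2 := @hBP x
    have h3 := hd x
    simp only [mem_union, mem_sdiff]
    tauto
  have u2 : A' ∪ A ∪ P \ B = P \ (B \ A') := by
    ext x
    have h1 := @hA'P x
    have h2 := @hAP x
    have h3 := hd x
    simp only [mem_union, mem_sdiff]
    tauto
  rw [u1, u2, m2, m1] at s2
  have g1 := hg (B' ∩ B) inter_subset_right (A' ∩ A) inter_subset_right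
  have g2 := hg (B \ A') sdiff_subset (A \ B') sdiff_subset
  have hval := hmp.val
  have d1 : dg G (A' ∩ A) v ≤ dg G A' v := dg_mono inter_subset_left v
  have d2 : dg G (A \ B') v + dg G B' v ≤ k := by
    rw [← dg_union sdiff_disjoint]
    exact hD _ _
  have d3 := hD A' v
  have d4 := hD B' v
  have hd0 : (0 : ℤ) ≤ d := Int.natCast_nonneg d
  have hp0 : (0 : ℤ) ≤ k - d := by linarith only [hdk]
  have q1 : (d : ℤ) * dg G (A' ∩ A) v ≤ d * dg G A' v := mul_le_mul_of_nonneg_left d1 hd0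
  have q2 : (d : ℤ) * (dg G (A \ B') v + dg G B' v) ≤ d * k := mul_le_mul_of_nonneg_left d2 hd0
  have q3 : (k - d) * (dg G A' v + dg G B' v) ≤ (k - d) * (2 * k) :=
    mul_le_mul_of_nonneg_left (by linarith only [d3, d4]) hp0
  have q4 : (k - d) * (2 * k) ≤ d * (2 * k) :=
    mul_le_mul_of_nonneg_right (by linarith only [hkd]) (by linarith only [hdk])
  rw [e0]
  linarith only [s1, s2, b1, g1, g2, hval, q1, q2, q3, q4]

end Pool.Agent.MP_0be28d_co.A55

end

section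

set_option autoImplicit false

namespace Pool.Agent.MP_0be28d_co.A55

open Finset

/-- Tutte's theorem on a finite set of vertices, with components replaced by a labelling -/
theorem td_wrap {T : Type} [DecidableEq T] (Γ : SimpleGraph T) (S : Finset T) (hev : Even S.card)
    (h : ∀ U ⊆ S, ∀ (ι : Type) [DecidableEq ι] (c : T → ι) (O : Finset ι),
      (∀ a ∈ S \ U, ∀ b ∈ S \ U, Γ.Adj a b → c a = c b) → (∀ o ∈ O, ∃ a ∈ S \ U, c a = o) →
      (∀ a ∈ S \ U, ∀ b ∈ S \ U, Γ.Adj a b → (∀ z ∈ S \ U, Γ.Adj a z → z = b) →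
        (∀ z ∈ S \ U, Γ.Adj b z → z = a) → c a ∉ O) → O.card ≤ U.card + 1) :
    ∃ μ : T → T, ∀ a ∈ S, μ a ∈ S ∧ Γ.Adj a (μ a) ∧ μ (μ a) = a := by
  classical
  let Γ' : SimpleGraph S := Γ.comap Subtype.val
  have hM : ∃ M : Γ'.Subgraph, M.IsPerfectMatching := by
    refine SimpleGraph.tutte.2 fun u hu => ?_
    unfold SimpleGraph.IsTutteViolator at hu
    set K := ((⊤ : Γ'.Subgraph).deleteVerts u) with hK
    have hv : ∀ a : S, a ∈ K.verts ↔ a ∉ u := fun a => by simp [hK]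
    have hadj : ∀ a b : K.verts, K.coe.Adj a b ↔ Γ.Adj a.1.1 b.1.1 := fun a b => by
      have ha := (hv _).1 a.2
      have hb := (hv _).1 b.2
      simp only [Γ', SimpleGraph.Subgraph.coe_adj, hK, SimpleGraph.Subgraph.induce_adj, SimpleGraph.Subgraph.verts_top, Subtype.coe_prop, SimpleGraph.Subgraph.top_adj, SimpleGraph.comap_adj, true_and]
    let U : Finset T := (univ.filter fun a : S => a ∈ u).map (Function.Embedding.subtype _)
    have hU : ∀ a (ha : a ∈ S), a ∈ U ↔ (⟨a, ha⟩ : S) ∈ u := fun a ha => by simp only [U, univ_eq_attach, mem_map, mem_filter, mem_attach, true_and, Function.Embedding.subtype_apply, Subtype.exists, exists_and_right, exists_eq_right, ha, exists_true_left]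
    have hUS : U ⊆ S := fun a ha => by
      obtain ⟨b, -, rfl⟩ := mem_map.1 ha
      exact b.2
    have hUc : U.card = u.ncard := by
      rw [card_map, ← Set.ncard_coe_finset]
      congr 1
      ext a
      simp only [univ_eq_attach, coe_filter, mem_attach, true_and, Set.ofPred_mem_eq]
    have hm : ∀ a ∈ S \ U, ∃ b : K.verts, b.1.1 = a := fun a ha =>
      ⟨⟨⟨a, (mem_sdiff.1 ha).1⟩, (hv _).2 fun hh => (mem_sdiff.1 ha).2 ((hU _ _).2 hh)⟩, rfl⟩
    have hm' : ∀ b : K.verts, b.1.1 ∈ S \ U := fun b =>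
      mem_sdiff.2 ⟨b.1.2, fun hh => (hv _).1 b.2 ((hU _ b.1.2).1 hh)⟩
    let c : T → Option K.coe.ConnectedComponent := fun a =>
      if ha : ∃ b : K.verts, b.1.1 = a then some (K.coe.connectedComponentMk ha.choose) else none
    have hc : ∀ b : K.verts, c b.1.1 = some (K.coe.connectedComponentMk b) := fun b => by
      have ha : ∃ b' : K.verts, b'.1.1 = b.1.1 := ⟨b, rfl⟩
      have : ha.choose = b := Subtype.ext (Subtype.ext ha.choose_spec)
      simp only [c, dif_pos ha, this]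
    have hfin : K.coe.oddComponents.Finite := Set.toFinite _
    have h1 := h U hUS _ c (hfin.toFinset.map ⟨some, Option.some_injective _⟩) ?_ ?_ ?_
    · rw [card_map, ← Set.ncard_eq_toFinset_card _ hfin, hUc] at h1
      have h2 := SimpleGraph.odd_ncard_oddComponents K.coe
      have h3 : Nat.card K.verts + u.ncard = S.card := by
        have e : K.verts = uᶜ := Set.ext hv
        rw [Nat.card_coe_set_eq, e, add_comm, Set.ncard_add_ncard_compl, Nat.card_eq_fintype_card,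
          Fintype.card_coe]
      have h4 : K.coe.oddComponents.ncard = u.ncard + 1 := by omega
      rw [h4, Nat.odd_iff, Nat.odd_iff] at h2
      rw [Nat.even_iff] at hev
      omega
    · intro a ha b hb hab
      obtain ⟨a, rfl⟩ := hm a ha
      obtain ⟨b, rfl⟩ := hm b hb
      rw [hc, hc, SimpleGraph.ConnectedComponent.connectedComponentMk_eq_of_adj ((hadj a b).2 hab)]
    · intro o ho
      obtain ⟨C, -, rfl⟩ := mem_map.1 ho
      obtain ⟨b, rfl⟩ := C.exists_rep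
      exact ⟨b.1.1, hm' b, hc b⟩
    · intro a ha b hb hab h1 h2 ho
      obtain ⟨a, rfl⟩ := hm a ha
      obtain ⟨b, rfl⟩ := hm b hb
      obtain ⟨C, hC, e⟩ := mem_map.1 ho
      rw [hc] at e
      obtain rfl : C = K.coe.connectedComponentMk a := Option.some_injective _ e
      have hodd : Odd (K.coe.connectedComponentMk a).supp.ncard := (hfin.mem_toFinset).1 hC
      have key : ∀ {x y : K.verts} (_ : K.coe.Walk x y), (x = a ∨ x = b) → (y = a ∨ y = b) := by
        intro x y w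
        induction w with
        | nil => exact id
        | cons hxy _ ih =>
          rintro (rfl | rfl)
          · exact ih (Or.inr (Subtype.ext (Subtype.ext (h1 _ (hm' _) ((hadj _ _).1 hxy)))))
          · exact ih (Or.inl (Subtype.ext (Subtype.ext (h2 _ (hm' _) ((hadj _ _).1 hxy)))))
      have e2 : (K.coe.connectedComponentMk a).supp = {a, b} := by
        ext y
        rw [SimpleGraph.ConnectedComponent.mem_supp_iff, SimpleGraph.ConnectedComponent.eq]
        constructor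
        · intro r
          obtain ⟨w⟩ := r.symm
          exact key w (Or.inl rfl)
        · rintro (rfl | rfl)
          · exact .refl _
          · exact ((hadj _ _).2 hab).reachable.symm
      rw [e2, Set.ncard_pair (fun e => hab.ne (by rw [e]))] at hodd
      exact absurd hodd (by decide)
  obtain ⟨M, hM⟩ := hM
  choose f hf hu using fun v => (SimpleGraph.Subgraph.isPerfectMatching_iff.1 hM v)
  refine ⟨fun a => if ha : a ∈ S then (f ⟨a, ha⟩).1 else a, fun a ha => ?_⟩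
  simp only [dif_pos ha, dif_pos (f ⟨a, ha⟩).2]
  exact ⟨(f _).2, (M.adj_sub (hf ⟨a, ha⟩) :), congrArg Subtype.val (hu _ _ (hf ⟨a, ha⟩).symm).symm⟩

/-- the gadget graph -/
def tdG (V : Type) : SimpleGraph ((V × V) ⊕ (V × ℕ)) where
  Adj a b := match a, b with
    | .inl p, .inl q => q.1 = p.2 ∧ q.2 = p.1 ∧ p.1 ≠ p.2
    | .inl p, .inr q => p.1 = q.1
    | .inr p, .inl q => p.1 = q.1
    | .inr _, .inr _ => False
  symm := ⟨by
    rintro (p | p) (q | q) h
    · exact ⟨h.2.1.symm, h.1.symm, fun e => h.2.2 (by rw [← h.2.1, ← h.1, e])⟩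
    · exact h.symm
    · exact h.symm
    · exact h⟩
  loopless := ⟨by
    rintro (p | p) h
    · exact h.2.2 h.1
    · exact h⟩

variable {V : Type} [DecidableEq V]

open Classical in
/-- the darts from `M` to `N` -/
noncomputable def tdE (G : SimpleGraph V) (M N : Finset V) : Finset (V × V) :=
  (M ×ˢ N).filter fun q => G.Adj q.1 q.2

/-- the inner nodes at `M` -/
noncomputable def tdI (G : SimpleGraph V) (d : ℕ) (P M : Finset V) : Finset (V × ℕ) :=
  (M ×ˢ range P.card).filter fun q => (q.2 : ℤ) + d < dg G P q.1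

variable {G : SimpleGraph V} {d : ℕ} {P : Finset V}

omit [DecidableEq V] in
theorem td_memE {M N : Finset V} {q : V × V} :
    q ∈ tdE G M N ↔ q.1 ∈ M ∧ q.2 ∈ N ∧ G.Adj q.1 q.2 := by
  simp [tdE, and_assoc]

omit [DecidableEq V] in
theorem td_memI {M : Finset V} {q : V × ℕ} :
    q ∈ tdI G d P M ↔ q.1 ∈ M ∧ (q.2 : ℤ) + d < dg G P q.1 := by
  have := dg_le_card (G := G) P q.1
  simp only [tdI, mem_filter, mem_product, mem_range, and_assoc]
  exact and_congr_right fun _ => ⟨fun h => h.2, fun h => ⟨by omega, h⟩⟩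

omit [DecidableEq V] in
theorem td_cardE (M N : Finset V) : ((tdE G M N).card : ℤ) = ee G M N := by
  classical
  simp only [tdE, ee, dg_eq_sum, card_filter, sum_product]
  push_cast
  rfl

omit [DecidableEq V] in
theorem td_cardI {M : Finset V} (h : ∀ v ∈ M, (d : ℤ) ≤ dg G P v) :
    ((tdI G d P M).card : ℤ) = ee G M P - d * M.card := by
  have e : ee G M P - d * M.card = ∑ v ∈ M, (dg G P v - d) := by
    simp [ee, sum_sub_distrib, mul_comm]
  rw [e, tdI, card_filter, sum_product]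
  push_cast
  refine sum_congr rfl fun v hv => ?_
  have h1 := h v hv
  have h2 := dg_le_card (G := G) P v
  have e2 : (range P.card).filter (fun i : ℕ => (i : ℤ) + d < dg G P v) =
      range (dg G P v - d).toNat := by
    ext i
    simp only [mem_filter, mem_range]
    omega
  rw [sum_boole, e2, card_range]
  omega

theorem td_count (hd : ∀ v ∈ P, (d : ℤ) ≤ dg G P v)
    (hT : ∀ A ⊆ P, ∀ B ⊆ P, Disjoint A B → ∀ (ι : Type) [DecidableEq ι] (κ : V → ι),
      2 * (((P \ (A ∪ B)).image κ).card : ℤ) ≤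
        2 + 2 * (d * A.card + (ee G B P - d * B.card) - ee G A B) +
          ∑ u ∈ P \ (A ∪ B), dg G ((P \ (A ∪ B)).filter fun w => κ w ≠ κ u) u)
    {S : Finset ((V × V) ⊕ (V × ℕ))} (hS : S = (tdE G P P).disjSum (tdI G d P P))
    (U : Finset ((V × V) ⊕ (V × ℕ))) (ι : Type) [DecidableEq ι] (c : (V × V) ⊕ (V × ℕ) → ι)
    (O : Finset ι) (h1 : ∀ a ∈ S \ U, ∀ b ∈ S \ U, (tdG V).Adj a b → c a = c b)
    (h2 : ∀ o ∈ O, ∃ a ∈ S \ U, c a = o)
    (h3 : ∀ a ∈ S \ U, ∀ b ∈ S \ U, (tdG V).Adj a b → (∀ z ∈ S \ U, (tdG V).Adj a z → z = b) →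
      (∀ z ∈ S \ U, (tdG V).Adj b z → z = a) → c a ∉ O) : O.card ≤ U.card + 1 := by
  classical
  have sl : ∀ v x, Sum.inl (v, x) ∈ S ↔ v ∈ P ∧ x ∈ P ∧ G.Adj v x := fun v x => by
    rw [hS, inl_mem_disjSum, td_memE]
  have sr : ∀ v i, Sum.inr (v, i) ∈ S ↔ v ∈ P ∧ (i : ℤ) + d < dg G P v := fun v i => by
    rw [hS, inr_mem_disjSum, td_memI]
  obtain ⟨A, hA⟩ : ∃ A : Finset V, ∀ v, v ∈ A ↔ v ∈ P ∧ ∀ x, Sum.inl (v, x) ∉ S \ U :=
    ⟨P.filter _, fun v => mem_filter⟩
  obtain ⟨B, hB⟩ : ∃ B : Finset V, ∀ v, v ∈ B ↔ v ∈ P ∧ v ∉ A ∧ ∀ i, Sum.inr (v, i) ∉ S \ U :=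
    ⟨P.filter _, fun v => mem_filter⟩
  obtain ⟨R, hR⟩ : ∃ R, R = P \ (A ∪ B) := ⟨_, rfl⟩
  have mR : ∀ v, v ∈ R ↔ v ∈ P ∧ v ∉ A ∧ v ∉ B := fun v => by simp [hR]
  have hAP : A ⊆ P := fun v hv => ((hA v).1 hv).1
  have hBP : B ⊆ P := fun v hv => ((hB v).1 hv).1
  have hex : ∀ v, ∃ i : ℕ, v ∈ R → Sum.inr (v, i) ∈ S \ U := fun v => by
    by_contra hn
    push Not at hn
    obtain ⟨a, b, e⟩ := (mR v).1 (hn 0).1
    exact e ((hB v).2 ⟨a, b, fun i => (hn i).2⟩)
  choose j hj using hex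
  obtain ⟨κ, hκ⟩ : ∃ κ : V → ι, ∀ v, κ v = c (Sum.inr (v, j v)) := ⟨_, fun _ => rfl⟩
  have k1 : ∀ v ∈ R, ∀ x, Sum.inl (v, x) ∈ S \ U → c (Sum.inl (v, x)) = κ v := fun v hv x hx => by
    rw [hκ]
    exact h1 _ hx _ (hj v hv) rfl
  have k2 : ∀ v ∈ R, ∀ i, Sum.inr (v, i) ∈ S \ U → c (Sum.inr (v, i)) = κ v := fun v hv i hi => by
    obtain ⟨a, b, -⟩ := (mR v).1 hv
    have : ∃ x, Sum.inl (v, x) ∈ S \ U := by
      by_contra hn
      push Not at hn
      exact b ((hA v).2 ⟨a, hn⟩)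
    obtain ⟨x, hx⟩ := this
    rw [← k1 v hv x hx]
    exact h1 _ hi _ hx rfl
  obtain ⟨T1, hT1⟩ : ∃ T1, T1 = (tdE G (P \ A) B).filter fun q => Sum.inl q ∈ U := ⟨_, rfl⟩
  obtain ⟨T2, hT2⟩ : ∃ T2, T2 = (tdE G R R).filter fun q => Sum.inl q ∈ U := ⟨_, rfl⟩
  have m1 : ∀ q, q ∈ T1 ↔ ((q.1 ∈ P ∧ q.1 ∉ A) ∧ q.2 ∈ B ∧ G.Adj q.1 q.2) ∧ Sum.inl q ∈ U :=
    fun q => by rw [hT1, mem_filter, td_memE, mem_sdiff]
  have m2 : ∀ q, q ∈ T2 ↔ (q.1 ∈ R ∧ q.2 ∈ R ∧ G.Adj q.1 q.2) ∧ Sum.inl q ∈ U :=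
    fun q => by rw [hT2, mem_filter, td_memE]
  -- the odd components
  have c1 : O ⊆ R.image κ ∪ (tdI G d P A).image (fun q => c (Sum.inr q)) ∪
      (tdE G A B ∪ T1).image (fun q => c (Sum.inl (q.2, q.1))) := by
    intro o ho
    obtain ⟨a, ha, rfl⟩ := h2 o ho
    simp only [mem_union, mem_image]
    rcases a with ⟨v, x⟩ | ⟨v, i⟩
    · obtain ⟨hv, hx, hvx⟩ := (sl v x).1 (mem_sdiff.1 ha).1
      have hvA : v ∉ A := fun hh => ((hA v).1 hh).2 x ha
      by_cases hvB : v ∈ B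
      swap
      · exact Or.inl (Or.inl ⟨v, (mR v).2 ⟨hv, hvA, hvB⟩,
          (k1 v ((mR v).2 ⟨hv, hvA, hvB⟩) x ha).symm⟩)
      by_cases hxA : x ∈ A
      · exact Or.inr ⟨(x, v), Or.inl (td_memE.2 ⟨hxA, hvB, hvx.symm⟩), rfl⟩
      by_cases hU : Sum.inl (x, v) ∈ U
      · exact Or.inr ⟨(x, v), Or.inr ((m1 _).2 ⟨⟨⟨hx, hxA⟩, hvB, hvx.symm⟩, hU⟩), rfl⟩
      have ht : Sum.inl (x, v) ∈ S \ U := mem_sdiff.2 ⟨(sl x v).2 ⟨hx, hv, hvx.symm⟩, hU⟩
      have hadj : (tdG V).Adj (Sum.inl (v, x)) (Sum.inl (x, v)) := ⟨rfl, rfl, hvx.ne⟩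
      by_cases hxB : x ∈ B
      · refine absurd ho (h3 _ ha _ ht hadj ?_ ?_)
        · rintro (⟨y, z⟩ | ⟨y, i⟩) hz e
          · obtain ⟨rfl, rfl, -⟩ := e
            rfl
          · obtain rfl : v = y := e
            exact absurd hz (((hB v).1 hvB).2.2 i)
        · rintro (⟨y, z⟩ | ⟨y, i⟩) hz e
          · obtain ⟨rfl, rfl, -⟩ := e
            rfl
          · obtain rfl : x = y := e
            exact absurd hz (((hB x).1 hxB).2.2 i)
      · have hxR := (mR x).2 ⟨hx, hxA, hxB⟩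
        exact Or.inl (Or.inl ⟨x, hxR, ((h1 _ ha _ ht hadj).trans (k1 x hxR v ht)).symm⟩)
    · obtain ⟨hv, hi⟩ := (sr v i).1 (mem_sdiff.1 ha).1
      by_cases hvA : v ∈ A
      · exact Or.inl (Or.inr ⟨(v, i), td_memI.2 ⟨hvA, hi⟩, rfl⟩)
      · have hvR := (mR v).2 ⟨hv, hvA, fun hh => ((hB v).1 hh).2.2 i ha⟩
        exact Or.inl (Or.inl ⟨v, hvR, (k2 v hvR i ha).symm⟩)
  have c2 : O.card ≤ (R.image κ).card + (tdI G d P A).card + ((tdE G A B).card + T1.card) :=
    (card_le_card c1).trans ((card_union_le _ _).trans (add_le_add ((card_union_le _ _).trans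
      (add_le_add le_rfl card_image_le)) (card_image_le.trans (card_union_le _ _))))
  -- the deleted set
  have c3 : (tdE G A P).card + (T1.card + T2.card) ≤ U.toLeft.card := by
    rw [← card_union_of_disjoint, ← card_union_of_disjoint]
    · refine card_le_card fun q hq => mem_toLeft.2 ?_
      rcases mem_union.1 hq with hq | hq
      · obtain ⟨a, b, e⟩ := td_memE.1 hq
        by_contra hn
        exact ((hA _).1 a).2 q.2 (mem_sdiff.2 ⟨(sl _ _).2 ⟨hAP a, b, e⟩, hn⟩)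
      · rcases mem_union.1 hq with hq | hq
        exacts [((m1 q).1 hq).2, ((m2 q).1 hq).2]
    · refine disjoint_left.2 fun q a b => ?_
      rcases mem_union.1 b with b | b
      · exact ((m1 q).1 b).1.1.2 (td_memE.1 a).1
      · exact ((mR _).1 ((m2 q).1 b).1.1).2.1 (td_memE.1 a).1
    · exact disjoint_left.2 fun q a b => ((mR _).1 ((m2 q).1 b).1.2.1).2.2 ((m1 q).1 a).1.2.1
  have c4 : (tdI G d P B).card ≤ U.toRight.card := by
    refine card_le_card fun q hq => mem_toRight.2 ?_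
    obtain ⟨a, b⟩ := td_memI.1 hq
    by_contra hn
    exact ((hB _).1 a).2.2 q.2 (mem_sdiff.2 ⟨(sr _ _).2 ⟨hBP a, b⟩, hn⟩)
  have c5 := card_toLeft_add_card_toRight (u := U)
  -- edges between different classes
  have c6 : ∑ u ∈ R, dg G (R.filter fun w => κ w ≠ κ u) u ≤ 2 * T2.card := by
    have e : ∑ u ∈ R, dg G (R.filter fun w => κ w ≠ κ u) u =
        (((tdE G R R).filter fun q => κ q.2 ≠ κ q.1).card : ℤ) := by
      simp only [tdE, dg_eq_sum, filter_filter, card_filter, sum_product, sum_filter]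
      push_cast
      refine sum_congr rfl fun u _ => sum_congr rfl fun w _ => ?_
      by_cases a : κ w = κ u <;> simp [a]
    have : ((tdE G R R).filter fun q => κ q.2 ≠ κ q.1) ⊆ T2 ∪ T2.image Prod.swap := by
      intro q hq
      obtain ⟨hq, hne⟩ := mem_filter.1 hq
      obtain ⟨a, b, hab⟩ := td_memE.1 hq
      by_contra hn
      rw [mem_union, not_or] at hn
      have a1 : Sum.inl (q.1, q.2) ∈ S \ U := mem_sdiff.2
        ⟨(sl _ _).2 ⟨((mR _).1 a).1, ((mR _).1 b).1, hab⟩,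
          fun hh => hn.1 ((m2 q).2 ⟨⟨a, b, hab⟩, hh⟩)⟩
      have a2 : Sum.inl (q.2, q.1) ∈ S \ U := mem_sdiff.2
        ⟨(sl _ _).2 ⟨((mR _).1 b).1, ((mR _).1 a).1, hab.symm⟩,
          fun hh => hn.2 (mem_image.2 ⟨(q.2, q.1), (m2 _).2 ⟨⟨b, a, hab.symm⟩, hh⟩, rfl⟩)⟩
      exact hne ((k1 _ b _ a2).symm.trans
        ((h1 _ a2 _ a1 ⟨rfl, rfl, hab.ne'⟩).trans (k1 _ a _ a1)))
    have := (card_le_card this).trans ((card_union_le _ _).trans (add_le_add le_rfl card_image_le))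
    omega
  have c7 := hT A hAP B hBP (disjoint_left.2 fun v a b => ((hB v).1 b).2.1 a) ι κ
  rw [← hR] at c7
  have c8 := td_cardI (G := G) (P := P) fun v hv => hd v (hAP hv)
  have c9 := td_cardI (G := G) (P := P) fun v hv => hd v (hBP hv)
  have c10 := td_cardE (G := G) A B
  have c11 := td_cardE (G := G) A P
  zify at c2 c3 c4 c5 ⊢
  omega

theorem tutteSuff : STutte := by
  intro V _ G d P hd hev hT
  classical
  obtain ⟨S, hS⟩ : ∃ S, S = (tdE G P P).disjSum (tdI G d P P) := ⟨_, rfl⟩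
  have sl : ∀ v x, Sum.inl (v, x) ∈ S ↔ v ∈ P ∧ x ∈ P ∧ G.Adj v x := fun v x => by
    rw [hS, inl_mem_disjSum, td_memE]
  have sr : ∀ v i, Sum.inr (v, i) ∈ S ↔ v ∈ P ∧ (i : ℤ) + d < dg G P v := fun v i => by
    rw [hS, inr_mem_disjSum, td_memI]
  obtain ⟨μ, hμ⟩ := td_wrap (tdG V) S (by
    have a := td_cardE (G := G) P P
    have b := td_cardI (G := G) (P := P) hd
    obtain ⟨r, hr⟩ := hev
    have e : (d : ℤ) * P.card = r + r := by exact_mod_cast hr
    rw [hS, card_disjSum, Nat.even_iff]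
    omega) fun U _ => td_count hd hT hS U
  let H : SimpleGraph V :=
    { Adj := fun v x => Sum.inl (v, x) ∈ S ∧ μ (Sum.inl (v, x)) = Sum.inl (x, v)
      symm := ⟨fun v x h => ⟨h.2 ▸ (hμ _ h.1).1, by rw [← h.2, (hμ _ h.1).2.2]⟩⟩
      loopless := ⟨fun v h => ((sl v v).1 h.1).2.2.ne rfl⟩ }
  refine ⟨H, fun v x h => ((sl v x).1 h.1).2.2, fun v x h => ((sl v x).1 h.1).1, fun v hv => ?_⟩
  obtain ⟨X, hX⟩ : ∃ X, X = (tdE G {v} P).filter
    fun q => μ (Sum.inl q) = Sum.inl (q.2, q.1) := ⟨_, rfl⟩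
  have e1 : H.neighborSet v = Prod.snd '' (X : Set (V × V)) := by
    ext x
    simp only [hX, SimpleGraph.mem_neighborSet, Set.mem_image, mem_coe, mem_filter, td_memE,
      mem_singleton, H, sl]
    constructor
    · exact fun h => ⟨(v, x), ⟨⟨rfl, h.1.2⟩, h.2⟩, rfl⟩
    · rintro ⟨⟨a, b⟩, ⟨⟨rfl, h⟩, h'⟩, rfl⟩
      exact ⟨⟨hv, h⟩, h'⟩
  have e2 : (H.neighborSet v).ncard = X.card := by
    rw [e1, Set.InjOn.ncard_image, Set.ncard_coe_finset]
    intro a ha b hb e
    simp only [hX, mem_coe, mem_filter, td_memE, mem_singleton] at ha hb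
    exact Prod.ext (ha.1.1.trans hb.1.1.symm) e
  have e3 : (((tdE G {v} P).filter fun q => ¬ μ (Sum.inl q) = Sum.inl (q.2, q.1)).map
      (⟨Sum.inl, Sum.inl_injective⟩ : V × V ↪ (V × V) ⊕ (V × ℕ))).card =
      ((tdI G d P {v}).map (⟨Sum.inr, Sum.inr_injective⟩ : V × ℕ ↪ (V × V) ⊕ (V × ℕ))).card := by
    have a1 : ∀ q ∈ tdE G {v} P, Sum.inl q ∈ S := fun q hq => by
      obtain ⟨a, b⟩ := td_memE.1 hq
      exact (sl _ _).2 ⟨mem_singleton.1 a ▸ hv, b⟩
    have a2 : ∀ q ∈ tdI G d P {v}, Sum.inr q ∈ S := fun q hq => by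
      obtain ⟨a, b⟩ := td_memI.1 hq
      exact (sr _ _).2 ⟨mem_singleton.1 a ▸ hv, b⟩
    refine card_nbij' μ μ ?_ ?_ ?_ ?_
    · intro a ha
      obtain ⟨q, hq, rfl⟩ := mem_map.1 ha
      obtain ⟨hq, hne⟩ := mem_filter.1 hq
      obtain ⟨b1, b2, -⟩ := hμ _ (a1 q hq)
      change μ (Sum.inl q) ∈ _
      generalize μ (Sum.inl q) = z at *
      rcases z with ⟨y, z⟩ | ⟨y, i⟩
      · obtain ⟨rfl, rfl, -⟩ := b2
        exact absurd rfl hne
      · obtain rfl : q.1 = y := b2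
        exact mem_map.2 ⟨_, td_memI.2 ⟨(td_memE.1 hq).1, ((sr _ _).1 b1).2⟩, rfl⟩
    · intro a ha
      obtain ⟨q, hq, rfl⟩ := mem_map.1 ha
      obtain ⟨b1, b2, b3⟩ := hμ _ (a2 q hq)
      change μ (Sum.inr q) ∈ _
      generalize μ (Sum.inr q) = z at *
      rcases z with ⟨y, z⟩ | ⟨y, i⟩
      · obtain rfl : q.1 = y := b2
        exact mem_map.2 ⟨_, mem_filter.2 ⟨td_memE.2 ⟨(td_memI.1 hq).1, ((sl _ _).1 b1).2⟩,
          fun e => Sum.inr_ne_inl (b3.symm.trans e)⟩, rfl⟩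
      · exact b2.elim
    · intro a ha
      obtain ⟨q, hq, rfl⟩ := mem_map.1 ha
      exact (hμ _ (a1 q (mem_filter.1 hq).1)).2.2
    · intro a ha
      obtain ⟨q, hq, rfl⟩ := mem_map.1 ha
      exact (hμ _ (a2 q hq)).2.2
  rw [card_map, card_map] at e3
  have e4 := card_filter_add_card_filter_not (s := tdE G {v} P)
    fun q => μ (Sum.inl q) = Sum.inl (q.2, q.1)
  have e5 := td_cardE (G := G) {v} P
  have e6 := td_cardI (G := G) (P := P) (M := {v}) fun w hw => hd w (mem_singleton.1 hw ▸ hv)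
  rw [card_singleton] at e6
  rw [← hX, e3] at e4
  omega

end Pool.Agent.MP_0be28d_co.A55

end

section

set_option autoImplicit false

namespace Pool.Agent.MP_0be28d_co.A55

open Finset

section

variable {V : Type} [DecidableEq V]

/-- the slack of the Ore-Ryser condition for a set of pairs -/
def te_s (d : ℕ) (E : Finset (V × V)) (B A : Finset V) : ℤ :=
  d * A.card - d * B.card + ∑ e ∈ E, if e.1 ∈ B ∧ e.2 ∉ A then 1 else 0

theorem te_sub (d : ℕ) (E : Finset (V × V)) (B A B' A' : Finset V) :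
    te_s d E (B ∩ B') (A ∩ A') + te_s d E (B ∪ B') (A ∪ A') ≤ te_s d E B A + te_s d E B' A' := by
  have h1 : ((B ∪ B').card : ℤ) + (B ∩ B').card = B.card + B'.card := by
    exact_mod_cast card_union_add_card_inter B B'
  have h2 : ((A ∪ A').card : ℤ) + (A ∩ A').card = A.card + A'.card := by
    exact_mod_cast card_union_add_card_inter A A'
  have h3 : (∑ e ∈ E, if e.1 ∈ B ∩ B' ∧ e.2 ∉ A ∩ A' then (1 : ℤ) else 0) +
      (∑ e ∈ E, if e.1 ∈ B ∪ B' ∧ e.2 ∉ A ∪ A' then (1 : ℤ) else 0) ≤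
      (∑ e ∈ E, if e.1 ∈ B ∧ e.2 ∉ A then (1 : ℤ) else 0) +
      ∑ e ∈ E, if e.1 ∈ B' ∧ e.2 ∉ A' then (1 : ℤ) else 0 := by
    rw [← sum_add_distrib, ← sum_add_distrib]
    refine sum_le_sum fun e _ => ?_
    by_cases e.1 ∈ B <;> by_cases e.1 ∈ B' <;> by_cases e.2 ∈ A <;> by_cases e.2 ∈ A' <;> simp [*]
  unfold te_s
  linear_combination h3 + (d : ℤ) * h2 - (d : ℤ) * h1

theorem te_deg {d : ℕ} {X Y : Finset V} {E : Finset (V × V)}
    (h : ∀ B ⊆ X, ∀ A ⊆ Y, 0 ≤ te_s d E B A)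
    (hm : ∀ e ∈ E, ∃ B ⊆ X, ∃ A ⊆ Y, te_s d (E.erase e) B A < 0) (x : V) :
    (E.filter fun e => e.1 = x).card ≤ d := by
  by_contra! c
  have t : ∀ e ∈ E, ∃ B ⊆ X, ∃ A ⊆ Y, te_s d E B A = 0 ∧ e.1 ∈ B ∧ e.2 ∉ A := fun e he => by
    obtain ⟨B, hB, A, hA, l⟩ := hm e he
    have := h B hB A hA
    unfold te_s at l this ⊢
    rw [← add_sum_erase _ _ he] at this
    by_cases q : e.1 ∈ B ∧ e.2 ∉ A
    · rw [if_pos q] at this
      exact ⟨B, hB, A, hA, by rw [← add_sum_erase _ _ he, if_pos q]; omega, q⟩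
    · rw [if_neg q] at this; omega
  obtain ⟨e0, he0⟩ := card_pos.1 (Nat.zero_lt_of_lt c)
  obtain ⟨he0, hx⟩ := mem_filter.1 he0
  obtain ⟨B0, hB0, A0, hA0, t0, m0, -⟩ := t e0 he0
  obtain ⟨⟨B, A⟩, hp, mn⟩ := exists_min_image ((X.powerset ×ˢ Y.powerset).filter
    fun p => te_s d E p.1 p.2 = 0 ∧ x ∈ p.1) (fun p => p.2.card) ⟨(B0, A0), by simp [hB0, hA0, t0, ← hx, m0]⟩
  simp only [mem_filter, mem_product, mem_powerset] at hp mn
  obtain ⟨⟨hB, hA⟩, t1, m1⟩ := hp
  have n : ∀ e ∈ E, e.1 = x → e.2 ∉ A := fun e he ex ea => by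
    obtain ⟨B', hB', A', hA', t2, m2, m3⟩ := t e he
    have h1 := te_sub d E B A B' A'
    have h2 := h _ (union_subset hB hB') _ (union_subset hA hA')
    have i1 : B ∩ B' ⊆ X := inter_subset_left.trans hB
    have i2 : A ∩ A' ⊆ Y := inter_subset_left.trans hA
    have h3 := h _ i1 _ i2
    have := mn (B ∩ B', A ∩ A') ⟨⟨i1, i2⟩, by dsimp only; omega, mem_inter.2 ⟨m1, ex ▸ m2⟩⟩
    exact m3 (mem_inter.1 ((eq_of_subset_of_card_le inter_subset_left this).symm ▸ ea)).2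
  have h1 := h _ ((erase_subset x B).trans hB) A hA
  have h2 : (∑ e ∈ E, if e.1 ∈ B ∧ e.2 ∉ A then (1 : ℤ) else 0) =
      (∑ e ∈ E, if e.1 ∈ B.erase x ∧ e.2 ∉ A then (1 : ℤ) else 0) + (E.filter fun e => e.1 = x).card := by
    rw [card_filter]
    push_cast
    rw [← sum_add_distrib]
    refine sum_congr rfl fun e he => ?_
    by_cases q : e.1 = x
    · simp [q, m1, n e he q]
    · simp [q]
  have h3 : ((B.erase x).card : ℤ) + 1 = B.card := by exact_mod_cast card_erase_add_one m1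
  have h4 : (d : ℤ) < (E.filter fun e => e.1 = x).card := by exact_mod_cast c
  unfold te_s at h1 t1
  rw [← h3] at t1
  linarith

end

theorem ore : SOre := by
  classical
  intro V _ G d X Y dis hc h
  have h0 : ∀ B ⊆ X, ∀ A ⊆ Y, 0 ≤ te_s d ((X ×ˢ Y).filter fun e => G.Adj e.1 e.2) B A := fun B hB A hA => by
    have : ee G B (Y \ A) = ∑ e ∈ (X ×ˢ Y).filter fun e => G.Adj e.1 e.2,
        if e.1 ∈ B ∧ e.2 ∉ A then (1 : ℤ) else 0 := by
      simp only [ee, dg_eq_sum]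
      rw [← sum_product', sum_filter, ← sum_subset (product_subset_product hB (sdiff_subset (t := A)))]
      · refine sum_congr rfl fun e he => ?_
        simp only [mem_product, mem_sdiff] at he
        simp [he]
      · intro e he ne
        simp only [mem_product, mem_sdiff] at he ne
        rw [if_neg (c := e.1 ∈ B ∧ e.2 ∉ A) fun q => ne ⟨q.1, he.2, q.2⟩, ite_self]
    have := h B hB A hA
    unfold te_s
    linarith
  obtain ⟨E, hE, mn⟩ := exists_min_image (((X ×ˢ Y).filter fun e => G.Adj e.1 e.2).powerset.filter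
    fun E => ∀ B ⊆ X, ∀ A ⊆ Y, 0 ≤ te_s d E B A) card ⟨_, mem_filter.2 ⟨mem_powerset_self _, h0⟩⟩
  simp only [mem_filter, mem_powerset] at hE mn
  obtain ⟨sub, hE⟩ := hE
  have p : ∀ e ∈ E, (e.1 ∈ X ∧ e.2 ∈ Y) ∧ G.Adj e.1 e.2 := fun e he => by simpa using sub he
  have up := te_deg hE fun e he => by
    by_contra! c
    have := mn _ ⟨(erase_subset e E).trans sub, c⟩
    have := card_erase_add_one he
    omega
  have dx : ∀ x ∈ X, (E.filter fun e => e.1 = x).card = d := fun x hx => by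
    have := hE {x} (by simpa) ∅ (empty_subset _)
    refine (up x).antisymm ?_
    rw [card_filter]
    simp only [te_s, card_empty, card_singleton, mem_singleton, notMem_empty, not_false_iff, and_true] at this
    zify
    push_cast at this ⊢
    linarith only [this]
  have lo : ∀ y ∈ Y, d ≤ (E.filter fun e => e.2 = y).card := fun y hy => by
    have := hE X Subset.rfl (Y.erase y) (erase_subset _ _)
    have h3 : ((Y.erase y).card : ℤ) + 1 = X.card := by rw [hc]; exact_mod_cast card_erase_add_one hy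
    rw [te_s, ← h3, sum_congr rfl fun e he => if_congr (show _ ↔ e.2 = y by simp [p e he]) rfl rfl] at this
    rw [card_filter]
    zify
    push_cast
    linarith only [this]
  have dy : ∀ y ∈ Y, d = (E.filter fun e => e.2 = y).card := by
    refine (sum_eq_sum_iff_of_le lo).1 ?_
    rw [← card_eq_sum_card_fiberwise fun e he => (p e he).1.2,
      card_eq_sum_card_fiberwise fun e he => (p e he).1.1, sum_congr rfl dx, sum_const, sum_const, hc]
  refine ⟨SimpleGraph.fromRel fun a b => (a, b) ∈ E, ?_, ?_, fun v hv => ?_⟩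
  · rintro a b ⟨-, q | q⟩
    exacts [(p _ q).2, (p _ q).2.symm]
  · rintro a b ⟨-, q | q⟩
    exacts [mem_union_left _ (p _ q).1.1, mem_union_right _ (p _ q).1.2]
  rcases mem_union.1 hv with hv | hv
  · rw [← dx v hv, ← card_image_of_injOn (f := Prod.snd), ← Set.ncard_coe_finset]
    · congr 1
      ext w
      simp only [SimpleGraph.mem_neighborSet, SimpleGraph.fromRel_adj, coe_image, coe_filter, Set.mem_image,
        Set.mem_ofPred_eq]
      refine ⟨?_, ?_⟩
      · rintro ⟨-, q | q⟩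
        exacts [⟨_, ⟨q, rfl⟩, rfl⟩, absurd (p _ q).1.2 (disjoint_left.1 dis hv)]
      · rintro ⟨⟨a, b⟩, ⟨q, rfl⟩, rfl⟩
        exact ⟨(p _ q).2.ne, .inl q⟩
    · intro a ha b hb e
      exact Prod.ext ((mem_filter.1 ha).2.trans (mem_filter.1 hb).2.symm) e
  · rw [dy v hv, ← card_image_of_injOn (f := Prod.fst), ← Set.ncard_coe_finset]
    · congr 1
      ext w
      simp only [SimpleGraph.mem_neighborSet, SimpleGraph.fromRel_adj, coe_image, coe_filter, Set.mem_image,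
        Set.mem_ofPred_eq]
      refine ⟨?_, ?_⟩
      · rintro ⟨-, q | q⟩
        exacts [absurd hv (disjoint_left.1 dis (p _ q).1.1), ⟨_, ⟨q, rfl⟩, rfl⟩]
      · rintro ⟨⟨a, b⟩, ⟨q, rfl⟩, rfl⟩
        exact ⟨(p _ q).2.ne', .inr q⟩
    · intro a ha b hb e
      exact Prod.ext e ((mem_filter.1 ha).2.trans (mem_filter.1 hb).2.symm)

end Pool.Agent.MP_0be28d_co.A55

end

section

set_option autoImplicit false

namespace Pool.Agent.MP_0be28d_co.A55

open Finset

section tf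

variable {V : Type} [DecidableEq V] {G : SimpleGraph V} {k : ℤ} {d : ℕ}

/-- the potential of a disjoint union of two pairs -/
theorem tf_add {P B₁ B₂ A₁ A₂ : Finset V} (h1 : B₁ ⊆ P) (h2 : B₂ ⊆ P) (h3 : A₁ ⊆ P)
    (h4 : A₂ ⊆ P) (hB : Disjoint B₁ B₂) (hA : Disjoint A₁ A₂) :
    FF G k d P (B₁ ∪ B₂) (A₁ ∪ A₂) = FF G k d P B₁ A₁ + FF G k d P B₂ A₂ -
      2 * (k - d) * (ee G A₁ B₂ + ee G A₂ B₁) := by
  unfold FF
  rw [cut_eq (union_subset h1 h2) (union_subset h3 h4), cut_eq h1 h3, cut_eq h2 h4,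
    out_union _ _ hA, out_union _ _ hB, ee_union_left hB, ee_union_left hA, ee_union_left hA,
    ee_union_right _ hB, ee_union_right _ hB]
  ring

theorem tf_sum_le {ι : Type} [DecidableEq ι] (S : Finset ι) (Q : ι → Finset V) (M : Finset V)
    (f : V → ℤ) (hf : ∀ u, 0 ≤ f u) (hQ : ∀ i ∈ S, Q i ⊆ M)
    (hd : ∀ i ∈ S, ∀ j ∈ S, i ≠ j → Disjoint (Q i) (Q j)) :
    ∑ i ∈ S, ∑ u ∈ Q i, f u ≤ ∑ u ∈ M, f u := by
  rw [← sum_biUnion (fun i hi j hj hij => hd i hi j hj hij)]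
  exact sum_le_sum_of_subset_of_nonneg (biUnion_subset.mpr hQ) fun u _ _ => hf u

/-- the cost of removing `Z` from the minimal pair -/
noncomputable def tfMu (G : SimpleGraph V) (k : ℤ) (d : ℕ) (P B A : Finset V) (δ : ℤ)
    (Z : Finset V) : ℤ := FF G k d P (B \ Z) (A \ Z) + δ

variable {P B A : Finset V} {δ : ℤ}

theorem tf_mu_nonneg (hM : MinPair G k d P B A δ) (Z : Finset V) :
    0 ≤ tfMu G k d P B A δ Z := by
  have := hM.bal (B \ Z) (sdiff_subset.trans hM.hB) (A \ Z) (sdiff_subset.trans hM.hA)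
  unfold tfMu
  linarith

theorem tf_mu_union (hS : SSubmod) (hdk : (d : ℤ) ≤ k) (hM : MinPair G k d P B A δ)
    (Z Z' : Finset V) :
    tfMu G k d P B A δ (Z ∪ Z') ≤ tfMu G k d P B A δ Z + tfMu G k d P B A δ Z' := by
  have hB : ∀ X : Finset V, B \ X ⊆ P := fun X => sdiff_subset.trans hM.hB
  have hA : ∀ X : Finset V, A \ X ⊆ P := fun X => sdiff_subset.trans hM.hA
  have h1 := hS V G k d P (B \ Z) (A \ Z) (B \ Z') (A \ Z') hdk (hB _) (hA _) (hB _) (hA _)
  have h2 := hM.bal _ (union_subset (hB Z) (hB Z')) _ (union_subset (hA Z) (hA Z'))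
  unfold tfMu
  rw [sdiff_union_distrib, sdiff_union_distrib]
  linarith

theorem tf_mu_family (hS : SSubmod) (hdk : (d : ℤ) ≤ k) (hM : MinPair G k d P B A δ) (c : ℤ)
    (ZZ : Finset (Finset V)) (h : ∀ Z ∈ ZZ, 2 * tfMu G k d P B A δ Z ≤ c) :
    2 * tfMu G k d P B A δ (ZZ.biUnion id) ≤ ZZ.card * c := by
  induction ZZ using Finset.induction_on with
  | empty =>
    have := hM.val
    simp only [biUnion_empty, tfMu, sdiff_empty, card_empty]
    push_cast
    linarith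
  | insert Z ZZ hZ ih =>
    have h1 := ih fun X hX => h X (mem_insert_of_mem hX)
    have h2 := h Z (mem_insert_self _ _)
    have h3 := tf_mu_union hS hdk hM Z (ZZ.biUnion id)
    rw [biUnion_insert, card_insert_of_notMem hZ]
    push_cast
    simp only [id] at h3 ⊢
    linarith only [h1, h2, h3]

theorem tf_cut_le {Dm : ℤ} (hD : Deg G k) (hM : MinPair G k d P B A δ) (hδ : 0 ≤ δ)
    (hO : out G k P P ≤ Dm) : (k - d) * cut G P B A ≤ 4 * d * Dm := by
  have h1 := hM.val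
  have h2 := out_nonneg hD P A
  have h3 := out_mono hD P hM.hB
  have hd : (0 : ℤ) ≤ d := Int.natCast_nonneg d
  have h4 : (d : ℤ) * (out G k P B - out G k P A) ≤ d * Dm :=
    mul_le_mul_of_nonneg_left (by linarith) hd
  unfold FF at h1
  linarith

/-- the edges between the removed part and the rest -/
theorem tf_x_le {Dm : ℤ} (hD : Deg G k) (hdk : (d : ℤ) ≤ k) (hM : MinPair G k d P B A δ)
    (hδ : 0 ≤ δ) (hO : out G k P P ≤ Dm) (Y : Finset V) :
    (k - d) * (ee G (A ∩ Y) (B \ Y) + ee G (A \ Y) (B ∩ Y)) ≤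
      tfMu G k d P B A δ Y + 4 * d * Dm := by
  have hB := hM.hB
  have hA := hM.hA
  have hBY : B ∩ Y ⊆ P := inter_subset_left.trans hB
  have hAY : A ∩ Y ⊆ P := inter_subset_left.trans hA
  have h1 := tf_add (G := G) (k := k) (d := d) hBY (sdiff_subset.trans hB : B \ Y ⊆ P) hAY
    (sdiff_subset.trans hA : A \ Y ⊆ P) (disjoint_sdiff_inter B Y).symm
    (disjoint_sdiff_inter A Y).symm
  rw [union_comm (B ∩ Y), union_comm (A ∩ Y), sdiff_union_inter, sdiff_union_inter,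
    hM.val] at h1
  have h2 : cut G P (B ∩ Y) (A ∩ Y) ≤
      cut G P B A + (ee G (A ∩ Y) (B \ Y) + ee G (A \ Y) (B ∩ Y)) := by
    have e1 := ee_sdiff_right (G := G) (B ∩ Y) hAY
    have e2 := ee_sdiff_right (G := G) (B ∩ Y) hA
    have e3 := ee_union_right (G := G) (B ∩ Y) (disjoint_sdiff_inter A Y)
    have e4 := ee_sdiff_right (G := G) (A ∩ Y) hBY
    have e5 := ee_sdiff_right (G := G) (A ∩ Y) hB
    have e6 := ee_union_right (G := G) (A ∩ Y) (disjoint_sdiff_inter B Y)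
    have e7 := ee_mono (G := G) (inter_subset_left : B ∩ Y ⊆ B) (Subset.refl (P \ A))
    have e8 := ee_mono (G := G) (inter_subset_left : A ∩ Y ⊆ A) (Subset.refl (P \ B))
    have e9 := ee_comm (G := G) (A \ Y) (B ∩ Y)
    rw [sdiff_union_inter] at e3 e6
    unfold cut
    linarith
  have h3 := mul_le_mul_of_nonneg_left h2 (sub_nonneg.mpr hdk)
  have h4 := hM.val
  have o1 := out_mono hD P (inter_subset_left : A ∩ Y ⊆ A)
  have o2 := out_nonneg hD P (B ∩ Y)
  have o3 := out_mono hD P hB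
  have hd : (0 : ℤ) ≤ d := Int.natCast_nonneg d
  have h5 : (d : ℤ) * (out G k P (A ∩ Y) - out G k P (B ∩ Y) - out G k P A + out G k P B) ≤
      d * Dm := mul_le_mul_of_nonneg_left (by linarith only [hO, o1, o2, o3]) hd
  have h6 : FF G k d P (B ∩ Y) (A ∩ Y) = 4 * d * (out G k P (A ∩ Y) - out G k P (B ∩ Y)) +
      (k - d) * cut G P (B ∩ Y) (A ∩ Y) := rfl
  unfold FF at h4
  unfold tfMu
  linarith

/-- the private part of a member of the family -/
theorem tf_priv {L : ℤ} (hD : Deg G k) (hdk : (d : ℤ) ≤ k) (hM : MinPair G k d P B A δ)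
    {Z Y' : Finset V} (hZ : Z ⊆ A ∪ B) (hL : L ≤ ee G (Z \ Y') (P \ (Z \ Y'))) :
    (k - d) * L ≤ tfMu G k d P B A δ Y' +
      2 * (k - d) * (ee G (A ∩ (Z \ Y')) (B \ (Z ∪ Y')) + ee G (B ∩ (Z \ Y')) (A \ (Z ∪ Y'))) +
      4 * d * out G k P (B ∩ (Z \ Y')) := by
  have hB := hM.hB
  have hA := hM.hA
  have hBQ : B ∩ (Z \ Y') ⊆ P := inter_subset_left.trans hB
  have hAQ : A ∩ (Z \ Y') ⊆ P := inter_subset_left.trans hA
  have hdis : ∀ X : Finset V, Disjoint (X ∩ (Z \ Y')) (X \ (Z ∪ Y')) := fun X => by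
    rw [disjoint_left]
    intro u hu hu'
    simp only [mem_inter, mem_sdiff, mem_union] at hu hu'
    tauto
  have hun : ∀ X : Finset V, X ∩ (Z \ Y') ∪ X \ (Z ∪ Y') = X \ Y' := fun X => by
    ext u
    simp only [mem_inter, mem_sdiff, mem_union]
    tauto
  have h1 := tf_add (G := G) (k := k) (d := d) hBQ
    (sdiff_subset.trans hB : B \ (Z ∪ Y') ⊆ P) hAQ
    (sdiff_subset.trans hA : A \ (Z ∪ Y') ⊆ P) (hdis B) (hdis A)
  rw [hun, hun, ee_comm (A \ (Z ∪ Y'))] at h1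
  have h2 := tf_mu_nonneg hM (Z ∪ Y')
  have h3 : L ≤ cut G P (B ∩ (Z \ Y')) (A ∩ (Z \ Y')) := by
    have e1 : B ∩ (Z \ Y') ∪ A ∩ (Z \ Y') = Z \ Y' := by
      ext u
      have := @hZ u
      simp only [mem_inter, mem_sdiff, mem_union] at this ⊢
      tauto
    have e2 : Disjoint (B ∩ (Z \ Y')) (A ∩ (Z \ Y')) :=
      hM.disj.symm.mono inter_subset_left inter_subset_left
    have e3 := ee_union_left (G := G) e2 (P \ (Z \ Y'))
    have e4 := ee_mono (G := G) (Subset.refl (B ∩ (Z \ Y')))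
      (sdiff_subset_sdiff (Subset.refl P) (inter_subset_right : A ∩ (Z \ Y') ⊆ Z \ Y'))
    have e5 := ee_mono (G := G) (Subset.refl (A ∩ (Z \ Y')))
      (sdiff_subset_sdiff (Subset.refl P) (inter_subset_right : B ∩ (Z \ Y') ⊆ Z \ Y'))
    rw [e1] at e3
    unfold cut
    linarith only [hL, e3, e4, e5]
  have h4 := mul_le_mul_of_nonneg_left h3 (sub_nonneg.mpr hdk)
  have h5 : 0 ≤ (d : ℤ) * out G k P (A ∩ (Z \ Y')) :=
    mul_nonneg (Int.natCast_nonneg d) (out_nonneg hD _ _)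
  have h6 : FF G k d P (B ∩ (Z \ Y')) (A ∩ (Z \ Y')) =
      4 * d * (out G k P (A ∩ (Z \ Y')) - out G k P (B ∩ (Z \ Y'))) +
      (k - d) * cut G P (B ∩ (Z \ Y')) (A ∩ (Z \ Y')) := rfl
  unfold tfMu at h2 ⊢
  linarith

/-- a family of `m` cheap sets with large private parts does not exist -/
theorem tf_full (hS : SSubmod) {J h L s Dm β σ : ℤ} {m : ℕ}
    (par : StarPar k d J h L s Dm β σ m) (hD : Deg G k) (hC : Conn G P L s)
    (hO : out G k P P ≤ Dm) (hM : MinPair G k d P B A δ) (hδ : 0 ≤ δ)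
    (ZZ : Finset (Finset V)) (hsub : ∀ Z ∈ ZZ, Z ⊆ A ∪ B)
    (hmu : ∀ Z ∈ ZZ, 2 * tfMu G k d P B A δ Z ≤ 7 * d * k)
    (hpriv : ∀ Z ∈ ZZ, s ≤ ((Z \ (ZZ.erase Z).biUnion id).card : ℤ)) (hcard : ZZ.card = m) :
    False := by
  have hp8 := par.base.p8
  have hdk : (d : ℤ) ≤ k := by linarith only [hp8]
  have hd : (0 : ℤ) < d := by exact_mod_cast par.base.d_pos
  have hW : A ∪ B ⊆ P := union_subset hM.hA hM.hB
  set Q : Finset V → Finset V := fun Z => Z \ (ZZ.erase Z).biUnion id with hQ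
  set Y := ZZ.biUnion id with hY
  have hQd : ∀ Z ∈ ZZ, ∀ Z' ∈ ZZ, Z ≠ Z' → Disjoint (Q Z) (Q Z') := by
    intro Z _ Z' hZ' hne
    rw [disjoint_left]
    intro u hu hu'
    simp only [hQ, mem_sdiff, mem_biUnion, mem_erase, id] at hu hu'
    exact hu.2 ⟨Z', ⟨hne.symm, hZ'⟩, hu'.1⟩
  have hQY : ∀ Z ∈ ZZ, Q Z ⊆ Y := fun Z hZ =>
    sdiff_subset.trans (subset_biUnion_of_mem id hZ)
  have hZY : ∀ Z ∈ ZZ, Z ∪ (ZZ.erase Z).biUnion id = Y := by
    intro Z hZ
    rw [hY]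
    conv_rhs => rw [← insert_erase hZ, biUnion_insert]
    rfl
  have hone : ∀ Z ∈ ZZ, 2 * ((k - d) * L) ≤ m * (7 * d * k) +
      4 * (k - d) * (ee G (A ∩ Q Z) (B \ Y) + ee G (B ∩ Q Z) (A \ Y)) +
      8 * d * out G k P (B ∩ Q Z) := by
    intro Z hZ
    obtain ⟨Z', hZ', hne⟩ := exists_mem_ne (by have := par.m2; omega : 1 < ZZ.card) Z
    have hQP : Q Z ⊆ P := sdiff_subset.trans ((hsub Z hZ).trans hW)
    have hL : L ≤ ee G (Q Z) (P \ Q Z) := by
      by_contra hlt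
      rcases hC (Q Z) hQP (not_le.mp hlt) with h1 | h1
      · exact absurd (hpriv Z hZ) (not_le.mpr h1)
      · have h2 : Q Z' ⊆ P \ Q Z :=
          subset_sdiff.mpr ⟨sdiff_subset.trans ((hsub Z' hZ').trans hW), hQd Z' hZ' Z hZ hne⟩
        have h3 : ((Q Z').card : ℤ) ≤ (P \ Q Z).card := by exact_mod_cast card_le_card h2
        have h4 : s ≤ ((Q Z').card : ℤ) := hpriv Z' hZ'
        linarith only [h1, h3, h4]
    have h1 := tf_priv hD hdk hM (hsub Z hZ) hL
    rw [hZY Z hZ] at h1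
    have h2 := tf_mu_family hS hdk hM (7 * d * k) (ZZ.erase Z)
      fun X hX => hmu X (mem_of_mem_erase hX)
    have h3 : ((ZZ.erase Z).card : ℤ) ≤ m := by
      rw [← hcard]
      exact_mod_cast card_erase_le
    have h4 := mul_le_mul_of_nonneg_right h3 (by positivity : (0 : ℤ) ≤ 7 * d * (d + (k - d)))
    simp only [add_sub_cancel] at h4
    simp only [hQ]
    linarith only [h1, h2, h4]
  have hsum := sum_le_sum hone
  rw [sum_const, sum_add_distrib, sum_add_distrib, sum_const, ← mul_sum, ← mul_sum,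
    sum_add_distrib, hcard, nsmul_eq_mul, nsmul_eq_mul] at hsum
  have hdisj : ∀ X : Finset V, ∀ Z ∈ ZZ, ∀ Z' ∈ ZZ, Z ≠ Z' → Disjoint (X ∩ Q Z) (X ∩ Q Z') :=
    fun X Z hZ Z' hZ' hne => (hQd Z hZ Z' hZ' hne).mono inter_subset_right inter_subset_right
  have s1 : ∑ Z ∈ ZZ, ee G (A ∩ Q Z) (B \ Y) ≤ ee G (A ∩ Y) (B \ Y) :=
    tf_sum_le ZZ (fun Z => A ∩ Q Z) (A ∩ Y) _ (fun u => dg_nonneg _ u)
      (fun Z hZ => inter_subset_inter_left (hQY Z hZ)) (hdisj A)
  have s2 : ∑ Z ∈ ZZ, ee G (B ∩ Q Z) (A \ Y) ≤ ee G (B ∩ Y) (A \ Y) :=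
    tf_sum_le ZZ (fun Z => B ∩ Q Z) (B ∩ Y) _ (fun u => dg_nonneg _ u)
      (fun Z hZ => inter_subset_inter_left (hQY Z hZ)) (hdisj B)
  have s3 : ∑ Z ∈ ZZ, out G k P (B ∩ Q Z) ≤ out G k P P :=
    tf_sum_le ZZ (fun Z => B ∩ Q Z) P _ (fun u => sub_nonneg.mpr (hD P u))
      (fun Z _ => inter_subset_left.trans hM.hB) (hdisj B)
  have hx := tf_x_le hD hdk hM hδ hO Y
  rw [ee_comm (A \ Y)] at hx
  have hm := tf_mu_family hS hdk hM (7 * d * k) ZZ hmu
  rw [hcard] at hm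
  have t1 := mul_le_mul_of_nonneg_left (add_le_add s1 s2) (sub_nonneg.mpr hdk)
  have t2 := mul_le_mul_of_nonneg_left (s3.trans hO) hd.le
  have t3 := mul_le_mul_of_nonneg_left par.i1 (Int.natCast_nonneg m)
  have t4 := par.i2
  linarith

end tf

theorem star (hS : SSubmod) (hB : SSmallB) : SStar := by
  intro V _ G k d J h L s Dm β σ m P B A Bl δ par hD hN hCl hC hO hBl hM hδ
  by_contra hno
  push Not at hno
  have hp8 := par.base.p8
  have hdk : (d : ℤ) ≤ k := by linarith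
  have hd : (0 : ℤ) < d := by exact_mod_cast par.base.d_pos
  have hk : (0 : ℤ) < k := by linarith only [hp8, hd]
  have hm0 : (0 : ℤ) ≤ m := Int.natCast_nonneg m
  have hmdk : (0 : ℤ) ≤ m * d * k := by positivity
  have hδ0 : 0 ≤ δ := by linarith
  have hs : 0 < s := by
    have h1 : (0 : ℤ) < 7 * (m + 2) * d * k := by positivity
    have h2 : 0 < L := by
      by_contra h3
      have := mul_nonpos_of_nonneg_of_nonpos (sub_nonneg.mpr hdk) (not_lt.mp h3)
      linarith [par.i1]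
    rcases hC ∅ (empty_subset _) (by rw [ee_empty_left]; exact h2) with h3 | h3
    · simpa using h3
    · exact lt_of_le_of_lt (Int.natCast_nonneg _) h3
  classical
  set MM := (A ∪ B).powerset.filter fun Z => 2 * tfMu G k d P B A δ Z ≤ 7 * d * k with hMM
  obtain ⟨ZZ, hZZ, hmin⟩ := exists_min_image (MM.powerset.filter fun ZZ => ZZ.card ≤ m)
    (fun ZZ => s * ZZ.card + (((A ∪ B) \ ZZ.biUnion id).card : ℤ)) ⟨∅, by simp⟩
  rw [mem_filter, mem_powerset] at hZZ
  have hsub : ∀ Z ∈ ZZ, Z ⊆ A ∪ B := fun Z hZ => mem_powerset.mp (mem_filter.mp (hZZ.1 hZ)).1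
  have hmu : ∀ Z ∈ ZZ, 2 * tfMu G k d P B A δ Z ≤ 7 * d * k :=
    fun Z hZ => (mem_filter.mp (hZZ.1 hZ)).2
  have hcnt : ∀ Z Y' : Finset V, Z ⊆ A ∪ B →
      (((A ∪ B) \ Y').card : ℤ) = ((A ∪ B) \ (Z ∪ Y')).card + (Z \ Y').card := by
    intro Z Y' hZ
    have e1 : (A ∪ B) \ Y' = (A ∪ B) \ (Z ∪ Y') ∪ Z \ Y' := by
      ext u
      have := @hZ u
      simp only [mem_sdiff, mem_union] at this ⊢
      tauto
    have e2 : Disjoint ((A ∪ B) \ (Z ∪ Y')) (Z \ Y') := by
      rw [disjoint_left]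
      intro u hu hu'
      simp only [mem_sdiff, mem_union] at hu hu'
      tauto
    rw [e1, card_union_of_disjoint e2]
    push_cast
    rfl
  have hpriv : ∀ Z ∈ ZZ, s ≤ ((Z \ (ZZ.erase Z).biUnion id).card : ℤ) := by
    intro Z hZ
    have h1 := hmin (ZZ.erase Z) (mem_filter.mpr
      ⟨mem_powerset.mpr ((erase_subset _ _).trans hZZ.1), card_erase_le.trans hZZ.2⟩)
    have h2 := hcnt Z ((ZZ.erase Z).biUnion id) (hsub Z hZ)
    have h3 : Z ∪ (ZZ.erase Z).biUnion id = ZZ.biUnion id := by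
      conv_rhs => rw [← insert_erase hZ, biUnion_insert]
      rfl
    have h4 : (ZZ.card : ℤ) = (ZZ.erase Z).card + 1 := by
      exact_mod_cast (card_erase_add_one hZ).symm
    rw [h3] at h2
    simp only [h4] at h1
    linarith only [h2, h1]
  have hlt : ZZ.card < m := lt_of_le_of_ne hZZ.2 fun he =>
    tf_full hS par hD hC hO hM hδ0 ZZ hsub hmu hpriv he
  set Y := ZZ.biUnion id with hY
  have hnew : ∀ Z ∈ MM, ((Z \ Y).card : ℤ) ≤ s := by
    intro Z hZ
    by_cases hz : Z ∈ ZZ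
    · have h0 : Z ⊆ Y := subset_biUnion_of_mem id hz
      rw [sdiff_eq_empty_iff_subset.mpr h0]
      simpa only [card_empty, CharP.cast_eq_zero, ge_iff_le] using hs.le
    · have h1 := hmin (insert Z ZZ) (mem_filter.mpr
        ⟨mem_powerset.mpr (insert_subset hZ hZZ.1), by rw [card_insert_of_notMem hz]; omega⟩)
      have h2 := hcnt Z Y (mem_powerset.mp (mem_filter.mp hZ).1)
      simp only [biUnion_insert, card_insert_of_notMem hz, id] at h1
      push_cast at h1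
      linarith only [h2, h1]
  have hvert : ∀ v ∈ (B \ Y) \ Bl, k ≤ 16 * (dg G (P \ A) v + dg G (A ∩ Y) v) := by
    intro v hv
    have hvP : v ∈ P := hM.hB (mem_sdiff.mp (mem_sdiff.mp hv).1).1
    have hg := hno v hvP (mem_sdiff.mp hv).2
    unfold Good at hg
    push Not at hg
    obtain ⟨B₁, hB₁, A₁, hA₁, hlt'⟩ := hg
    have hdj := disjoint_left.mp hM.disj
    have e1 : B \ ((A ∪ B) \ (A₁ ∪ B₁)) = B₁ := by
      ext u
      have a1 := @hB₁ u
      have a2 := @hA₁ u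
      have a3 := @hdj u
      simp only [mem_sdiff, mem_union]
      tauto
    have e2 : A \ ((A ∪ B) \ (A₁ ∪ B₁)) = A₁ := by
      ext u
      have a1 := @hB₁ u
      have a2 := @hA₁ u
      have a3 := @hdj u
      simp only [mem_sdiff, mem_union]
      tauto
    have h1 := tf_mu_nonneg hM ((A ∪ B) \ (A₁ ∪ B₁))
    have h2 : tfMu G k d P B A δ ((A ∪ B) \ (A₁ ∪ B₁)) = FF G k d P B₁ A₁ + δ := by
      unfold tfMu
      rw [e1, e2]
    have h3 : 0 ≤ (d : ℤ) * dg G A₁ v := mul_nonneg hd.le (dg_nonneg _ _)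
    have h4 := hnew ((A ∪ B) \ (A₁ ∪ B₁))
      (mem_filter.mpr ⟨mem_powerset.mpr sdiff_subset, by linarith only [hlt', h2, h3]⟩)
    have h5 : 8 * dg G A₁ v < 7 * k := lt_of_mul_lt_mul_left (a := (d : ℤ)) (by linarith only [hlt', h1, h2]) hd.le
    have h6 : A ⊆ A₁ ∪ (((A ∪ B) \ (A₁ ∪ B₁)) \ Y) ∪ A ∩ Y := by
      intro u hu
      have a1 := @hB₁ u
      have a3 := @hdj u
      simp only [mem_sdiff, mem_union, mem_inter]
      tauto
    have h7 := dg_mono (G := G) h6 v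
    have h8 := dg_union_le (G := G) (A₁ ∪ (((A ∪ B) \ (A₁ ∪ B₁)) \ Y)) (A ∩ Y) v
    have h9 := dg_union_le (G := G) A₁ (((A ∪ B) \ (A₁ ∪ B₁)) \ Y) v
    have h10 := dg_le_card (G := G) (((A ∪ B) \ (A₁ ∪ B₁)) \ Y) v
    have h11 := dg_sdiff (G := G) hM.hA v
    have h12 := hCl v hvP
    have h13 := par.i3
    linarith only [h4, h5, h7, h8, h9, h10, h11, h12, h13]
  have hsum := sum_le_sum hvert
  rw [sum_const, ← mul_sum, sum_add_distrib, nsmul_eq_mul] at hsum
  have c1 : ∑ v ∈ (B \ Y) \ Bl, dg G (P \ A) v ≤ cut G P B A := by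
    have a1 := ee_mono (G := G) ((sdiff_subset : (B \ Y) \ Bl ⊆ B \ Y).trans sdiff_subset)
      (Subset.refl (P \ A))
    have a2 := ee_nonneg (G := G) A (P \ B)
    unfold cut
    exact a1.trans (by linarith only [a2])
  have c2 : ∑ v ∈ (B \ Y) \ Bl, dg G (A ∩ Y) v ≤
      ee G (A ∩ Y) (B \ Y) + ee G (A \ Y) (B ∩ Y) := by
    have a1 := ee_mono (G := G) (sdiff_subset : (B \ Y) \ Bl ⊆ B \ Y) (Subset.refl (A ∩ Y))
    have a2 := ee_nonneg (G := G) (A \ Y) (B ∩ Y)
    rw [ee_comm (B \ Y)] at a1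
    exact a1.trans (by linarith only [a2])
  have c3 := tf_cut_le hD hM hδ0 hO
  have c4 := tf_x_le hD hdk hM hδ0 hO Y
  have c5 := tf_mu_family hS hdk hM (7 * d * k) ZZ hmu
  have c6 : (ZZ.card : ℤ) * (7 * d * k) ≤ m * (7 * d * k) :=
    mul_le_mul_of_nonneg_right (by exact_mod_cast hlt.le) (by positivity)
  have c7 : ((B \ Y).card : ℤ) ≤ ((B \ Y) \ Bl).card + β := by
    have : (B \ Y).card ≤ ((B \ Y) \ Bl).card + Bl.card := card_le_card_sdiff_add_card
    have : ((B \ Y).card : ℤ) ≤ ((B \ Y) \ Bl).card + Bl.card := by exact_mod_cast this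
    linarith
  have hp : (0 : ℤ) < k - d := by linarith only [hp8]
  have c8 := mul_le_mul_of_nonneg_left (hsum.trans (mul_le_mul_of_nonneg_left
    (add_le_add c1 c2) (by norm_num))) hp.le
  have c9 := mul_le_mul_of_nonneg_left c7 (mul_pos hp hk).le
  have c10 : ((B \ Y).card : ℤ) ≤ σ :=
    le_of_mul_le_mul_left (a := (k - d) * k) (by linarith only [par.i4, hmdk, c3, c4, c5, c6, c8, c9]) (mul_pos hp hk)
  have c11 := hB V G k d J h P (B \ Y) (A \ Y) par.base hD hN hCl (sdiff_subset.trans hM.hB)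
    (sdiff_subset.trans hM.hA) (hM.disj.mono sdiff_subset sdiff_subset) (by linarith only [par.i5, c10])
  have c12 : tfMu G k d P B A δ Y = FF G k d P (B \ Y) (A \ Y) + δ := rfl
  linarith only [hδ, hmdk, c5, c6, c11, c12]

end Pool.Agent.MP_0be28d_co.A55

end
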