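import Pool.Agent.MP_0be28d_co.Mg.AlA

section

set_option autoImplicit false

namespace Pool.Agent.MP_0be28d_co.A55

open Finset

/-- the edges leaving `A ∪ B` are counted by the cut -/
theorem tg_rest_le_cut {V : Type} [DecidableEq V] (G : SimpleGraph V) {P A B : Finset V}
    (hd : Disjoint A B) : ee G (A ∪ B) (P \ (A ∪ B)) ≤ cut G P B A := by
  rw [ee_union_left hd]
  unfold cut
  have h1 : ee G A (P \ (A ∪ B)) ≤ ee G A (P \ B) :=
    ee_mono subset_rfl (sdiff_subset_sdiff subset_rfl subset_union_right)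
  have h2 : ee G B (P \ (A ∪ B)) ≤ ee G B (P \ A) :=
    ee_mono subset_rfl (sdiff_subset_sdiff subset_rfl subset_union_left)
  linarith

/-- the edges leaving the classes of `κ` on `R = P \ W` go to `W` or to another class -/
theorem tg_classes {V : Type} [DecidableEq V] (G : SimpleGraph V) (P W : Finset V)
    {ι : Type} [DecidableEq ι] (κ : V → ι) :
    ∑ c ∈ (P \ W).image κ,
        ee G ((P \ W).filter fun w => κ w = c) (P \ (P \ W).filter fun w => κ w = c) ≤
      ee G W (P \ W) + ∑ u ∈ P \ W, dg G ((P \ W).filter fun w => κ w ≠ κ u) u := by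
  have h1 : ∑ c ∈ (P \ W).image κ,
        ee G ((P \ W).filter fun w => κ w = c) (P \ (P \ W).filter fun w => κ w = c) =
      ∑ u ∈ P \ W, dg G (P \ (P \ W).filter fun w => κ w = κ u) u := by
    rw [← sum_fiberwise_of_maps_to (s := P \ W) (t := (P \ W).image κ) (g := κ)
      (fun u hu => mem_image_of_mem κ hu)]
    refine sum_congr rfl fun c _ => ?_
    unfold ee
    refine sum_congr rfl fun u hu => ?_
    rw [(mem_filter.mp hu).2]
  rw [h1, ee_comm W, ee, ← sum_add_distrib]
  refine sum_le_sum fun u _ => ?_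
  refine le_trans (dg_mono ?_ u) (dg_union_le _ _ u)
  intro w hw
  simp only [mem_sdiff, mem_filter, mem_union, not_and] at hw ⊢
  by_cases hW : w ∈ W
  · exact Or.inl hW
  · exact Or.inr ⟨⟨hw.1, hW⟩, hw.2 ⟨hw.1, hW⟩⟩

theorem tstep (hT : STutte) (hB : SSmallB) (hC : SScut) : STstep := by
  intro V _ G k d J h L s E Δ L2 ta z P fp hD hN hCl hCo hBal hev
  have bs : Base k d J h := fp.base.mono fp.J0 (by linarith [fp.Δ0])
  have p8 := bs.p8
  have hd0 : (0 : ℤ) < d := by exact_mod_cast bs.d_pos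
  have hk0 : 0 < k := by linarith only [p8, hd0]
  by_contra hcon
  rw [not_or] at hcon
  obtain ⟨hF, hR⟩ := hcon
  refine hF (hT V G d P (fun v hv => ?_) hev fun A hA B hBP hAB ι _ κ => ?_)
  · linarith only [hCl v hv, bs.Jp, p8]
  have hc0 := cut_nonneg (G := G) P B A
  have hrest := tg_rest_le_cut G (P := P) hAB
  -- the potential is not too negative
  have ha : 0 ≤ FF G k d P B A + 2 * (k - d) * cut G P B A := by
    by_contra hlt
    rw [not_le] at hlt
    have h1 := hBal B hBP A hA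
    have h2 : cut G P B A < L2 := by
      have h3 : (k - d) * cut G P B A < (k - d) * L2 := by linarith only [fp.f3, hlt, h1]
      exact lt_of_mul_lt_mul_left h3 (by linarith)
    have h4 : 0 ≤ (k - d) * cut G P B A := mul_nonneg (by linarith) hc0
    have h5 : h * h < 5 * (B.card : ℤ) := by
      by_contra h6
      rw [not_lt] at h6
      linarith [hB V G k d J h P B A bs hD hN hCl hBP hA hAB h6]
    have h7 : (B.card : ℤ) ≤ ((A ∪ B).card : ℤ) := by
      exact_mod_cast card_le_card subset_union_right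
    rcases hCo (A ∪ B) (union_subset hA hBP) (by linarith [fp.f4]) with h8 | h8
    · linarith [fp.f2]
    · exact hR ⟨A, hA, B, hBP, hAB, h2, h8⟩
  have hid := ident (G := G) bs.kd hBP hA
  have hcl := tg_classes G P (A ∪ B) κ
  set R := P \ (A ∪ B) with hRdef
  set K : ι → Finset V := fun c => R.filter fun w => κ w = c with hK
  have hKP : ∀ c, K c ⊆ P := fun c => (filter_subset _ _).trans sdiff_subset
  set cross := ∑ u ∈ R, dg G (R.filter fun w => κ w ≠ κ u) u with hcross
  have hx0 : 0 ≤ cross := sum_nonneg fun u _ => dg_nonneg _ _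
  -- a class with few outgoing edges is almost everything
  have hbad : ∀ c ∈ R.image κ, (k - d) * ee G (K c) (P \ K c) < 4 * k →
      h * h < ((K c).card : ℤ) ∧ ((P \ K c).card : ℤ) < s := by
    intro c hc hlt
    have he0 := ee_nonneg (G := G) (K c) (P \ K c)
    have h1 : h * h < ((K c).card : ℤ) := by
      by_contra h2
      rw [not_lt] at h2
      have h3 := hC V G k d J h P (K c) bs hN hCl (hKP c) h2
      obtain ⟨u, hu, rfl⟩ := mem_image.mp hc
      have h4 : (1 : ℤ) ≤ ((K (κ u)).card : ℤ) := by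
        have h5 : u ∈ K (κ u) := mem_filter.mpr ⟨hu, rfl⟩
        exact_mod_cast card_pos.mpr ⟨u, h5⟩
      nlinarith only [p8, hlt, he0, h3, h4]
    refine ⟨h1, ?_⟩
    have h5 : ee G (K c) (P \ K c) < L := by
      have h6 : (k - d) * ee G (K c) (P \ K c) < (k - d) * L := by linarith only [fp.f1, hlt]
      exact lt_of_mul_lt_mul_left h6 (by linarith only [p8])
    rcases hCo (K c) (hKP c) h5 with h7 | h7
    · have : (0 : ℤ) ≤ ((K c).card : ℤ) := Int.natCast_nonneg _
      linarith only [fp.f2, h1, h7]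
    · exact h7
  have hone : ((R.image κ).filter fun c => (k - d) * ee G (K c) (P \ K c) < 4 * k).card ≤ 1 := by
    refine card_le_one.mpr fun c hc c' hc' => ?_
    by_contra hne
    obtain ⟨-, h2⟩ := hbad c (mem_filter.mp hc).1 (mem_filter.mp hc).2
    obtain ⟨h3, -⟩ := hbad c' (mem_filter.mp hc').1 (mem_filter.mp hc').2
    have h4 : K c' ⊆ P \ K c := fun w hw =>
      mem_sdiff.mpr ⟨hKP c' hw, fun hw' =>
        hne ((mem_filter.mp hw').2.symm.trans (mem_filter.mp hw).2)⟩
    have h5 : ((K c').card : ℤ) ≤ ((P \ K c).card : ℤ) := by exact_mod_cast card_le_card h4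
    have : (0 : ℤ) ≤ ((K c').card : ℤ) := Int.natCast_nonneg _
    linarith only [fp.f2, h2, h3, h5]
  have hsum : 4 * k * (((R.image κ).card : ℤ) - 1) ≤
      (k - d) * ∑ c ∈ R.image κ, ee G (K c) (P \ K c) := by
    have h1 := card_filter_add_card_filter_not (s := R.image κ)
      (fun c => (k - d) * ee G (K c) (P \ K c) < 4 * k)
    have h2 : ∑ c ∈ (R.image κ).filter fun c => ¬ (k - d) * ee G (K c) (P \ K c) < 4 * k,
        4 * k ≤ ∑ c ∈ R.image κ, (k - d) * ee G (K c) (P \ K c) :=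
      (sum_le_sum fun c hc => not_lt.mp (mem_filter.mp hc).2).trans
        (sum_le_sum_of_subset_of_nonneg (filter_subset _ _) fun c _ _ =>
          mul_nonneg (by linarith only [p8]) (ee_nonneg _ _))
    rw [sum_const, nsmul_eq_mul, ← mul_sum] at h2
    have h3 : ((R.image κ).card : ℤ) - 1 ≤
        (((R.image κ).filter fun c => ¬ (k - d) * ee G (K c) (P \ K c) < 4 * k).card : ℤ) := by
      omega
    nlinarith only [p8, hone, h1, h2]
  have hcl' : ∑ c ∈ R.image κ, ee G (K c) (P \ K c) ≤ cut G P B A + cross := by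
    linarith only [hrest, hcl]
  have h9 : (k - d) * ∑ c ∈ R.image κ, ee G (K c) (P \ K c) ≤
      (k - d) * (cut G P B A + cross) := mul_le_mul_of_nonneg_left hcl' (by linarith only [p8])
  have h10 : (k - d) * cross ≤ 2 * k * cross := mul_le_mul_of_nonneg_right (by linarith only [p8, hd0]) hx0
  have h11 : 2 * k * (2 * ((R.image κ).card : ℤ)) ≤
      2 * k * (2 + 2 * (d * A.card + (ee G B P - d * B.card) - ee G A B) + cross) := by
    linarith only [ha, hid, hsum, h9, h10]
  exact le_of_mul_le_mul_left h11 (by linarith only [p8, hd0])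

end Pool.Agent.MP_0be28d_co.A55

end

section

set_option autoImplicit false

namespace Pool.Agent.MP_0be28d_co.A55

open Finset

section aux
variable {V : Type} [DecidableEq V] {G : SimpleGraph V}

/-- the edges between `X` and `Y` -/
def th_bip (G : SimpleGraph V) (X Y : Finset V) : SimpleGraph V where
  Adj u v := G.Adj u v ∧ ((u ∈ X ∧ v ∈ Y) ∨ (u ∈ Y ∧ v ∈ X))
  symm := ⟨fun _ _ h => ⟨h.1.symm, h.2.symm.imp And.symm And.symm⟩⟩
  loopless := ⟨fun _ h => G.irrefl h.1⟩

omit [DecidableEq V] in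
theorem th_le (X Y : Finset V) : th_bip G X Y ≤ G := fun _ _ h => h.1

omit [DecidableEq V] in
theorem th_comm (X Y : Finset V) : th_bip G X Y = th_bip G Y X := by
  ext u v
  exact and_congr_right fun _ => or_comm

theorem th_dg {X Y : Finset V} (h : Disjoint X Y) {u : V} (hu : u ∈ X) (M : Finset V) :
    dg (th_bip G X Y) M u = dg G (M ∩ Y) u := by
  unfold dg
  congr 2
  ext w
  have := disjoint_left.1 h hu
  simp only [mem_filter, mem_inter, th_bip]
  tauto

theorem th_ee {X Y : Finset V} (h : Disjoint X Y) {B : Finset V} (hB : B ⊆ X) (M : Finset V) :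
    ee (th_bip G X Y) B M = ee G B (M ∩ Y) :=
  sum_congr rfl fun _ hu => th_dg h (hB hu) M

omit [DecidableEq V] in
/-- few vertices have many neighbours -/
theorem th_heavy (B M : Finset V) (Δ : ℤ) :
    Δ * ((B.filter fun u => Δ < dg G M u).card : ℤ) ≤ ee G B M := by
  have h1 := sum_le_sum (s := B.filter fun u => Δ < dg G M u) (f := fun _ => Δ)
    (g := fun u => dg G M u) fun u hu => (mem_filter.1 hu).2.le
  have h2 := ee_mono (G := G) (filter_subset (fun u => Δ < dg G M u) B) (Subset.refl M)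
  rw [sum_const, nsmul_eq_mul, mul_comm] at h1
  exact h1.trans h2

/-- the two sides have almost the same size -/
theorem th_size {k : ℤ} {d : ℕ} {E L2 z : ℤ} {P A B : Finset V} (hd : 0 < d) (hk : 0 < k)
    (hkd : k ≤ 2 * d) (hE : Bal G k d P E) (hA : A ⊆ P) (hB : B ⊆ P) (hc : cut G P B A < L2)
    (f6 : E + 5 * d * L2 ≤ 4 * d * k * z) : (B.card : ℤ) - A.card ≤ z := by
  have h1 := hE B hB A hA
  have h2 := ee_sdiff_right (G := G) B hA
  have h3 := ee_sdiff_right (G := G) A hB
  have h4 := ee_comm (G := G) B A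
  have h5 := ee_nonneg (G := G) A (P \ B)
  have h6 := ee_nonneg (G := G) B (P \ A)
  have hd' : (0 : ℤ) < d := by exact_mod_cast hd
  unfold FF at h1
  rw [out_eq, out_eq] at h1
  have h7 : (k - d) * cut G P B A ≤ d * cut G P B A :=
    mul_le_mul_of_nonneg_right (by linarith only [hkd]) (cut_nonneg _ _ _)
  have h8 : d * cut G P B A ≤ d * L2 := mul_le_mul_of_nonneg_left hc.le hd'.le
  have h9 : d * (ee G B P - ee G A P) ≤ d * cut G P B A :=
    mul_le_mul_of_nonneg_left (by unfold cut; linarith only [h2, h3, h4, h5]) hd'.le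
  have h10 : 4 * d * k * ((B.card : ℤ) - A.card) ≤ 4 * d * k * z := by linarith only [f6, h1, h7, h8, h9]
  exact le_of_mul_le_mul_left h10 (by positivity)

/-- the loss of degree on one side -/
theorem th_loss {P A X Y : Finset V} (h : Disjoint X Y) (hA : A ⊆ P) (hY : Y ⊆ A) {u : V}
    (hu : u ∈ X) :
    dg G P u - dg (th_bip G X Y) (X ∪ Y) u = dg G (P \ A) u + dg G (A \ Y) u := by
  rw [th_dg h hu, union_inter_cancel_right, dg_sdiff hA, dg_sdiff hY]
  ring

theorem th_sum {k : ℤ} (hD : Deg G k) {P A B X Y : Finset V} (h : Disjoint X Y) (hA : A ⊆ P)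
    (hX : X ⊆ B) (hY : Y ⊆ A) :
    ∑ u ∈ X, (dg G P u - dg (th_bip G X Y) (X ∪ Y) u) ≤ ee G B (P \ A) + k * (A \ Y).card := by
  rw [sum_congr rfl fun u hu => th_loss h hA hY hu, sum_add_distrib]
  have h1 := ee_mono (G := G) hX (Subset.refl (P \ A))
  have h2 := ee_le_mul hD (A \ Y) X
  rw [ee_comm] at h2
  exact add_le_add h1 h2

/-- a violation of the Ore condition has negative potential -/
theorem th_viol {k : ℤ} {d : ℕ} (hk : 0 < k) (hkd : k ≤ 2 * d) {X Y B A : Finset V}
    (h : Disjoint X Y) (hB : B ⊆ X) (hA : A ⊆ Y)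
    (hv : d * A.card + ee G B (Y \ A) < (d : ℤ) * B.card) :
    FF (th_bip G X Y) k d (X ∪ Y) B A + 3 * (k - d) * cut (th_bip G X Y) (X ∪ Y) B A < 0 := by
  have h1 := ident (G := th_bip G X Y) hkd (hB.trans (subset_union_left (s₂ := Y)))
    (hA.trans (subset_union_right (s₁ := X)))
  rw [ee_comm A B, th_ee h hB, th_ee h hB, union_inter_cancel_right, inter_eq_left.2 hA] at h1
  rw [ee_sdiff_right _ hA] at hv
  refine h1.trans_lt (mul_neg_of_pos_of_neg (by linarith only [hk]) (by linarith only [hv]))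

/-- edges leaving a subset, counted in a subgraph -/
theorem th_leave {H : SimpleGraph V} (hle : H ≤ G) {P Q U A : Finset V} (hU : U ⊆ P) (hA : A ⊆ U)
    (hQ : A ⊆ Q) (u : V) : dg G (P \ U) u ≤ (dg G P u - dg H Q u) + dg H (Q \ A) u := by
  rw [dg_sdiff hU, dg_sdiff hQ]
  linarith [dg_le_of_le hle A u, dg_mono (G := G) hA u]

end aux

theorem bstep (hO : SOre) (hB : SSmallB) (hP : SPert) (hG : SBig) : SBstep := by
  intro V _ G k d J h L s E Δ L2 ta z P A B par hD hN hC hL hE hne hAP hBP hAB hcut hs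
  have b := par.base
  have hΔ := par.Δ0
  have hd : (0 : ℤ) < d := by exact_mod_cast b.d_pos
  have hp : 0 < k - d := by linarith [b.p8]
  have hk : 0 < k := by linarith only [hd, hp]
  have hbig := hG V G k d J h P (b.mono par.J0 (by linarith)) hN hC hne
  have s1 := th_size b.d_pos hk b.kd hE hAP hBP hcut par.f6
  have s2 := th_size b.d_pos hk b.kd hE hBP hAP (cut_comm (G := G) P B A ▸ hcut) par.f6
  -- heavy vertices
  set TB := B.filter fun u => Δ < dg G (P \ A) u with hTB
  set TA := A.filter fun u => Δ < dg G (P \ B) u with hTA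
  have t1 : (TB.card : ℤ) + TA.card ≤ ta := by
    have h1 := th_heavy (G := G) B (P \ A) Δ
    have h2 := th_heavy (G := G) A (P \ B) Δ
    have h3 := par.f5
    unfold cut at hcut
    refine le_of_mul_le_mul_left (a := Δ) ?_ hΔ
    rw [← hTB] at h1
    rw [← hTA] at h2
    linarith only [hcut, h1, h2, h3]
  have cB : ((B \ TB).card : ℤ) = B.card - TB.card := by
    rw [card_sdiff_of_subset (filter_subset _ _), Nat.cast_sub (card_filter_le _ _)]
  have cA : ((A \ TA).card : ℤ) = A.card - TA.card := by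
    rw [card_sdiff_of_subset (filter_subset _ _), Nat.cast_sub (card_filter_le _ _)]
  obtain ⟨X, hX, cX⟩ := exists_subset_card_eq (min_le_left (B \ TB).card (A \ TA).card)
  obtain ⟨Y, hY, cY⟩ := exists_subset_card_eq (min_le_right (B \ TB).card (A \ TA).card)
  have hXB : X ⊆ B := hX.trans sdiff_subset
  have hYA : Y ⊆ A := hY.trans sdiff_subset
  have hXY : Disjoint X Y := hAB.symm.mono hXB hYA
  have hQ : X ∪ Y ⊆ P := union_subset (hXB.trans hBP) (hYA.trans hAP)
  have eX : ((B \ X).card : ℤ) = B.card - X.card := by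
    rw [card_sdiff_of_subset hXB, Nat.cast_sub (card_le_card hXB)]
  have eY : ((A \ Y).card : ℤ) = A.card - Y.card := by
    rw [card_sdiff_of_subset hYA, Nat.cast_sub (card_le_card hYA)]
  have t2 : ((B \ X).card : ℤ) + (A \ Y).card ≤ 2 * ta + z := by
    have : (0 : ℤ) ≤ TB.card := Int.natCast_nonneg _
    have : (0 : ℤ) ≤ TA.card := Int.natCast_nonneg _
    omega
  have nB : (0 : ℤ) ≤ (B \ X).card := Int.natCast_nonneg _
  have nA : (0 : ℤ) ≤ (A \ Y).card := Int.natCast_nonneg _
  have hQne : (X ∪ Y).Nonempty := by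
    have h1 : ((P \ (A ∪ B)).card : ℤ) = P.card - (A.card + B.card) := by
      rw [card_sdiff_of_subset (union_subset hAP hBP),
        Nat.cast_sub (card_le_card (union_subset hAP hBP)), card_union_of_disjoint hAB]
      push_cast
      rfl
    have h2 := par.f9
    rw [← card_pos, card_union_of_disjoint hXY]
    omega
  have hle := th_le (G := G) X Y
  have hC2 : Clean (th_bip G X Y) k (X ∪ Y) (J + 2 * Δ) := by
    intro u hu
    have h0 := hC u (hQ hu)
    have h7 := par.f7
    rcases mem_union.1 hu with hu | hu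
    · have h1 := th_loss (G := G) hXY hAP hYA hu
      have h2 : ¬ Δ < dg G (P \ A) u := fun e =>
        (mem_sdiff.1 (hX hu)).2 (mem_filter.2 ⟨hXB hu, e⟩)
      have h3 := dg_le_card (G := G) (A \ Y) u
      linarith only [t2, h0, h7, h1, h2, h3]
    · have h1 := th_loss (G := G) hXY.symm hBP hXB hu
      have h2 : ¬ Δ < dg G (P \ B) u := fun e =>
        (mem_sdiff.1 (hY hu)).2 (mem_filter.2 ⟨hYA hu, e⟩)
      have h3 := dg_le_card (G := G) (B \ X) u
      rw [← th_comm, union_comm] at h1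
      linarith only [s1, t1, cX, cY, eX, eY, t2, h0, h7, h1, h2, h3]
  have hNN : ∑ u ∈ X ∪ Y, (dg G P u - dg (th_bip G X Y) (X ∪ Y) u) ≤ L2 + k * (2 * ta + z) := by
    have h1 := th_sum hD hXY hAP hXB hYA
    have h2 := th_sum hD hXY.symm hBP hYA hXB
    rw [← th_comm, union_comm] at h2
    have h3 := mul_le_mul_of_nonneg_left t2 hk.le
    rw [sum_union hXY]
    unfold cut at hcut
    linarith only [hcut, h1, h2, h3]
  have hE2 := (hP V G (th_bip G X Y) k d P (X ∪ Y) E _ (by linarith only [hp]) b.kd hD hle hQ hNN).1 hE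
  refine ⟨X ∪ Y, hQ, hQne, hO V G d X Y hXY (cX.trans cY.symm) fun B2 hB2 A2 hA2 => ?_⟩
  by_contra hv
  rw [not_le] at hv
  have qB : B2 ⊆ X ∪ Y := hB2.trans subset_union_left
  have qA : A2 ⊆ X ∪ Y := hA2.trans subset_union_right
  have v1 := th_viol hk b.kd hXY hB2 hA2 hv
  have v2 := th_viol (G := G) (B := Y \ A2) (A := X \ B2) hk b.kd hXY.symm sdiff_subset
    sdiff_subset (by
      have e : (X.card : ℤ) = Y.card := by exact_mod_cast cX.trans cY.symm
      rw [Finset.sdiff_sdiff_eq_self hB2, ee_comm, card_sdiff_of_subset hB2,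
        card_sdiff_of_subset hA2, Nat.cast_sub (card_le_card hB2), Nat.cast_sub (card_le_card hA2),
        e]
      linarith only [hv])
  rw [← th_comm, union_comm] at v2
  have c1 := mul_nonneg (mul_pos three_pos hp).le (cut_nonneg (G := th_bip G X Y) (X ∪ Y) B2 A2)
  have c2 := mul_nonneg (mul_pos three_pos hp).le
    (cut_nonneg (G := th_bip G X Y) (X ∪ Y) (Y \ A2) (X \ B2))
  have g1 : h * h < 5 * (B2.card : ℤ) := not_le.1 fun e => by
    linarith only [hB V _ k d _ h _ B2 A2 b (hD.anti hle) (hN.anti hle) hC2 qB qA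
      (hXY.symm.mono hA2 hB2) e, v1, c1]
  have g2 : h * h < 5 * ((Y \ A2).card : ℤ) := not_le.1 fun e => by
    linarith only [hB V _ k d _ h _ (Y \ A2) (X \ B2) b (hD.anti hle) (hN.anti hle) hC2
      (sdiff_subset.trans subset_union_right) (sdiff_subset.trans subset_union_left)
      (hXY.mono sdiff_subset sdiff_subset) e, v2, c2]
  have g3 : cut (th_bip G X Y) (X ∪ Y) B2 A2 < L - (L2 + k * (2 * ta + z)) :=
    lt_of_mul_lt_mul_left (a := 3 * (k - d)) (by linarith only [hE2 B2 qB A2 qA, par.f8, v1])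
      (mul_pos three_pos hp).le
  have hBA : Disjoint B2 A2 := hXY.mono hB2 hA2
  have hU : B2 ∪ A2 ⊆ P := (union_subset qB qA).trans hQ
  have g4 : ee G (B2 ∪ A2) (P \ (B2 ∪ A2)) < L := by
    have h1 := sum_le_sum (s := B2) fun u _ => th_leave hle hU subset_union_right qA u
    have h2 := sum_le_sum (s := A2) fun u _ => th_leave hle hU subset_union_left qB u
    have h3 := sum_le_sum_of_subset_of_nonneg (union_subset qB qA)
      (f := fun u => dg G P u - dg (th_bip G X Y) (X ∪ Y) u) fun u _ _ => by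
        linarith only [dg_le_of_le hle (X ∪ Y) u, dg_mono (G := G) hQ u]
    rw [sum_add_distrib] at h1 h2
    rw [sum_union hBA] at h3
    unfold cut ee at g3
    unfold ee
    rw [sum_union hBA]
    linarith only [hNN, g3, h1, h2, h3]
  have h5 := par.f2
  rcases hL _ hU g4 with e | e
  · have : (B2.card : ℤ) ≤ (B2 ∪ A2).card := by exact_mod_cast card_le_card subset_union_left
    linarith only [g1, h5, e, this]
  · have : ((Y \ A2).card : ℤ) ≤ (P \ (B2 ∪ A2)).card := by
      exact_mod_cast card_le_card fun u hu => mem_sdiff.2 ⟨hQ (mem_union_right _ (mem_sdiff.1 hu).1),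
        fun e => (mem_union.1 e).elim
          (fun e => disjoint_left.1 hXY (hB2 e) (mem_sdiff.1 hu).1) (mem_sdiff.1 hu).2⟩
    linarith only [g2, h5, e, this]

end Pool.Agent.MP_0be28d_co.A55

end

section

set_option autoImplicit false

namespace Pool.Agent.MP_0be28d_co.A55

open Finset

theorem ti_dg_erase {V : Type} [DecidableEq V] (G : SimpleGraph V) {P : Finset V} {v : V}
    (hv : v ∈ P) (u : V) : dg G P u = dg G (P.erase v) u + dg G {v} u := by
  have h := dg_sdiff (G := G) (M := P) (N := {v}) (by simpa using hv) u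
  rw [sdiff_singleton_eq_erase] at h
  linarith

theorem ti_ee_single {V : Type} (G : SimpleGraph V) {k : ℤ} (hD : Deg G k) (M : Finset V)
    (v : V) : ee G M {v} ≤ k := by
  rw [ee_comm]
  simpa [ee] using hD M v

theorem ti_two {V : Type} [DecidableEq V] (hT : STstep) (hB : SBstep) (G : SimpleGraph V) (k : ℤ)
    (d : ℕ) (J h L s E Δ L2 ta z : ℤ) (P : Finset V) (fp : FinPar k d J h L s E Δ L2 ta z)
    (hD : Deg G k) (hN : NoC4 G) (hC : Clean G k P J) (hK : Conn G P L s) (hE : Bal G k d P E)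
    (hne : P.Nonempty) (hev : Even P.card) : ∃ W ⊆ P, W.Nonempty ∧ Fac G W d := by
  rcases hT V G k d J h L s E Δ L2 ta z P fp hD hN hC hK hE (hev.mul_left d) with
    hF | ⟨A, hA, B, hB', hdis, hc, hs⟩
  · exact ⟨P, Subset.rfl, hne, hF⟩
  · exact hB V G k d J h L s E Δ L2 ta z P A B fp hD hN hC hK hE hne hA hB' hdis hc hs

theorem final (hT : STstep) (hB : SBstep) (hP : SPert) (hG : SBig) : SFinal := by
  intro V _ G k d J h L s E Δ L2 ta z P hJ fp hD hN hC hK hE hne
  have hd0 : (0 : ℤ) ≤ d := Int.natCast_nonneg d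
  have hp8 := fp.base.p8
  have hkd := fp.base.kd
  have hk0 : 0 ≤ k := by linarith
  have hΔ := fp.Δ0
  rcases Nat.even_or_odd P.card with hev | hodd
  · refine ti_two hT hB G k d (J + 1) h (L - k) s (E + 6 * d * k) Δ L2 ta z P fp hD hN
      (hC.mono (by linarith only [])) (hK.mono (by linarith)) (hE.mono ?_) hne hev
    have : 0 ≤ 6 * (d : ℤ) * k := by positivity
    linarith
  · obtain ⟨v, hv⟩ := hne
    have hbase : Base k d J h := fp.base.mono hJ (by linarith)
    have hbig := hG V G k d J h P hbase hN hC ⟨v, hv⟩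
    have hh := hbase.h1
    have hcard : (P.erase v).card + 1 = P.card := card_erase_add_one hv
    have h2 : 2 ≤ P.card := by
      have : (1 : ℤ) < P.card := by nlinarith only [hbig, hh]
      exact_mod_cast this
    have hne' : (P.erase v).Nonempty := by
      rw [← card_pos]
      omega
    have hev : Even (P.erase v).card := by
      rcases hodd with ⟨r, hr⟩
      exact ⟨r, by omega⟩
    have hC' : Clean G k (P.erase v) (J + 1) := by
      intro u hu
      have h1 := hC u (mem_of_mem_erase hu)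
      have h2 := ti_dg_erase G hv u
      have h3 := dg_le_card (G := G) {v} u
      simp only [card_singleton, Nat.cast_one] at h3
      linarith only [h1, h2, h3]
    have hK' : Conn G (P.erase v) (L - k) s := by
      intro U hU hlt
      have hUP : U ⊆ P := hU.trans (erase_subset v P)
      have hvU : v ∉ U := fun hvU => (notMem_erase v P) (hU hvU)
      have hsub : P \ U ⊆ (P.erase v \ U) ∪ {v} := by
        intro x hx
        simp only [mem_union, mem_sdiff, mem_erase, mem_singleton] at hx ⊢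
        by_cases hxv : x = v
        · exact Or.inr hxv
        · exact Or.inl ⟨⟨hxv, hx.1⟩, hx.2⟩
      have hdis : Disjoint (P.erase v \ U) {v} := by
        simp
      have h1 : ee G U (P \ U) ≤ ee G U (P.erase v \ U) + ee G U {v} := by
        rw [← ee_union_right U hdis]
        exact ee_mono Subset.rfl hsub
      have h2 := ti_ee_single G hD U v
      rcases hK U hUP (by linarith only [hlt, h1, h2]) with h3 | h3
      · exact Or.inl h3
      · refine Or.inr (lt_of_le_of_lt ?_ h3)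
        exact_mod_cast card_le_card (sdiff_subset_sdiff (erase_subset v P) Subset.rfl)
    have hE' : Bal G k d (P.erase v) (E + 6 * d * k) := by
      refine (hP V G G k d P (P.erase v) E k (by linarith only [hp8]) hkd hD le_rfl (erase_subset v P) ?_).1 hE
      have h1 : ∑ u ∈ P.erase v, (dg G P u - dg G (P.erase v) u) = ee G (P.erase v) {v} := by
        refine sum_congr rfl fun u _ => ?_
        have := ti_dg_erase G hv u
        linarith only [this]
      rw [h1]
      exact ti_ee_single G hD _ v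
    obtain ⟨W, hW, hWne, hF⟩ := ti_two hT hB G k d (J + 1) h (L - k) s (E + 6 * d * k) Δ L2 ta z
      (P.erase v) fp hD hN hC' hK' hE' hne' hev
    exact ⟨W, hW.trans (erase_subset v P), hWne, hF⟩

open Classical in
theorem ti_common {V : Type} {G : SimpleGraph V} (hN : NoC4 G) {u v : V} (huv : u ≠ v)
    (S : Finset V) : dg G S u + dg G S v ≤ S.card + 1 := by
  unfold dg
  have h1 := card_union_add_card_inter (S.filter fun w => G.Adj u w) (S.filter fun w => G.Adj v w)
  have h2 : ((S.filter fun w => G.Adj u w) ∪ (S.filter fun w => G.Adj v w)).card ≤ S.card :=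
    card_le_card (union_subset (filter_subset _ _) (filter_subset _ _))
  have h3 : ((S.filter fun w => G.Adj u w) ∩ (S.filter fun w => G.Adj v w)).card ≤ 1 := by
    refine card_le_one.mpr fun a ha b hb => ?_
    simp only [mem_inter, mem_filter] at ha hb
    exact hN u v a b huv ha.1.2 ha.2.2 hb.1.2 hb.2.2
  have h4 : (S.filter fun w => G.Adj u w).card + (S.filter fun w => G.Adj v w).card ≤
      S.card + 1 := by omega
  exact_mod_cast h4

theorem init (hp : SPair) : SInit := by
  classical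
  intro V _ G k Δ S C hreg hN hk hs hΔ hkΔ h2Δ
  have hD : Deg G (k : ℤ) := fun M v => (dg_mono (subset_univ M) v).trans (hreg v).le
  have hS : (S.card : ℤ) + 1 ≤ k := by
    have := hs.card
    have : S.card + 1 ≤ k := by omega
    exact_mod_cast this
  have hS0 : (0 : ℤ) ≤ S.card := Int.natCast_nonneg _
  -- degrees of vertices of `C`
  have hdeg : ∀ v ∈ C, (k : ℤ) ≤ dg G C v + dg G S v := by
    intro v hv
    have h1 : dg G univ v ≤ dg G (C ∪ S) v := by
      unfold dg
      exact_mod_cast card_le_card fun w hw => by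
        simp only [mem_filter, mem_univ, true_and, mem_union] at hw ⊢
        exact ⟨hs.closed v hv w hw, hw⟩
    have h2 := dg_union_le (G := G) C S v
    rw [hreg v] at h1
    linarith only [h1, h2]
  set T : Finset V := C.filter fun u => Δ < dg G S u with hT
  have hTΔ : (T.card : ℤ) ≤ Δ := by
    have h1 := hp V G hN S T
    have h2 : ∑ _u ∈ T, Δ * Δ ≤ ∑ u ∈ T, dg G S u * (dg G S u - 1) := by
      refine sum_le_sum fun u hu => ?_
      have := (mem_filter.mp hu).2
      nlinarith only [hΔ, this]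
    simp only [sum_const, nsmul_eq_mul] at h2
    have h3 : (S.card : ℤ) * S.card ≤ k * k := by nlinarith only [hS]
    have h4 : (T.card : ℤ) * (Δ * Δ) ≤ Δ * (Δ * Δ) := by linarith only [hkΔ, h1, h2, h3]
    exact le_of_mul_le_mul_right h4 (by positivity)
  have hTC : T ⊆ C := filter_subset _ _
  have hdeg' : ∀ v ∈ C, (k : ℤ) ≤ dg G (C \ T) v + dg G T v + dg G S v := by
    intro v hv
    have h1 := hdeg v hv
    have h2 := dg_sdiff (G := G) hTC v
    linarith only [h1, h2]
  refine ⟨C \ T, sdiff_subset, ?_, ?_, ?_⟩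
  · by_contra hne
    rw [not_nonempty_iff_eq_empty, sdiff_eq_empty_iff_subset] at hne
    have hCΔ : (C.card : ℤ) ≤ Δ := le_trans (by exact_mod_cast card_le_card hne) hTΔ
    obtain ⟨v, hv⟩ := hs.ne
    have h1 : 0 < dg G C v := by
      have := hdeg v hv
      have := dg_le_card (G := G) S v
      linarith
    have h2 : (C.filter fun w => G.Adj v w).Nonempty := by
      rw [← card_pos]
      unfold dg at h1
      exact_mod_cast h1
    obtain ⟨u, hu⟩ := h2
    rw [mem_filter] at hu
    have h3 := ti_common hN hu.2.ne S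
    have h4 := hdeg v hv
    have h5 := hdeg u hu.1
    have h6 := dg_le_card (G := G) C v
    have h7 := dg_le_card (G := G) C u
    linarith
  · intro v hv
    have hv' := mem_sdiff.mp hv
    have h1 := hdeg' v hv'.1
    have h2 : dg G S v ≤ Δ := by
      by_contra hlt
      exact hv'.2 (mem_filter.mpr ⟨hv'.1, not_le.mp hlt⟩)
    have h3 := dg_le_card (G := G) T v
    linarith
  · have h1 : out G k (C \ T) (C \ T) ≤ ee G (C \ T) T + ee G (C \ T) S := by
      unfold out ee
      rw [← sum_add_distrib]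
      refine sum_le_sum fun u hu => ?_
      have := hdeg' u (mem_sdiff.mp hu).1
      linarith only [this]
    rw [ee_comm (C \ T) T, ee_comm (C \ T) S] at h1
    have h2 := ee_le_mul hD T (C \ T)
    have h3 := ee_le_mul hD S (C \ T)
    have hk0 : (0 : ℤ) ≤ k := Int.natCast_nonneg _
    nlinarith only [h2Δ, hS, hTΔ, h1, h2, h3]

end Pool.Agent.MP_0be28d_co.A55

end

section

set_option autoImplicit false

namespace Pool.Agent.MP_0be28d_co.A55

open Finset

section
variable {V : Type} [DecidableEq V] {G : SimpleGraph V} {k : ℤ} {d : ℕ}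

/-- a state of the recursion -/
structure TjSt (G : SimpleGraph V) (k : ℤ) (d : ℕ) (par : Par k d) (P0 P T : Finset V) (i : ℕ) :
    Prop where
  sub : P ⊆ P0
  ne : P.Nonempty
  dis : Disjoint P T
  sz : 2 ^ i * P.card ≤ P0.card
  cl : ∀ u ∈ P, k ≤ dg G P u + 2 * par.Δ * (i + 1) + dg G T u
  dT : ∀ u ∈ P, dg G T u ≤ par.Δ
  bal : Bal G k d P (8 * d * (k * k) + 6 * d * i * (par.L + k * par.tc) - d * k * T.card)
  out : out G k P P ≤ 2 * (k * k) + i * (par.L + k * par.tc) + k * T.card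

omit [DecidableEq V] in
theorem tj_card_le (M : Finset V) (f : V → ℤ) (c : ℤ) (h : ∀ u ∈ M, c ≤ f u) :
    (M.card : ℤ) * c ≤ ∑ u ∈ M, f u := by
  simpa only [sum_const, Int.nsmul_eq_mul] using sum_le_sum (s := M) (f := fun _ => c) h

theorem tj_cut {par : Par k d} {P0 P T U : Finset V} {i : ℕ} (hP : SPert) (hD : Deg G k)
    (st : TjSt G k d par P0 P T i) (hU : U ⊆ P) (hL : ee G U (P \ U) < par.L)
    (hs : par.s ≤ U.card) (h2 : 2 * U.card ≤ P.card) :
    ∃ Q : Finset V, Q.card < P.card ∧ TjSt G k d par P0 Q T (i + 1) := by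
  classical
  have b := par.star.base
  have d0 : (0 : ℤ) < d := by exact_mod_cast b.d_pos
  have dk : (d : ℤ) ≤ k := by linarith only [b.p8]
  have Δ2 := par.Δ2
  set C := U.filter fun u => par.Δ < dg G (P \ U) u with hC
  have CU : C ⊆ U := filter_subset _ _
  have c1 : (C.card : ℤ) < par.tc := by
    have h1 := tj_card_le C (dg G (P \ U)) par.Δ fun u hu => (mem_filter.1 hu).2.le
    have h3 : ee G C (P \ U) ≤ ee G U (P \ U) := ee_mono CU subset_rfl
    have h4 : (C.card : ℤ) * par.Δ < par.tc * par.Δ := by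
      unfold ee at h3; linarith only [par.r1, show ee G U (P \ U) = ∑ u ∈ U, dg G (P \ U) u from rfl, hL, h1, h3]
    exact lt_of_mul_lt_mul_right h4 (by linarith only [Δ2])
  have QU : U \ C ⊆ U := sdiff_subset
  have cq := card_le_card QU
  have p0 := st.ne.card_pos
  have e : ∀ u, dg G P u - dg G (U \ C) u = dg G (P \ U) u + dg G C u := fun u => by
    rw [dg_sdiff CU, dg_sdiff hU]; ring
  have hN : ∑ u ∈ U \ C, (dg G P u - dg G (U \ C) u) ≤ par.L + k * par.tc := by
    simp only [e, sum_add_distrib]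
    have h1 : ee G (U \ C) (P \ U) ≤ ee G U (P \ U) := ee_mono QU subset_rfl
    have h3 := ee_le_mul hD C (U \ C)
    rw [ee_comm] at h3
    have h4 : k * (C.card : ℤ) ≤ k * par.tc := mul_le_mul_of_nonneg_left c1.le (by linarith only [d0, dk])
    unfold ee at h1 h3 hL
    linarith only [hL, h1, h3, h4]
  obtain ⟨q1, q2⟩ := hP V G G k d P (U \ C) _ _ dk b.kd hD le_rfl (QU.trans hU) hN
  refine ⟨U \ C, by omega, (QU.trans hU).trans st.sub, ?_,
    st.dis.mono_left (QU.trans hU), ?_, fun u hu => ?_, fun u hu => st.dT u (hU (QU hu)),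
    (q1 st.bal).mono (by push_cast; linarith only []), by have := st.out; push_cast; linarith only [q2, this]⟩
  · rw [← card_pos, card_sdiff_of_subset CU]
    have : (C.card : ℤ) < U.card := by linarith only [par.r3, hs, c1]
    omega
  · calc 2 ^ (i + 1) * (U \ C).card = 2 ^ i * (2 * (U \ C).card) := by ring
      _ ≤ 2 ^ i * P.card := Nat.mul_le_mul_left _ (by omega)
      _ ≤ _ := st.sz
  · have h1 := st.cl u (hU (QU hu))
    have h3 := e u
    have h4 := dg_le_card (G := G) C u
    have h5 : dg G (P \ U) u ≤ par.Δ :=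
      not_lt.1 fun h => (mem_sdiff.1 hu).2 (mem_filter.2 ⟨QU hu, h⟩)
    have := par.r2
    push_cast
    linarith only [c1, h1, h3, h4, h5, this]

theorem tj_del {par : Par k d} {P0 P T : Finset V} {i : ℕ} {v : V} (hP : SPert) (hD : Deg G k)
    (st : TjSt G k d par P0 P T i) (hv : v ∈ P) (h2 : 1 < P.card)
    (hb : Bal G k d (P.erase v)
      (8 * d * (k * k) + 6 * d * i * (par.L + k * par.tc) - d * k * T.card - d * k))
    (hn : ∀ u ∈ P, G.Adj u v → dg G T u < par.Δ) :
    TjSt G k d par P0 (P.erase v) (insert v T) i := by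
  classical
  have b := par.star.base
  have dk : (d : ℤ) ≤ k := by linarith only [b.p8]
  have vT : v ∉ T := disjoint_left.1 st.dis hv
  have e : ∀ u, dg G P u - dg G (P.erase v) u = dg G {v} u := fun u => by
    rw [← sdiff_singleton_eq_erase, dg_sdiff (singleton_subset_iff.2 hv)]; ring
  have e' : ∀ u, dg G (insert v T) u = dg G {v} u + dg G T u := fun u => by
    rw [insert_eq, dg_union (disjoint_singleton_left.2 vT)]
  have hN : ∑ u ∈ P.erase v, (dg G P u - dg G (P.erase v) u) ≤ k := by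
    simp only [e]
    have h3 := ee_le_mul hD {v} (P.erase v)
    rw [ee_comm, card_singleton] at h3
    unfold ee at h3
    simpa using h3
  have q2 := (hP V G G k d P (P.erase v) 0 _ dk b.kd hD le_rfl (erase_subset _ _) hN).2
  have ct : ((insert v T).card : ℤ) = T.card + 1 := by rw [card_insert_of_notMem vT]; push_cast; rfl
  refine ⟨(erase_subset _ _).trans st.sub, ?_, ?_,
    (Nat.mul_le_mul_left _ card_erase_le).trans st.sz, fun u hu => ?_, fun u hu => ?_,
    hb.mono (by rw [ct]; linarith only []), by have := st.out; rw [ct]; linarith only [q2, this]⟩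
  · rw [← card_pos, card_erase_of_mem hv]; omega
  · rw [disjoint_insert_right]
    exact ⟨notMem_erase _ _, st.dis.mono_left (erase_subset _ _)⟩
  · have := st.cl u (mem_of_mem_erase hu)
    linarith only [e u, e' u, this]
  · rw [e', dg_singleton]
    split_ifs with h
    · linarith only [hn u (mem_of_mem_erase hu) h]
    · linarith only [st.dT u (mem_of_mem_erase hu)]

end

theorem recur (hp : SPair) (hG : SBig) (hM : SMinPair) (hP : SPert) (hD : SDel) (hS : SStar)
    (hF : SFinal) : SRec := by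
  intro V _ G k d par P0 hk h4 ne0 cl0 out0 sz0
  classical
  have b := par.star.base
  have d0 : (0 : ℤ) < d := by exact_mod_cast b.d_pos
  have dk : (d : ℤ) ≤ k := by linarith only [b.p8]
  have k0 : 0 < k := by linarith only [d0, dk]
  have Δ2 := par.Δ2
  have tc0 : 0 ≤ par.tc := nonneg_of_mul_nonneg_left (par.L0.trans par.r1) (by linarith only [Δ2])
  have N0 : 0 ≤ par.L + k * par.tc := add_nonneg par.L0 (mul_nonneg k0.le tc0)
  suffices H : ∀ (n : ℕ) (P T : Finset V) (i : ℕ), P.card = n → TjSt G k d par P0 P T i →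
      ∃ W ⊆ P0, W.Nonempty ∧ Fac G W d by
    refine H _ P0 ∅ 0 rfl ⟨subset_rfl, ne0, disjoint_empty_right _, by simp, fun u hu => ?_,
      fun u _ => by rw [dg_empty]; linarith only [Δ2], fun B hB A _ => ?_, by simpa only [CharP.cast_eq_zero, zero_mul, add_zero, card_empty, mul_zero] using out0⟩
    · have := cl0 u hu
      rw [dg_empty]; push_cast; linarith only [this]
    · have h1 := out_nonneg hk P0 A
      have h2 := (out_mono hk P0 hB).trans out0
      have h3 := mul_nonneg (sub_nonneg.2 dk) (cut_nonneg (G := G) P0 B A)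
      have h5 := mul_le_mul_of_nonneg_left h2 d0.le
      have h6 := mul_nonneg d0.le h1
      unfold FF
      simp only [card_empty, Nat.cast_zero]
      linarith only [h3, h5, h6]
  intro n
  induction n using Nat.strong_induction_on with
  | _ n ih =>
  intro P T i hn st
  subst hn
  have p0 := st.ne.card_pos
  have iρ : i < par.ρ := (Nat.pow_lt_pow_iff_right (by norm_num : 1 < 2)).1
    (((Nat.le_mul_of_pos_right _ p0).trans st.sz).trans_lt sz0)
  have iρ' : (i : ℤ) + 1 ≤ par.ρ := by exact_mod_cast iρ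
  have iN : (i : ℤ) * (par.L + k * par.tc) ≤ par.ρ * (par.L + k * par.tc) :=
    mul_le_mul_of_nonneg_right (by linarith only [iρ]) N0
  have t1 : (T.card : ℤ) ≤ par.t1 := by
    have h1 := st.bal ∅ (empty_subset _) ∅ (empty_subset _)
    rw [FF_empty] at h1
    have h2 := mul_le_mul_of_nonneg_left iN d0.le
    have h3 := mul_le_mul_of_nonneg_left par.r4 d0.le
    exact le_of_mul_le_mul_left (a := d * k) (by linarith only [h1, h2, h3]) (mul_pos d0 k0)
  have cl : Clean G k P (par.Δ * (2 * par.ρ + 1)) := fun u hu => by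
    have := mul_le_mul_of_nonneg_left iρ' (show 0 ≤ par.Δ by linarith only [Δ2])
    linarith only [st.cl u hu, st.dT u hu, this]
  have ou : out G k P P ≤ par.Dm := by
    have := mul_le_mul_of_nonneg_left t1 k0.le
    linarith only [st.out, par.r5, iN, this]
  by_cases hc : Conn G P par.L par.s
  · obtain ⟨B, A, δ, mp⟩ := hM V G k d P dk
    by_cases hδ : δ ≤ 4 * par.m * d * k
    · obtain ⟨W, w1, w2⟩ := hF V G k d _ _ _ _ _ _ _ _ _ P b.J0 par.fin hk h4 cl hc
        (mp.bal.mono hδ) st.ne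
      exact ⟨W, w1.trans st.sub, w2⟩
    set Hv := P.filter fun u => par.Δ ≤ dg G T u with hHv
    set Bl := P.filter fun v => ∃ u ∈ Hv, G.Adj v u with hBl
    have c1 : (Hv.card : ℤ) ≤ par.β0 := by
      have h1 := tj_card_le Hv (fun u => dg G T u * (dg G T u - 1)) (par.Δ * (par.Δ - 1))
        fun u hu => by
          have := (mem_filter.1 hu).2
          exact mul_le_mul this (by linarith only [this]) (by linarith only [Δ2]) (by linarith only [Δ2, this])
      have h2 := hp V G h4 T Hv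
      have h3 : (T.card : ℤ) * T.card ≤ par.t1 * par.t1 :=
        mul_self_le_mul_self (Int.natCast_nonneg _) t1
      exact le_of_mul_le_mul_right (a := par.Δ * (par.Δ - 1)) (by linarith only [par.r6, h1, h2, h3])
        (mul_pos (by linarith only [Δ2]) (by linarith only [Δ2]))
    have c2 : (Bl.card : ℤ) ≤ k * par.β0 := by
      have h1 := tj_card_le Bl (dg G Hv) 1 fun v hv => by
        obtain ⟨u, hu, a⟩ := (mem_filter.1 hv).2
        have := dg_mono (G := G) (singleton_subset_iff.2 hu) v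
        rwa [dg_singleton, if_pos a] at this
      have h2 := ee_le_mul hk Hv Bl
      rw [ee_comm] at h2
      unfold ee at h2
      linarith only [mul_le_mul_of_nonneg_left c1 k0.le, h1, h2]
    obtain ⟨v, hv, vB, gd⟩ := hS V G k d _ _ _ _ _ _ _ _ P B A Bl δ par.star hk h4 cl hc ou c2 mp
      (not_le.1 hδ)
    have big := hG V G k d _ _ P b h4 cl st.ne
    have h1 : 1 < P.card := by
      have : (1 : ℤ) < P.card := by nlinarith only [b.h1, big]
      exact_mod_cast this
    have hδ' := st.bal B mp.hB A mp.hA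
    rw [mp.val] at hδ'
    exact ih _ (card_erase_lt_of_mem hv) _ _ i rfl (tj_del hP hk st hv h1
      ((hD V G k d P B A δ v dk b.kd hk mp hv gd).mono (by linarith only [hδ']))
      fun u hu a => not_le.1 fun h =>
        vB (mem_filter.2 ⟨hv, u, mem_filter.2 ⟨hu, h⟩, a.symm⟩))
  · unfold Conn at hc
    push Not at hc
    obtain ⟨U, hU, h1, h2, h3⟩ := hc
    have hcd := card_sdiff_add_card_eq_card hU
    obtain ⟨Q, q1, q2⟩ : ∃ Q : Finset V, Q.card < P.card ∧ TjSt G k d par P0 Q T (i + 1) := by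
      rcases le_total U.card (P \ U).card with h | h
      · exact tj_cut hP hk st hU h1 h2 (by omega)
      · refine tj_cut hP hk st sdiff_subset ?_ h3 (by omega)
        rwa [Finset.sdiff_sdiff_eq_self hU, ee_comm]
    exact ih _ q1 Q T _ rfl q2

end Pool.Agent.MP_0be28d_co.A55

end

section

set_option autoImplicit false

namespace Pool.Agent.MP_0be28d_co.A55

open Finset

theorem tk_pw {Y : ℤ} (hY : 1000000 ≤ Y) (a b : ℕ) (h : a < b) : 1000000 * Y ^ a ≤ Y ^ b := by
  have h0 : 0 ≤ Y ^ a := pow_nonneg (by linarith only [hY]) a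
  have h1 : Y ^ (a + 1) ≤ Y ^ b := pow_le_pow_right₀ (by linarith only [hY]) h
  have h2 : 1000000 * Y ^ a ≤ Y * Y ^ a := mul_le_mul_of_nonneg_right hY h0
  rw [pow_succ'] at h1
  exact h2.trans h1

theorem tk_one {Y : ℤ} (hY : 1000000 ≤ Y) (a : ℕ) : 1 ≤ Y ^ a := one_le_pow₀ (by linarith)

/-- the hypotheses on the integers `Y`, `K`, `D` -/
structure TkH (Y K D : ℤ) : Prop where
  hY : 1000000 ≤ Y
  lo : Y ^ 28 ≤ K
  hi : K ≤ 4 * Y ^ 28
  gap : D + Y ^ 26 ≤ K
  kd : K ≤ 2 * D

namespace TkH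

variable {Y K D : ℤ}

theorem K0 (H : TkH Y K D) : 0 < K := by linarith [H.lo, tk_one H.hY 28]

theorem D0 (H : TkH Y K D) : 0 < D := by linarith [H.K0, H.kd]

theorem DK (H : TkH Y K D) : D ≤ K := by linarith [H.gap, tk_one H.hY 26]

theorem Dhi (H : TkH Y K D) : D ≤ 4 * Y ^ 28 := H.DK.trans H.hi

theorem Khi (H : TkH Y K D) (a : ℕ) : K * Y ^ a ≤ 4 * Y ^ 28 * Y ^ a :=
  mul_le_mul_of_nonneg_right H.hi (by linarith [tk_one H.hY a])

theorem Klo (H : TkH Y K D) (a : ℕ) : Y ^ 28 * Y ^ a ≤ K * Y ^ a :=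
  mul_le_mul_of_nonneg_right H.lo (by linarith [tk_one H.hY a])

theorem Dhi' (H : TkH Y K D) (a : ℕ) : D * Y ^ a ≤ 4 * Y ^ 28 * Y ^ a :=
  mul_le_mul_of_nonneg_right H.Dhi (by linarith [tk_one H.hY a])

theorem DKhi (H : TkH Y K D) (a : ℕ) : D * K * Y ^ a ≤ 4 * Y ^ 28 * (4 * Y ^ 28) * Y ^ a :=
  mul_le_mul_of_nonneg_right
    (mul_le_mul H.Dhi H.hi H.K0.le (by linarith [tk_one H.hY 28])) (by linarith only [tk_one H.hY a])

theorem plo (H : TkH Y K D) {x : ℤ} (hx : 0 ≤ x) : Y ^ 26 * x ≤ (K - D) * x :=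
  mul_le_mul_of_nonneg_right (by linarith [H.gap]) hx

theorem Kpw (H : TkH Y K D) (a b : ℕ) (h : a < b) : K * (1000000 * Y ^ a) ≤ K * Y ^ b :=
  mul_le_mul_of_nonneg_left (tk_pw H.hY a b h) H.K0.le

theorem r4 (H : TkH Y K D) :
    8 * (K * K) + 6 * Y * (Y ^ 48 + K * Y ^ 24) ≤ K * (33 * Y ^ 28) := by
  have a1 : K * K ≤ K * (4 * Y ^ 28) := mul_le_mul_of_nonneg_left H.hi H.K0.le
  have a2 := H.Klo 21
  have a3 := H.Kpw 21 28 (by norm_num)
  have a4 := H.Kpw 25 28 (by norm_num)
  have a5 : 0 ≤ K * Y ^ 28 := mul_nonneg H.K0.le (by linarith [tk_one H.hY 28])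
  linarith

theorem r5 (H : TkH Y K D) :
    2 * (K * K) + Y * (Y ^ 48 + K * Y ^ 24) + K * (33 * Y ^ 28) ≤ 165 * Y ^ 56 := by
  have a1 : K * K ≤ K * (4 * Y ^ 28) := mul_le_mul_of_nonneg_left H.hi H.K0.le
  have a2 := H.Khi 28
  have a3 := H.Khi 25
  have a4 := tk_pw H.hY 49 56 (by norm_num)
  have a5 := tk_pw H.hY 53 56 (by norm_num)
  have a6 := tk_one H.hY 56
  linarith

theorem r6 (H : TkH Y K D) :
    33 * Y ^ 28 * (33 * Y ^ 28) ≤ Y ^ 9 * (Y ^ 24 * (Y ^ 24 - 1)) := by
  have a4 := tk_pw H.hY 56 57 (by norm_num)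
  have a5 := tk_pw H.hY 33 57 (by norm_num)
  have a6 := tk_one H.hY 57
  linarith

theorem J8 (H : TkH Y K D) : 8 * (Y ^ 24 * (2 * Y + 1) + 1 + 2 * Y ^ 24) ≤ K - D := by
  have a1 := tk_pw H.hY 25 26 (by norm_num)
  have a2 := tk_pw H.hY 24 26 (by norm_num)
  have a3 := tk_pw H.hY 0 26 (by norm_num)
  have a4 := H.gap
  linarith

theorem Jk (H : TkH Y K D) :
    16 * (Y ^ 24 * (2 * Y + 1) + 1 + 2 * Y ^ 24 + 2 * Y ^ 27) ≤ K := by
  have a1 := tk_pw H.hY 25 28 (by norm_num)
  have a2 := tk_pw H.hY 24 28 (by norm_num)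
  have a3 := tk_pw H.hY 0 28 (by norm_num)
  have a5 := tk_pw H.hY 27 28 (by norm_num)
  have a4 := H.lo
  linarith

theorem J0 (H : TkH Y K D) : 0 ≤ Y ^ 24 * (2 * Y + 1) :=
  mul_nonneg (by linarith [tk_one H.hY 24]) (by linarith only [H.hY])

theorem i1 (H : TkH Y K D) : 7 * (Y ^ 11 + 2) * D * K ≤ (K - D) * Y ^ 48 := by
  have a1 := H.DKhi 11
  have a2 := H.DKhi 0
  have a3 := H.plo (x := Y ^ 48) (by linarith [tk_one H.hY 48])
  have a4 := tk_pw H.hY 67 74 (by norm_num)
  have a5 := tk_pw H.hY 56 74 (by norm_num)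
  have a6 := tk_one H.hY 74
  linarith

theorem i2 (H : TkH Y K D) : 24 * D * (165 * Y ^ 56) < Y ^ 11 * (K - D) * Y ^ 48 := by
  have a1 := H.Dhi' 56
  have a3 := H.plo (x := Y ^ 59) (by linarith [tk_one H.hY 59])
  have a4 := tk_pw H.hY 84 85 (by norm_num)
  have a6 := tk_one H.hY 85
  linarith only [a1, a3, a4, a6]

theorem i4 (H : TkH Y K D) :
    (K - D) * K * (K * Y ^ 9) + 16 * (4 * Y ^ 11 * D * K + 8 * D * (165 * Y ^ 56)) ≤
      (K - D) * K * (5 * Y ^ 37) := by
  have p0 : 0 ≤ (K - D) * K := mul_nonneg (by linarith [H.DK]) H.K0.le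
  have a1 : (K - D) * K * (K * Y ^ 9) ≤ (K - D) * K * (4 * Y ^ 28 * Y ^ 9) :=
    mul_le_mul_of_nonneg_left (H.Khi 9) p0
  have a2 := H.plo (x := K * Y ^ 37) (mul_nonneg H.K0.le (by linarith [tk_one H.hY 37]))
  have a3 : K * (D * Y ^ 11) ≤ K * (4 * Y ^ 28 * Y ^ 11) :=
    mul_le_mul_of_nonneg_left (H.Dhi' 11) H.K0.le
  have a4 : D * Y ^ 56 ≤ K * Y ^ 56 :=
    mul_le_mul_of_nonneg_right H.DK (by linarith [tk_one H.hY 56])
  have a5 := H.Kpw 39 63 (by norm_num)
  have a6 := H.Kpw 56 63 (by norm_num)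
  have a7 : 0 ≤ K * Y ^ 63 := mul_nonneg H.K0.le (by linarith [tk_one H.hY 63])
  linarith

theorem f1 (H : TkH Y K D) : 4 * K ≤ (K - D) * (Y ^ 48 - K) := by
  have a1 := tk_pw H.hY 28 48 (by norm_num)
  have a2 := tk_one H.hY 28
  have a3 := H.hi
  have a4 : 0 ≤ Y ^ 48 - K := by linarith
  have a5 : 1 * (Y ^ 48 - K) ≤ (K - D) * (Y ^ 48 - K) :=
    mul_le_mul_of_nonneg_right (by linarith [H.gap, tk_one H.hY 26]) a4
  linarith

theorem f3 (H : TkH Y K D) :
    4 * Y ^ 11 * D * K + 6 * D * K ≤ 2 * (K - D) * (33 * Y ^ 41) := by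
  have a1 := H.DKhi 11
  have a2 := H.DKhi 0
  have a3 := H.plo (x := Y ^ 41) (by linarith [tk_one H.hY 41])
  have a5 := tk_pw H.hY 56 67 (by norm_num)
  have a6 := tk_one H.hY 67
  linarith

theorem f4 (H : TkH Y K D) : 33 * Y ^ 41 ≤ Y ^ 48 - K := by
  have a1 := tk_pw H.hY 28 48 (by norm_num)
  have a2 := tk_pw H.hY 41 48 (by norm_num)
  have a3 := H.hi
  have a6 := tk_one H.hY 48
  linarith

theorem f6 (H : TkH Y K D) :
    4 * Y ^ 11 * D * K + 6 * D * K + 5 * D * (33 * Y ^ 41) ≤ 4 * D * K * (43 * Y ^ 13) := by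
  have a1 := H.Klo 13
  have a2 := H.Kpw 11 13 (by norm_num)
  have a3 := H.Kpw 0 13 (by norm_num)
  have a4 : 0 ≤ K * Y ^ 13 := mul_nonneg H.K0.le (by linarith [tk_one H.hY 13])
  have a5 : 4 * Y ^ 11 * K + 6 * K + 5 * (33 * Y ^ 41) ≤ 4 * K * (43 * Y ^ 13) := by linarith only [a1, a2, a3, a4]
  have a6 := mul_le_mul_of_nonneg_left a5 H.D0.le
  linarith

theorem f7 (H : TkH Y K D) : 2 * (33 * Y ^ 17) + 43 * Y ^ 13 ≤ Y ^ 24 := by
  have a1 := tk_pw H.hY 17 24 (by norm_num)
  have a2 := tk_pw H.hY 13 24 (by norm_num)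
  have a6 := tk_one H.hY 24
  linarith

theorem f8 (H : TkH Y K D) :
    4 * Y ^ 11 * D * K + 6 * D * K +
        6 * D * (33 * Y ^ 41 + K * (2 * (33 * Y ^ 17) + 43 * Y ^ 13)) ≤
      3 * (K - D) * (Y ^ 48 - K - (33 * Y ^ 41 + K * (2 * (33 * Y ^ 17) + 43 * Y ^ 13))) := by
  have b1 := H.Khi 17
  have b2 := H.Khi 13
  have b3 := H.hi
  have b4 := tk_pw H.hY 28 48 (by norm_num)
  have b5 := tk_pw H.hY 41 48 (by norm_num)
  have b6 := tk_pw H.hY 45 48 (by norm_num)
  have b7 := tk_one H.hY 48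
  have b8 : Y ^ 48 ≤
      3 * (Y ^ 48 - K - (33 * Y ^ 41 + K * (2 * (33 * Y ^ 17) + 43 * Y ^ 13))) := by linarith
  have b9 := mul_le_mul_of_nonneg_left b8 (show 0 ≤ K - D by linarith [H.DK])
  have a1 := H.DKhi 11
  have a2 := H.DKhi 0
  have a3 := H.plo (x := Y ^ 48) (by linarith)
  have a4 := H.DKhi 17
  have a5 := H.DKhi 13
  have a6 := H.Dhi' 41
  have a7 := tk_pw H.hY 67 74 (by norm_num)
  have a8 := tk_pw H.hY 56 74 (by norm_num)
  have a9 := tk_pw H.hY 69 74 (by norm_num)
  have a10 := tk_pw H.hY 73 74 (by norm_num)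
  have a11 := tk_one H.hY 74
  have c : 4 * Y ^ 11 * D * K + 6 * D * K +
      6 * D * (33 * Y ^ 41 + K * (2 * (33 * Y ^ 17) + 43 * Y ^ 13)) ≤ Y ^ 74 := by linarith
  linarith

end TkH

theorem par : SPar := by
  intro y k d hy hlo hhi hgap hkd
  have H : TkH (y : ℤ) (k : ℤ) (d : ℤ) :=
    ⟨by exact_mod_cast hy, by exact_mod_cast hlo, by exact_mod_cast hhi, by exact_mod_cast hgap,
      by exact_mod_cast hkd⟩
  have hY := H.hY
  have o24 := tk_one hY 24
  have o27 := tk_one hY 27
  have hb : Base (k : ℤ) d ((y : ℤ) ^ 24 * (2 * (y : ℤ) + 1) + 1 + 2 * (y : ℤ) ^ 24)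
      ((y : ℤ) ^ 27) :=
    ⟨by exact_mod_cast H.D0, H.kd, by linarith only [H.J8, H.J0, o24], by linarith only [H.J0, o24], H.J8, o27,
      by linarith only [H.Jk]⟩
  have m2 : 2 ≤ y ^ 11 := by
    have := tk_pw hY 0 11 (by norm_num)
    have h2 : (2 : ℤ) ≤ (y : ℤ) ^ 11 := by linarith only [this]
    exact_mod_cast h2
  have hm : ((y ^ 11 : ℕ) : ℤ) = (y : ℤ) ^ 11 := Nat.cast_pow y 11
  refine ⟨{ Δ := (y : ℤ) ^ 24, ρ := y, h := (y : ℤ) ^ 27, L := (y : ℤ) ^ 48,
            s := 2 * (y : ℤ) ^ 24, m := y ^ 11, tc := (y : ℤ) ^ 24, t1 := 33 * (y : ℤ) ^ 28,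
            Dm := 165 * (y : ℤ) ^ 56, β0 := (y : ℤ) ^ 9, σ := 5 * (y : ℤ) ^ 37,
            L2 := 33 * (y : ℤ) ^ 41, ta := 33 * (y : ℤ) ^ 17, z := 43 * (y : ℤ) ^ 13,
            Δ2 := by linarith only [tk_pw hY 0 24 (by norm_num)]
            L0 := by linarith only [tk_one hY 48]
            r1 := by linarith only []
            r2 := le_rfl
            r3 := by linarith only [o24]
            r4 := H.r4
            r5 := H.r5
            r6 := H.r6
            star := ⟨hb.mono H.J0 (by linarith only [o24]), m2, by rw [hm]; exact H.i1,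
              by rw [hm]; exact H.i2, by linarith only [H.Jk, o27], by rw [hm]; exact H.i4,
              by linarith only [tk_pw hY 37 54 (by norm_num), tk_one hY 54]⟩
            fin := ⟨hb, by linarith only [H.J0], by linarith only [o24], H.f1,
              by linarith only [tk_pw hY 24 54 (by norm_num), o24],
              by rw [hm]; exact H.f3, H.f4, by linarith only [], by rw [hm]; exact H.f6, H.f7,
              by rw [hm]; exact H.f8,
              by linarith only [tk_pw hY 24 54 (by norm_num), H.f7, o24]⟩ }, rfl, rfl⟩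

theorem grow : SGrow := by
  intro g
  have h := tendsto_pow_const_div_const_pow_of_one_lt (28 * g) (r := (2 : ℝ)) (by norm_num)
  have hc : (0 : ℝ) < 1 / (6 * 5 ^ g) := by positivity
  obtain ⟨N, hN⟩ := Filter.eventually_atTop.1 (h.eventually (gt_mem_nhds hc))
  refine ⟨max N 1, fun y hy => ?_⟩
  have h1 : 1 ≤ y := le_trans (le_max_right _ _) hy
  have h2 := hN y (le_trans (le_max_left _ _) hy)
  rw [div_lt_div_iff₀ (by positivity) (by positivity)] at h2
  have h3 : y ^ (28 * g) * (6 * 5 ^ g) < 1 * 2 ^ y := by exact_mod_cast h2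
  have h4 : 1 ≤ y ^ 28 := Nat.one_le_pow _ _ h1
  have h5 : (4 * y ^ 28 + 1) ^ g ≤ (5 * y ^ 28) ^ g := Nat.pow_le_pow_left (by omega) g
  have h6 : 1 ≤ (5 * y ^ 28) ^ g := Nat.one_le_pow _ _ (by omega)
  have h7 : y ^ (28 * g) * (6 * 5 ^ g) = 6 * (5 * y ^ 28) ^ g := by
    rw [mul_pow, pow_mul]; ring
  omega

end Pool.Agent.MP_0be28d_co.A55

end

section

set_option autoImplicit false

namespace Pool.Agent.MP_0be28d_co.A55

open Finset

section tl

variable {X : Type}

/-- degree as a set cardinality -/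
noncomputable def tl_deg (G : SimpleGraph X) (v : X) : ℕ := (G.neighborSet v).ncard

theorem tl_edge_deg [Finite X] [DecidableEq X] {a b : X} (hab : a ≠ b) (v : X) :
    tl_deg (SimpleGraph.edge a b) v = (if v = a then 1 else 0) + (if v = b then 1 else 0) := by
  unfold tl_deg
  by_cases h1 : v = a
  · subst h1
    have : (SimpleGraph.edge v b).neighborSet v = {b} := by
      ext w
      simp only [SimpleGraph.mem_neighborSet, SimpleGraph.edge_adj, Set.mem_singleton_iff]
      constructor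
      · rintro ⟨h | h, _⟩
        · exact h.2
        · exact absurd h.1 hab
      · rintro rfl
        exact ⟨Or.inl (by simp), hab⟩
    rw [this, if_pos rfl, if_neg hab]
    simp
  · by_cases h2 : v = b
    · subst h2
      have : (SimpleGraph.edge a v).neighborSet v = {a} := by
        ext w
        simp only [SimpleGraph.mem_neighborSet, SimpleGraph.edge_adj, Set.mem_singleton_iff]
        constructor
        · rintro ⟨h | h, _⟩
          · exact absurd h.1 h1
          · exact h.2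
        · rintro rfl
          exact ⟨Or.inr (by simp), h1⟩
      rw [this, if_neg h1, if_pos rfl]
      simp
    · have : (SimpleGraph.edge a b).neighborSet v = ∅ := by
        ext w
        simp only [SimpleGraph.mem_neighborSet, SimpleGraph.edge_adj, Set.mem_empty_iff_false,
          iff_false]
        rintro ⟨h | h, _⟩
        · exact h1 h.1
        · exact h2 h.1
      rw [this, if_neg h1, if_neg h2]
      simp

theorem tl_edge_sym {a b c d : X} (h : (SimpleGraph.edge a b).Adj c d) : s(c, d) = s(a, b) := by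
  rw [SimpleGraph.edge_adj] at h
  rcases h.1 with ⟨rfl, rfl⟩ | ⟨rfl, rfl⟩
  · rfl
  · exact Sym2.eq_swap

theorem tl_add_deg [Finite X] [DecidableEq X] {G : SimpleGraph X} {a b : X} (hab : a ≠ b)
    (hn : ¬ G.Adj a b) (v : X) :
    tl_deg (G ⊔ SimpleGraph.edge a b) v =
      tl_deg G v + ((if v = a then 1 else 0) + (if v = b then 1 else 0)) := by
  rw [← tl_edge_deg hab v]
  refine ncard_sup (fun c d hcd he => hn ?_) v
  rcases Sym2.eq_iff.mp (tl_edge_sym he) with ⟨rfl, rfl⟩ | ⟨rfl, rfl⟩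
  · exact hcd
  · exact hcd.symm

theorem tl_del_deg [Finite X] [DecidableEq X] {G : SimpleGraph X} {a b : X} (hab : G.Adj a b)
    (v : X) :
    tl_deg G v = tl_deg (del G a b) v + ((if v = a then 1 else 0) + (if v = b then 1 else 0)) := by
  have h : G = del G a b ⊔ SimpleGraph.edge a b := by
    ext c d
    rw [SimpleGraph.sup_adj]
    constructor
    · intro h
      by_cases he : s(c, d) = s(a, b)
      · right
        rw [SimpleGraph.edge_adj]
        exact ⟨Sym2.eq_iff.mp he, h.ne⟩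
      · exact Or.inl ⟨h, he⟩
    · rintro (h | h)
      · exact h.1
      · rcases Sym2.eq_iff.mp (tl_edge_sym h) with ⟨rfl, rfl⟩ | ⟨rfl, rfl⟩
        · exact hab
        · exact hab.symm
  rw [← tl_add_deg hab.ne (fun h' : (del G a b).Adj a b => h'.2 rfl) v, ← h]

theorem tl_add_girth {G : SimpleGraph X} {g : ℕ} {a b : X} (hG : GirthGe G g)
    (hw : ∀ n, Wk G n a b → g ≤ n + 1) : GirthGe (G ⊔ SimpleGraph.edge a b) g := by
  refine surgery (Ω := 2 * g) (fun _ => g) hG ?_ ?_ ?_ ?_ (by omega)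
  · intro c d n h hn
    rcases Sym2.eq_iff.mp (tl_edge_sym h) with ⟨rfl, rfl⟩ | ⟨rfl, rfl⟩
    · exact hw n hn.symm
    · exact hw n hn
  · intro c d e f n m h1 h2 hne
    exact absurd ((tl_edge_sym h1).trans (tl_edge_sym h2).symm) hne
  · intro c d e f n h1 h2 hne
    exact absurd ((tl_edge_sym h1).trans (tl_edge_sym h2).symm) hne
  · intro c d _
    omega

theorem tl_last {G : SimpleGraph X} {a b u w : X} {n : ℕ}
    (h : Wk (G ⊔ SimpleGraph.edge a b) n u w) :
    Wk G n u w ∨ ∃ m, m ≤ n ∧ (Wk G m a w ∨ Wk G m b w) := by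
  induction h with
  | nil c => exact Or.inl (Wk.nil _)
  | @cons n c d e h _ ih =>
    rcases ih with ih | ⟨m, hm, ih⟩
    · rcases (SimpleGraph.sup_adj _ _ _ _).mp h with h | h
      · exact Or.inl (Wk.cons h ih)
      · refine Or.inr ⟨n, Nat.le_succ n, ?_⟩
        rcases Sym2.eq_iff.mp (tl_edge_sym h) with ⟨rfl, rfl⟩ | ⟨rfl, rfl⟩
        · exact Or.inr ih
        · exact Or.inl ih
    · exact Or.inr ⟨m, hm.trans (Nat.le_succ n), ih⟩

theorem tl_deg_filter [Fintype X] (G : SimpleGraph X) [DecidableRel G.Adj] (v : X) :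
    tl_deg G v = (univ.filter fun w => G.Adj v w).card := by
  unfold tl_deg
  rw [← Set.ncard_coe_finset]
  congr 1
  ext w
  simp only [SimpleGraph.mem_neighborSet, coe_filter, mem_univ, true_and, Set.mem_ofPred_eq]

theorem tl_ball [Fintype X] [DecidableEq X] {G : SimpleGraph X} {k : ℕ}
    (hk : ∀ v, tl_deg G v ≤ k) (x : X) (n : ℕ) :
    ∃ B : Finset X, B.card ≤ (k + 1) ^ n ∧ ∀ m, m ≤ n → ∀ v, Wk G m x v → v ∈ B := by
  classical
  induction n with
  | zero =>
    refine ⟨{x}, by simp, fun m hm v hv => ?_⟩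
    obtain rfl : m = 0 := by omega
    simp [hv.eq_of_zero]
  | succ n ih =>
    obtain ⟨B, hB, hB'⟩ := ih
    refine ⟨B.biUnion fun u => insert u (univ.filter fun w => G.Adj u w), ?_, ?_⟩
    · calc _ ≤ B.card * (k + 1) := by
            refine card_biUnion_le_card_mul _ _ _ fun u _ => (card_insert_le _ _).trans ?_
            rw [← tl_deg_filter]
            exact Nat.succ_le_succ (hk u)
        _ ≤ (k + 1) ^ n * (k + 1) := Nat.mul_le_mul_right _ hB
        _ = _ := (pow_succ _ _).symm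
    · intro m hm v hv
      rw [mem_biUnion]
      rcases Nat.lt_or_ge m (n + 1) with h | h
      · exact ⟨v, hB' m (by omega) v hv, mem_insert_self _ _⟩
      · obtain rfl : m = n + 1 := by omega
        obtain ⟨u, hu, huv⟩ := hv.succ_elim'
        exact ⟨u, hB' n le_rfl u hu, mem_insert_of_mem (by simp only [mem_filter, mem_univ, huv, and_self])⟩

theorem tl_even [Fintype X] [DecidableEq X] (G : SimpleGraph X) : Even (∑ v, tl_deg G v) := by
  classical
  have h : ∀ v, tl_deg G v = G.degree v := fun v => by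
    rw [tl_deg_filter, ← SimpleGraph.card_neighborFinset_eq_degree, SimpleGraph.neighborFinset_eq_filter]
  simp only [h, SimpleGraph.sum_degrees_eq_twice_card_edges]
  exact even_two_mul _

theorem tl_two [Fintype X] [DecidableEq X] {f : X → ℕ} {k : ℕ} (hk : ∀ v, f v ≤ k)
    (he : Even (∑ v, f v)) (hN : Even (Fintype.card X)) {x : X} (hx : f x ≠ k) :
    ∃ x1 x2 : X, ∀ v, f v + ((if v = x1 then 1 else 0) + (if v = x2 then 1 else 0)) ≤ k := by
  have hx' : f x < k := lt_of_le_of_ne (hk x) hx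
  by_cases h : ∃ y, y ≠ x ∧ f y < k
  · obtain ⟨y, hy, hy'⟩ := h
    refine ⟨x, y, fun v => ?_⟩
    have := hk v
    by_cases h1 : v = x
    · subst h1
      rw [if_pos rfl, if_neg hy.symm]
      omega
    · by_cases h2 : v = y
      · subst h2
        rw [if_neg h1, if_pos rfl]
        omega
      · rw [if_neg h1, if_neg h2]
        omega
  · have h1 : ∀ y, y ≠ x → f y = k := fun y hy =>
      le_antisymm (hk y) (not_lt.mp fun h' => h ⟨y, hy, h'⟩)
    have h2 : ∑ v, f v = f x + ∑ v ∈ univ.erase x, f v := (add_sum_erase _ _ (mem_univ x)).symm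
    have h3 : ∑ v ∈ univ.erase x, f v = (Fintype.card X - 1) * k := by
      rw [sum_congr rfl fun y hy => h1 y (ne_of_mem_erase hy), sum_const, smul_eq_mul,
        card_erase_of_mem (mem_univ x), card_univ]
    have h4 : 0 < Fintype.card X := Fintype.card_pos_iff.mpr ⟨x⟩
    obtain ⟨c, hc⟩ := hN
    obtain ⟨e, he⟩ := he
    have h5 : (Fintype.card X - 1) * k + k = 2 * (c * k) := by
      obtain ⟨t, ht⟩ : ∃ t, Fintype.card X = t + 1 := ⟨_, (Nat.succ_pred_eq_of_pos h4).symm⟩
      rw [ht, Nat.add_sub_cancel, ← Nat.succ_mul, Nat.succ_eq_add_one, ← ht, hc]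
      ring
    refine ⟨x, x, fun v => ?_⟩
    by_cases h6 : v = x
    · subst h6
      rw [if_pos rfl]
      omega
    · rw [if_neg h6]
      have := hk v
      omega

theorem tl_main [Fintype X] [DecidableEq X] {k g : ℕ} (hg : 3 ≤ g) (hN : Even (Fintype.card X))
    (hc : 4 * (k + 1) ^ g < Fintype.card X) :
    ∃ G : SimpleGraph X, (∀ v, tl_deg G v = k) ∧ GirthGe G g := by
  classical
  obtain ⟨G, ⟨hk, hG⟩, hmax⟩ := Set.exists_max_image
    {G : SimpleGraph X | (∀ v, tl_deg G v ≤ k) ∧ GirthGe G g} (fun G => ∑ v, tl_deg G v)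
    (Set.toFinite _) ⟨⊥, fun v => by simp only [tl_deg, SimpleGraph.IsIsolated.bot, SimpleGraph.IsIsolated.neighborSet_eq_empty, Set.ncard_empty, zero_le], fun a b h => absurd h (by simp only [SimpleGraph.bot_adj, not_false_eq_true])⟩
  refine ⟨G, fun x => ?_, hG⟩
  by_contra hx
  obtain ⟨x1, x2, hxx⟩ := tl_two hk (tl_even G) hN hx
  have hk0 : 0 < k := lt_of_le_of_lt (Nat.zero_le _) (lt_of_le_of_ne (hk x) hx)
  have hsum : ∀ a b : X, ∑ v, ((if v = a then 1 else 0) + (if v = b then 1 else 0) : ℕ) = 2 := by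
    intro a b
    rw [sum_add_distrib]
    simp only [sum_ite_eq', mem_univ, ↓ reduceIte, Nat.reduceAdd]
  obtain ⟨B1, hB1, hB1'⟩ := tl_ball hk x1 g
  obtain ⟨B2, hB2, hB2'⟩ := tl_ball hk x2 g
  have far1 : ∀ y, y ∉ B1 ∪ B2 → ∀ n, Wk G n x1 y → g < n := fun y hy n hn =>
    not_le.mp fun h => hy (mem_union_left _ (hB1' n h y hn))
  have far2 : ∀ y, y ∉ B1 ∪ B2 → ∀ n, Wk G n x2 y → g < n := fun y hy n hn =>
    not_le.mp fun h => hy (mem_union_right _ (hB2' n h y hn))
  have hne : ∀ {H : SimpleGraph X} {a b : X}, (∀ n, Wk H n a b → g ≤ n + 1) →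
      a ≠ b ∧ ¬ H.Adj a b := by
    intro H a b h
    constructor
    · rintro rfl
      have := h 0 (Wk.nil _)
      omega
    · intro h'
      have := h 1 (Wk.single h')
      omega
  have hfull : ∀ y, y ∉ B1 ∪ B2 → tl_deg G y = k := by
    intro y hy
    by_contra hy'
    have hy2 : tl_deg G y < k := lt_of_le_of_ne (hk y) hy'
    have hw : ∀ n, Wk G n x1 y → g ≤ n + 1 := fun n hn => by
      have := far1 y hy n hn
      omega
    obtain ⟨h1, h2⟩ := hne hw
    have := hmax (G ⊔ SimpleGraph.edge x1 y) ⟨fun v => ?_, tl_add_girth hG hw⟩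
    · simp only [tl_add_deg h1 h2] at this
      rw [sum_add_distrib, hsum] at this
      omega
    · rw [tl_add_deg h1 h2]
      have h3 := hxx v
      by_cases h4 : v = y
      · subst h4
        rw [if_neg h1.symm, if_pos rfl]
        omega
      · rw [if_neg h4]
        omega
  obtain ⟨y1, hy1, y2, hy2, hyy⟩ : ∃ y1, y1 ∉ B1 ∪ B2 ∧ ∃ y2, y2 ∉ B1 ∪ B2 ∧ G.Adj y1 y2 := by
    by_contra hno
    have h1 : (univ \ (B1 ∪ B2)).card * k ≤ (B1 ∪ B2).card * k := by
      refine card_mul_le_card_mul G.Adj (fun a ha => ?_) (fun b _ => ?_)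
      · have ha' := (mem_sdiff.mp ha).2
        rw [← hfull a ha', tl_deg_filter]
        refine card_le_card fun w hw => ?_
        have hw' := (mem_filter.mp hw).2
        rw [mem_bipartiteAbove]
        exact ⟨by_contra fun h => hno ⟨a, ha', w, h, hw'⟩, hw'⟩
      · refine le_trans ?_ (hk b)
        rw [tl_deg_filter]
        refine card_le_card fun w hw => ?_
        rw [mem_bipartiteBelow] at hw
        exact mem_filter.mpr ⟨mem_univ _, hw.2.symm⟩
    have h2 := Nat.le_of_mul_le_mul_right h1 hk0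
    have h3 := card_union_le B1 B2
    have h4 := card_sdiff_add_card_eq_card (subset_univ (B1 ∪ B2))
    rw [card_univ] at h4
    omega
  have hle : ∀ a b, (del G y1 y2).Adj a b → G.Adj a b := fun a b h => h.1
  have hw1 : ∀ n, Wk (del G y1 y2) n x1 y1 → g ≤ n + 1 := fun n hn => by
    have := far1 y1 hy1 n (hn.mono hle)
    omega
  have hw2 : ∀ n, Wk (del G y1 y2 ⊔ SimpleGraph.edge x1 y1) n x2 y2 → g ≤ n + 1 := by
    intro n hn
    rcases tl_last hn with h | ⟨m, hm, h | h⟩
    · have := far2 y2 hy2 n (h.mono hle)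
      omega
    · have := far1 y2 hy2 m (h.mono hle)
      omega
    · have := hG y1 y2 hyy m h.symm
      omega
  obtain ⟨h1, h2⟩ := hne hw1
  obtain ⟨h3, h4⟩ := hne hw2
  have hd : ∀ v, tl_deg (del G y1 y2 ⊔ SimpleGraph.edge x1 y1 ⊔ SimpleGraph.edge x2 y2) v =
      tl_deg G v + ((if v = x1 then 1 else 0) + (if v = x2 then 1 else 0)) := by
    intro v
    rw [tl_add_deg h3 h4, tl_add_deg h1 h2, tl_del_deg hyy v]
    omega
  have := hmax (del G y1 y2 ⊔ SimpleGraph.edge x1 y1 ⊔ SimpleGraph.edge x2 y2)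
    ⟨fun v => by rw [hd]; exact hxx v, tl_add_girth (tl_add_girth (hG.anti hle) hw1) hw2⟩
  simp only [hd] at this
  rw [sum_add_distrib, hsum] at this
  omega

end tl

theorem es : SES := by
  intro k g hg
  obtain ⟨G, h1, h2⟩ := tl_main (X := Fin (4 * (k + 1) ^ g + 2)) (k := k) hg
    (by rw [Fintype.card_fin]; exact ⟨2 * (k + 1) ^ g + 1, by ring⟩)
    (by rw [Fintype.card_fin]; omega)
  exact ⟨G, ⟨fun a _ _ => mem_univ a, fun v _ => h1 v⟩, h2⟩

end Pool.Agent.MP_0be28d_co.A55

end

section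

set_option autoImplicit false

namespace Pool.Agent.MP_0be28d_co.A55

open Finset

theorem tm_reg {V : Type} [Fintype V] {G : SimpleGraph V} [DecidableRel G.Adj] {k : ℕ}
    (hreg : G.IsRegularOfDegree k) (v : V) : (univ.filter fun w => G.Adj v w).card = k := by
  rw [← hreg v, ← SimpleGraph.card_neighborFinset_eq_degree]
  congr 1
  ext w
  simp only [mem_filter, mem_univ, true_and, SimpleGraph.mem_neighborFinset]

theorem tm_lt {V : Type} [Fintype V] {G : SimpleGraph V} [DecidableRel G.Adj] {k g : ℕ}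
    (hreg : G.IsRegularOfDegree k) (hg : G.egirth = (g : ℕ∞)) : k < Fintype.card V := by
  have hac : ¬ G.IsAcyclic := by
    rw [← SimpleGraph.egirth_eq_top, hg]
    exact ENat.natCast_ne_top _
  obtain ⟨a, _⟩ := SimpleGraph.exists_egirth_eq_length.mpr hac
  rw [← hreg a]
  exact G.degree_lt_card_verts a

theorem half (hI : SInit) (hR : SRec) (hP : SPar) : SHalf := by
  intro g y k d n V _ G _ hg hy h1 h2 h3 h4 hreg hgirth hcard hmin hcon
  classical
  have hreg' := tm_reg hreg
  have hG : GirthGe G g := girthGe_iff.mpr hgirth.ge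
  have hkV := tm_lt hreg hgirth
  have hy4 : 16 ≤ y ^ 4 := by
    calc 16 = 2 ^ 4 := by norm_num
      _ ≤ y ^ 4 := Nat.pow_le_pow_left (by omega) 4
  have hy24 : 0 < y ^ 24 := Nat.pow_pos (by omega)
  have e28 : y ^ 28 = y ^ 4 * y ^ 24 := by ring
  have hk16 : 16 * y ^ 24 ≤ k := (Nat.mul_le_mul_right _ hy4).trans (e28 ▸ h1)
  obtain ⟨S, hS, hnc⟩ : ∃ S : Finset V, S.card < k ∧
      ¬ (G.induce ((↑S : Set V)ᶜ)).Connected := by
    by_contra hh
    exact hcon ⟨hkV, fun S hS => by_contra fun h => hh ⟨S, hS, h⟩⟩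
  obtain ⟨C, hC⟩ := exists_sep (K := k - 1) (by omega) (by omega) hnc
  obtain ⟨S', C', hs, -, hhalf, -⟩ :=
    exists_min_sep hreg' (show k - 1 < k by omega) ⟨S, C, hC⟩
  have hN : NoC4 G := fun a b c c' hab a1 a2 a3 a4 =>
    no_square hG hg a1 a3 a2.symm a4.symm hab.symm
  have hdg : ∀ v, dg G univ v = k := fun v => by rw [dg_eq_card, hreg']
  have hD : Deg G k := fun M v => (dg_mono (subset_univ M) v).trans (hdg v).le
  have hkk : k * k ≤ y ^ 24 * y ^ 24 * y ^ 24 := by
    have hy16 : 16 ≤ y ^ 16 :=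
      hy4.trans (Nat.pow_le_pow_right (by omega) (by norm_num))
    calc k * k ≤ (4 * y ^ 28) * (4 * y ^ 28) := Nat.mul_le_mul h2 h2
      _ = 16 * y ^ 56 := by ring
      _ ≤ y ^ 16 * y ^ 56 := Nat.mul_le_mul_right _ hy16
      _ = y ^ 24 * y ^ 24 * y ^ 24 := by ring
  obtain ⟨P, hPC, hPne, hCl, hout⟩ := hI V G k ((y : ℤ) ^ 24) S' C' hdg hN (by omega) hs
    (by exact_mod_cast hy24) (by exact_mod_cast hkk)
    (by
      have : 2 * y ^ 24 < k := by omega
      exact_mod_cast this)
  obtain ⟨par, hρ, hΔ⟩ := hP y k d hy h1 h2 h3 h4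
  have hPc : P.card ≤ C'.card := card_le_card hPC
  obtain ⟨W, hWP, hWne, H, hHG, hH⟩ := hR V G k d par P hD hN hPne (hΔ ▸ hCl) hout
    (by rw [hρ]; omega)
  have := no_smaller (k := d) (by omega) (by omega) hmin hH (hG.anti fun a b h => hHG h) hWne
  have := card_le_card hWP
  omega

/-- the complete bipartite graph with sides of size `k` -/
def tmK (k : ℕ) : SimpleGraph (Fin k × Bool) where
  Adj p q := p.2 ≠ q.2
  symm := ⟨fun _ _ h => h.symm⟩
  loopless := ⟨fun _ h => h rfl⟩

theorem tm_regK (k : ℕ) : RegOn (tmK k) univ k := by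
  refine ⟨fun _ _ _ => mem_univ _, fun v _ => ?_⟩
  have : (tmK k).neighborSet v = (fun i : Fin k => (i, !v.2)) '' Set.univ := by
    ext ⟨i, b⟩
    simp only [SimpleGraph.mem_neighborSet, tmK, Set.image_univ, Set.mem_range, Prod.mk.injEq,
      exists_eq_left]
    cases v.2 <;> cases b <;> simp
  rw [this, Set.ncard_image_of_injective _ fun a b h => (Prod.mk.inj h).1]
  simp only [Set.ncard_univ, Nat.card_eq_fintype_card, Fintype.card_fin]

theorem tm_girthK (k : ℕ) : GirthGe (tmK k) 4 := by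
  intro a b hab n hn
  by_contra hlt
  have h3 : n = 0 ∨ n = 1 ∨ n = 2 := by omega
  rcases h3 with rfl | rfl | rfl
  · exact hab.ne hn.eq_of_zero.symm
  · exact hn.adj_of_one.2 Sym2.eq_swap
  · obtain ⟨c, h1, h2⟩ := hn.succ_elim
    have h4 : b.2 ≠ c.2 := h1.1
    have h5 : c.2 ≠ a.2 := h2.adj_of_one.1
    have h6 : a.2 ≠ b.2 := hab
    revert h4 h5 h6
    cases a.2 <;> cases b.2 <;> cases c.2 <;> simp

theorem smallG : SSmallG := by
  intro k g hk hg3 hg4 V _ G _ hreg hgirth hmin
  classical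
  have hreg' := tm_reg hreg
  have hG : GirthGe G g := girthGe_iff.mpr hgirth.ge
  have hkV := tm_lt hreg hgirth
  refine ⟨hkV, fun S hS => ?_⟩
  by_contra hcon
  obtain ⟨C, hs⟩ := exists_sep (K := k - 1) (by omega) (by omega) hcon
  by_cases h3 : g = 3
  · subst h3
    have := three_big hreg' hs
    have := no_smaller hk (by omega) hmin (regOn_top k)
      (girthGe_iff.mpr SimpleGraph.three_le_egirth) univ_nonempty
    simp only [card_univ, Fintype.card_fin] at this
    omega
  · obtain rfl : g = 4 := by omega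
    have hup := no_smaller hk (by omega) hmin (tm_regK k) (tm_girthK k)
      ⟨(⟨0, by omega⟩, true), mem_univ _⟩
    simp only [card_univ, Fintype.card_prod, Fintype.card_fin, Fintype.card_bool] at hup
    obtain ⟨v, hv⟩ := hs.ne
    obtain ⟨y, y1, y2⟩ := hs.out
    obtain ⟨u, hu, hvu⟩ : ∃ u ∈ C, G.Adj v u := by
      by_contra hh
      have : (univ.filter fun w => G.Adj v w) ⊆ S := fun w hw =>
        (hs.closed v hv w (mem_filter.mp hw).2).resolve_left
          fun h => hh ⟨w, h, (mem_filter.mp hw).2⟩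
      have := card_le_card this
      rw [hreg'] at this
      omega
    have hdis : Disjoint (univ.filter fun w => G.Adj v w) (univ.filter fun w => G.Adj u w) :=
      disjoint_left.mpr fun w a1 a2 =>
        no_triangle hG le_rfl hvu (mem_filter.mp a2).2 (mem_filter.mp a1).2.symm
    have := card_le_univ
      (insert y ((univ.filter fun w => G.Adj v w) ∪ (univ.filter fun w => G.Adj u w)))
    rw [card_insert_of_notMem, card_union_of_disjoint hdis, hreg', hreg'] at this
    · omega
    · rw [mem_union]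
      rintro (h | h)
      · exact (hs.closed v hv y (mem_filter.mp h).2).elim y1 y2
      · exact (hs.closed u hu y (mem_filter.mp h).2).elim y1 y2

end Pool.Agent.MP_0be28d_co.A55

end

section

set_option autoImplicit false

namespace Pool.Agent.MP_0be28d_co.A55

open Finset

/-- a set of naturals of diameter below `w` has at most `w` elements -/
theorem tn_diam (S : Finset ℕ) (w : ℕ) (h : ∀ d ∈ S, ∀ k ∈ S, k < d + w) : S.card ≤ w := by
  rcases S.eq_empty_or_nonempty with rfl | hS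
  · simp
  · have hsub : S ⊆ Finset.Ico (S.min' hS) (S.min' hS + w) := by
      intro k hk
      exact Finset.mem_Ico.2 ⟨S.min'_le k hk, h _ (S.min'_mem hS) k hk⟩
    have := Finset.card_le_card hsub
    simpa only [ge_iff_le, Nat.card_Ico, add_tsub_cancel_left] using this

/-- a scale `y` for every large `K` -/
theorem tn_scale (y1 K : ℕ) (h1 : 100 ≤ y1) (hK : y1 ^ 28 ≤ K) :
    ∃ y, y1 ≤ y ∧ y ^ 28 ≤ K ∧ K ≤ 2 * y ^ 28 := by
  classical
  have hex : ∃ y, K < (y + 1) ^ 28 := ⟨K, by
    calc K < K + 1 := Nat.lt_succ_self K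
      _ ≤ (K + 1) ^ 28 := Nat.le_self_pow (by norm_num) _⟩
  have hy := Nat.find_spec hex
  set y := Nat.find hex with hydef
  have hy1 : y1 ≤ y := by
    by_contra hlt
    have h2 : y + 1 ≤ y1 := by omega
    have h3 : (y + 1) ^ 28 ≤ y1 ^ 28 := Nat.pow_le_pow_left h2 28
    omega
  refine ⟨y, hy1, ?_, ?_⟩
  · have hpos : y - 1 < y := by omega
    have h4 := Nat.find_min hex hpos
    have h5 : y - 1 + 1 = y := by omega
    rw [h5] at h4
    omega
  · have h6 : 100 * (y + 1) ≤ 101 * y := by omega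
    have h7 : (100 * (y + 1)) ^ 28 ≤ (101 * y) ^ 28 := Nat.pow_le_pow_left h6 28
    rw [mul_pow, mul_pow] at h7
    have h8 : (101 : ℕ) ^ 28 * y ^ 28 ≤ (100 ^ 28 * 2) * y ^ 28 :=
      Nat.mul_le_mul_right _ (by norm_num)
    have h9 : (100 : ℕ) ^ 28 * (y + 1) ^ 28 ≤ 100 ^ 28 * (2 * y ^ 28) := by
      rw [← mul_assoc]; exact h7.trans h8
    have h10 : (y + 1) ^ 28 ≤ 2 * y ^ 28 := Nat.le_of_mul_le_mul_left h9 (by positivity)
    omega

open Classical in
/-- one dyadic block -/
theorem tn_block (Bd : ℕ → Prop) (n : ℕ → ℕ) (y K : ℕ)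
    (h1 : ∀ k, Bd k → k ≤ 4 * y ^ 28 → 0 < n k ∧ n k < 2 ^ y)
    (h2 : ∀ d k, Bd d → Bd k → y ^ 28 ≤ k → k ≤ 4 * y ^ 28 → d + y ^ 26 ≤ k →
      k ≤ 2 * d → 2 * n d ≤ n k)
    (hl : y ^ 28 ≤ K) (hu : K ≤ 2 * y ^ 28) :
    ((Finset.Icc K (2 * K)).filter Bd).card ≤ y ^ 27 := by
  have key := Finset.card_le_mul_card_image_of_maps_to
    (s := (Finset.Icc K (2 * K)).filter Bd) (t := Finset.range y)
    (f := fun k => Nat.log 2 (n k)) (by
      intro k hk
      obtain ⟨hk1, hk2⟩ := Finset.mem_filter.1 hk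
      obtain ⟨_, hk4⟩ := Finset.mem_Icc.1 hk1
      obtain ⟨hp, hq⟩ := h1 k hk2 (by omega)
      exact Finset.mem_range.2 (Nat.log_lt_of_lt_pow hp.ne' hq)) (y ^ 26) (by
      intro b _
      apply tn_diam
      intro d hd k hk
      obtain ⟨hd1, hd2⟩ := Finset.mem_filter.1 hd
      obtain ⟨hk1, hk2⟩ := Finset.mem_filter.1 hk
      obtain ⟨hd3, hd4⟩ := Finset.mem_filter.1 hd1
      obtain ⟨hk3, hk4⟩ := Finset.mem_filter.1 hk1
      obtain ⟨hd5, hd6⟩ := Finset.mem_Icc.1 hd3
      obtain ⟨hk5, hk6⟩ := Finset.mem_Icc.1 hk3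
      by_contra hcon
      have h3 := h2 d k hd4 hk4 (by omega) (by omega) (by omega) (by omega)
      obtain ⟨hp, _⟩ := h1 d hd4 (by omega)
      have h4 : Nat.log 2 (n d * 2) = Nat.log 2 (n d) + 1 :=
        Nat.log_mul_base (by norm_num) hp.ne'
      have h5 : Nat.log 2 (n d * 2) ≤ Nat.log 2 (n k) := Nat.log_mono_right (by omega)
      omega)
  rw [Finset.card_range] at key
  calc _ ≤ y ^ 26 * y := key
    _ = y ^ 27 := by ring

theorem count : SCount := by
  classical
  intro Bd n y0 h0 h1 h2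
  set y1 := max y0 100 with hy1
  set K0 := y1 ^ 28 with hK0
  have hK0pos : 1 ≤ K0 := Nat.one_le_pow _ _ (by omega)
  set r : ℝ := (3 / 4 : ℝ) ^ (27 / 28 : ℝ) with hr
  have hr0 : 0 < r := Real.rpow_pos_of_pos (by norm_num) _
  have hr1 : r < 1 := Real.rpow_lt_one (by norm_num) (by norm_num) (by norm_num)
  have hq : 0 ≤ r / (1 - r) := div_nonneg hr0.le (by linarith only [hr1])
  set C : ℝ := (2 * K0 : ℝ) + r / (1 - r) with hC
  have hK0r : (0 : ℝ) ≤ K0 := Nat.cast_nonneg _
  have hC0 : 0 ≤ C := by linarith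
  have hCr : (C + 1) * r ≤ C := by
    have e : r / (1 - r) * (1 - r) = r := div_mul_cancel₀ _ (by linarith only [hr1])
    have : r ≤ C * (1 - r) := by
      have : r / (1 - r) * (1 - r) ≤ C * (1 - r) :=
        mul_le_mul_of_nonneg_right (by linarith) (by linarith only [hr1])
      linarith only [e, this]
    linarith only [this]
  have hset : ∀ K : ℕ, ({k | k ≤ K ∧ Bd k} : Set ℕ).ncard =
      ((Finset.Icc 1 K).filter Bd).card := by
    intro K
    rw [← Set.ncard_coe_finset]
    congr 1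
    ext k
    simp only [Set.mem_ofPred_eq, Finset.coe_filter, Finset.mem_Icc]
    constructor
    · rintro ⟨a, b⟩
      refine ⟨⟨?_, a⟩, b⟩
      rcases Nat.eq_zero_or_pos k with rfl | hk
      · exact absurd b h0
      · exact hk
    · rintro ⟨⟨_, a⟩, b⟩
      exact ⟨a, b⟩
  refine ⟨C, fun K => ?_⟩
  rw [hset]
  induction K using Nat.strong_induction_on with
  | _ K ih =>
    by_cases hK : K ≤ 2 * K0
    · rcases Nat.eq_zero_or_pos K with rfl | hpos
      · simp
      · have a1 : ((Finset.Icc 1 K).filter Bd).card ≤ 2 * K0 := by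
          have := Finset.card_filter_le (Finset.Icc 1 K) Bd
          rw [Nat.card_Icc] at this
          omega
        have a2 : (1 : ℝ) ≤ (K : ℝ) ^ (27 / 28 : ℝ) :=
          Real.one_le_rpow (by exact_mod_cast hpos) (by norm_num)
        have a3 : (((Finset.Icc 1 K).filter Bd).card : ℝ) ≤ 2 * K0 := by exact_mod_cast a1
        calc (((Finset.Icc 1 K).filter Bd).card : ℝ) ≤ C * 1 := by linarith only [hq, a3]
          _ ≤ _ := mul_le_mul_of_nonneg_left a2 hC0
    · set M := (K + 1) / 2 with hM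
      have hMK : M < K := by omega
      have hM0 : K0 ≤ M := by omega
      obtain ⟨y, hy, hl, hu⟩ := tn_scale y1 M (le_max_right _ _) hM0
      have hy0 : y0 ≤ y := le_trans (le_max_left _ _) hy
      have b1 := tn_block Bd n y M (h1 y hy0) (h2 y hy0) hl hu
      have b2 : ((Finset.Icc 1 K).filter Bd).card ≤
          ((Finset.Icc 1 M).filter Bd).card + ((Finset.Icc M (2 * M)).filter Bd).card := by
        refine le_trans (Finset.card_le_card ?_) (Finset.card_union_le _ _)
        intro k hk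
        obtain ⟨c1, c2⟩ := Finset.mem_filter.1 hk
        obtain ⟨c3, c4⟩ := Finset.mem_Icc.1 c1
        by_cases hkM : k ≤ M
        · exact Finset.mem_union_left _ (Finset.mem_filter.2 ⟨Finset.mem_Icc.2 ⟨c3, hkM⟩, c2⟩)
        · exact Finset.mem_union_right _
            (Finset.mem_filter.2 ⟨Finset.mem_Icc.2 ⟨by omega, by omega⟩, c2⟩)
      have b3 : ((y ^ 27 : ℕ) : ℝ) ≤ (M : ℝ) ^ (27 / 28 : ℝ) := by
        have e : ((y ^ 27 : ℕ) : ℝ) = (((y ^ 28 : ℕ) : ℝ)) ^ (27 / 28 : ℝ) := by
          push_cast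
          rw [← Real.rpow_natCast (y : ℝ) 28, ← Real.rpow_mul (Nat.cast_nonneg y),
            ← Real.rpow_natCast (y : ℝ) 27]
          norm_num
        rw [e]
        exact Real.rpow_le_rpow (Nat.cast_nonneg _) (by exact_mod_cast hl) (by norm_num)
      have b4 : (M : ℝ) ^ (27 / 28 : ℝ) ≤ r * (K : ℝ) ^ (27 / 28 : ℝ) := by
        rw [hr, ← Real.mul_rpow (by norm_num) (Nat.cast_nonneg K)]
        refine Real.rpow_le_rpow (Nat.cast_nonneg _) ?_ (by norm_num)
        have : 4 * M ≤ 3 * K := by omega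
        have : (4 : ℝ) * M ≤ 3 * K := by exact_mod_cast this
        linarith only [this]
      have b5 := ih M hMK
      have b6 : (((Finset.Icc 1 K).filter Bd).card : ℝ) ≤
          (((Finset.Icc 1 M).filter Bd).card : ℝ) + ((y ^ 27 : ℕ) : ℝ) := by
        exact_mod_cast le_trans b2 (Nat.add_le_add_left b1 _)
      have hKp : (0 : ℝ) ≤ (K : ℝ) ^ (27 / 28 : ℝ) := Real.rpow_nonneg (Nat.cast_nonneg _) _
      calc (((Finset.Icc 1 K).filter Bd).card : ℝ)
          ≤ (C + 1) * (M : ℝ) ^ (27 / 28 : ℝ) := by linarith only [b3, b5, b6]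
        _ ≤ (C + 1) * (r * (K : ℝ) ^ (27 / 28 : ℝ)) :=
            mul_le_mul_of_nonneg_left b4 (by linarith)
        _ = ((C + 1) * r) * (K : ℝ) ^ (27 / 28 : ℝ) := by ring
        _ ≤ C * (K : ℝ) ^ (27 / 28 : ℝ) := mul_le_mul_of_nonneg_right hCr hKp

end Pool.Agent.MP_0be28d_co.A55

end

section

set_option autoImplicit false

namespace Pool.Agent.MP_0be28d_co.A55

open Finset

theorem main_of (hH : SHalf) (hS : SSmallG) (hE : SES) (hG : SGrow) (hC : SCount) :
    ∀ g : ℕ, 3 ≤ g → ∃ C : ℝ, ∀ K : ℕ,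
      (({k : ℕ | 2 ≤ k ∧ k ≤ K ∧
        ¬ ∀ (V : Type) [Fintype V] (G : SimpleGraph V) [DecidableRel G.Adj],
          G.IsRegularOfDegree k →
          G.egirth = (g : ℕ∞) →
          (∀ m : ℕ, m < Fintype.card V →
            ∀ (H : SimpleGraph (Fin m)) [DecidableRel H.Adj],
              ¬ (H.IsRegularOfDegree k ∧ H.egirth = (g : ℕ∞))) →
          (k < Fintype.card V ∧
            ∀ S : Finset V, S.card < k →
              (G.induce ((↑S : Set V)ᶜ)).Connected)} : Set ℕ).ncard : ℝ) ≤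
        C * (K : ℝ) ^ (27 / 28 : ℝ) := by
  intro g hg
  classical
  -- `Wit k n`: a cage of order `n` which is not `k`-connected
  let Wit : ℕ → ℕ → Prop := fun k n => ∃ (V : Type) (_ : Fintype V) (G : SimpleGraph V)
    (_ : DecidableRel G.Adj), G.IsRegularOfDegree k ∧ G.egirth = (g : ℕ∞) ∧
      MinOrd k g (Fintype.card V) ∧ Fintype.card V = n ∧
      ¬ (k < Fintype.card V ∧ ∀ S : Finset V, S.card < k →
        (G.induce ((↑S : Set V)ᶜ)).Connected)
  let Bd : ℕ → Prop := fun k => 2 ≤ k ∧ ∃ n, Wit k n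
  let n : ℕ → ℕ := fun k => if h : ∃ n, Wit k n then h.choose else 0
  have hn : ∀ k, Bd k → Wit k (n k) := fun k hk => by
    simp only [n, dif_pos hk.2]
    exact hk.2.choose_spec
  have h5 : ∀ k, Bd k → 5 ≤ g := by
    rintro k ⟨hk, _, V, _, G, _, h1, h2, h3, _, h4⟩
    by_contra hlt
    exact h4 (hS k g hk hg (by omega) V G h1 h2 h3)
  obtain ⟨y1, hy1⟩ := hG g
  have hb : ∀ y, max y1 (10 ^ 6) ≤ y → ∀ k, Bd k → k ≤ 4 * y ^ 28 → 0 < n k ∧ n k < 2 ^ y := by
    intro y hy k hk hky
    obtain ⟨V, _, G, _, h1, h2, h3, h4, _⟩ := hn k hk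
    rw [← h4]
    constructor
    · have hac : ¬ G.IsAcyclic := by
        rw [← SimpleGraph.egirth_eq_top, h2]
        exact ENat.natCast_ne_top _
      obtain ⟨a, _⟩ := SimpleGraph.exists_egirth_eq_length.mpr hac
      exact Fintype.card_pos_iff.mpr ⟨a⟩
    · obtain ⟨H, a1, a2⟩ := hE k g hg
      have h6 := no_smaller hk.1 hg h3 a1 a2 univ_nonempty
      rw [card_univ, Fintype.card_fin] at h6
      have h7 := hy1 y (le_trans (le_max_left _ _) hy)
      have h8 : (k + 1) ^ g ≤ (4 * y ^ 28 + 1) ^ g := Nat.pow_le_pow_left (by omega) _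
      omega
  obtain ⟨C, hCK⟩ := hC Bd n (max y1 (10 ^ 6)) (fun h => by have := h.1; omega) hb (by
    intro y hy d k hd hk b1 b2 b3 b4
    obtain ⟨V, _, G, _, h1, h2, _, h4, h6⟩ := hn k hk
    obtain ⟨V', _, G', _, _, _, h3', h4', _⟩ := hn d hd
    rw [← h4, ← h4']
    refine hH g y k d _ V G (h5 k hk) (le_trans (le_max_right _ _) hy) b1 b2 b3 b4 h1 h2 ?_ h3' h6
    rw [h4]
    exact (hb y hy k hk b2).2)
  refine ⟨C, fun K => le_trans (le_of_eq ?_) (hCK K)⟩
  congr 2
  ext k
  simp only [Set.mem_setOf_eq]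
  constructor
  · rintro ⟨h2, hK, hne⟩
    refine ⟨hK, h2, ?_⟩
    by_contra hno
    refine hne fun V _ G _ h1 h3 h4 => ?_
    by_contra h6
    exact hno ⟨_, V, inferInstance, G, inferInstance, h1, h3, h4, rfl, h6⟩
  · rintro ⟨hK, h2, _, V, _, G, _, h1, h3, h4, _, h6⟩
    exact ⟨h2, hK, fun hall => h6 (hall V G h1 h3 h4)⟩

end Pool.Agent.MP_0be28d_co.A55

end
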