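import Pool.Agent.MP_0be28d_co.Mg.Odd

/-!
Bipartite cages of girth at least ten: from a small separation to a smaller regular graph.
-/

set_option autoImplicit false

namespace Pool.Agent.MP_0be28d_co

open SimpleGraph Finset

variable {V : Type*}

theorem exists_deep_edge [Fintype V] [DecidableEq V] {G : SimpleGraph V} [DecidableRel G.Adj]
    {k K g n : ℕ} (hreg : ∀ v, (univ.filter fun w => G.Adj v w).card = k) (hK : K < k)
    (hG : GirthGe G g) {S C : Finset V} (hs : Sep G K S C) (hn : 2 * (n + 1) < g) :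
    ∃ u ∈ C, ∃ v ∈ C, G.Adj u v ∧ Deep (inner G C) S (n + 1) u ∧ Deep (inner G C) S (n + 1) v := by
  obtain ⟨u, huC, hu⟩ := exists_deep hreg hK hG hs (n + 1) hn
  by_contra hcon
  push Not at hcon
  have h1 : ∀ y, ∃ t, G.Adj u y → t ∈ S ∧ ∃ m ≤ n, Wk (inner G C) m y t := by
    intro y
    by_cases hy : G.Adj u y
    · rcases hs.closed u huC y hy with h | h
      · have := hcon u huC y h hy hu
        unfold Deep at this
        push Not at this
        obtain ⟨t, ht, m, hw, hm⟩ := this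
        exact ⟨t, fun _ => ⟨ht, m, by omega, hw⟩⟩
      · exact ⟨y, fun _ => ⟨h, 0, Nat.zero_le _, Wk.nil _⟩⟩
    · exact ⟨y, fun h => (hy h).elim⟩
  choose f hf using h1
  obtain ⟨y, hy, y', hy', hne, hff⟩ := exists_ne_map_eq_of_card_lt_of_maps_to
    (s := univ.filter fun w => G.Adj u w) (t := S) (by rw [hreg]; have := hs.card; omega)
    (f := f) (fun y hy => (hf y (mem_filter.mp hy).2).1)
  obtain ⟨ht, m, hm, hw⟩ := hf y (mem_filter.mp hy).2
  obtain ⟨_, m', hm', hw'⟩ := hf y' (mem_filter.mp hy').2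
  rw [← hff] at hw'
  exact hne (nbr_unique (H := inner G C) hG (fun a b h => h.1) hu (mem_filter.mp hy).2
    (mem_filter.mp hy').2 ht (by omega) (by omega) hw hw' (by omega))

theorem bip_smaller [Fintype V] [DecidableEq V] {G : SimpleGraph V} [DecidableRel G.Adj]
    {k r : ℕ} (hreg : ∀ v, (univ.filter fun w => G.Adj v w).card = k) (hk : 2 ≤ k) (hr : 5 ≤ r)
    (hG : GirthGe G (2 * r)) (col : V → Bool) (hcol : ∀ a b, G.Adj a b → col a ≠ col b)
    {S C : Finset V} (hs : Sep G (k - 1) S C) (hSc : S.card = k - 1)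
    (ha : ∀ s ∈ S, 2 ≤ (C.filter fun w => G.Adj s w).card) :
    ∃ (H : SimpleGraph (V × Bool)) (W : Finset (V × Bool)), RegOn H W k ∧ GirthGe H (2 * r) ∧
      W.Nonempty ∧ W.card < 2 * C.card := by
  classical
  set H := inner G C with hH
  obtain ⟨r, rfl⟩ : ∃ r', r = r' + 3 := ⟨r - 3, by omega⟩
  obtain ⟨u, huC, v, hvC, huv, hud, hvd⟩ := exists_deep_edge (n := r + 1) hreg
    (show k - 1 < k by omega) hG hs (by omega)
  have hHcol : ∀ a b, H.Adj a b → col a ≠ col b := fun a b h => hcol a b h.1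
  -- parents
  let Par : V → Prop := fun i => i ≠ u ∧ i ≠ v ∧ (G.Adj u i ∨ G.Adj v i)
  let D1 : V → Prop := fun z => z = u ∨ z = v ∨ Par z
  have hD1 : ∀ z, D1 z → Deep H S (r + 1) z := by
    rintro z (rfl | rfl | ⟨_, _, h | h⟩)
    · exact hud.mono (by omega)
    · exact hvd.mono (by omega)
    · exact hud.adj ⟨h, Or.inl huC⟩
    · exact hvd.adj ⟨h, Or.inl hvC⟩
  have hDC : ∀ z, D1 z → z ∈ C := by
    intro z hz
    have hn := (hD1 z hz).notMem
    rcases hz with rfl | rfl | ⟨_, _, h | h⟩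
    · exact huC
    · exact hvC
    · exact (hs.closed u huC z h).resolve_right hn
    · exact (hs.closed v hvC z h).resolve_right hn
  have root : ∀ D : V → Prop, D u → D v → ∀ z, D1 z → D z → ∃ m ≤ 1, ∃ c, (c = u ∨ c = v) ∧
      Wk (res G D) m z c ∧ (Par z → col z ≠ col c) := by
    intro D hu hv z hz hDz
    rcases hz with rfl | rfl | ⟨h1, h2, h | h⟩
    · exact ⟨0, by omega, z, Or.inl rfl, Wk.nil _, fun h => (h.1 rfl).elim⟩
    · exact ⟨0, by omega, z, Or.inr rfl, Wk.nil _, fun h => (h.2.1 rfl).elim⟩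
    · exact ⟨1, le_rfl, u, Or.inl rfl, Wk.single ⟨h.symm, hDz, hu⟩, fun _ => hcol _ _ h.symm⟩
    · exact ⟨1, le_rfl, v, Or.inr rfl, Wk.single ⟨h.symm, hDz, hv⟩, fun _ => hcol _ _ h.symm⟩
  have tree : ∀ D : V → Prop, D u → D v → ∀ z z', D1 z → D1 z' → D z → D z' →
      ∃ m ≤ 3, Wk (res G D) m z' z ∧ (col z = col z' → m ≤ 2) := by
    intro D hu hv z z' hz hz' hDz hDz'
    obtain ⟨m, hm, c, hc, hw, _⟩ := root D hu hv z hz hDz
    obtain ⟨m', hm', c', hc', hw', _⟩ := root D hu hv z' hz' hDz'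
    obtain ⟨m'', hm'', hw''⟩ : ∃ m'' ≤ 1, Wk (res G D) m'' c' c := by
      rcases hc with rfl | rfl <;> rcases hc' with rfl | rfl
      · exact ⟨0, by omega, Wk.nil _⟩
      · exact ⟨1, le_rfl, Wk.single ⟨huv.symm, hv, hu⟩⟩
      · exact ⟨1, le_rfl, Wk.single ⟨huv, hu, hv⟩⟩
      · exact ⟨0, by omega, Wk.nil _⟩
    have hw3 := (hw'.append hw'').append hw.symm
    refine ⟨_, by omega, hw3, fun h => ?_⟩
    have := (hw3.parity (col := col) (fun a b (h : (res G D).Adj a b) => hcol a b h.1)).mpr h.symm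
    omega
  have far : ∀ (D : V → Prop) (Γ : SimpleGraph V), (∀ a b, Γ.Adj a b → G.Adj a b ∧ ¬ D a ∧ ¬ D b) →
      D u → D v → ∀ x y z z' n, ¬ D x → ¬ D y → x ≠ y → D1 z → D1 z' → D z → D z' → G.Adj z x →
      G.Adj z' y → Wk Γ n x y → 2 * r + 1 ≤ n ∧ (col z = col z' → 2 * r + 2 ≤ n) := by
    intro D Γ hΓ hu hv x y z z' n hx hy hxy hz hz' hDz hDz' hzx hzy hw
    obtain ⟨m, hm, hw', hc⟩ := tree D hu hv z z' hz hz' hDz hDz'
    have := hG.outside D hΓ hx hy hxy hDz hzx hzy hw' hw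
    exact ⟨by omega, fun h => by have := hc h; omega⟩
  let Gr : V → Finset V := fun i => univ.filter fun x => G.Adj i x ∧ x ≠ u ∧ x ≠ v
  have hGr : ∀ i x, x ∈ Gr i ↔ G.Adj i x ∧ x ≠ u ∧ x ≠ v := fun i x => by simp [Gr]
  have hcuv := hcol u v huv
  have hGrc : ∀ i, Par i → (Gr i).card + 1 = k := by
    rintro i ⟨h1, h2, h | h⟩
    · have : Gr i = (univ.filter fun w => G.Adj i w).erase u := by
        ext x
        simp only [hGr, mem_erase, mem_filter, mem_univ, true_and]
        refine ⟨fun h => ⟨h.2.1, h.1⟩, fun h' => ⟨h'.2, h'.1, ?_⟩⟩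
        rintro rfl
        exact no_triangle hG (by omega) h h'.2 huv.symm
      rw [this, card_erase_add_one (by simpa using h.symm), hreg]
    · have : Gr i = (univ.filter fun w => G.Adj i w).erase v := by
        ext x
        simp only [hGr, mem_erase, mem_filter, mem_univ, true_and]
        refine ⟨fun h => ⟨h.2.2, h.1⟩, fun h' => ⟨h'.2, ?_, h'.1⟩⟩
        rintro rfl
        exact no_triangle hG (by omega) h h'.2 huv
      rw [this, card_erase_add_one (by simpa using h.symm), hreg]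
  -- two distinct parents have no short connection outside `u`, `v`
  have hpp : ∀ i j n, Par i → Par j → i ≠ j → Wk (res G fun z => ¬ (z = u ∨ z = v)) n i j →
      3 ≤ n := by
    intro i j n hi hj hij hw
    obtain ⟨z, hz, hzi⟩ : ∃ z, (z = u ∨ z = v) ∧ G.Adj z i :=
      hi.2.2.elim (fun h => ⟨u, Or.inl rfl, h⟩) (fun h => ⟨v, Or.inr rfl, h⟩)
    obtain ⟨z', hz', hzj⟩ : ∃ z, (z = u ∨ z = v) ∧ G.Adj z j :=
      hj.2.2.elim (fun h => ⟨u, Or.inl rfl, h⟩) (fun h => ⟨v, Or.inr rfl, h⟩)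
    have := (far (fun z => z = u ∨ z = v) _ (fun a b h => h) (Or.inl rfl) (Or.inr rfl) i j z z' n
      (fun h => h.elim hi.1 hi.2.1) (fun h => h.elim hj.1 hj.2.1) hij
      (hz.elim Or.inl fun h => Or.inr (Or.inl h)) (hz'.elim Or.inl fun h => Or.inr (Or.inl h))
      hz hz' hzi hzj hw).1
    omega
  have hGrD : ∀ i x, Par i → x ∈ Gr i → ¬ D1 x := by
    intro i x hi hx h
    obtain ⟨h1, h2, h3⟩ := (hGr i x).mp hx
    rcases h with h | h | h
    · exact h2 h
    · exact h3 h
    · have := hpp i x 1 hi h h1.ne (Wk.single ⟨h1, fun h => h.elim hi.1 hi.2.1,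
        fun h => h.elim h2 h3⟩)
      omega
  have hpar : ∀ i j x, Par i → Par j → x ∈ Gr i → x ∈ Gr j → i = j := by
    intro i j x hi hj h1 h2
    by_contra hne
    obtain ⟨a1, a2, a3⟩ := (hGr i x).mp h1
    have := hpp i j 2 hi hj hne (Wk.cons (b := x) ⟨a1, fun h => h.elim hi.1 hi.2.1,
      fun h => h.elim a2 a3⟩ (Wk.single ⟨((hGr j x).mp h2).1.symm, fun h => h.elim a2 a3,
      fun h => h.elim hj.1 hj.2.1⟩))
    omega
  have pD : ∀ {i}, Par i → D1 i := fun h => Or.inr (Or.inr h)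
  have hGrdeep : ∀ i x, Par i → x ∈ Gr i → Deep H S r x := fun i x hi hx =>
    (hD1 i (pD hi)).adj ⟨((hGr i x).mp hx).1, Or.inl (hDC i (pD hi))⟩
  have hGrC : ∀ i x, Par i → x ∈ Gr i → x ∈ C := fun i x hi hx =>
    (hs.closed i (hDC i (pD hi)) x ((hGr i x).mp hx).1).resolve_right
      ((hGrdeep i x hi hx).mono (show 0 + 1 ≤ r by omega)).notMem
  let Γ1 := res H fun z => ¬ D1 z
  have hΓ1 : ∀ a b, Γ1.Adj a b → G.Adj a b ∧ ¬ D1 a ∧ ¬ D1 b := fun a b h => ⟨h.1.1, h.2⟩
  have farU : ∀ i j x y n, Par i → Par j → x ∈ Gr i → y ∈ Gr j → x ≠ y → Wk Γ1 n x y →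
      2 * r + 1 ≤ n := fun i j x y n hi hj hx hy hxy hw =>
    (far D1 Γ1 hΓ1 (Or.inl rfl) (Or.inr (Or.inl rfl)) x y i j n (hGrD i x hi hx) (hGrD j y hj hy)
      hxy (pD hi) (pD hj) (pD hi) (pD hj) ((hGr i x).mp hx).1 ((hGr j y).mp hy).1 hw).1
  have short : ∀ i x t m, Par i → x ∈ Gr i → t ∈ S → m ≤ r + 1 → Wk H m x t → Wk Γ1 m x t :=
    fun i x t m hi hx ht hm hw => avoid D1 hD1 hw ht (hGrD i x hi hx) hm
  let I := univ.filter Par
  have hI : ∀ i, i ∈ I ↔ Par i := fun i => by simp [I]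
  -- the colour of the parents allowed for a cut vertex
  let f : Bool → Bool := fun b => if r % 2 = 0 then b else !b
  let Free : V → Prop := fun i => ∀ x ∈ Gr i, Deep H S (r + 1) x
  have hside : ∀ c, (I.filter fun i => col i = c).card + 1 = k := by
    intro c
    by_cases hc : col u = c
    · have : (I.filter fun i => col i = c) = (univ.filter fun w => G.Adj v w).erase u := by
        ext i
        simp only [mem_filter, hI, mem_erase, mem_univ, true_and]
        constructor
        · rintro ⟨⟨h1, _, h | h⟩, h3⟩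
          · exact (hcol _ _ h (hc.trans h3.symm)).elim
          · exact ⟨h1, h⟩
        · rintro ⟨h1, h2⟩
          refine ⟨⟨h1, h2.ne.symm, Or.inr h2⟩, ?_⟩
          have := hcol _ _ h2
          revert this hc hcuv
          cases col u <;> cases col v <;> cases col i <;> cases c <;> simp
      rw [this, card_erase_add_one (by simpa using huv.symm), hreg]
    · have : (I.filter fun i => col i = c) = (univ.filter fun w => G.Adj u w).erase v := by
        ext i
        simp only [mem_filter, hI, mem_erase, mem_univ, true_and]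
        constructor
        · rintro ⟨⟨_, h1, h | h⟩, h3⟩
          · exact ⟨h1, h⟩
          · have := hcol _ _ h
            exfalso
            revert this hc hcuv h3
            cases col u <;> cases col v <;> cases col i <;> cases c <;> simp
        · rintro ⟨h1, h2⟩
          refine ⟨⟨h2.ne.symm, h1, Or.inl h2⟩, ?_⟩
          have := hcol _ _ h2
          revert this hc
          cases col u <;> cases col i <;> cases c <;> simp
      rw [this, card_erase_add_one (by simpa using huv), hreg]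
  have hfree : ∀ b, (S.filter fun s => col s = b).card ≤
      (I.filter fun i => col i = f b ∧ Free i).card := by
    intro b
    have hex : ∀ i, ∃ t, i ∈ (I.filter fun i => col i = f b).filter (fun i => ¬ Free i) →
        (t ∈ S ∧ ¬ col t = b) ∧ ∃ x ∈ Gr i, Wk H r x t := by
      intro i
      by_cases h : i ∈ (I.filter fun i => col i = f b).filter (fun i => ¬ Free i)
      · obtain ⟨h1, h2⟩ := mem_filter.mp h
        obtain ⟨h1, h3⟩ := mem_filter.mp h1
        simp only [Free, Deep] at h2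
        push Not at h2
        obtain ⟨x, hx, t, ht, m, hw, hm⟩ := h2
        have hi := (hI i).mp h1
        have h4 := hGrdeep i x hi hx t ht m hw
        obtain rfl : m = r := by omega
        refine ⟨t, fun _ => ⟨⟨ht, ?_⟩, x, hx, hw⟩⟩
        have h5 := hw.parity hHcol
        have h6 := hcol _ _ ((hGr i x).mp hx).1
        simp only [f] at h3
        revert h3 h5 h6
        by_cases hp : m % 2 = 0 <;> cases col i <;> cases col x <;> cases col t <;> cases b <;>
          simp [hp]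
      · exact ⟨i, fun h' => (h h').elim⟩
    choose t ht using hex
    have a1 : ((I.filter fun i => col i = f b).filter (fun i => ¬ Free i)).card ≤
        (S.filter fun s => ¬ col s = b).card := by
      refine card_le_card_of_injOn t (fun i hi => mem_coe.mpr (mem_filter.mpr (ht i hi).1))
        (fun i hi j hj hij => ?_)
      obtain ⟨h1, x, hx, hw⟩ := ht i hi
      obtain ⟨_, x', hx', hw'⟩ := ht j hj
      have hi' := (hI i).mp (mem_filter.mp (mem_filter.mp hi).1).1
      have hj' := (hI j).mp (mem_filter.mp (mem_filter.mp hj).1).1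
      by_cases hxx : x = x'
      · exact hpar _ _ x hi' hj' hx (hxx ▸ hx')
      · rw [← hij] at hw'
        have := farU _ _ _ _ _ hi' hj' hx hx' hxx ((short _ _ _ _ hi' hx h1.1 (by omega) hw).append
          (short _ _ _ _ hj' hx' h1.1 (by omega) hw').symm)
        omega
    have a2 := card_filter_add_card_filter_not (s := I.filter fun i => col i = f b) Free
    have a3 := card_filter_add_card_filter_not (s := S) (fun s => col s = b)
    have a4 := hside (f b)
    rw [filter_filter] at a2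
    omega
  have : Nonempty V := ⟨u⟩
  obtain ⟨σ0, h0a, h0b⟩ := exists_inj _ _ (hfree false)
  have hf01 : f false ≠ f true := by simp only [f]; split_ifs <;> simp
  obtain ⟨σ, h1a, h1b, hσi⟩ := combine _ (S.filter fun s => col s = true) _ _ σ0 h0a h0b
    (hfree true) (disjoint_left.mpr fun i h1 h2 =>
      hf01 ((mem_filter.mp h1).2.1.symm.trans (mem_filter.mp h2).2.1))
    (disjoint_left.mpr fun i h1 h2 => by
      have := (mem_filter.mp h1).2.symm.trans (mem_filter.mp h2).2
      simp at this)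
  have hSU : (S.filter fun s => col s = false) ∪ (S.filter fun s => col s = true) = S := by
    ext s
    simp only [mem_union, mem_filter]
    cases col s <;> simp
  rw [hSU] at hσi
  have hσ' : ∀ s ∈ S, Par (σ s) ∧ col (σ s) = f (col s) ∧ Free (σ s) := by
    intro s hsS
    cases hc : col s with
    | false =>
      have h1 : s ∈ S.filter fun s => col s = false := mem_filter.mpr ⟨hsS, hc⟩
      rw [h1a s h1]
      have := mem_filter.mp (h0a s h1)
      exact ⟨(hI _).mp this.1, this.2⟩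
    | true =>
      have := mem_filter.mp (h1b s (mem_filter.mpr ⟨hsS, hc⟩))
      exact ⟨(hI _).mp this.1, this.2⟩
  have hσ : ∀ s ∈ S, Par (σ s) := fun s hs => (hσ' s hs).1
  let a : V → ℕ := fun s => (C.filter fun w => G.Adj s w).card
  have hak : ∀ s, a s ≤ k := fun s => by
    rw [← hreg s]; exact card_le_card (filter_subset_filter _ (subset_univ _))
  let N : V → Finset V := fun t => I.filter fun i => ∃ x ∈ Gr i, ∃ m ≤ r + 1, Wk Γ1 m x t
  have hyex : ∀ i t, ∃ y, i ∈ N t → y ∈ Gr i ∧ ∃ m ≤ r + 1, Wk Γ1 m y t := by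
    intro i t
    by_cases h : i ∈ N t
    · obtain ⟨y, hy⟩ := (mem_filter.mp h).2
      exact ⟨y, fun _ => hy⟩
    · exact ⟨t, fun h' => (h h').elim⟩
  choose y hy using hyex
  have hyu : ∀ t i x m, Par i → x ∈ Gr i → m ≤ r + 1 → Wk Γ1 m x t → i ∈ N t ∧ y i t = x := by
    intro t i x m hi hx hm hw
    have hN : i ∈ N t := mem_filter.mpr ⟨(hI i).mpr hi, x, hx, m, hm, hw⟩
    obtain ⟨h1, m', hm', hw'⟩ := hy i t hN
    refine ⟨hN, ?_⟩
    by_contra hne
    have := hG.outside D1 hΓ1 (hGrD i _ hi h1) (hGrD i x hi hx) hne (pD hi)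
      ((hGr i _).mp h1).1 ((hGr i x).mp hx).1 (Wk.nil _) (hw'.append hw.symm)
    omega
  have hNa : ∀ t ∈ S, (N t).card ≤ a t := by
    intro t ht
    have hwex : ∀ i, ∃ w, i ∈ N t → (w ∈ C ∧ G.Adj t w) ∧ ∃ x ∈ Gr i, ∃ m ≤ r, Wk Γ1 m x w := by
      intro i
      by_cases h : i ∈ N t
      · obtain ⟨hi, x, hx, m, hm, hw⟩ := mem_filter.mp h
        have h1 := hGrdeep i x ((hI i).mp hi) hx t ht m
          (hw.mono fun a b (h : Γ1.Adj a b) => h.1)
        obtain ⟨m', rfl⟩ : ∃ m', m = m' + 1 := ⟨m - 1, by omega⟩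
        obtain ⟨w, hw', hwt⟩ := hw.succ_elim'
        exact ⟨w, fun _ => ⟨⟨hwt.1.2.resolve_right fun h => hs.disj t h ht, hwt.1.1.symm⟩,
          x, hx, m', by omega, hw'⟩⟩
      · exact ⟨t, fun h' => (h h').elim⟩
    choose w hw using hwex
    refine card_le_card_of_injOn w (fun i hi => mem_coe.mpr (mem_filter.mpr (hw i hi).1))
      (fun i hi j hj hij => ?_)
    obtain ⟨_, x, hx, m, hm, hw1⟩ := hw i hi
    obtain ⟨_, x', hx', m', hm', hw2⟩ := hw j hj
    have hi' := (hI i).mp (mem_filter.mp hi).1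
    have hj' := (hI j).mp (mem_filter.mp hj).1
    by_cases hxx : x = x'
    · exact hpar _ _ x hi' hj' hx (hxx ▸ hx')
    · rw [← hij] at hw2
      have := farU _ _ _ _ _ hi' hj' hx hx' hxx (hw1.append hw2.symm)
      omega
  obtain ⟨B, hB, hconf⟩ := split_rel S (fun s t => σ s ∈ N t ∧ σ t ∈ N s) (fun s t h => h.symm)
    (fun s => a s - 1) (by
      intro s hsS
      have b1 : (S.filter fun t => σ s ∈ N t ∧ σ t ∈ N s).card ≤ (N s).card :=
        card_le_card_of_injOn σ (fun t ht => (mem_filter.mp (mem_coe.mp ht)).2.2)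
          (fun t ht t' ht' h => hσi t (mem_filter.mp (mem_coe.mp ht)).1 t'
            (mem_filter.mp (mem_coe.mp ht')).1 h)
      have b2 := hNa s hsS
      have b3 : 2 ≤ a s := ha s hsS
      omega)
  have hAex : ∀ b s, ∃ A : Finset V, s ∈ S → A ⊆ Gr (σ s) ∧ a s + A.card = k ∧
      ∀ t ∈ B b s, y (σ s) t ∉ A := by
    intro b s
    by_cases h : s ∈ S
    · obtain ⟨A, hA⟩ := exists_drop (Gr (σ s)) (B b s) (y (σ s)) (hGrc _ (hσ s h))
        (show _ ≤ a s by
          have := hB b s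
          have b3 : 2 ≤ a s := ha s h
          omega) (hak s)
      exact ⟨A, fun _ => hA⟩
    · exact ⟨∅, fun h' => (h h').elim⟩
  choose A hA using hAex
  let D : V → Prop := fun z => z = u ∨ z = v ∨ z ∈ S.image σ
  have hDD : ∀ z, D z → D1 z := by
    rintro z (h | h | h)
    · exact Or.inl h
    · exact Or.inr (Or.inl h)
    · obtain ⟨s, hsS, rfl⟩ := mem_image.mp h
      exact pD (hσ s hsS)
  have hDσ : ∀ s ∈ S, D (σ s) := fun s h => Or.inr (Or.inr (mem_image_of_mem _ h))
  let Γ := res H fun z => ¬ D z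
  have hΓ : ∀ a b, Γ.Adj a b → G.Adj a b ∧ ¬ D a ∧ ¬ D b := fun a b h => ⟨h.1.1, h.2⟩
  have hΓH : ∀ {n a b}, Wk Γ n a b → Wk H n a b :=
    fun h => h.mono fun a b (h : Γ.Adj a b) => h.1
  let W := (C ∪ S).filter fun x => ¬ D x
  let U := univ.filter fun x => ¬ D x ∧ ∃ z, D z ∧ G.Adj z x
  have hU : ∀ x, x ∈ U ↔ ¬ D x ∧ ∃ z, D z ∧ G.Adj z x := fun x => by simp [U]
  have hUcases : ∀ x z, ¬ D x → D z → G.Adj z x →
      (Par x ∧ (z = u ∨ z = v)) ∨ ∃ s ∈ S, z = σ s ∧ x ∈ Gr (σ s) := by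
    intro x z hx hz hzx
    have h1 : x ≠ u := fun h => hx (Or.inl h)
    have h2 : x ≠ v := fun h => hx (Or.inr (Or.inl h))
    rcases hz with rfl | rfl | h
    · exact Or.inl ⟨⟨h1, h2, Or.inl hzx⟩, Or.inl rfl⟩
    · exact Or.inl ⟨⟨h1, h2, Or.inr hzx⟩, Or.inr rfl⟩
    · obtain ⟨s, hsS, rfl⟩ := mem_image.mp h
      exact Or.inr ⟨s, hsS, rfl, (hGr _ _).mpr ⟨hzx, h1, h2⟩⟩
  have hUdeep : ∀ x ∈ U, x ∈ C ∧ Deep H S (r + 1) x := by
    intro x hx
    obtain ⟨h1, z, hz, hzx⟩ := (hU x).mp hx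
    rcases hUcases x z h1 hz hzx with h | ⟨s, hsS, _, h⟩
    · exact ⟨hDC x (pD h.1), hD1 x (pD h.1)⟩
    · exact ⟨hGrC _ x (hσ s hsS) h, (hσ' s hsS).2.2 x h⟩
  have hGrU : ∀ s ∈ S, ∀ x ∈ Gr (σ s), x ∈ U := fun s hsS x hx =>
    (hU x).mpr ⟨fun h => hGrD _ x (hσ s hsS) hx (hDD x h), σ s, hDσ s hsS, ((hGr _ x).mp hx).1⟩
  have hSD : ∀ s ∈ S, ¬ D s := fun s hsS h => hs.disj s (hDC s (hDD s h)) hsS
  have hnSS : ∀ s ∈ S, ∀ t ∈ S, ¬ Γ.Adj s t := fun s hsS t htS h =>
    h.1.2.elim (fun h => hs.disj s h hsS) (fun h => hs.disj t h htS)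
  have hcardG : ∀ v, (G.neighborSet v).ncard = k := fun v => by rw [card_nbr, hreg]
  have farΓ := far D Γ hΓ (Or.inl rfl) (Or.inr (Or.inl rfl))
  obtain ⟨H', h1, h2⟩ := glue2 (Γ := Γ) (W := W) (S := S) (U := U) (k := k)
    (g := 2 * (r + 3)) (β := 2 * r + 1) (η := r + 1) A
    (fun a b h => mem_filter.mpr ⟨by
      rcases h.1.2 with h' | h'
      · exact mem_union_left _ h'
      · exact mem_union.mpr (hs.closed b h' a h.1.1.symm), h.2.1⟩)
    (fun s hsS => mem_filter.mpr ⟨mem_union_right _ hsS, hSD s hsS⟩)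
    (fun x hx => mem_filter.mpr ⟨mem_union_left _ (hUdeep x hx).1, ((hU x).mp hx).1⟩)
    (disjoint_left.mpr fun x hxS hx => hs.disj x (hUdeep x hx).1 hxS)
    (fun b s hsS => by
      rw [← (hA b s hsS).2.1]
      congr 1
      simp only [a]
      rw [← Set.ncard_coe_finset]
      congr 1
      ext w
      simp only [mem_neighborSet, coe_filter, Set.mem_ofPred_eq]
      refine ⟨fun h => ⟨h.1.2.resolve_left fun h' => hs.disj s h' hsS, h.1.1⟩, fun h => ?_⟩
      refine ⟨⟨h.2, Or.inr h.1⟩, hSD s hsS, fun hw => ?_⟩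
      have := hD1 w (hDD w hw) s hsS 1 (Wk.single ⟨h.2.symm, Or.inl h.1⟩)
      omega)
    (fun x hx => by
      obtain ⟨hxD, z, hz, hzx⟩ := (hU x).mp hx
      rw [← hcardG x]
      refine ncard_insert_nbr hzx.symm (fun h => h.2.2 hz) (fun y h => h.1.1) (fun y h => ?_)
      by_cases hy : D y
      · left
        rcases hUcases x z hxD hz hzx with h1 | ⟨s, hsS, rfl, h1⟩ <;>
          rcases hUcases x y hxD hy h.symm with h2 | ⟨s', hsS', rfl, h2⟩
        · rcases h1.2 with rfl | rfl <;> rcases h2.2 with rfl | rfl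
          · rfl
          · exact (no_triangle hG (by omega) hzx h huv.symm).elim
          · exact (no_triangle hG (by omega) hzx h huv).elim
          · rfl
        · exact (hGrD _ x (hσ s' hsS') h2 (pD h1.1)).elim
        · exact (hGrD _ x (hσ s hsS) h1 (pD h2.1)).elim
        · exact hpar _ _ x (hσ s' hsS') (hσ s hsS) h2 h1
      · exact Or.inr ⟨⟨h, Or.inl (hUdeep x hx).1⟩, hxD, hy⟩)
    (fun x hx hxS hxU => by
      obtain ⟨h1, h2⟩ := mem_filter.mp hx
      have hxC : x ∈ C := (mem_union.mp h1).resolve_right hxS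
      rw [← hcardG x]
      congr 1
      ext y
      simp only [mem_neighborSet]
      exact ⟨fun h => h.1.1, fun h => ⟨⟨h, Or.inl hxC⟩, h2,
        fun hy => hxU ((hU x).mpr ⟨h2, y, hy, h.symm⟩)⟩⟩)
    (fun b s hsS x hx => hGrU s hsS x ((hA b s hsS).1 hx))
    (fun b s hsS t htS x h1 h2 => hσi s hsS t htS
      (hpar _ _ x (hσ s hsS) (hσ t htS) ((hA b s hsS).1 h1) ((hA b t htS).1 h2)))
    (hG.anti fun a b h => h.1.1)
    (fun x hx y hy hxy n hw => by
      obtain ⟨hxD, z, hz, hzx⟩ := (hU x).mp hx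
      obtain ⟨hyD, z', hz', hzy⟩ := (hU y).mp hy
      exact (farΓ x y z z' n hxD hyD hxy (hDD z hz) (hDD z' hz') hz hz' hzx hzy hw).1)
    (fun x hx s hsS n hw => (hUdeep x hx).2 s hsS n (hΓH hw))
    (fun b s hsS x hx y hy hxy n hw => by
      have gx := (hA b s hsS).1 hx
      have gy := (hA b s hsS).1 hy
      have := hG.outside D hΓ ((hU x).mp (hGrU s hsS x gx)).1 ((hU y).mp (hGrU s hsS y gy)).1 hxy
        (hDσ s hsS) ((hGr _ x).mp gx).1 ((hGr _ y).mp gy).1 (Wk.nil _) hw
      omega)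
    (fun b s hsS t htS hst x hx y hy n m hw hw' => by
      have gx := (hA b s hsS).1 hx
      have gy := (hA b t htS).1 hy
      obtain ⟨a1, a2⟩ := farΓ x y (σ s) (σ t) n ((hU x).mp (hGrU s hsS x gx)).1
        ((hU y).mp (hGrU t htS y gy)).1 (by
          rintro rfl
          exact hst (hσi s hsS t htS (hpar _ _ x (hσ s hsS) (hσ t htS) gx gy)))
        (pD (hσ s hsS)) (pD (hσ t htS)) (hDσ s hsS) (hDσ t htS) ((hGr _ x).mp gx).1
        ((hGr _ y).mp gy).1 hw
      have a3 := hw'.two_le_of_ne hst (hnSS s hsS t htS)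
      by_cases hc : col s = col t
      · have := a2 (by rw [(hσ' s hsS).2.1, (hσ' t htS).2.1, hc])
        omega
      · have := ((hΓH hw').parity hHcol).not.mpr hc
        omega)
    (fun s hsS t htS x hx x' hx' n m hw hw' => by
      by_contra hlt
      have gx := (hA _ s hsS).1 hx
      have gx' := (hA _ t htS).1 hx'
      have a1 := (hσ' s hsS).2.2 x gx t htS n (hΓH hw)
      have a2 := (hσ' t htS).2.2 x' gx' s hsS m (hΓH hw')
      have p1 := (hΓH hw).parity hHcol
      have p2 := (hΓH hw').parity hHcol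
      have p3 := hcol _ _ ((hGr _ x).mp gx).1
      have p4 := hcol _ _ ((hGr _ x').mp gx').1
      rw [(hσ' s hsS).2.1] at p3
      rw [(hσ' t htS).2.1] at p4
      have p5 : n % 2 = 0 ↔ m % 2 = 0 := by
        rw [p1, p2]
        simp only [f] at p3 p4
        revert p3 p4
        by_cases hp : r % 2 = 0 <;> cases col s <;> cases col t <;> cases col x <;>
          cases col x' <;> simp [hp]
      obtain ⟨b1, b2⟩ := hyu t _ x n (hσ s hsS) gx (by omega)
        (short _ _ _ _ (hσ s hsS) gx htS (by omega) (hΓH hw))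
      obtain ⟨b3, b4⟩ := hyu s _ x' m (hσ t htS) gx' (by omega)
        (short _ _ _ _ (hσ t htS) gx' hsS (by omega) (hΓH hw'))
      rcases hconf s hsS t htS ⟨b1, b3⟩ with h | h
      · exact (hA _ s hsS).2.2 t h (b2 ▸ hx)
      · exact (hA _ t htS).2.2 s h (b4 ▸ hx'))
    (by omega) (by omega) (by omega)
  refine ⟨H', _, h1, h2, ?_, ?_⟩
  · obtain ⟨s, hsS⟩ := card_pos.mp (show 0 < S.card by omega)
    exact ⟨(s, false), mem_product.mpr ⟨mem_filter.mpr ⟨mem_union_right _ hsS, hSD s hsS⟩,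
      mem_univ _⟩⟩
  · rw [card_product, card_univ, Fintype.card_bool]
    have a1 : W ⊆ (C ∪ S) \ insert u (S.image σ) := fun x hx => by
      obtain ⟨h1, h2⟩ := mem_filter.mp hx
      refine mem_sdiff.mpr ⟨h1, fun h => h2 ?_⟩
      rcases mem_insert.mp h with h | h
      · exact Or.inl h
      · exact Or.inr (Or.inr h)
    have a2 : insert u (S.image σ) ⊆ C ∪ S := fun x h => mem_union_left _ (hDC x (hDD x (by
      rcases mem_insert.mp h with h | h
      · exact Or.inl h
      · exact Or.inr (Or.inr h))))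
    have a3 := card_sdiff_add_card_eq_card a2
    have a4 := card_le_card a1
    have a5 := card_union_le C S
    rw [card_insert_of_notMem (by
      intro h
      obtain ⟨s, hsS, h⟩ := mem_image.mp h
      exact (hσ s hsS).1 h), card_image_of_injOn (fun s hs t ht h => hσi s hs t ht h)] at a3
    omega

end Pool.Agent.MP_0be28d_co
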