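import Mathlib

-- part MP_0be28d_co.Walks
section

/-!
Walk predicate, girth lower bounds and a surgery lemma (girth of a graph with added edges).
-/

set_option autoImplicit false

namespace Pool.Agent.MP_0be28d_co

open SimpleGraph

variable {X : Type*}

/-- `Wk G n a b`: there is a walk of length `n` from `a` to `b` in `G`. -/
inductive Wk (G : SimpleGraph X) : ℕ → X → X → Prop
  | nil (a : X) : Wk G 0 a a
  | cons {n : ℕ} {a b c : X} : G.Adj a b → Wk G n b c → Wk G (n + 1) a c

namespace Wk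

variable {G : SimpleGraph X}

theorem of_walk {a b : X} (p : G.Walk a b) : Wk G p.length a b := by
  induction p with
  | nil => exact Wk.nil _
  | cons h _ ih => exact Wk.cons h ih

theorem exists_walk {n : ℕ} {a b : X} (h : Wk G n a b) : ∃ p : G.Walk a b, p.length = n := by
  induction h with
  | nil a => exact ⟨Walk.nil, rfl⟩
  | cons h _ ih =>
    obtain ⟨p, hp⟩ := ih
    exact ⟨Walk.cons h p, by simp [hp]⟩

theorem single {a b : X} (h : G.Adj a b) : Wk G 1 a b := Wk.cons h (Wk.nil _)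

theorem append {m n : ℕ} {a b c : X} (h : Wk G m a b) (h' : Wk G n b c) : Wk G (m + n) a c := by
  induction h with
  | nil a => simpa using h'
  | cons h _ ih =>
    have := Wk.cons h (ih h')
    rwa [Nat.add_right_comm] at this

theorem concat {n : ℕ} {a b c : X} (h : Wk G n a b) (h' : G.Adj b c) : Wk G (n + 1) a c :=
  h.append (single h')

theorem symm {n : ℕ} {a b : X} (h : Wk G n a b) : Wk G n b a := by
  induction h with
  | nil a => exact Wk.nil _
  | cons h _ ih => exact ih.concat h.symm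

theorem mono {H : SimpleGraph X} (hle : ∀ a b, G.Adj a b → H.Adj a b) {n : ℕ} {a b : X}
    (h : Wk G n a b) : Wk H n a b := by
  induction h with
  | nil a => exact Wk.nil _
  | cons h _ ih => exact Wk.cons (hle _ _ h) ih

theorem eq_of_zero {a b : X} (h : Wk G 0 a b) : a = b := by
  cases h; rfl

theorem adj_of_one {a b : X} (h : Wk G 1 a b) : G.Adj a b := by
  cases h with
  | cons h h' => cases h'; exact h

theorem succ_elim {n : ℕ} {a c : X} (h : Wk G (n + 1) a c) : ∃ b, G.Adj a b ∧ Wk G n b c := by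
  cases h with
  | cons h h' => exact ⟨_, h, h'⟩

theorem succ_elim' {n : ℕ} {a c : X} (h : Wk G (n + 1) a c) : ∃ b, Wk G n a b ∧ G.Adj b c := by
  obtain ⟨b, hb, h'⟩ := h.symm.succ_elim
  exact ⟨b, h'.symm, hb.symm⟩

theorem two_le_of_ne {n : ℕ} {a b : X} (h : Wk G n a b) (hne : a ≠ b) (hna : ¬ G.Adj a b) :
    2 ≤ n := by
  rcases n with _ | _ | n
  · exact absurd h.eq_of_zero hne
  · exact absurd h.adj_of_one hna
  · omega

theorem parity {col : X → Bool} (hc : ∀ a b, G.Adj a b → col a ≠ col b) {n : ℕ} {a b : X}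
    (h : Wk G n a b) : (n % 2 = 0 ↔ col a = col b) := by
  induction h with
  | nil a => simp
  | @cons n a b c h _ ih =>
    have := hc _ _ h
    have h2 : (n + 1) % 2 = 0 ↔ ¬ (n % 2 = 0) := by omega
    rw [h2, ih]
    revert this
    cases col a <;> cases col b <;> cases col c <;> simp

end Wk

/-- `G` with the edge `ab` removed. -/
def del (G : SimpleGraph X) (a b : X) : SimpleGraph X where
  Adj x y := G.Adj x y ∧ s(x, y) ≠ s(a, b)
  symm := ⟨fun x y h => ⟨h.1.symm, by rw [Sym2.eq_swap]; exact h.2⟩⟩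
  loopless := ⟨fun x h => G.loopless.1 x h.1⟩

/-- every closed walk through an edge that uses it once has length at least `g` -/
def GirthGe (G : SimpleGraph X) (g : ℕ) : Prop :=
  ∀ a b, G.Adj a b → ∀ n, Wk (del G a b) n b a → g ≤ n + 1

theorem GirthGe.walk {G : SimpleGraph X} {g : ℕ} (hG : GirthGe G g) {a b : X} (hab : G.Adj a b)
    (p : G.Walk b a) (hp : s(a, b) ∉ p.edges) : g ≤ p.length + 1 := by
  have h1 : ∀ e ∈ p.edges, e ∈ (del G a b).edgeSet := by
    intro e he
    have h2 := p.edges_subset_edgeSet he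
    induction e using Sym2.ind with
    | _ x y =>
      refine ⟨h2, fun h3 => hp (h3 ▸ he)⟩
  have := hG a b hab _ (Wk.of_walk (p.transfer _ h1))
  simpa using this

theorem girthGe_of_walk {G : SimpleGraph X} {g : ℕ}
    (h : ∀ a b, G.Adj a b → ∀ p : G.Walk b a, s(a, b) ∉ p.edges → g ≤ p.length + 1) :
    GirthGe G g := by
  intro a b hab n hn
  obtain ⟨p, rfl⟩ := hn.exists_walk
  have hle : del G a b ≤ G := fun _ _ h => h.1
  have := h a b hab (p.mapLe hle) (by
    rw [Walk.edges_mapLe_eq_edges]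
    intro he
    exact (p.edges_subset_edgeSet he).2 rfl)
  simpa using this

theorem girthGe_iff {G : SimpleGraph X} {g : ℕ} : GirthGe G g ↔ (g : ℕ∞) ≤ G.egirth := by
  classical
  constructor
  · intro h
    rw [le_egirth]
    intro a w hw
    cases w with
    | nil => exact absurd rfl hw.ne_nil
    | cons hab p =>
      rw [Walk.cons_isCycle_iff] at hw
      have := h.walk hab p hw.2
      simp only [Walk.length_cons]
      exact_mod_cast this
  · intro h
    apply girthGe_of_walk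
    intro a b hab p hp
    have hc : (Walk.cons hab p.bypass).IsCycle := by
      rw [Walk.cons_isCycle_iff]
      exact ⟨p.bypass_isPath, fun h => hp (p.edges_bypass_subset_edges h)⟩
    have h1 := le_egirth.mp h a _ hc
    have h2 := p.length_bypass_le_length
    simp only [Walk.length_cons] at h1
    have h3 : g ≤ p.bypass.length + 1 := by exact_mod_cast h1
    omega

theorem GirthGe.mono_le {G : SimpleGraph X} {g g' : ℕ} (h : GirthGe G g) (hle : g' ≤ g) :
    GirthGe G g' := fun a b hab n hn => hle.trans (h a b hab n hn)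

theorem GirthGe.anti {G H : SimpleGraph X} {g : ℕ} (h : GirthGe G g)
    (hle : ∀ a b, H.Adj a b → G.Adj a b) : GirthGe H g := fun a b hab n hn =>
  h a b (hle _ _ hab) n (hn.mono (H := del G a b) fun x y (hh : (del H a b).Adj x y) => (⟨hle _ _ hh.1, hh.2⟩ : G.Adj x y ∧ _))

/-- `G` restricted to the vertices satisfying `P` (other vertices become isolated). -/
def res (G : SimpleGraph X) (P : X → Prop) : SimpleGraph X where
  Adj x y := G.Adj x y ∧ P x ∧ P y
  symm := ⟨fun _ _ h => ⟨h.1.symm, h.2.2, h.2.1⟩⟩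
  loopless := ⟨fun x h => G.loopless.1 x h.1⟩

/-- Two distinct vertices outside `D` with neighbours in `D` that are close inside `D`
are far apart in any subgraph avoiding `D`. -/
theorem GirthGe.outside {G Γ : SimpleGraph X} {g : ℕ} (hG : GirthGe G g) (D : X → Prop)
    (hΓ : ∀ a b, Γ.Adj a b → G.Adj a b ∧ ¬ D a ∧ ¬ D b) {x y z z' : X} {n m : ℕ}
    (hx : ¬ D x) (hy : ¬ D y) (hxy : x ≠ y) (hz : D z) (hzx : G.Adj z x)
    (hz'y : G.Adj z' y) (hw : Wk (res G D) m z' z) (hp : Wk Γ n x y) : g ≤ n + m + 2 := by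
  have h1 : Wk (del G z x) n x y := hp.mono (H := del G z x) fun a b h => ⟨(hΓ a b h).1, by
    intro he
    rcases Sym2.eq_iff.mp he with ⟨h1, _⟩ | ⟨_, h1⟩
    · exact (hΓ a b h).2.1 (h1 ▸ hz)
    · exact (hΓ a b h).2.2 (h1 ▸ hz)⟩
  have h2 : (del G z x).Adj y z' := ⟨hz'y.symm, by
    intro he
    rcases Sym2.eq_iff.mp he with ⟨h1, _⟩ | ⟨h1, _⟩
    · exact hy (h1 ▸ hz)
    · exact hxy h1.symm⟩
  have h3 : Wk (del G z x) m z' z := hw.mono (H := del G z x) fun a b (h : (res G D).Adj a b) => ⟨h.1, by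
    intro he
    rcases Sym2.eq_iff.mp he with ⟨_, h1⟩ | ⟨h1, _⟩
    · exact hx (h1 ▸ h.2.2)
    · exact hx (h1 ▸ h.2.1)⟩
  have := hG z x hzx _ ((h1.concat h2).append h3)
  omega

section surgery

variable {Γ N : SimpleGraph X}

theorem decomp {a b : X} (p : (Γ ⊔ N).Walk a b) :
    (∃ p0 : Γ.Walk a b, p0.length = p.length ∧ p0.edges = p.edges) ∨
    ∃ (c d : X) (_ : N.Adj c d) (p1 : Γ.Walk a c) (p2 : (Γ ⊔ N).Walk d b),
      p.length = p1.length + 1 + p2.length ∧ p.edges = p1.edges ++ s(c, d) :: p2.edges := by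
  induction p with
  | nil => exact Or.inl ⟨Walk.nil, rfl, rfl⟩
  | @cons a a' b h p ih =>
    by_cases hN : N.Adj a a'
    · exact Or.inr ⟨a, a', hN, Walk.nil, p, by simp; omega, by simp⟩
    · have hΓ : Γ.Adj a a' := by
        rcases (sup_adj _ _ _ _).mp h with h | h
        · exact h
        · exact absurd h hN
      rcases ih with ⟨p0, h1, h2⟩ | ⟨c, d, hcd, p1, p2, h1, h2⟩
      · exact Or.inl ⟨Walk.cons hΓ p0, by simp [h1], by simp [h2]⟩
      · exact Or.inr ⟨c, d, hcd, Walk.cons hΓ p1, p2, by simp [h1]; omega, by simp [h2]⟩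

theorem weight0 (ω : X → ℕ)
    (h3 : ∀ a a' c c' n, N.Adj a' a → N.Adj c c' → s(a', a) ≠ s(c, c') → Wk Γ n a c →
      ω a + ω c ≤ 2 * n) :
    ∀ (n : ℕ) (a a' b b' : X) (p : (Γ ⊔ N).Walk a b), p.length ≤ n → p.edges.Nodup →
      N.Adj a' a → N.Adj b b' → s(a', a) ≠ s(b, b') → s(a', a) ∉ p.edges → s(b, b') ∉ p.edges →
      ω a + ω b ≤ 2 * p.length := by
  intro n
  induction n with
  | zero =>
    intro a a' b b' p hp _ ha hb hne _ _
    rcases decomp p with ⟨p0, h1, _⟩ | ⟨c, d, hcd, p1, p2, h1, _⟩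
    · rw [← h1]; exact h3 _ _ _ _ _ ha hb hne (Wk.of_walk p0)
    · omega
  | succ n ih =>
    intro a a' b b' p hp hnd ha hb hne hna hnb
    rcases decomp p with ⟨p0, h1, _⟩ | ⟨c, d, hcd, p1, p2, h1, h2⟩
    · rw [← h1]; exact h3 _ _ _ _ _ ha hb hne (Wk.of_walk p0)
    · rw [h2] at hnd hna hnb
      have hnd2 := (List.nodup_append.mp hnd).2.1
      rw [List.nodup_cons] at hnd2
      have e1 := h3 a a' c d _ ha hcd (fun h => hna (by simp [h])) (Wk.of_walk p1)
      have e2 := ih d c b b' p2 (by omega) hnd2.2 hcd hb (fun h => hnb (by simp [h])) hnd2.1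
        (fun h => hnb (by simp [h]))
      omega

theorem surgery {g Ω : ℕ} (ω : X → ℕ) (h0 : GirthGe Γ g)
    (h1 : ∀ a b n, N.Adj b a → Wk Γ n a b → g ≤ n + 1)
    (h2 : ∀ a b c d n m, N.Adj b a → N.Adj c d → s(b, a) ≠ s(c, d) → Wk Γ n a c → Wk Γ m d b →
      g ≤ n + m + 2)
    (h3 : ∀ a a' c c' n, N.Adj a' a → N.Adj c c' → s(a', a) ≠ s(c, c') → Wk Γ n a c →
      ω a + ω c ≤ 2 * n)
    (h4 : ∀ c d, N.Adj c d → Ω ≤ ω c + ω d) (h5 : 2 * g ≤ 3 * (2 + Ω)) :
    GirthGe (Γ ⊔ N) g := by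
  classical
  have core : ∀ b a, N.Adj b a → ∀ w : (Γ ⊔ N).Walk a b, s(b, a) ∉ w.edges →
      g ≤ w.length + 1 := by
    intro b a hba w hw
    have hlen := w.length_bypass_le_length
    have hnd : w.bypass.edges.Nodup := w.bypass_isPath.isTrail.edges_nodup
    have hn : s(b, a) ∉ w.bypass.edges := fun h => hw (w.edges_bypass_subset_edges h)
    generalize w.bypass = p at hlen hnd hn
    suffices g ≤ p.length + 1 by omega
    rcases decomp p with ⟨p0, e1, _⟩ | ⟨c, d, hcd, p1, p2, e1, e2⟩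
    · rw [← e1]; exact h1 a b _ hba (Wk.of_walk p0)
    · rw [e2] at hnd hn
      have hnd2 := (List.nodup_append.mp hnd).2.1
      rw [List.nodup_cons] at hnd2
      have hne : s(b, a) ≠ s(c, d) := fun h => hn (by simp [h])
      have hn2 : s(b, a) ∉ p2.edges := fun h => hn (by simp [h])
      rcases decomp p2 with ⟨q0, f1, _⟩ | ⟨c', d', hcd', q1, q2, f1, f2⟩
      · have := h2 a b c d _ _ hba hcd hne (Wk.of_walk p1) (Wk.of_walk q0)
        omega
      · rw [f2] at hnd2 hn2
        have hnd3 := (List.nodup_append.mp hnd2.2).2.1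
        rw [List.nodup_cons] at hnd3
        have hne2 : s(c, d) ≠ s(c', d') := fun h => hnd2.1 (by simp [h])
        have hne3 : s(c', d') ≠ s(b, a) := fun h => hn2 (by simp [h])
        have a1 := h3 a b c d _ hba hcd hne (Wk.of_walk p1)
        have a2 := h3 d c c' d' _ hcd hcd' hne2 (Wk.of_walk q1)
        have a3 := weight0 ω h3 _ d' c' b a q2 le_rfl hnd3.2 hcd' hba hne3 hnd3.1
          (fun h => hn2 (by simp [h]))
        have b1 := h4 _ _ hba
        have b2 := h4 _ _ hcd
        have b3 := h4 _ _ hcd'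
        omega
  apply girthGe_of_walk
  intro a b hab w hw
  by_cases hN : N.Adj a b
  · exact core a b hN w hw
  have hΓ : Γ.Adj a b := by
    rcases (sup_adj _ _ _ _).mp hab with h | h
    · exact h
    · exact absurd h hN
  have hlen := w.length_bypass_le_length
  have hnd : w.bypass.edges.Nodup := w.bypass_isPath.isTrail.edges_nodup
  have hn : s(a, b) ∉ w.bypass.edges := fun h => hw (w.edges_bypass_subset_edges h)
  generalize w.bypass = p at hlen hnd hn
  suffices g ≤ p.length + 1 by omega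
  rcases decomp p with ⟨p0, e1, e2⟩ | ⟨c, d, hcd, p1, p2, e1, e2⟩
  · rw [← e1]; exact h0.walk hΓ p0 (e2 ▸ hn)
  · rw [e2] at hnd hn
    have hle : Γ ≤ Γ ⊔ N := le_sup_left
    have := core c d hcd (p2.append (Walk.cons hab (p1.mapLe hle))) (by
      rw [Walk.edges_append, Walk.edges_cons, Walk.edges_mapLe_eq_edges]
      have h6 := List.nodup_append.mp hnd
      intro h
      rcases List.mem_append.mp h with h | h
      · exact (List.nodup_cons.mp h6.2.1).1 h
      · rcases List.mem_cons.mp h with h | h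
        · exact hn (by simp [← h])
        · exact h6.2.2 _ h _ (List.mem_cons_self) rfl)
    simp only [Walk.length_append, Walk.length_cons, Walk.length_mapLe] at this
    omega

end surgery

end Pool.Agent.MP_0be28d_co

end

-- part MP_0be28d_co.Mono
section

/-!
Girth monotonicity: a regular graph of girth at least `g` has at least as many vertices as a
`(k,g)`-cage.
-/

set_option autoImplicit false

namespace Pool.Agent.MP_0be28d_co

open SimpleGraph

variable {X : Type*}

/-- `G` is `k`-regular on `W` and all other vertices are isolated -/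
def RegOn (G : SimpleGraph X) (W : Finset X) (k : ℕ) : Prop :=
  (∀ a b, G.Adj a b → a ∈ W) ∧ ∀ v ∈ W, (G.neighborSet v).ncard = k

theorem ncard_sup [Finite X] {Γ N : SimpleGraph X} (h : ∀ a b, Γ.Adj a b → ¬ N.Adj a b) (v : X) :
    ((Γ ⊔ N).neighborSet v).ncard = (Γ.neighborSet v).ncard + (N.neighborSet v).ncard := by
  rw [← Set.ncard_union_eq]
  · congr 1
  · rw [Set.disjoint_left]
    intro a ha hb
    exact h _ _ ha hb

theorem exists_invol [DecidableEq X] : ∀ (n : ℕ) (T : Finset X), T.card = 2 * n →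
    ∃ μ : X → X, ∀ x ∈ T, μ x ∈ T ∧ μ (μ x) = x ∧ μ x ≠ x := by
  intro n
  induction n with
  | zero =>
    intro T hT
    refine ⟨id, fun x hx => ?_⟩
    rw [Finset.card_eq_zero.mp hT] at hx
    simp at hx
  | succ n ih =>
    intro T hT
    obtain ⟨x, hx, y, hy, hxy⟩ := Finset.one_lt_card.mp (show 1 < T.card by omega)
    obtain ⟨μ, hμ⟩ := ih ((T.erase x).erase y) (by
      rw [Finset.card_erase_of_mem (by simp [hy, hxy.symm]), Finset.card_erase_of_mem hx]; omega)
    refine ⟨fun z => if z = x then y else if z = y then x else μ z, fun z hz => ?_⟩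
    by_cases h1 : z = x
    · subst h1; simp [hy, hxy.symm]
    by_cases h2 : z = y
    · subst h2; simp [hx, hxy, h1]
    have h3 := hμ z (by simp [hz, h1, h2])
    have h4 := h3.1
    simp only [Finset.mem_erase] at h4
    simp [h1, h2, h4.1, h4.2.1, h4.2.2, h3.2.1, h3.2.2]

theorem reduce_aux [Finite X] [DecidableEq X] {G : SimpleGraph X} {W : Finset X} {k g : ℕ}
    (hreg : RegOn G W k) (hG : GirthGe G (g + 1)) (hg : 3 ≤ g) (D : Finset X) (μ : X → X)
    (huniq : ∀ x, x ∉ D → ∀ z ∈ D, ∀ z' ∈ D, G.Adj z x → G.Adj z' x → z = z')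
    (hμ : ∀ x, x ∉ D → ∀ z ∈ D, G.Adj z x → μ x ∉ D ∧ G.Adj z (μ x) ∧ μ (μ x) = x ∧ μ x ≠ x)
    (hD : ∀ z ∈ D, ∀ z' ∈ D, z = z' ∨ G.Adj z z') :
    ∃ G' : SimpleGraph X, RegOn G' (W \ D) k ∧ GirthGe G' g := by
  let Γ := res G (fun x => x ∉ D)
  let N : SimpleGraph X :=
    { Adj := fun x y => x ∉ D ∧ (∃ z ∈ D, G.Adj z x) ∧ μ x = y
      symm := ⟨by
        rintro x y ⟨hx, ⟨z, hz, hzx⟩, rfl⟩
        obtain ⟨h1, h2, h3, _⟩ := hμ x hx z hz hzx
        exact ⟨h1, ⟨z, hz, h2⟩, h3⟩⟩
      loopless := ⟨by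
        rintro x ⟨hx, ⟨z, hz, hzx⟩, h⟩
        exact (hμ x hx z hz hzx).2.2.2 h⟩ }
  have hΓ : ∀ a b, Γ.Adj a b → G.Adj a b ∧ ¬ (a ∈ D) ∧ ¬ (b ∈ D) := fun a b h => h
  have far1 : ∀ x y z n, x ∉ D → y ∉ D → x ≠ y → z ∈ D → G.Adj z x → G.Adj z y → Wk Γ n x y →
      g ≤ n + 1 := by
    intro x y z n hx hy hxy hz hzx hzy hw
    have := hG.outside (fun x => x ∈ D) hΓ hx hy hxy hz hzx hzy (Wk.nil z) hw
    omega
  have far2 : ∀ x y n, x ∉ D → y ∉ D → x ≠ y → (∃ z ∈ D, G.Adj z x) → (∃ z ∈ D, G.Adj z y) →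
      Wk Γ n x y → g ≤ n + 2 := by
    rintro x y n hx hy hxy ⟨z, hz, hzx⟩ ⟨z', hz', hzy⟩ hw
    rcases hD z' hz' z hz with rfl | h
    · have := far1 x y _ n hx hy hxy hz hzx hzy hw
      omega
    · have := hG.outside (fun x => x ∈ D) hΓ hx hy hxy hz hzx hzy
        (Wk.single (G := res G (fun x => x ∈ D)) ⟨h, hz', hz⟩) hw
      omega
  have h1 : ∀ a b n, N.Adj b a → Wk Γ n a b → g ≤ n + 1 := by
    rintro a b n ⟨hb, ⟨z, hz, hzb⟩, rfl⟩ hw
    obtain ⟨h1, h2, _, h4⟩ := hμ b hb z hz hzb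
    exact far1 _ _ z n h1 hb h4 hz h2 hzb hw
  have h3' : ∀ a a' c c' n, N.Adj a' a → N.Adj c c' → s(a', a) ≠ s(c, c') → Wk Γ n a c →
      g ≤ n + 2 := by
    intro a a' c c' n ha hc hne hw
    have ha' := ha.symm
    refine far2 a c n ha'.1 hc.1 ?_ ha'.2.1 hc.2.1 hw
    rintro rfl
    apply hne
    rw [← ha'.2.2, ← hc.2.2, Sym2.eq_swap]
  refine ⟨Γ ⊔ N, ⟨?_, ?_⟩, ?_⟩
  · intro a b h
    rcases (sup_adj _ _ _ _).mp h with h | h
    · exact Finset.mem_sdiff.mpr ⟨hreg.1 _ _ h.1, h.2.1⟩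
    · obtain ⟨ha, ⟨z, _, hz⟩, _⟩ := h
      exact Finset.mem_sdiff.mpr ⟨hreg.1 _ _ hz.symm, ha⟩
  · intro v hv
    obtain ⟨hvW, hvD⟩ := Finset.mem_sdiff.mp hv
    rw [ncard_sup (fun a b hab hN => by
      have := h1 a b 1 hN.symm (Wk.single hab); omega), ← hreg.2 v hvW]
    by_cases hP : ∃ z ∈ D, G.Adj z v
    · obtain ⟨z, hz, hzv⟩ := hP
      have e1 : N.neighborSet v = {μ v} := by
        ext y
        simp only [mem_neighborSet, Set.mem_singleton_iff]
        exact ⟨fun h => h.2.2.symm, fun h => ⟨hvD, ⟨z, hz, hzv⟩, h.symm⟩⟩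
      have e2 : G.neighborSet v = insert z (Γ.neighborSet v) := by
        ext y
        simp only [mem_neighborSet, Set.mem_insert_iff]
        constructor
        · intro h
          by_cases hy : y ∈ D
          · exact Or.inl (huniq v hvD y hy z hz h.symm hzv)
          · exact Or.inr ⟨h, hvD, hy⟩
        · rintro (rfl | h)
          · exact hzv.symm
          · exact h.1
      rw [e1, e2, Set.ncard_singleton, Set.ncard_insert_of_notMem (fun h => h.2.2 hz)]
    · have e1 : N.neighborSet v = ∅ := by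
        ext y
        simp only [mem_neighborSet, Set.mem_empty_iff_false, iff_false]
        exact fun h => hP h.2.1
      have e2 : G.neighborSet v = Γ.neighborSet v := by
        ext y
        simp only [mem_neighborSet]
        exact ⟨fun h => ⟨h, hvD, fun hy => hP ⟨y, hy, h.symm⟩⟩, fun h => h.1⟩
      rw [e1, e2]; simp
  · refine surgery (Ω := 2 * (g - 2)) (fun _ => g - 2)
      ((hG.mono_le (Nat.le_succ g)).anti fun a b h => h.1) h1 ?_ ?_ ?_ ?_
    · intro a b c d n m hba hcd hne hw hw'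
      have e1 := h3' a b c d n hba hcd hne hw
      have e2 := h3' d c b a m hcd hba hne.symm hw'
      omega
    · intro a a' c c' n ha hc hne hw
      have := h3' a a' c c' n ha hc hne hw
      omega
    · intro c d _; omega
    · omega

theorem no_triangle {G : SimpleGraph X} {g : ℕ} (hG : GirthGe G g) (hg : 4 ≤ g) {a b c : X}
    (hab : G.Adj a b) (hbc : G.Adj b c) (hca : G.Adj c a) : False := by
  have := hG.outside (Γ := res G (fun x => x ≠ a)) (fun x => x = a)
    (fun x y h => h) (x := b) (y := c) (z := a) (z' := a) (n := 1) (m := 0) hab.ne.symm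
    hca.ne hbc.ne rfl hab hca.symm (Wk.nil _)
    (Wk.single ⟨hbc, hab.ne.symm, hca.ne⟩)
  omega

theorem reduce [Fintype X] [DecidableEq X] {G : SimpleGraph X} {W : Finset X} {k g : ℕ}
    (hreg : RegOn G W k) (hG : GirthGe G (g + 1)) (hg : 3 ≤ g) (hk : 2 ≤ k) (hW : W.Nonempty) :
    ∃ (G' : SimpleGraph X) (W' : Finset X), RegOn G' W' k ∧ GirthGe G' g ∧ W'.Nonempty ∧
      W'.card < W.card := by
  classical
  obtain ⟨u, hu⟩ := hW
  have hdeg : ∀ v ∈ W, (G.neighborFinset v).card = k := by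
    intro v hv
    rw [← hreg.2 v hv, neighborFinset_def, Set.ncard_eq_toFinset_card']
  obtain ⟨x, hx, y, hy, hxy⟩ := Finset.one_lt_card.mp (show 1 < (G.neighborFinset u).card by
    rw [hdeg u hu]; omega)
  rw [mem_neighborFinset] at hx hy
  rcases Nat.even_or_odd' k with ⟨n, hn | hn⟩
  · obtain ⟨μ, hμ⟩ := exists_invol n (G.neighborFinset u) (by rw [hdeg u hu, hn])
    obtain ⟨G', h1, h2⟩ := reduce_aux hreg hG hg {u} μ (by simp) (by
      intro x _ z hz hzx
      rw [Finset.mem_singleton] at hz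
      subst hz
      obtain ⟨a1, a2, a3⟩ := hμ x (by simpa using hzx)
      rw [mem_neighborFinset] at a1
      exact ⟨by simpa using a1.ne.symm, a1, a2, a3⟩) (by simp)
    refine ⟨G', _, h1, h2, ⟨x, by simp [hreg.1 _ _ hx.symm, hx.ne.symm]⟩, ?_⟩
    exact Finset.card_lt_card (Finset.sdiff_ssubset (by simpa using hu) (by simp))
  · have hxW : x ∈ W := hreg.1 _ _ hx.symm
    obtain ⟨μ1, hμ1⟩ := exists_invol n ((G.neighborFinset u).erase x) (by
      rw [Finset.card_erase_of_mem (by simpa using hx), hdeg u hu, hn]; omega)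
    obtain ⟨μ2, hμ2⟩ := exists_invol n ((G.neighborFinset x).erase u) (by
      rw [Finset.card_erase_of_mem (by simpa using hx.symm), hdeg x hxW, hn]; omega)
    have tri : ∀ w, G.Adj u w → G.Adj x w → False := fun w h1 h2 =>
      no_triangle hG (by omega) hx h2 h1.symm
    obtain ⟨G', h1, h2⟩ := reduce_aux hreg hG hg {u, x}
      (fun w => if G.Adj u w then μ1 w else μ2 w) (by
      intro w _ z hz z' hz' h1 h2
      simp only [Finset.mem_insert, Finset.mem_singleton] at hz hz'
      rcases hz with rfl | rfl <;> rcases hz' with rfl | rfl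
      · rfl
      · exact (tri w h1 h2).elim
      · exact (tri w h2 h1).elim
      · rfl) (by
      intro w hw z hz hzw
      simp only [Finset.mem_insert, Finset.mem_singleton, not_or] at hz hw ⊢
      rcases hz with rfl | rfl
      · obtain ⟨a1, a2, a3⟩ := hμ1 w (by simp [hw.2, hzw])
        simp only [Finset.mem_erase, mem_neighborFinset] at a1
        simp [hzw, a1.1, a1.2, a1.2.ne.symm, a2, a3]
      · obtain ⟨a1, a2, a3⟩ := hμ2 w (by simp [hw.1, hzw])
        simp only [Finset.mem_erase, mem_neighborFinset] at a1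
        have n1 : ¬ G.Adj u w := fun h => tri w h hzw
        have n2 : ¬ G.Adj u (μ2 w) := fun h => tri _ h a1.2
        simp [n1, n2, a1.1, a1.2, a1.2.ne.symm, a2, a3]) (by
      intro z hz z' hz'
      simp only [Finset.mem_insert, Finset.mem_singleton] at hz hz'
      rcases hz with rfl | rfl <;> rcases hz' with rfl | rfl
      · exact Or.inl rfl
      · exact Or.inr hx
      · exact Or.inr hx.symm
      · exact Or.inl rfl)
    refine ⟨G', _, h1, h2, ⟨y, by simp [hreg.1 _ _ hy.symm, hy.ne.symm, hxy.symm]⟩, ?_⟩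
    exact Finset.card_lt_card (Finset.sdiff_ssubset (by
      intro z hz
      simp only [Finset.mem_insert, Finset.mem_singleton] at hz
      rcases hz with rfl | rfl <;> assumption) (by simp))

theorem exists_exact [Fintype X] [DecidableEq X] {k g : ℕ} (hg : 3 ≤ g) (hk : 2 ≤ k) :
    ∀ (n : ℕ) (G : SimpleGraph X) (W : Finset X), W.card ≤ n → RegOn G W k → GirthGe G g →
      W.Nonempty → ∃ (G' : SimpleGraph X) (W' : Finset X), RegOn G' W' k ∧
        G'.egirth = (g : ℕ∞) ∧ W'.card ≤ W.card := by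
  intro n
  induction n with
  | zero =>
    intro G W hW _ _ hne
    have := hne.card_pos
    omega
  | succ n ih =>
    intro G W hW hreg hG hne
    by_cases h : GirthGe G (g + 1)
    · obtain ⟨G', W', h1, h2, h3, h4⟩ := reduce hreg h hg hk hne
      obtain ⟨G'', W'', h5, h6, h7⟩ := ih G' W' (by omega) h1 h2 h3
      exact ⟨G'', W'', h5, h6, by omega⟩
    · refine ⟨G, W, hreg, ?_, le_rfl⟩
      rw [girthGe_iff] at h hG
      refine le_antisymm ?_ hG
      push Not at h
      rw [Nat.cast_add, Nat.cast_one] at h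
      exact Order.le_of_lt_add_one h

theorem to_fin [Fintype X] [DecidableEq X] {k g : ℕ} {G : SimpleGraph X} {W : Finset X}
    (hreg : RegOn G W k) (hG : G.egirth = (g : ℕ∞)) :
    ∃ (H : SimpleGraph (Fin W.card)) (_ : DecidableRel H.Adj),
      H.IsRegularOfDegree k ∧ H.egirth = (g : ℕ∞) := by
  classical
  let e : Fin W.card → X := fun i => (W.equivFin.symm i : X)
  have he : Function.Injective e := fun i j h => W.equivFin.symm.injective (Subtype.ext h)
  have hr : ∀ x ∈ W, ∃ i, e i = x := fun x hx => ⟨W.equivFin ⟨x, hx⟩, by simp [e]⟩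
  have hm : ∀ i, e i ∈ W := fun i => (W.equivFin.symm i).2
  refine ⟨G.comap e, inferInstance, ?_, ?_⟩
  · intro i
    rw [← hreg.2 _ (hm i), ← card_neighborFinset_eq_degree, neighborFinset_def,
      ← Set.ncard_eq_toFinset_card', ← Set.ncard_image_of_injective _ he]
    congr 1
    ext y
    simp only [Set.mem_image, mem_neighborSet, comap_adj]
    constructor
    · rintro ⟨j, hj, rfl⟩; exact hj
    · intro h
      obtain ⟨j, rfl⟩ := hr y (hreg.1 _ _ h.symm)
      exact ⟨j, h, rfl⟩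
  · apply le_antisymm
    · by_contra hlt
      have h1 : GirthGe (G.comap e) (g + 1) := by
        rw [girthGe_iff, Nat.cast_add, Nat.cast_one]
        exact Order.add_one_le_of_lt (not_le.mp hlt)
      have h2 : GirthGe G (g + 1) := by
        intro a b hab n hn
        obtain ⟨i0, rfl⟩ := hr a (hreg.1 _ _ hab)
        obtain ⟨j0, rfl⟩ := hr b (hreg.1 _ _ hab.symm)
        have lift : ∀ n x y, Wk (del G (e i0) (e j0)) n x y → ∀ i j, e i = x → e j = y →
            Wk (del (G.comap e) i0 j0) n i j := by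
          intro n x y hw
          induction hw with
          | nil a =>
            intro i j h1 h2
            rw [he (h1.trans h2.symm)]
            exact Wk.nil _
          | @cons n a b c h _ ih =>
            intro i j h1 h2
            obtain ⟨l, rfl⟩ := hr b (hreg.1 _ _ h.1.symm)
            subst h1
            refine Wk.cons (b := l) ⟨h.1, fun h3 => h.2 ?_⟩ (ih l j rfl h2)
            rcases Sym2.eq_iff.mp h3 with ⟨rfl, rfl⟩ | ⟨rfl, rfl⟩
            · rfl
            · exact Sym2.eq_swap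
        exact h1 i0 j0 hab n (lift n _ _ hn j0 i0 rfl rfl)
      rw [girthGe_iff, hG] at h2
      have : g + 1 ≤ g := by exact_mod_cast h2
      omega
    · rw [← hG]
      exact IsContained.egirth_le ⟨⟨⟨e, fun h => h⟩, he⟩⟩

/-- Minimality of a cage among all regular graphs of girth at least `g`. -/
theorem no_smaller {k g n : ℕ} (hk : 2 ≤ k) (hg : 3 ≤ g)
    (hmin : ∀ m : ℕ, m < n → ∀ (H : SimpleGraph (Fin m)) [DecidableRel H.Adj],
      ¬ (H.IsRegularOfDegree k ∧ H.egirth = (g : ℕ∞)))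
    [Fintype X] [DecidableEq X] {G : SimpleGraph X} {W : Finset X} (hreg : RegOn G W k)
    (hG : GirthGe G g) (hW : W.Nonempty) : n ≤ W.card := by
  obtain ⟨G', W', h1, h2, h3⟩ := exists_exact hg hk _ G W le_rfl hreg hG hW
  obtain ⟨H, inst, h4⟩ := to_fin h1 h2
  by_contra hlt
  exact hmin W'.card (by omega) H h4

end Pool.Agent.MP_0be28d_co

end

-- part MP_0be28d_co.Glue
section

/-!
Gluing two copies of a graph with deficient vertices.
-/

set_option autoImplicit false

namespace Pool.Agent.MP_0be28d_co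

open SimpleGraph

variable {V : Type*}

/-- two disjoint copies of a graph -/
def dbl (Γ : SimpleGraph V) : SimpleGraph (V × Bool) where
  Adj p q := p.2 = q.2 ∧ Γ.Adj p.1 q.1
  symm := ⟨fun _ _ h => ⟨h.1.symm, h.2.symm⟩⟩
  loopless := ⟨fun p h => Γ.loopless.1 p.1 h.2⟩

/-- the edges between the two copies -/
def crs (Rel : V → V → Prop) : SimpleGraph (V × Bool) where
  Adj p q := (p.2 = false ∧ q.2 = true ∧ Rel p.1 q.1) ∨ (p.2 = true ∧ q.2 = false ∧ Rel q.1 p.1)
  symm := ⟨fun _ _ h => h.elim (fun h => Or.inr ⟨h.2.1, h.1, h.2.2⟩)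
    (fun h => Or.inl ⟨h.2.1, h.1, h.2.2⟩)⟩
  loopless := ⟨fun p h => by
    rcases h with ⟨h1, h2, _⟩ | ⟨h1, h2, _⟩ <;> simp [h1] at h2⟩

theorem Wk.dbl_elim {Γ : SimpleGraph V} {n : ℕ} {p q : V × Bool} (h : Wk (dbl Γ) n p q) :
    p.2 = q.2 ∧ Wk Γ n p.1 q.1 := by
  induction h with
  | nil a => exact ⟨rfl, Wk.nil _⟩
  | cons h _ ih => exact ⟨h.1.trans ih.1, Wk.cons h.2 ih.2⟩

theorem GirthGe.dbl {Γ : SimpleGraph V} {g : ℕ} (h : GirthGe Γ g) : GirthGe (dbl Γ) g := by
  intro a b hab n hn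
  have key : ∀ n p q, Wk (del (MP_0be28d_co.dbl Γ) a b) n p q → p.2 = a.2 →
      Wk (del Γ a.1 b.1) n p.1 q.1 := by
    intro n p q hw
    induction hw with
    | nil a => exact fun _ => Wk.nil _
    | @cons n p p' q h _ ih =>
      intro hp
      have hp' : p'.2 = a.2 := h.1.1.symm.trans hp
      refine Wk.cons (b := p'.1) ⟨h.1.2, fun h3 => h.2 ?_⟩ (ih hp')
      rcases Sym2.eq_iff.mp h3 with ⟨h4, h5⟩ | ⟨h4, h5⟩
      · rw [Prod.ext h4 hp, Prod.ext h5 (hp'.trans hab.1)]
      · rw [Prod.ext h4 (hp.trans hab.1), Prod.ext h5 hp', Sym2.eq_swap]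
  exact h a.1 b.1 hab.2 n (key n b a hn hab.1.symm)

theorem glue1 [Fintype V] [DecidableEq V] {Γ : SimpleGraph V} {W : Finset V} {k g Ω : ℕ}
    (Rel : V → V → Prop) (ω : V → ℕ)
    (hΓW : ∀ a b, Γ.Adj a b → a ∈ W) (hRW : ∀ x y, Rel x y → x ∈ W ∧ y ∈ W)
    (hdeg0 : ∀ x ∈ W, (Γ.neighborSet x).ncard + {y | Rel x y}.ncard = k)
    (hdeg1 : ∀ y ∈ W, (Γ.neighborSet y).ncard + {x | Rel x y}.ncard = k)
    (h0 : GirthGe Γ g)
    (h2 : ∀ x y x' y' n m, Rel x y → Rel x' y' → (x, y) ≠ (x', y') → Wk Γ n x x' → Wk Γ m y y' →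
      g ≤ n + m + 2)
    (h3 : ∀ x y x' y' n, Rel x y → Rel x' y' → (x, y) ≠ (x', y') →
      (Wk Γ n x x' → ω x + ω x' ≤ 2 * n) ∧ (Wk Γ n y y' → ω y + ω y' ≤ 2 * n))
    (h4 : ∀ x y, Rel x y → Ω ≤ ω x + ω y) (h5 : 2 * g ≤ 3 * (2 + Ω)) :
    ∃ H : SimpleGraph (V × Bool), RegOn H (W ×ˢ Finset.univ) k ∧ GirthGe H g := by
  refine ⟨dbl Γ ⊔ crs Rel, ⟨?_, ?_⟩, ?_⟩
  · intro a b h
    simp only [Finset.mem_product, Finset.mem_univ, and_true]
    rcases (sup_adj _ _ _ _).mp h with h | h | h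
    · exact hΓW _ _ h.2
    · exact (hRW _ _ h.2.2).1
    · exact (hRW _ _ h.2.2).2
  · rintro ⟨x, i⟩ hv
    simp only [Finset.mem_product, Finset.mem_univ, and_true] at hv
    rw [ncard_sup (by
      rintro a b hab (h | h)
      · have := hab.1; rw [h.1, h.2.1] at this; simp at this
      · have := hab.1; rw [h.1, h.2.1] at this; simp at this)]
    have e1 : (dbl Γ).neighborSet (x, i) = (fun y => (y, i)) '' Γ.neighborSet x := by
      ext ⟨y, j⟩
      simp only [mem_neighborSet, Set.mem_image, Prod.mk.injEq]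
      constructor
      · rintro ⟨h1, h2⟩; exact ⟨y, h2, rfl, h1⟩
      · rintro ⟨z, h1, rfl, h2⟩; exact ⟨h2, h1⟩
    rw [e1, Set.ncard_image_of_injective _ (fun a b h => (Prod.mk.inj h).1)]
    cases i with
    | false =>
      have e2 : (crs Rel).neighborSet (x, false) = (fun y => (y, true)) '' {y | Rel x y} := by
        ext ⟨y, j⟩
        simp only [mem_neighborSet, Set.mem_image, Prod.mk.injEq, Set.mem_ofPred_eq]
        constructor
        · rintro (⟨_, h1, h2⟩ | ⟨h1, _⟩)
          · exact ⟨y, h2, rfl, h1.symm⟩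
          · simp at h1
        · rintro ⟨z, h1, rfl, h2⟩; exact Or.inl ⟨rfl, h2.symm, h1⟩
      rw [e2, Set.ncard_image_of_injective _ (fun a b h => (Prod.mk.inj h).1)]
      exact hdeg0 x hv
    | true =>
      have e2 : (crs Rel).neighborSet (x, true) = (fun y => (y, false)) '' {y | Rel y x} := by
        ext ⟨y, j⟩
        simp only [mem_neighborSet, Set.mem_image, Prod.mk.injEq, Set.mem_ofPred_eq]
        constructor
        · rintro (⟨h1, _⟩ | ⟨_, h1, h2⟩)
          · simp at h1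
          · exact ⟨y, h2, rfl, h1.symm⟩
        · rintro ⟨z, h1, rfl, h2⟩; exact Or.inr ⟨rfl, h2.symm, h1⟩
      rw [e2, Set.ncard_image_of_injective _ (fun a b h => (Prod.mk.inj h).1)]
      exact hdeg1 x hv
  · refine surgery (Ω := Ω) (fun p => ω p.1) h0.dbl ?_ ?_ ?_ ?_ h5
    · intro a b n hN hw
      have := hw.dbl_elim.1
      rcases hN with h | h <;> rw [h.1, h.2.1] at this <;> simp at this
    · rintro ⟨a, ia⟩ ⟨b, ib⟩ ⟨c, ic⟩ ⟨d, id⟩ n m hba hcd hne hw hw'
      obtain ⟨e1, w1⟩ := hw.dbl_elim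
      obtain ⟨e2, w2⟩ := hw'.dbl_elim
      simp only at e1 e2 w1 w2
      subst e1 e2
      rcases hba with ⟨h1, h1', hr⟩ | ⟨h1, h1', hr⟩ <;> rcases hcd with ⟨h6, h6', hr'⟩ | ⟨h6, h6', hr'⟩
        <;> simp only at h1 h1' h6 h6' hr hr'
      · rw [h1'] at h6; simp at h6
      · have := h2 b a d c m n hr hr' (by
          intro h
          obtain ⟨rfl, rfl⟩ := Prod.mk.inj h
          exact hne Sym2.eq_swap) w2.symm w1
        omega
      · exact h2 a b c d n m hr hr' (by
          intro h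
          obtain ⟨rfl, rfl⟩ := Prod.mk.inj h
          exact hne Sym2.eq_swap) w1 w2.symm
      · rw [h1'] at h6; simp at h6
    · rintro ⟨a, ia⟩ ⟨a', ia'⟩ ⟨c, ic⟩ ⟨c', ic'⟩ n ha hc hne hw
      obtain ⟨e1, w1⟩ := hw.dbl_elim
      simp only at e1 w1 ⊢
      subst e1
      rcases ha with ⟨h1, h1', hr⟩ | ⟨h1, h1', hr⟩ <;> rcases hc with ⟨h6, h6', hr'⟩ | ⟨h6, h6', hr'⟩
        <;> simp only at h1 h1' h6 h6' hr hr'
      · rw [h1'] at h6; simp at h6
      · exact (h3 a' a c' c n hr hr' (by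
          intro h
          obtain ⟨rfl, rfl⟩ := Prod.mk.inj h
          subst h1 h6'
          exact hne Sym2.eq_swap)).2 w1
      · exact (h3 a a' c c' n hr hr' (by
          intro h
          obtain ⟨rfl, rfl⟩ := Prod.mk.inj h
          subst h1 h6'
          exact hne Sym2.eq_swap)).1 w1
      · rw [h1'] at h6; simp at h6
    · intro c d h
      rcases h with h | h
      · exact h4 _ _ h.2.2
      · have := h4 _ _ h.2.2
        omega

theorem glue2 [Fintype V] [DecidableEq V] {Γ : SimpleGraph V} {W S U : Finset V} {k g β η : ℕ}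
    (A : Bool → V → Finset V)
    (hΓW : ∀ a b, Γ.Adj a b → a ∈ W) (hSW : S ⊆ W) (hUW : U ⊆ W) (hSU : Disjoint S U)
    (hdS : ∀ b, ∀ s ∈ S, (Γ.neighborSet s).ncard + (A b s).card = k)
    (hdU : ∀ x ∈ U, (Γ.neighborSet x).ncard + 1 = k)
    (hdW : ∀ x ∈ W, x ∉ S → x ∉ U → (Γ.neighborSet x).ncard = k)
    (hAU : ∀ b, ∀ s ∈ S, A b s ⊆ U)
    (hAd : ∀ b, ∀ s ∈ S, ∀ t ∈ S, ∀ x, x ∈ A b s → x ∈ A b t → s = t)
    (h0 : GirthGe Γ g)
    (hUU : ∀ x ∈ U, ∀ y ∈ U, x ≠ y → ∀ n, Wk Γ n x y → β ≤ n)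
    (hUS : ∀ x ∈ U, ∀ s ∈ S, ∀ n, Wk Γ n x s → η ≤ n)
    (hsame : ∀ b, ∀ s ∈ S, ∀ x ∈ A b s, ∀ y ∈ A b s, x ≠ y → ∀ n, Wk Γ n x y → g ≤ n + 2)
    (hdiff : ∀ b, ∀ s ∈ S, ∀ t ∈ S, s ≠ t → ∀ x ∈ A b s, ∀ y ∈ A b t, ∀ n m, Wk Γ n x y →
      Wk Γ m s t → g ≤ n + m + 2)
    (hcross : ∀ s ∈ S, ∀ t ∈ S, ∀ x ∈ A false s, ∀ y ∈ A true t, ∀ n m, Wk Γ n x t →
      Wk Γ m y s → g ≤ n + m + 2)
    (e1 : g ≤ β + η + 2) (e2 : g ≤ 2 * β + 2) (e3 : 2 * g ≤ 3 * (2 + min β (2 * η))) :
    ∃ H : SimpleGraph (V × Bool), RegOn H (W ×ˢ Finset.univ) k ∧ GirthGe H g := by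
  classical
  let L : Bool → Finset V := fun b => U \ S.biUnion (A b)
  have hL : ∀ b x, x ∈ L b ↔ x ∈ U ∧ ∀ s ∈ S, x ∉ A b s := by
    intro b x; simp [L]
  have hLc : (L false).card = (L true).card := by
    have key : ∀ b, (L b).card + ∑ s ∈ S, (k - (Γ.neighborSet s).ncard) = U.card := by
      intro b
      have h1 : (S.biUnion (A b)).card = ∑ s ∈ S, (A b s).card := by
        apply Finset.card_biUnion
        intro s hs t ht hst
        exact Finset.disjoint_left.mpr fun x h1 h2 => hst (hAd b s hs t ht x h1 h2)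
      have h2 : S.biUnion (A b) ⊆ U := Finset.biUnion_subset.mpr (hAU b)
      have h3 := Finset.card_sdiff_add_card_eq_card h2
      rw [h1] at h3
      rw [← h3]
      congr 1
      apply Finset.sum_congr rfl
      intro s hs
      have := hdS b s hs
      omega
    have := key false
    have := key true
    omega
  obtain ⟨π, hπ⟩ : ∃ π : V → V, Set.BijOn π (L false) (L true) := by
    let e := Finset.equivOfCardEq hLc
    refine ⟨fun x => if h : x ∈ L false then (e ⟨x, h⟩ : V) else x, ?_, ?_, ?_⟩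
    · intro x hx
      have hx' : x ∈ L false := hx
      simp [hx']
    · intro x hx y hy h
      have hx' : x ∈ L false := hx
      have hy' : y ∈ L false := hy
      simp only [hx', hy', dif_pos] at h
      have := e.injective (Subtype.ext h)
      exact congrArg Subtype.val this
    · intro y hy
      refine ⟨e.symm ⟨y, hy⟩, (e.symm ⟨y, hy⟩).2, ?_⟩
      simp
  have nS : ∀ x ∈ U, x ∉ S := fun x hx hs => Finset.disjoint_left.mp hSU hs hx
  let Rel : V → V → Prop := fun x y =>
    (y ∈ S ∧ x ∈ A false y) ∨ (x ∈ S ∧ y ∈ A true x) ∨ (x ∈ L false ∧ π x = y)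
  have hπL : ∀ x ∈ L false, π x ∈ L true := fun x hx => hπ.1 hx
  have uniq0 : ∀ x y y', x ∈ U → Rel x y → Rel x y' → y = y' := by
    intro x y y' hx h h'
    rcases h with h | h | h <;> rcases h' with h' | h' | h'
    · exact hAd _ _ h.1 _ h'.1 _ h.2 h'.2
    · exact (nS x hx h'.1).elim
    · exact (((hL _ _).mp h'.1).2 _ h.1 h.2).elim
    · exact (nS x hx h.1).elim
    · exact (nS x hx h.1).elim
    · exact (nS x hx h.1).elim
    · exact (((hL _ _).mp h.1).2 _ h'.1 h'.2).elim
    · exact (nS x hx h'.1).elim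
    · exact h.2.symm.trans h'.2
  have uniq1 : ∀ x x' y, y ∈ U → Rel x y → Rel x' y → x = x' := by
    intro x x' y hy h h'
    rcases h with h | h | h <;> rcases h' with h' | h' | h'
    · exact (nS y hy h.1).elim
    · exact (nS y hy h.1).elim
    · exact (nS y hy h.1).elim
    · exact (nS y hy h'.1).elim
    · exact hAd _ _ h.1 _ h'.1 _ h.2 h'.2
    · exact (((hL _ _).mp (h'.2 ▸ hπL _ h'.1)).2 _ h.1 h.2).elim
    · exact (nS y hy h'.1).elim
    · exact (((hL _ _).mp (h.2 ▸ hπL _ h.1)).2 _ h'.1 h'.2).elim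
    · exact hπ.2.1 h.1 h'.1 (h.2.trans h'.2.symm)
  have typ : ∀ x y, Rel x y → (x ∈ U ∧ y ∈ S) ∨ (x ∈ S ∧ y ∈ U) ∨ (x ∈ U ∧ y ∈ U) := by
    intro x y h
    rcases h with h | h | h
    · exact Or.inl ⟨hAU _ _ h.1 h.2, h.1⟩
    · exact Or.inr (Or.inl ⟨h.1, hAU _ _ h.1 h.2⟩)
    · exact Or.inr (Or.inr ⟨((hL _ _).mp h.1).1, ((hL _ _).mp (h.2 ▸ hπL _ h.1)).1⟩)
  let ω : V → ℕ := fun x => if x ∈ U then min β (2 * η) else 0
  have hω : ∀ x x' n, (x ∈ U ∨ x ∈ S) → (x' ∈ U ∨ x' ∈ S) → (x ∈ U → x ≠ x') → Wk Γ n x x' →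
      ω x + ω x' ≤ 2 * n := by
    intro x x' n hx hx' hne hw
    by_cases h1 : x ∈ U <;> by_cases h2 : x' ∈ U
    · have := hUU x h1 x' h2 (hne h1) n hw
      simp only [ω, h1, h2, if_true]; omega
    · have := hUS x h1 x' (hx'.resolve_left h2) n hw
      simp only [ω, h1, h2, if_true, if_false]; omega
    · have := hUS x' h2 x (hx.resolve_left h1) n hw.symm
      simp only [ω, h1, h2, if_true, if_false]; omega
    · simp only [ω, h1, h2, if_false]; omega
  refine glue1 (Ω := min β (2 * η)) Rel ω hΓW ?_ ?_ ?_ h0 ?_ ?_ ?_ e3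
  · intro x y h
    rcases typ x y h with h | h | h
    · exact ⟨hUW h.1, hSW h.2⟩
    · exact ⟨hSW h.1, hUW h.2⟩
    · exact ⟨hUW h.1, hUW h.2⟩
  · intro x hx
    by_cases hxS : x ∈ S
    · have : {y | Rel x y} = ↑(A true x) := by
        ext y
        simp only [Set.mem_ofPred_eq, Finset.mem_coe]
        refine ⟨fun h => ?_, fun h => Or.inr (Or.inl ⟨hxS, h⟩)⟩
        rcases h with h | h | h
        · exact (nS x (hAU _ _ h.1 h.2) hxS).elim
        · exact h.2
        · exact (nS x ((hL _ _).mp h.1).1 hxS).elim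
      rw [this, Set.ncard_coe_finset]
      exact hdS _ x hxS
    by_cases hxU : x ∈ U
    · obtain ⟨y, hy⟩ : ∃ y, Rel x y := by
        by_cases h : x ∈ L false
        · exact ⟨π x, Or.inr (Or.inr ⟨h, rfl⟩)⟩
        · rw [hL] at h
          push Not at h
          obtain ⟨s, hs, h⟩ := h hxU
          exact ⟨s, Or.inl ⟨hs, h⟩⟩
      have : {y | Rel x y} = {y} := by
        ext y'
        simp only [Set.mem_ofPred_eq, Set.mem_singleton_iff]
        exact ⟨fun h => uniq0 x _ _ hxU h hy, fun h => h ▸ hy⟩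
      rw [this, Set.ncard_singleton]
      exact hdU x hxU
    · have : {y | Rel x y} = ∅ := by
        ext y
        simp only [Set.mem_ofPred_eq, Set.mem_empty_iff_false, iff_false]
        intro h
        rcases typ x y h with h | h | h
        · exact hxU h.1
        · exact hxS h.1
        · exact hxU h.1
      rw [this, Set.ncard_empty]
      exact hdW x hx hxS hxU
  · intro y hy
    by_cases hyS : y ∈ S
    · have : {x | Rel x y} = ↑(A false y) := by
        ext x
        simp only [Set.mem_ofPred_eq, Finset.mem_coe]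
        refine ⟨fun h => ?_, fun h => Or.inl ⟨hyS, h⟩⟩
        rcases h with h | h | h
        · exact h.2
        · exact (nS y (hAU _ _ h.1 h.2) hyS).elim
        · exact (nS y ((hL _ _).mp (h.2 ▸ hπL _ h.1)).1 hyS).elim
      rw [this, Set.ncard_coe_finset]
      exact hdS _ y hyS
    by_cases hyU : y ∈ U
    · obtain ⟨x, hx⟩ : ∃ x, Rel x y := by
        by_cases h : y ∈ L true
        · obtain ⟨x, hx, h1⟩ := hπ.2.2 h
          exact ⟨x, Or.inr (Or.inr ⟨hx, h1⟩)⟩
        · rw [hL] at h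
          push Not at h
          obtain ⟨s, hs, h⟩ := h hyU
          exact ⟨s, Or.inr (Or.inl ⟨hs, h⟩)⟩
      have : {x | Rel x y} = {x} := by
        ext x'
        simp only [Set.mem_ofPred_eq, Set.mem_singleton_iff]
        exact ⟨fun h => uniq1 _ _ y hyU h hx, fun h => h ▸ hx⟩
      rw [this, Set.ncard_singleton]
      exact hdU y hyU
    · have : {x | Rel x y} = ∅ := by
        ext x
        simp only [Set.mem_ofPred_eq, Set.mem_empty_iff_false, iff_false]
        intro h
        rcases typ x y h with h | h | h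
        · exact hyS h.2
        · exact hyU h.2
        · exact hyU h.2
      rw [this, Set.ncard_empty]
      exact hdW y hy hyS hyU
  · intro x y x' y' n m h h' hne hw hw'
    have nx : x ∈ U → x ≠ x' := by
      rintro hx rfl
      exact hne (by rw [uniq0 x y y' hx h h'])
    have ny : y ∈ U → y ≠ y' := by
      rintro hy rfl
      exact hne (by rw [uniq1 x x' y hy h h'])
    have t1 := typ x y h
    have t2 := typ x' y' h'
    rcases h with h | h | h <;> rcases h' with h' | h' | h'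
    · by_cases hyy : y = y'
      · subst hyy
        have := hsame _ y h.1 x h.2 x' h'.2 (nx (hAU _ _ h.1 h.2)) n hw
        omega
      · exact hdiff _ y h.1 y' h'.1 hyy x h.2 x' h'.2 n m hw hw'
    · exact hcross y h.1 x' h'.1 x h.2 y' h'.2 n m hw hw'.symm
    · have a1 := hUU x (hAU _ _ h.1 h.2) x' ((hL _ _).mp h'.1).1 (nx (hAU _ _ h.1 h.2)) n hw
      have a2 := hUS y' ((hL _ _).mp (h'.2 ▸ hπL _ h'.1)).1 y h.1 m hw'.symm
      omega
    · have := hcross y' h'.1 x h.1 x' h'.2 y h.2 n m hw.symm hw'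
      omega
    · by_cases hxx : x = x'
      · subst hxx
        have := hsame _ x h.1 y h.2 y' h'.2 (ny (hAU _ _ h.1 h.2)) m hw'
        omega
      · have := hdiff _ x h.1 x' h'.1 hxx y h.2 y' h'.2 m n hw' hw
        omega
    · have a1 := hUU y (hAU _ _ h.1 h.2) y' ((hL _ _).mp (h'.2 ▸ hπL _ h'.1)).1
        (ny (hAU _ _ h.1 h.2)) m hw'
      have a2 := hUS x' ((hL _ _).mp h'.1).1 x h.1 n hw.symm
      omega
    · have a1 := hUU x ((hL _ _).mp h.1).1 x' (hAU _ _ h'.1 h'.2) (nx ((hL _ _).mp h.1).1) n hw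
      have a2 := hUS y ((hL _ _).mp (h.2 ▸ hπL _ h.1)).1 y' h'.1 m hw'
      omega
    · have hy := ((hL _ _).mp (h.2 ▸ hπL _ h.1)).1
      have a1 := hUU y hy y' (hAU _ _ h'.1 h'.2) (ny hy) m hw'
      have a2 := hUS x ((hL _ _).mp h.1).1 x' h'.1 n hw
      omega
    · have hy := ((hL _ _).mp (h.2 ▸ hπL _ h.1)).1
      have a1 := hUU y hy y' ((hL _ _).mp (h'.2 ▸ hπL _ h'.1)).1 (ny hy) m hw'
      have a2 := hUU x ((hL _ _).mp h.1).1 x' ((hL _ _).mp h'.1).1 (nx ((hL _ _).mp h.1).1) n hw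
      omega
  · intro x y x' y' n h h' hne
    have nx : x ∈ U → x ≠ x' := by
      rintro hx rfl
      exact hne (by rw [uniq0 x y y' hx h h'])
    have ny : y ∈ U → y ≠ y' := by
      rintro hy rfl
      exact hne (by rw [uniq1 x x' y hy h h'])
    have t1 := typ x y h
    have t2 := typ x' y' h'
    have l : ∀ {x y}, (x ∈ U ∧ y ∈ S) ∨ (x ∈ S ∧ y ∈ U) ∨ (x ∈ U ∧ y ∈ U) →
        (x ∈ U ∨ x ∈ S) ∧ (y ∈ U ∨ y ∈ S) := by
      rintro x y (h | h | h)
      · exact ⟨Or.inl h.1, Or.inr h.2⟩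
      · exact ⟨Or.inr h.1, Or.inl h.2⟩
      · exact ⟨Or.inl h.1, Or.inl h.2⟩
    exact ⟨hω x x' n (l t1).1 (l t2).1 nx, hω y y' n (l t1).2 (l t2).2 ny⟩
  · intro x y h
    rcases typ x y h with h | h | h
    · simp only [ω, h.1, if_true]; omega
    · simp only [ω, h.2, if_true]; omega
    · simp only [ω, h.1, if_true]; omega

end Pool.Agent.MP_0be28d_co

end

-- part MP_0be28d_co.Sep
section

/-!
Minimal separations and vertices far from the cut.
-/

set_option autoImplicit false

namespace Pool.Agent.MP_0be28d_co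

open SimpleGraph Finset

variable {V : Type*}

/-- `S` (at most `K` vertices) separates the nonempty set `C` from the nonempty rest -/
structure Sep (G : SimpleGraph V) (K : ℕ) (S C : Finset V) : Prop where
  card : S.card ≤ K
  disj : ∀ x ∈ C, x ∉ S
  ne : C.Nonempty
  out : ∃ y, y ∉ C ∧ y ∉ S
  closed : ∀ x ∈ C, ∀ y, G.Adj x y → y ∈ C ∨ y ∈ S

theorem exists_sep [Fintype V] {G : SimpleGraph V} {K : ℕ} {S : Finset V} (hS : S.card ≤ K)
    (hK : K < Fintype.card V) (h : ¬ (G.induce ((↑S : Set V)ᶜ)).Connected) :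
    ∃ C, Sep G K S C := by
  classical
  have hne : Nonempty ((↑S : Set V)ᶜ : Set V) := by
    by_contra hh
    have : (univ : Finset V) ⊆ S := by
      intro x _
      by_contra hx
      exact hh ⟨⟨x, hx⟩⟩
    have := card_le_card this
    rw [card_univ] at this
    omega
  rw [connected_iff, not_and] at h
  have h1 : ¬ (G.induce ((↑S : Set V)ᶜ)).Preconnected := fun hp => h hp hne
  unfold Preconnected at h1
  push Not at h1
  obtain ⟨x, y, hxy⟩ := h1
  refine ⟨univ.filter fun v => ∃ hv : v ∈ ((↑S : Set V)ᶜ : Set V),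
    (G.induce ((↑S : Set V)ᶜ)).Reachable x ⟨v, hv⟩, hS, ?_, ⟨x, ?_⟩, ⟨y, ?_, y.2⟩, ?_⟩
  · intro v hv
    obtain ⟨h, _⟩ := (mem_filter.mp hv).2
    exact h
  · exact mem_filter.mpr ⟨mem_univ _, x.2, Reachable.refl _⟩
  · intro hy
    obtain ⟨_, h⟩ := (mem_filter.mp hy).2
    exact hxy h
  · intro v hv w hvw
    obtain ⟨h, hr⟩ := (mem_filter.mp hv).2
    by_cases hw : w ∈ S
    · exact Or.inr hw
    · refine Or.inl (mem_filter.mpr ⟨mem_univ _, hw, hr.trans (Adj.reachable ?_)⟩)
      exact hvw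

theorem card_nbr [Fintype V] {G : SimpleGraph V} [DecidableRel G.Adj] (v : V) :
    (G.neighborSet v).ncard = (univ.filter fun w => G.Adj v w).card := by
  rw [← Set.ncard_coe_finset]
  congr 1
  ext w
  simp

theorem exists_min_sep [Fintype V] [DecidableEq V] {G : SimpleGraph V} [DecidableRel G.Adj]
    {k K : ℕ} (hreg : ∀ v, (univ.filter fun w => G.Adj v w).card = k) (hK : K < k)
    (h : ∃ S C, Sep G K S C) :
    ∃ S C, Sep G K S C ∧ S.card = K ∧ 2 * C.card ≤ Fintype.card V ∧
      ∀ s ∈ S, 2 ≤ (C.filter fun w => G.Adj s w).card := by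
  classical
  obtain ⟨S0, C0, h0⟩ := h
  obtain ⟨⟨S, C⟩, hp, hmin⟩ := exists_min_image
    (univ.filter fun p : Finset V × Finset V => Sep G K p.1 p.2) (fun p => p.2.card)
    ⟨(S0, C0), by simpa using h0⟩
  have hs : Sep G K S C := (mem_filter.mp hp).2
  have hm : ∀ S' C', Sep G K S' C' → C.card ≤ C'.card := fun S' C' h' =>
    hmin (S', C') (by simpa using h')
  have h2 : 2 ≤ C.card := by
    obtain ⟨x, hx⟩ := hs.ne
    have a1 : (univ.filter fun w => G.Adj x w) ⊆ C.erase x ∪ S := by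
      intro w hw
      have hw' := (mem_filter.mp hw).2
      rcases hs.closed x hx w hw' with h | h
      · exact mem_union_left _ (mem_erase.mpr ⟨hw'.ne.symm, h⟩)
      · exact mem_union_right _ h
    have a2 := (card_le_card a1).trans (card_union_le _ _)
    rw [hreg, card_erase_of_mem hx] at a2
    have := hs.card
    omega
  have hne : ∀ w ∈ C, (C.erase w).Nonempty := fun w hw =>
    card_pos.mp (by rw [card_erase_of_mem hw]; omega)
  refine ⟨S, C, hs, ?_, ?_, ?_⟩
  · by_contra hlt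
    obtain ⟨w, hw⟩ := hs.ne
    obtain ⟨y, hy1, hy2⟩ := hs.out
    have := hm (insert w S) (C.erase w) ⟨(card_insert_le _ _).trans (by have := hs.card; omega),
      fun x hx h => by
        rcases mem_insert.mp h with h | h
        · exact (mem_erase.mp hx).1 h
        · exact hs.disj x (mem_erase.mp hx).2 h,
      hne w hw, ⟨y, fun h => hy1 (mem_erase.mp h).2, fun h => by
        rcases mem_insert.mp h with h | h
        · exact hy1 (h ▸ hw)
        · exact hy2 h⟩,
      fun x hx y hxy => by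
        by_cases h : y = w
        · exact Or.inr (by simp [h])
        · rcases hs.closed x (mem_erase.mp hx).2 y hxy with h' | h'
          · exact Or.inl (mem_erase.mpr ⟨h, h'⟩)
          · exact Or.inr (mem_insert_of_mem h')⟩
    rw [card_erase_of_mem hw] at this
    omega
  · obtain ⟨y, hy1, hy2⟩ := hs.out
    obtain ⟨x, hx⟩ := hs.ne
    have := hm S (univ \ (C ∪ S)) ⟨hs.card, fun x hx h => by simp [h] at hx,
      ⟨y, by simp [hy1, hy2]⟩, ⟨x, by simp [hx], hs.disj x hx⟩, fun a ha b hab => by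
        by_cases h : b ∈ S
        · exact Or.inr h
        · left
          simp only [mem_sdiff, mem_univ, mem_union, not_or, true_and] at ha ⊢
          refine ⟨fun hb => ?_, h⟩
          rcases hs.closed b hb a hab.symm with h' | h'
          · exact ha.1 h'
          · exact ha.2 h'⟩
    have a1 := card_le_card (show univ \ (C ∪ S) ⊆ univ \ C from
      sdiff_subset_sdiff Subset.rfl subset_union_left)
    rw [card_sdiff_of_subset (subset_univ C), card_univ] at a1
    have := card_le_univ C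
    omega
  · intro s hsS
    by_contra hlt
    obtain ⟨w, hw, hw'⟩ : ∃ w ∈ C, ∀ x ∈ C, G.Adj s x → x = w := by
      rcases (C.filter fun w => G.Adj s w).eq_empty_or_nonempty with h | ⟨w, hw⟩
      · obtain ⟨w, hw⟩ := hs.ne
        refine ⟨w, hw, fun x hx hsx => ?_⟩
        have : x ∈ C.filter fun w => G.Adj s w := mem_filter.mpr ⟨hx, hsx⟩
        rw [h] at this
        simp at this
      · refine ⟨w, (mem_filter.mp hw).1, fun x hx hsx => ?_⟩
        exact card_le_one.mp (show (C.filter fun w => G.Adj s w).card ≤ 1 by omega) x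
          (mem_filter.mpr ⟨hx, hsx⟩) w hw
    have := hm (insert w (S.erase s)) (C.erase w) ⟨(card_insert_le _ _).trans (by
        have := hs.card
        have := card_erase_add_one hsS
        omega),
      fun x hx h => by
        rcases mem_insert.mp h with h | h
        · exact (mem_erase.mp hx).1 h
        · exact hs.disj x (mem_erase.mp hx).2 (mem_erase.mp h).2,
      hne w hw, ⟨s, fun h => hs.disj s (mem_erase.mp h).2 hsS, fun h => by
        rcases mem_insert.mp h with h | h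
        · exact hs.disj w hw (h ▸ hsS)
        · exact (mem_erase.mp h).1 rfl⟩,
      fun x hx y hxy => by
        by_cases h : y = w
        · exact Or.inr (by simp [h])
        · rcases hs.closed x (mem_erase.mp hx).2 y hxy with h' | h'
          · exact Or.inl (mem_erase.mpr ⟨h, h'⟩)
          · refine Or.inr (mem_insert_of_mem (mem_erase.mpr ⟨?_, h'⟩))
            rintro rfl
            exact (mem_erase.mp hx).1 (hw' x (mem_erase.mp hx).2 hxy.symm)⟩
    rw [card_erase_of_mem hw] at this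
    omega

/-- the edges of `G` with an end in `C` -/
def inner (G : SimpleGraph V) (C : Finset V) : SimpleGraph V where
  Adj a b := G.Adj a b ∧ (a ∈ C ∨ b ∈ C)
  symm := ⟨fun _ _ h => ⟨h.1.symm, h.2.symm⟩⟩
  loopless := ⟨fun x h => G.loopless.1 x h.1⟩

/-- all walks from `u` to `S` have length at least `n` -/
def Deep (H : SimpleGraph V) (S : Finset V) (n : ℕ) (u : V) : Prop :=
  ∀ t ∈ S, ∀ m, Wk H m u t → n ≤ m

theorem Deep.adj {H : SimpleGraph V} {S : Finset V} {n : ℕ} {u v : V} (h : Deep H S (n + 1) u)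
    (huv : H.Adj u v) : Deep H S n v := fun t ht m hm => by
  have := h t ht _ (Wk.cons huv hm)
  omega

theorem Deep.mono {H : SimpleGraph V} {S : Finset V} {n n' : ℕ} {u : V} (h : Deep H S n u)
    (hn : n' ≤ n) : Deep H S n' u := fun t ht m hm => hn.trans (h t ht m hm)

theorem Deep.notMem {H : SimpleGraph V} {S : Finset V} {n : ℕ} {u : V} (h : Deep H S (n + 1) u) :
    u ∉ S := fun hu => by
  have := h u hu 0 (Wk.nil _)
  omega

/-- a short walk to `S` avoids every set of deep vertices -/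
theorem avoid {H : SimpleGraph V} {S : Finset V} {n : ℕ} (D : V → Prop)
    (hD : ∀ z, D z → Deep H S n z) {m : ℕ} {x t : V} (hw : Wk H m x t) (ht : t ∈ S) (hx : ¬ D x)
    (hm : m ≤ n) : Wk (res H fun z => ¬ D z) m x t := by
  induction hw with
  | nil a => exact Wk.nil _
  | @cons m a b c h hw ih =>
    have hb : ¬ D b := fun hb => by
      have := hD b hb c ht m hw
      omega
    exact Wk.cons (b := b) ⟨h, hx, hb⟩ (ih ht hb (by omega))

/-- among the neighbours of an `n`-deep vertex at most one is within `m` of a given `t`,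
when `2 m + 2 < g` and `m ≤ n` -/
theorem nbr_unique {G H : SimpleGraph V} {g : ℕ} (hG : GirthGe G g)
    (hH : ∀ a b, H.Adj a b → G.Adj a b) {S : Finset V} {n : ℕ} {u : V} (hu : Deep H S n u)
    {y y' t : V} (hy : G.Adj u y) (hy' : G.Adj u y') (ht : t ∈ S) {m m' : ℕ} (hm : m ≤ n)
    (hm' : m' ≤ n) (hw : Wk H m y t) (hw' : Wk H m' y' t) (hg : m + m' + 2 < g) : y = y' := by
  by_contra hne
  have w1 := avoid (fun z => z = u) (fun z hz => hz ▸ hu) hw ht hy.ne.symm hm
  have w2 := avoid (fun z => z = u) (fun z hz => hz ▸ hu) hw' ht hy'.ne.symm hm'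
  have := hG.outside (Γ := res H fun z => ¬ z = u) (fun z => z = u)
    (fun a b h => ⟨hH a b h.1, h.2⟩) hy.ne.symm hy'.ne.symm hne rfl hy hy' (Wk.nil _)
    (w1.append w2.symm)
  omega

theorem exists_deep [Fintype V] [DecidableEq V] {G : SimpleGraph V} [DecidableRel G.Adj]
    {k K g : ℕ} (hreg : ∀ v, (univ.filter fun w => G.Adj v w).card = k) (hK : K < k)
    (hG : GirthGe G g) {S C : Finset V} (hs : Sep G K S C) :
    ∀ n, 2 * n < g → ∃ u ∈ C, Deep (inner G C) S n u := by
  intro n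
  induction n with
  | zero =>
    intro _
    obtain ⟨u, hu⟩ := hs.ne
    exact ⟨u, hu, fun _ _ _ _ => Nat.zero_le _⟩
  | succ n ih =>
    intro hn
    obtain ⟨u, huC, hu⟩ := ih (by omega)
    by_contra hcon
    push Not at hcon
    have h1 : ∀ y, ∃ t, G.Adj u y → t ∈ S ∧ ∃ m ≤ n, Wk (inner G C) m y t := by
      intro y
      by_cases hy : G.Adj u y
      · rcases hs.closed u huC y hy with h | h
        · have := hcon y h
          unfold Deep at this
          push Not at this
          obtain ⟨t, ht, m, hw, hm⟩ := this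
          exact ⟨t, fun _ => ⟨ht, m, by omega, hw⟩⟩
        · exact ⟨y, fun _ => ⟨h, 0, Nat.zero_le _, Wk.nil _⟩⟩
      · exact ⟨y, fun h => (hy h).elim⟩
    choose f hf using h1
    obtain ⟨y, hy, y', hy', hne, hff⟩ := exists_ne_map_eq_of_card_lt_of_maps_to
      (s := univ.filter fun w => G.Adj u w) (t := S) (by rw [hreg]; have := hs.card; omega)
      (f := f) (fun y hy => (hf y (mem_filter.mp hy).2).1)
    obtain ⟨ht, m, hm, hw⟩ := hf y (mem_filter.mp hy).2
    obtain ⟨_, m', hm', hw'⟩ := hf y' (mem_filter.mp hy').2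
    rw [← hff] at hw'
    exact hne (nbr_unique (H := inner G C) hG (fun a b h => h.1) hu (mem_filter.mp hy).2 (mem_filter.mp hy').2 ht
      hm hm' hw hw' (by omega))

end Pool.Agent.MP_0be28d_co

end

-- part MP_0be28d_co.Assign
section

/-!
Finite combinatorics: splitting conflicts and assigning groups.
-/

set_option autoImplicit false

namespace Pool.Agent.MP_0be28d_co

open Finset

variable {α β : Type*}

theorem exists_inj [Nonempty β] (A : Finset α) (T : Finset β) (h : A.card ≤ T.card) :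
    ∃ f : α → β, (∀ a ∈ A, f a ∈ T) ∧ ∀ a ∈ A, ∀ b ∈ A, f a = f b → a = b := by
  classical
  obtain ⟨e⟩ : Nonempty (A ↪ T) := Function.Embedding.nonempty_of_card_le (by simpa using h)
  refine ⟨fun a => if h : a ∈ A then (e ⟨a, h⟩ : β) else Classical.arbitrary β, ?_, ?_⟩
  · intro a ha; simp [ha]
  · intro a ha b hb hab
    simp only [ha, hb, dif_pos] at hab
    exact congrArg Subtype.val (e.injective (Subtype.ext hab))

theorem combine [DecidableEq α] (A B : Finset α) (T1 T2 : Finset β) (f : α → β)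
    (hf : ∀ a ∈ A, f a ∈ T1) (hi : ∀ a ∈ A, ∀ b ∈ A, f a = f b → a = b) (hB : B.card ≤ T2.card)
    (hT : Disjoint T1 T2) (hAB : Disjoint A B) :
    ∃ h : α → β, (∀ a ∈ A, h a = f a) ∧ (∀ b ∈ B, h b ∈ T2) ∧
      ∀ a ∈ A ∪ B, ∀ b ∈ A ∪ B, h a = h b → a = b := by
  rcases isEmpty_or_nonempty β with hβ | hβ
  · exact ⟨f, fun _ _ => rfl, fun b _ => (hβ.false (f b)).elim, fun a _ => (hβ.false (f a)).elim⟩
  obtain ⟨g, hg, hgi⟩ := exists_inj B T2 hB
  refine ⟨fun a => if a ∈ A then f a else g a, fun a ha => by simp [ha], fun b hb => ?_, ?_⟩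
  · have : b ∉ A := fun h => disjoint_left.mp hAB h hb
    simp [this, hg b hb]
  · intro a ha b hb hab
    rw [mem_union] at ha hb
    by_cases h1 : a ∈ A <;> by_cases h2 : b ∈ A <;> simp only [h1, h2, if_true, if_false] at hab
    · exact hi a h1 b h2 hab
    · exact (disjoint_left.mp hT (hf a h1) (hab ▸ hg b (hb.resolve_left h2))).elim
    · exact (disjoint_left.mp hT (hf b h2) (hab ▸ hg a (ha.resolve_left h1))).elim
    · exact hgi a (ha.resolve_left h1) b (hb.resolve_left h2) hab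

theorem split_half [DecidableEq α] (E : Finset (α × α)) (cap : α → ℕ)
    (h0 : ∀ s, (E.filter fun e => e.1 = s).card ≤ 2 * cap s)
    (h1 : ∀ t, (E.filter fun e => e.2 = t).card ≤ 2 * cap t) :
    ∃ B : Bool → α → Finset α, (∀ b s, (B b s).card ≤ cap s) ∧
      ∀ s t, (s, t) ∈ E → t ∈ B false s ∨ s ∈ B true t := by
  classical
  let slot : Bool → α → Finset (Bool × α × ℕ) := fun b s => (range (cap s)).image fun j => (b, s, j)
  have hslot : ∀ b s, (slot b s).card = cap s := by
    intro b s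
    rw [card_image_of_injective _ (fun a b h => by simpa using h), card_range]
  have hmem : ∀ b s x, x ∈ slot b s ↔ x.1 = b ∧ x.2.1 = s ∧ x.2.2 < cap s := by
    rintro b s ⟨x1, x2, x3⟩
    simp only [slot, mem_image, mem_range, Prod.mk.injEq]
    constructor
    · rintro ⟨j, hj, rfl, rfl, rfl⟩; exact ⟨rfl, rfl, hj⟩
    · rintro ⟨rfl, rfl, h⟩; exact ⟨x3, h, rfl, rfl, rfl⟩
  let t : E → Finset (Bool × α × ℕ) := fun e => slot false e.1.1 ∪ slot true e.1.2
  have hall : ∀ X : Finset E, X.card ≤ (X.biUnion t).card := by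
    intro X
    let Y := X.image Subtype.val
    have hY : Y.card = X.card := card_image_of_injective _ Subtype.val_injective
    have hYE : Y ⊆ E := by
      intro e he
      obtain ⟨e', _, rfl⟩ := mem_image.mp he
      exact e'.2
    have e1 : X.biUnion t =
        (Y.image Prod.fst).biUnion (slot false) ∪ (Y.image Prod.snd).biUnion (slot true) := by
      ext x
      simp only [t, Y, mem_biUnion, mem_union, mem_image]
      constructor
      · rintro ⟨e, he, h | h⟩
        · exact Or.inl ⟨_, ⟨_, ⟨e, he, rfl⟩, rfl⟩, h⟩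
        · exact Or.inr ⟨_, ⟨_, ⟨e, he, rfl⟩, rfl⟩, h⟩
      · rintro (⟨_, ⟨_, ⟨e, he, rfl⟩, rfl⟩, h⟩ | ⟨_, ⟨_, ⟨e, he, rfl⟩, rfl⟩, h⟩)
        · exact ⟨e, he, Or.inl h⟩
        · exact ⟨e, he, Or.inr h⟩
    have e2 : ∀ b (Z : Finset α), (Z.biUnion (slot b)).card = ∑ s ∈ Z, cap s := by
      intro b Z
      rw [card_biUnion]
      · exact sum_congr rfl fun s _ => hslot b s
      · intro s _ s' _ hss
        refine disjoint_left.mpr fun x h1 h2 => hss ?_
        rw [hmem] at h1 h2
        exact h1.2.1.symm.trans h2.2.1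
    rw [e1, card_union_of_disjoint (by
      refine disjoint_left.mpr fun x h1 h2 => ?_
      obtain ⟨s, _, h1⟩ := mem_biUnion.mp h1
      obtain ⟨s', _, h2⟩ := mem_biUnion.mp h2
      rw [hmem] at h1 h2
      have := h1.1.symm.trans h2.1
      simp at this), e2, e2]
    have a1 : Y.card ≤ 2 * ∑ s ∈ Y.image Prod.fst, cap s := by
      rw [card_eq_sum_card_image Prod.fst Y, mul_sum]
      exact sum_le_sum fun s _ => (card_le_card (filter_subset_filter _ hYE)).trans (h0 s)
    have a2 : Y.card ≤ 2 * ∑ s ∈ Y.image Prod.snd, cap s := by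
      rw [card_eq_sum_card_image Prod.snd Y, mul_sum]
      exact sum_le_sum fun s _ => (card_le_card (filter_subset_filter _ hYE)).trans (h1 s)
    omega
  obtain ⟨f, hf, hft⟩ := (all_card_le_biUnion_card_iff_exists_injective t).mp hall
  let B : Bool → α → Finset α := fun b s =>
    (univ.filter fun e : E => f e ∈ slot b s).image fun e => if b then e.1.1 else e.1.2
  refine ⟨B, fun b s => ?_, fun s t hst => ?_⟩
  · refine card_image_le.trans ?_
    rw [← hslot b s]
    exact card_le_card_of_injOn f (fun e he => by simpa using he) (fun _ _ _ _ h => hf h)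
  · rcases mem_union.mp (hft ⟨(s, t), hst⟩) with h | h
    · exact Or.inl (mem_image.mpr ⟨⟨(s, t), hst⟩, by simpa using h, rfl⟩)
    · exact Or.inr (mem_image.mpr ⟨⟨(s, t), hst⟩, by simpa using h, rfl⟩)

/-- symmetric-relation form of `split_half` -/
theorem split_rel [DecidableEq α] (S : Finset α) (D : α → α → Prop) [DecidableRel D]
    (hD : ∀ s t, D s t → D t s) (cap : α → ℕ)
    (h : ∀ s ∈ S, (S.filter fun t => D s t).card ≤ 2 * cap s) :
    ∃ B : Bool → α → Finset α, (∀ b s, (B b s).card ≤ cap s) ∧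
      ∀ s ∈ S, ∀ t ∈ S, D s t → t ∈ B false s ∨ s ∈ B true t := by
  obtain ⟨B, h1, h2⟩ := split_half ((S ×ˢ S).filter fun e => D e.1 e.2) cap (by
    intro s
    by_cases hs : s ∈ S
    · refine le_trans ?_ (h s hs)
      refine card_le_card_of_injOn Prod.snd ?_ ?_
      · rintro ⟨a, b⟩ he
        simp only [coe_filter, mem_filter, mem_product, Set.mem_ofPred_eq] at he ⊢
        exact ⟨he.1.1.2, he.2 ▸ he.1.2⟩
      · rintro ⟨a, b⟩ he ⟨a', b'⟩ he' hh
        simp only [coe_filter, mem_filter, mem_product, Set.mem_ofPred_eq] at he he' hh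
        rw [he.2, he'.2, hh]
    · rw [card_eq_zero.mpr]
      · exact Nat.zero_le _
      · rw [filter_eq_empty_iff]
        rintro ⟨a, b⟩ he rfl
        simp only [mem_filter, mem_product] at he
        exact hs he.1.1) (by
    intro s
    by_cases hs : s ∈ S
    · refine le_trans ?_ (h s hs)
      refine card_le_card_of_injOn Prod.fst ?_ ?_
      · rintro ⟨a, b⟩ he
        simp only [coe_filter, mem_filter, mem_product, Set.mem_ofPred_eq] at he ⊢
        exact ⟨he.1.1.1, hD _ _ (he.2 ▸ he.1.2)⟩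
      · rintro ⟨a, b⟩ he ⟨a', b'⟩ he' hh
        simp only [coe_filter, mem_filter, mem_product, Set.mem_ofPred_eq] at he he' hh
        rw [he.2, he'.2, hh]
    · rw [card_eq_zero.mpr]
      · exact Nat.zero_le _
      · rw [filter_eq_empty_iff]
        rintro ⟨a, b⟩ he rfl
        simp only [mem_filter, mem_product] at he
        exact hs he.1.2)
  exact ⟨B, h1, fun s hs t ht hd => h2 s t (by simp [hs, ht, hd])⟩

theorem many_high [DecidableEq α] (S : Finset α) (f : α → ℕ) (K m c : ℕ) (hS : S.card + 1 = K + m)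
    (hmc : m ≤ c) (hc : c ≤ S.card) (hf : ∀ t ∈ S, f t ≤ K + 1)
    (hsum : (K + 1) * c ≤ ∑ t ∈ S, f t) :
    m ≤ (S.filter fun t => c + 2 ≤ f t + m).card + 1 := by
  by_contra hlt
  push Not at hlt
  set h := (S.filter fun t => c + 2 ≤ f t + m).card with hh
  obtain ⟨e, he⟩ : ∃ e, m = h + 2 + e := ⟨m - (h + 2), by omega⟩
  obtain ⟨d, hd⟩ : ∃ d, c + 1 = m + d := ⟨c + 1 - m, by omega⟩
  have h1 := sum_filter_add_sum_filter_not S (fun t => c + 2 ≤ f t + m) f
  have h2 : ∑ t ∈ S.filter (fun t => c + 2 ≤ f t + m), f t ≤ h * (K + 1) := by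
    have := sum_le_card_nsmul (S.filter (fun t => c + 2 ≤ f t + m)) f (K + 1)
      (fun t ht => hf t (mem_filter.mp ht).1)
    simpa using this
  have h3 : ∑ t ∈ S.filter (fun t => ¬ (c + 2 ≤ f t + m)), f t ≤ (K + 1 + e) * d := by
    have := sum_le_card_nsmul (S.filter (fun t => ¬ (c + 2 ≤ f t + m))) f d
      (fun t ht => by have := (mem_filter.mp ht).2; omega)
    have h4 := card_filter_add_card_filter_not (s := S) (fun t => c + 2 ≤ f t + m)
    have h5 : (S.filter (fun t => ¬ (c + 2 ≤ f t + m))).card = K + 1 + e := by omega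
    rw [h5] at this
    simpa using this
  have h6 : d ≤ K + 1 := by omega
  have h7 : c = h + 1 + e + d := by omega
  have h8 : e * d ≤ e * (K + 1) := Nat.mul_le_mul_left _ h6
  have h9 : (K + 1) * c = (K + 1) * (h + 1 + e + d) := by rw [← h7]
  nlinarith

theorem assign_sigma [DecidableEq α] [DecidableEq β] (S Cl : Finset α) (I : Finset β)
    (N : α → Finset β) (z : α → β) (hI : I.card = S.card + 1) (hCl : Cl ⊆ S)
    (hN : ∀ t ∈ S, N t ⊆ I) (hz : ∀ t ∈ Cl, z t ∈ N t)
    (hw : ∀ j ∈ I, (∀ t ∈ Cl, z t ≠ j) → Cl.card ≤ (S.filter fun t => j ∈ N t).card) :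
    ∃ (σ : α → β) (R O : Finset α) (Wp : α → Finset β),
      (∀ s ∈ S, σ s ∈ I) ∧ (∀ s ∈ S, ∀ t ∈ S, σ s = σ t → s = t) ∧
      O ⊆ Cl ∧ Disjoint R O ∧
      (∀ s ∈ S, ∀ t ∈ Cl, z t = σ s → (s = t ∧ s ∉ O ∧ s ∉ R) ∨ s ∈ R) ∧
      (∀ p ∈ R, 2 ≤ (Cl.filter fun t => z t = σ p).card ∧
        2 * (Cl.filter fun t => z t = σ p).card ≤ (N p).card ∧ Wp p ⊆ N p ∧
        (Wp p).card + (if p ∈ Cl then 1 else 0) = (Cl.filter fun t => z t = σ p).card ∧
        (∀ t ∈ Cl, z t ∉ Wp p) ∧ ∀ t ∈ S, σ t ∈ Wp p → t ∈ O) := by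
  classical
  let v : β → ℕ := fun i => (Cl.filter fun t => z t = i).card
  obtain ⟨i0, hi0, hmax⟩ := exists_max_image I v (card_pos.mp (by omega))
  let J := I.erase i0
  have hJ : J.card = S.card := by simp only [J]; rw [card_erase_of_mem hi0]; omega
  let M := J.filter fun i => 2 ≤ v i
  let M1 := J.filter fun i => v i = 1
  let F0 := J.filter fun i => v i = 0
  have hpart : M.card + M1.card + F0.card = S.card := by
    have a1 := card_filter_add_card_filter_not (s := J) (fun i => 2 ≤ v i)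
    have a2 := card_filter_add_card_filter_not (s := J.filter fun i => ¬ 2 ≤ v i) (fun i => v i = 1)
    have a3 : (J.filter fun i => ¬ 2 ≤ v i).filter (fun i => v i = 1) = M1 := by
      ext i; simp only [M1, mem_filter]; constructor
      · exact fun h => ⟨h.1.1, h.2⟩
      · exact fun h => ⟨⟨h.1, by omega⟩, h.2⟩
    have a4 : (J.filter fun i => ¬ 2 ≤ v i).filter (fun i => ¬ v i = 1) = F0 := by
      ext i; simp only [F0, mem_filter]; constructor
      · exact fun h => ⟨h.1.1, by omega⟩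
      · exact fun h => ⟨⟨h.1, by omega⟩, by omega⟩
    rw [a3, a4] at a2
    simp only [M]
    omega
  have vpos : ∀ t ∈ Cl, 1 ≤ v (z t) := fun t ht => card_pos.mpr ⟨t, by simp [ht]⟩
  have hzI : ∀ t ∈ Cl, z t ∈ I := fun t ht => hN t (hCl ht) (hz t ht)
  let P1 := Cl.filter fun t => z t ∈ M1
  have hP1inj : ∀ a ∈ P1, ∀ b ∈ P1, z a = z b → a = b := by
    intro a ha b hb hab
    simp only [P1, M1, mem_filter] at ha hb
    have := card_le_one.mp (show (Cl.filter fun t => z t = z a).card ≤ 1 from ha.2.2.le)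
    exact this a (by simp [ha.1]) b (by simp [hb.1, hab])
  have hP1c : P1.card = M1.card := by
    rw [card_eq_sum_card_fiberwise (f := z) (s := P1) (t := M1) (fun t ht => (mem_filter.mp ht).2),
      card_eq_sum_ones M1]
    refine sum_congr rfl fun i hi => ?_
    rw [← (mem_filter.mp hi).2]
    congr 1
    ext t
    simp only [P1, mem_filter]
    exact ⟨fun h => ⟨h.1.1, h.2⟩, fun h => ⟨⟨h.1, h.2 ▸ hi⟩, h.2⟩⟩
  have hP1S : P1 ⊆ S := fun t ht => hCl (mem_filter.mp ht).1
  let fp : α → ℕ := fun t => (N t ∩ F0).card + if t ∈ Cl then 1 else 0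
  have hfp : ∀ t ∈ S, fp t ≤ (N t).card := by
    intro t _
    by_cases h : t ∈ Cl
    · simp only [fp, h, if_true]
      refine card_lt_card ⟨inter_subset_left, fun hh => ?_⟩
      have := (mem_filter.mp (mem_inter.mp (hh (hz t h))).2).2
      have := vpos t h
      omega
    · simp only [fp, h, if_false]
      exact card_le_card inter_subset_left
  obtain ⟨R, hRS, hRc, hRhi⟩ : ∃ R ⊆ S \ P1, R.card = M.card ∧ ∀ p ∈ R, ∀ i ∈ M, 2 * v i ≤ fp p := by
    rcases M.eq_empty_or_nonempty with hM | ⟨i1, hi1⟩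
    · exact ⟨∅, by simp, by simp [hM], by simp⟩
    have hsumv : ∑ i ∈ I, v i = Cl.card := (card_eq_sum_card_fiberwise hzI).symm
    have hb : ∀ i ∈ M, 2 * v i + (M.card + M1.card + 1) ≤ Cl.card + 2 := by
      intro i hi
      have hiJ : i ∈ J := (mem_filter.mp hi).1
      have a1 := add_sum_erase I v hi0
      have a2 := add_sum_erase M v hi
      have a3 : ∑ j ∈ M ∪ M1, v j ≤ ∑ j ∈ J, v j :=
        sum_le_sum_of_subset (union_subset (filter_subset _ _) (filter_subset _ _))
      rw [sum_union (disjoint_left.mpr fun j h1 h2 => by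
        have := (mem_filter.mp h1).2; have := (mem_filter.mp h2).2; omega)] at a3
      have a4 : (M.erase i).card • 1 ≤ ∑ j ∈ M.erase i, v j :=
        card_nsmul_le_sum _ _ _ fun j hj => by
          have := (mem_filter.mp (mem_of_mem_erase hj)).2; omega
      have a5 : M1.card • 1 ≤ ∑ j ∈ M1, v j :=
        card_nsmul_le_sum _ _ _ fun j hj => (mem_filter.mp hj).2.ge
      rw [card_erase_of_mem hi] at a4
      have a6 := hmax i (mem_of_mem_erase hiJ)
      have a7 := card_pos.mpr ⟨i, hi⟩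
      simp only [smul_eq_mul, mul_one] at a4 a5
      simp only [J] at a3
      omega
    have hi1' := hb i1 hi1
    have hi12 := (mem_filter.mp hi1).2
    have hsum : (F0.card + 1) * Cl.card ≤ ∑ t ∈ S, fp t := by
      simp only [fp]
      rw [sum_add_distrib, ← card_filter, filter_mem_eq_inter, inter_eq_right.mpr hCl]
      have a1 : ∑ t ∈ S, (N t ∩ F0).card = ∑ j ∈ F0, (S.filter fun t => j ∈ N t).card := by
        have := sum_card_bipartiteAbove_eq_sum_card_bipartiteBelow (s := S) (t := F0)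
          (fun t j => j ∈ N t)
        simp only [bipartiteAbove, bipartiteBelow] at this
        rw [← this]
        refine sum_congr rfl fun t _ => ?_
        rw [filter_mem_eq_inter, inter_comm]
      have a2 : F0.card • Cl.card ≤ ∑ j ∈ F0, (S.filter fun t => j ∈ N t).card :=
        card_nsmul_le_sum _ _ _ fun j hj => hw j (mem_of_mem_erase (mem_filter.mp hj).1)
          fun t ht h => by
            have := vpos t ht
            have := (mem_filter.mp hj).2
            rw [h] at *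
            omega
      rw [a1]
      simp only [smul_eq_mul] at a2
      nlinarith
    have hhigh := many_high S fp F0.card (M.card + M1.card + 1) Cl.card (by omega) (by omega)
      (card_le_card hCl) (fun t _ => by
        have := card_le_card (inter_subset_right : N t ∩ F0 ⊆ F0)
        simp only [fp]; split_ifs <;> omega) hsum
    set Hi := S.filter fun t => Cl.card + 2 ≤ fp t + (M.card + M1.card + 1) with hHi
    have a1 := le_card_sdiff P1 Hi
    obtain ⟨R, hR1, hR2⟩ := exists_subset_card_eq (show M.card ≤ (Hi \ P1).card by omega)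
    refine ⟨R, hR1.trans (sdiff_subset_sdiff (filter_subset _ _) Subset.rfl), hR2, ?_⟩
    intro p hp i hi
    have := (mem_filter.mp (mem_sdiff.mp (hR1 hp)).1).2
    have := hb i hi
    omega
  have dP1R : Disjoint P1 R := disjoint_left.mpr fun t h1 h2 => (mem_sdiff.mp (hRS h2)).2 h1
  have dM1M : Disjoint M1 M := disjoint_left.mpr fun j h1 h2 => by
    have := (mem_filter.mp h1).2; have := (mem_filter.mp h2).2; omega
  obtain ⟨σ1, h1a, h1b, h1c⟩ := combine P1 R M1 M z (fun t ht => (mem_filter.mp ht).2) hP1inj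
    hRc.le dM1M dP1R
  have hWp : ∀ p, ∃ w : Finset β, p ∈ R → w ⊆ N p ∩ F0 ∧
      w.card + (if p ∈ Cl then 1 else 0) = v (σ1 p) := by
    intro p
    by_cases hp : p ∈ R
    · have a1 := hRhi p hp _ (h1b p hp)
      have a2 := (mem_filter.mp (h1b p hp)).2
      obtain ⟨w, hw1, hw2⟩ := exists_subset_card_eq
        (show v (σ1 p) - (if p ∈ Cl then 1 else 0) ≤ (N p ∩ F0).card by
          simp only [fp] at a1; omega)
      refine ⟨w, fun _ => ⟨hw1, ?_⟩⟩
      rw [hw2]; split_ifs <;> omega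
    · exact ⟨∅, fun h => (hp h).elim⟩
  choose Wp hWp using hWp
  let W := R.biUnion Wp
  have hWF : W ⊆ F0 := biUnion_subset.mpr fun p hp => (hWp p hp).1.trans inter_subset_right
  let O := (Cl \ P1) \ R
  have hWO : W.card ≤ O.card := by
    have a1 : W.card ≤ ∑ p ∈ R, (Wp p).card := card_biUnion_le
    have a2 : ∑ p ∈ R, (Wp p).card + (R ∩ Cl).card = ∑ p ∈ R, v (σ1 p) := by
      rw [← filter_mem_eq_inter, card_filter, ← sum_add_distrib]
      exact sum_congr rfl fun p hp => (hWp p hp).2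
    have a3 : ∑ p ∈ R, v (σ1 p) ≤ ∑ i ∈ M, v i := by
      rw [← sum_image (f := v) (g := σ1) (s := R) (fun a ha b hb h =>
        h1c a (mem_union_right _ ha) b (mem_union_right _ hb) h)]
      exact sum_le_sum_of_subset fun i hi => by
        obtain ⟨p, hp, rfl⟩ := mem_image.mp hi
        exact h1b p hp
    have a4 : ∑ i ∈ M, v i = (Cl.filter fun t => z t ∈ M).card := by
      rw [card_eq_sum_card_fiberwise (f := z) (s := Cl.filter fun t => z t ∈ M) (t := M)
        (fun t ht => (mem_filter.mp ht).2)]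
      refine sum_congr rfl fun i hi => ?_
      simp only [v]
      congr 1
      ext t
      simp only [mem_filter]
      exact ⟨fun h => ⟨⟨h.1, h.2 ▸ hi⟩, h.2⟩, fun h => ⟨h.1.1, h.2⟩⟩
    have a5 : (Cl.filter fun t => z t ∈ M) ⊆ O ∪ (R ∩ Cl) := by
      intro t ht
      obtain ⟨b1, b2⟩ := mem_filter.mp ht
      by_cases hR : t ∈ R
      · exact mem_union_right _ (mem_inter.mpr ⟨hR, b1⟩)
      · refine mem_union_left _ (mem_sdiff.mpr ⟨mem_sdiff.mpr ⟨b1, fun h => ?_⟩, hR⟩)
        exact disjoint_left.mp dM1M (mem_filter.mp h).2 b2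
    have a6 := (card_le_card a5).trans (card_union_le _ _)
    omega
  obtain ⟨O', hO'O, hO'c⟩ := exists_subset_card_eq hWO
  have dF : Disjoint (M1 ∪ M) F0 := disjoint_left.mpr fun j h1 h2 => by
    have := (mem_filter.mp h2).2
    rcases mem_union.mp h1 with h | h <;> have := (mem_filter.mp h).2 <;> omega
  have h1m : ∀ a ∈ P1 ∪ R, σ1 a ∈ M1 ∪ M := by
    intro a ha
    rcases mem_union.mp ha with h | h
    · rw [h1a a h]; exact mem_union_left _ (mem_filter.mp h).2
    · exact mem_union_right _ (h1b a h)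
  have dO' : Disjoint (P1 ∪ R) O' := disjoint_left.mpr fun t h1 h2 => by
    have := mem_sdiff.mp (hO'O h2)
    rcases mem_union.mp h1 with h | h
    · exact (mem_sdiff.mp this.1).2 h
    · exact this.2 h
  obtain ⟨σ2, h2a, h2b, h2c⟩ := combine (P1 ∪ R) O' (M1 ∪ M) W σ1 h1m h1c hO'c.le
    (disjoint_of_subset_right hWF dF) dO'
  have hsub : P1 ∪ R ∪ O' ⊆ S := union_subset (union_subset hP1S (hRS.trans sdiff_subset))
    (hO'O.trans (sdiff_subset.trans (sdiff_subset.trans hCl)))
  have h2m : ∀ a ∈ P1 ∪ R ∪ O', σ2 a ∈ M1 ∪ M ∪ W := by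
    intro a ha
    rcases mem_union.mp ha with h | h
    · rw [h2a a h]; exact mem_union_left _ (h1m a h)
    · exact mem_union_right _ (h2b a h)
  obtain ⟨σ, h3a, h3b, h3c⟩ := combine (P1 ∪ R ∪ O') (S \ (P1 ∪ R ∪ O')) (M1 ∪ M ∪ W) (F0 \ W) σ2
    h2m h2c (by
      rw [card_sdiff_of_subset hsub, card_sdiff_of_subset hWF, card_union_of_disjoint dO',
        card_union_of_disjoint dP1R]
      omega) (by
      refine disjoint_left.mpr fun j h1 h2 => ?_
      rcases mem_union.mp h1 with h | h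
      · exact disjoint_left.mp dF h (mem_sdiff.mp h2).1
      · exact (mem_sdiff.mp h2).2 h) disjoint_sdiff
  rw [union_sdiff_of_subset hsub] at h3c
  have cases4 : ∀ s ∈ S, (s ∈ P1 ∧ σ s = z s ∧ σ s ∈ M1) ∨ (s ∈ R ∧ σ s = σ1 s ∧ σ s ∈ M) ∨
      (s ∈ O' ∧ σ s ∈ W) ∨ σ s ∈ F0 \ W := by
    intro s hs
    by_cases h : s ∈ P1 ∪ R ∪ O'
    · rw [h3a s h]
      rcases mem_union.mp h with h' | h'
      · rw [h2a s h']
        rcases mem_union.mp h' with h'' | h''
        · exact Or.inl ⟨h'', h1a s h'', by rw [h1a s h'']; exact (mem_filter.mp h'').2⟩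
        · exact Or.inr (Or.inl ⟨h'', rfl, h1b s h''⟩)
      · exact Or.inr (Or.inr (Or.inl ⟨h', h2b s h'⟩))
    · exact Or.inr (Or.inr (Or.inr (h3b s (mem_sdiff.mpr ⟨hs, h⟩))))
  have hσR : ∀ p ∈ R, σ p = σ1 p := fun p hp => by
    rw [h3a p (mem_union_left _ (mem_union_right _ hp)), h2a p (mem_union_right _ hp)]
  refine ⟨σ, R, O, Wp, ?_, h3c, sdiff_subset.trans sdiff_subset, disjoint_sdiff, ?_, ?_⟩
  · intro s hs
    apply mem_of_mem_erase (a := i0)
    rcases cases4 s hs with h | h | h | h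
    · exact (mem_filter.mp h.2.2).1
    · exact (mem_filter.mp h.2.2).1
    · exact (mem_filter.mp (hWF h.2)).1
    · exact (mem_filter.mp (mem_sdiff.mp h).1).1
  · intro s hs t ht hzt
    have hv := vpos t ht
    rcases cases4 s hs with h | h | h | h
    · left
      have htP : t ∈ P1 := mem_filter.mpr ⟨ht, hzt ▸ h.2.2⟩
      refine ⟨hP1inj s h.1 t htP (h.2.1.symm.trans hzt.symm), fun hO => ?_,
        disjoint_left.mp dP1R h.1⟩
      exact (mem_sdiff.mp (mem_sdiff.mp hO).1).2 h.1
    · exact Or.inr h.1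
    · have := (mem_filter.mp (hWF h.2)).2
      rw [hzt] at hv; omega
    · have := (mem_filter.mp (mem_sdiff.mp h).1).2
      rw [hzt] at hv; omega
  · intro p hp
    rw [hσR p hp]
    have hpS : p ∈ S := (mem_sdiff.mp (hRS hp)).1
    refine ⟨(mem_filter.mp (h1b p hp)).2, (hRhi p hp _ (h1b p hp)).trans (hfp p hpS),
      (hWp p hp).1.trans inter_subset_left, (hWp p hp).2, ?_, ?_⟩
    · intro t ht h
      have := (mem_filter.mp (mem_inter.mp ((hWp p hp).1 h)).2).2
      have := vpos t ht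
      omega
    · intro t ht h
      have hW : σ t ∈ W := mem_biUnion.mpr ⟨p, hp, h⟩
      rcases cases4 t ht with h' | h' | h' | h'
      · exact (disjoint_left.mp dF (mem_union_left _ h'.2.2) (hWF hW)).elim
      · exact (disjoint_left.mp dF (mem_union_right _ h'.2.2) (hWF hW)).elim
      · exact hO'O h'.1
      · exact ((mem_sdiff.mp h').2 hW).elim

theorem assign [DecidableEq α] [DecidableEq β] (S Cl : Finset α) (I : Finset β)
    (N : α → Finset β) (z : α → β) (a : α → ℕ) (hI : I.card = S.card + 1) (hCl : Cl ⊆ S)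
    (hN : ∀ t ∈ S, N t ⊆ I) (hz : ∀ t ∈ Cl, z t ∈ N t)
    (hw : ∀ j ∈ I, (∀ t ∈ Cl, z t ≠ j) → Cl.card ≤ (S.filter fun t => j ∈ N t).card)
    (ha : ∀ s ∈ S, 2 ≤ a s) (hNa : ∀ s ∈ S, (N s).card ≤ a s) :
    ∃ (σ : α → β) (B : Bool → α → Finset α),
      (∀ s ∈ S, σ s ∈ I) ∧ (∀ s ∈ S, ∀ t ∈ S, σ s = σ t → s = t) ∧
      (∀ b, ∀ s ∈ S, (B b s).card + 1 ≤ a s) ∧
      (∀ s ∈ S, ∀ t ∈ S, σ s ∈ N t → σ t ∈ N s → t ∈ B false s ∨ s ∈ B true t) ∧
      (∀ s ∈ S, ∀ t ∈ Cl, z t = σ s → s ≠ t → ∀ b, t ∈ B b s) := by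
  classical
  obtain ⟨σ, R, O, Wp, hσI, hσi, hO, hRO, hown, hR⟩ := assign_sigma S Cl I N z hI hCl hN hz hw
  let forced : α → Finset α := fun s => if s ∈ R then Cl.filter fun t => z t = σ s else ∅
  let D : α → α → Prop := fun s t =>
    s ∉ O ∧ t ∉ O ∧ σ s ∈ N t ∧ σ t ∈ N s ∧ t ∉ forced s ∧ s ∉ forced t
  have hinj : ∀ (s : α) (Q : α → Prop) [DecidablePred Q] (T : Finset β),
      (∀ t ∈ S, Q t → σ t ∈ T) → (S.filter Q).card ≤ T.card := by
    intro s Q _ T h
    refine card_le_card_of_injOn σ (fun t ht => ?_) (fun t ht t' ht' h => ?_)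
    · have := mem_filter.mp (mem_coe.mp ht)
      exact h t this.1 this.2
    · exact hσi t (mem_filter.mp (mem_coe.mp ht)).1 t' (mem_filter.mp (mem_coe.mp ht')).1 h
  have hforced : ∀ s ∈ S, (forced s).card + 1 ≤ a s := by
    intro s hs
    by_cases h : s ∈ R
    · obtain ⟨a1, a2, _⟩ := hR s h
      have := hNa s hs
      simp only [forced, h, if_true]
      omega
    · have := ha s hs
      simp only [forced, h, if_false, card_empty]
      omega
  obtain ⟨B', hB1, hB2⟩ := split_rel S D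
    (fun s t h => ⟨h.2.1, h.1, h.2.2.2.1, h.2.2.1, h.2.2.2.2.2, h.2.2.2.2.1⟩)
    (fun s => a s - 1 - (forced s).card) (by
      intro s hs
      have b0 := hNa s hs
      by_cases h : s ∈ R
      · obtain ⟨a1, a2, a3, a4, a5, a6⟩ := hR s h
        have b1 := hinj s (fun t => D s t) ((N s \ Wp s) \ if s ∈ Cl then {z s} else ∅) (by
          intro t ht hd
          refine mem_sdiff.mpr ⟨mem_sdiff.mpr ⟨hd.2.2.2.1, fun hh => hd.2.1 (a6 t ht hh)⟩, ?_⟩
          split_ifs with hc
          · intro hh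
            rw [mem_singleton] at hh
            rcases hown t ht s hc hh.symm with h' | h'
            · exact h'.2.2 (h'.1 ▸ h)
            · exact hd.2.2.2.2.2 (by simp [forced, h', hc, hh])
          · simp)
        have b2 : ((N s \ Wp s) \ if s ∈ Cl then {z s} else ∅).card +
            (Cl.filter fun t => z t = σ s).card = (N s).card := by
          rw [← a4, ← card_sdiff_add_card_eq_card a3]
          split_ifs with hc
          · have : {z s} ⊆ N s \ Wp s := by
              rw [singleton_subset_iff]; exact mem_sdiff.mpr ⟨hz s hc, a5 s hc⟩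
            have := card_sdiff_add_card_eq_card this
            rw [card_singleton] at this
            omega
          · simp
        simp only [forced, h, if_true]
        omega
      · have b1 := hinj s (fun t => D s t) (N s) (fun t _ hd => hd.2.2.2.1)
        have := ha s hs
        simp only [forced, h, if_false, card_empty]
        omega)
  refine ⟨σ, fun b s => if s ∈ O then S.filter (fun t => σ t ∈ (N s).erase (z s))
    else forced s ∪ B' b s, hσI, hσi, ?_, ?_, ?_⟩
  · intro b s hs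
    by_cases h : s ∈ O
    · simp only [h, if_true]
      have b1 := hinj s (fun t => σ t ∈ (N s).erase (z s)) _ (fun t _ h => h)
      have b2 := card_erase_add_one (hz s (hO h))
      have := hNa s hs
      omega
    · simp only [h, if_false]
      have b1 := card_union_le (forced s) (B' b s)
      have b2 := hB1 b s
      have := hforced s hs
      omega
  · intro s hs t ht h1 h2
    have key : ∀ s ∈ S, ∀ t ∈ S, s ∈ O → σ t = z s → t ∉ O ∧ s ∈ forced t := by
      intro s hs t ht hsO h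
      rcases hown t ht s (hO hsO) h.symm with h' | h'
      · exact (h'.2.1 (h'.1 ▸ hsO)).elim
      · exact ⟨disjoint_left.mp hRO h', by simp [forced, h', hO hsO, h]⟩
    by_cases hsO : s ∈ O
    · by_cases h3 : σ t = z s
      · obtain ⟨a1, a2⟩ := key s hs t ht hsO h3
        right; simp [a1, a2]
      · left; simp [hsO, ht, h3, h2]
    by_cases htO : t ∈ O
    · by_cases h3 : σ s = z t
      · obtain ⟨_, a2⟩ := key t ht s hs htO h3
        left; simp [hsO, a2]
      · right; simp [htO, hs, h3, h1]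
    simp only [hsO, htO, if_false, mem_union]
    by_cases f1 : t ∈ forced s
    · exact Or.inl (Or.inl f1)
    by_cases f2 : s ∈ forced t
    · exact Or.inr (Or.inl f2)
    rcases hB2 s hs t ht ⟨hsO, htO, h1, h2, f1, f2⟩ with h | h
    · exact Or.inl (Or.inr h)
    · exact Or.inr (Or.inr h)
  · intro s hs t ht h hne b
    rcases hown s hs t ht h with h' | h'
    · exact (hne h'.1).elim
    · have := disjoint_left.mp hRO h'
      simp [this, forced, h', ht, h]

end Pool.Agent.MP_0be28d_co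

end

-- part MP_0be28d_co.Odd
section

/-!
Cages of odd girth at least nine: from a small separation to a smaller regular graph.
-/

set_option autoImplicit false

namespace Pool.Agent.MP_0be28d_co

open SimpleGraph Finset

variable {V : Type*}

theorem no_square {G : SimpleGraph V} {g : ℕ} (hG : GirthGe G g) (hg : 5 ≤ g) {u i j x : V}
    (hi : G.Adj u i) (hj : G.Adj u j) (hix : G.Adj i x) (hjx : G.Adj j x) (hx : x ≠ u) :
    i = j := by
  by_contra hne
  have := hG.outside (Γ := res G (fun z => ¬ z = u)) (fun z => z = u) (fun a b h => h)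
    hi.ne.symm hj.ne.symm hne rfl hi hj (Wk.nil _)
    (Wk.cons (b := x) ⟨hix, hi.ne.symm, hx⟩ (Wk.single ⟨hjx.symm, hx, hj.ne.symm⟩))
  omega

theorem ncard_insert_nbr [Finite V] {G Γ : SimpleGraph V} {x i : V} (hi : G.Adj x i)
    (hn : ¬ Γ.Adj x i) (h1 : ∀ y, Γ.Adj x y → G.Adj x y) (h2 : ∀ y, G.Adj x y → y = i ∨ Γ.Adj x y) :
    (Γ.neighborSet x).ncard + 1 = (G.neighborSet x).ncard := by
  have : G.neighborSet x = insert i (Γ.neighborSet x) := by
    ext y
    simp only [mem_neighborSet, Set.mem_insert_iff]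
    exact ⟨h2 y, fun h => h.elim (fun h => h ▸ hi) (h1 y)⟩
  rw [this, Set.ncard_insert_of_notMem (s := Γ.neighborSet x) hn]

theorem exists_drop [DecidableEq V] (Gr B : Finset V) (y : V → V) {k a : ℕ} (hG : Gr.card + 1 = k)
    (hB : B.card + 1 ≤ a) (ha : a ≤ k) :
    ∃ A ⊆ Gr, a + A.card = k ∧ ∀ t ∈ B, y t ∉ A := by
  have a1 := le_card_sdiff (B.image y) Gr
  have a2 : (B.image y).card ≤ B.card := card_image_le
  obtain ⟨A, hA1, hA2⟩ := exists_subset_card_eq (show k - a ≤ (Gr \ B.image y).card by omega)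
  refine ⟨A, hA1.trans sdiff_subset, by omega, fun t ht h => ?_⟩
  exact (mem_sdiff.mp (hA1 h)).2 (mem_image_of_mem _ ht)

theorem odd_smaller [Fintype V] [DecidableEq V] {G : SimpleGraph V} [DecidableRel G.Adj]
    {k r : ℕ} (hreg : ∀ v, (univ.filter fun w => G.Adj v w).card = k) (hk : 2 ≤ k) (hr : 4 ≤ r)
    (hG : GirthGe G (2 * r + 1)) {S C : Finset V} (hs : Sep G (k - 1) S C) (hSc : S.card = k - 1)
    (ha : ∀ s ∈ S, 2 ≤ (C.filter fun w => G.Adj s w).card) :
    ∃ (H : SimpleGraph (V × Bool)) (W : Finset (V × Bool)), RegOn H W k ∧ GirthGe H (2 * r + 1) ∧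
      W.Nonempty ∧ W.card < 2 * C.card := by
  classical
  set H := inner G C with hH
  let c : V → ℕ := fun u => (S.filter fun t => ∃ m ≤ r, Wk H m u t).card
  obtain ⟨u, hu, hmin⟩ := exists_min_image (C.filter fun u => Deep H S r u) c (by
    obtain ⟨u, h1, h2⟩ := exists_deep hreg (show k - 1 < k by omega) hG hs r (by omega)
    exact ⟨u, mem_filter.mpr ⟨h1, h2⟩⟩)
  obtain ⟨huC, hud⟩ := mem_filter.mp hu
  obtain ⟨r, rfl⟩ : ∃ r', r = r' + 2 := ⟨r - 2, by omega⟩
  let D : V → Prop := fun z => z = u ∨ G.Adj u z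
  let Γ := res H fun z => ¬ D z
  have hΓ : ∀ a b, Γ.Adj a b → G.Adj a b ∧ ¬ D a ∧ ¬ D b := fun a b h => ⟨h.1.1, h.2⟩
  have hΓH : ∀ {n a b}, Wk Γ n a b → Wk H n a b := fun h => h.mono fun a b (h : Γ.Adj a b) => h.1
  have hD : ∀ z, D z → Deep H S (r + 1) z := by
    rintro z (rfl | h)
    · exact hud.mono (by omega)
    · exact hud.adj ⟨h, Or.inl huC⟩
  have hDC : ∀ z, D z → z ∈ C := by
    rintro z (rfl | h)
    · exact huC
    · exact (hs.closed u huC z h).resolve_right (hD z (Or.inr h)).notMem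
  let I := univ.filter fun w => G.Adj u w
  have hI : ∀ i, i ∈ I ↔ G.Adj u i := fun i => by simp [I]
  let Gr : V → Finset V := fun i => (univ.filter fun w => G.Adj i w).erase u
  have hGr : ∀ i x, x ∈ Gr i ↔ x ≠ u ∧ G.Adj i x := fun i x => by simp [Gr]
  have hGrc : ∀ i, G.Adj u i → (Gr i).card + 1 = k := fun i hi => by
    simp only [Gr]
    rw [card_erase_add_one (by simpa using hi.symm), hreg]
  have hGrD : ∀ i x, G.Adj u i → x ∈ Gr i → ¬ D x := by
    rintro i x hi hx (h | h)
    · exact ((hGr i x).mp hx).1 h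
    · exact no_triangle hG (by omega) hi ((hGr i x).mp hx).2 h.symm
  have hGrdeep : ∀ i x, G.Adj u i → x ∈ Gr i → Deep H S r x := fun i x hi hx =>
    (hD i (Or.inr hi)).adj ⟨((hGr i x).mp hx).2, Or.inl (hDC i (Or.inr hi))⟩
  have hGrC : ∀ i x, G.Adj u i → x ∈ Gr i → x ∈ C := fun i x hi hx =>
    (hs.closed i (hDC i (Or.inr hi)) x ((hGr i x).mp hx).2).resolve_right
      ((hGrdeep i x hi hx).mono (show 0 + 1 ≤ r by omega)).notMem
  have hpar : ∀ i j x, G.Adj u i → G.Adj u j → x ∈ Gr i → x ∈ Gr j → i = j :=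
    fun i j x hi hj h1 h2 => no_square hG (by omega) hi hj ((hGr i x).mp h1).2
      ((hGr j x).mp h2).2 ((hGr i x).mp h1).1
  have farS : ∀ i x y n, G.Adj u i → x ∈ Gr i → y ∈ Gr i → x ≠ y → Wk Γ n x y →
      2 * r + 3 ≤ n := by
    intro i x y n hi hx hy hxy hw
    have := hG.outside D hΓ (hGrD i x hi hx) (hGrD i y hi hy) hxy (Or.inr hi)
      ((hGr i x).mp hx).2 ((hGr i y).mp hy).2 (Wk.nil _) hw
    omega
  have farU : ∀ i j x y n, G.Adj u i → G.Adj u j → x ∈ Gr i → y ∈ Gr j → x ≠ y → Wk Γ n x y →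
      2 * r + 1 ≤ n := by
    intro i j x y n hi hj hx hy hxy hw
    have := hG.outside D hΓ (hGrD i x hi hx) (hGrD j y hj hy) hxy (Or.inr hi)
      ((hGr i x).mp hx).2 ((hGr j y).mp hy).2
      (Wk.cons (G := res G D) (b := u) ⟨hj.symm, Or.inr hj, Or.inl rfl⟩
        (Wk.single ⟨hi, Or.inl rfl, Or.inr hi⟩)) hw
    omega
  let a : V → ℕ := fun s => (C.filter fun w => G.Adj s w).card
  have hak : ∀ s, a s ≤ k := fun s => by
    rw [← hreg s]; exact card_le_card (filter_subset_filter _ (subset_univ _))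
  let N : V → Finset V := fun t => I.filter fun i => ∃ x ∈ Gr i, ∃ m ≤ r + 1, Wk Γ m x t
  let Cl := S.filter fun t => ∃ i, G.Adj u i ∧ ∃ x ∈ Gr i, ∃ m ≤ r, Wk Γ m x t
  have hzex : ∀ t, ∃ i, t ∈ Cl → G.Adj u i ∧ ∃ x ∈ Gr i, ∃ m ≤ r, Wk Γ m x t := by
    intro t
    by_cases h : t ∈ Cl
    · obtain ⟨i, hi⟩ := (mem_filter.mp h).2
      exact ⟨i, fun _ => hi⟩
    · exact ⟨t, fun h' => (h h').elim⟩
  choose z hz using hzex
  have hzu : ∀ t ∈ S, ∀ i x m, G.Adj u i → x ∈ Gr i → m ≤ r → Wk Γ m x t → t ∈ Cl ∧ z t = i := by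
    intro t ht i x m hi hx hm hw
    have htC : t ∈ Cl := mem_filter.mpr ⟨ht, i, hi, x, hx, m, hm, hw⟩
    obtain ⟨h1, x', hx', m', hm', hw'⟩ := hz t htC
    refine ⟨htC, ?_⟩
    by_cases hxx : x' = x
    · exact hpar _ _ x h1 hi (hxx ▸ hx') hx
    · have := farU _ _ _ _ _ h1 hi hx' hx hxx (hw'.append hw.symm)
      omega
  have hyex : ∀ i t, ∃ y, i ∈ N t → y ∈ Gr i ∧ ∃ m ≤ r + 1, Wk Γ m y t := by
    intro i t
    by_cases h : i ∈ N t
    · obtain ⟨y, hy⟩ := (mem_filter.mp h).2
      exact ⟨y, fun _ => hy⟩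
    · exact ⟨t, fun h' => (h h').elim⟩
  choose y hy using hyex
  have hyu : ∀ t i x m, G.Adj u i → x ∈ Gr i → m ≤ r + 1 → Wk Γ m x t → i ∈ N t ∧ y i t = x := by
    intro t i x m hi hx hm hw
    have hN : i ∈ N t := mem_filter.mpr ⟨(hI i).mpr hi, x, hx, m, hm, hw⟩
    obtain ⟨h1, m', hm', hw'⟩ := hy i t hN
    refine ⟨hN, ?_⟩
    by_contra hne
    have := farS _ _ _ _ hi h1 hx hne (hw'.append hw.symm)
    omega
  have step : ∀ j t m, G.Adj u j → t ∈ S → m ≤ r + 2 → Wk H m j t →
      ∃ x ∈ Gr j, ∃ m', m = m' + 1 ∧ Wk Γ m' x t := by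
    intro j t m hj ht hm hw
    have h1 := hD j (Or.inr hj) t ht m hw
    obtain ⟨m', rfl⟩ : ∃ m', m = m' + 1 := ⟨m - 1, by omega⟩
    obtain ⟨x, hjx, hw'⟩ := hw.succ_elim
    have hx : x ∈ Gr j := (hGr j x).mpr ⟨by
      rintro rfl
      have := hud t ht m' hw'
      omega, hjx.1⟩
    exact ⟨x, hx, m', rfl, avoid D hD hw' ht (hGrD j x hj hx) (by omega)⟩
  obtain ⟨σ, B, hσI, hσi, hB, hconf, hforce⟩ := assign S Cl I N z a (by
      simp only [I]; rw [hreg, hSc]; omega) (filter_subset _ _) (fun t _ => filter_subset _ _)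
    (fun t ht => by
      obtain ⟨h1, x, hx, m, hm, hw⟩ := hz t ht
      exact (hyu t _ x m h1 hx (by omega) hw).1)
    (fun j hj hfree => by
      have hj' := (hI j).mp hj
      have hjd : Deep H S (r + 2) j := by
        intro t ht m hw
        by_contra hlt
        obtain ⟨x, hx, m', rfl, hw'⟩ := step j t m hj' ht (by omega) hw
        obtain ⟨h1, h2⟩ := hzu t ht j x m' hj' hx (by omega) hw'
        exact hfree t h1 h2
      have a1 := hmin j (mem_filter.mpr ⟨hDC j (Or.inr hj'), hjd⟩)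
      have a2 : Cl.card ≤ c u := card_le_card fun t ht => by
        obtain ⟨h1, x, hx, m, hm, hw⟩ := hz t ht
        refine mem_filter.mpr ⟨(mem_filter.mp ht).1, m + 1 + 1, by omega, ?_⟩
        exact Wk.cons (b := z t) ⟨h1, Or.inl huC⟩ (Wk.cons (b := x)
          ⟨((hGr _ x).mp hx).2, Or.inl (hDC _ (Or.inr h1))⟩ (hΓH hw))
      have a3 : c j ≤ (S.filter fun t => j ∈ N t).card := card_le_card fun t ht => by
        obtain ⟨htS, m, hm, hw⟩ := mem_filter.mp ht
        obtain ⟨x, hx, m', rfl, hw'⟩ := step j t m hj' htS hm hw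
        exact mem_filter.mpr ⟨htS, (hyu t j x m' hj' hx (by omega) hw').1⟩
      omega) ha
    (fun t ht => by
      have hwex : ∀ i, ∃ w, i ∈ N t → (w ∈ C ∧ G.Adj t w) ∧ ∃ x ∈ Gr i, ∃ m ≤ r, Wk Γ m x w := by
        intro i
        by_cases h : i ∈ N t
        · obtain ⟨hi, x, hx, m, hm, hw⟩ := mem_filter.mp h
          have h1 := hGrdeep i x ((hI i).mp hi) hx t ht m (hΓH hw)
          obtain ⟨m', rfl⟩ : ∃ m', m = m' + 1 := ⟨m - 1, by omega⟩
          obtain ⟨w, hw', hwt⟩ := hw.succ_elim'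
          exact ⟨w, fun _ => ⟨⟨hwt.1.2.resolve_right fun h => hs.disj t h ht, hwt.1.1.symm⟩,
            x, hx, m', by omega, hw'⟩⟩
        · exact ⟨t, fun h' => (h h').elim⟩
      choose w hw using hwex
      refine card_le_card_of_injOn w (fun i hi => mem_coe.mpr (mem_filter.mpr (hw i hi).1))
        (fun i hi j hj hij => ?_)
      obtain ⟨_, x, hx, m, hm, hw1⟩ := hw i hi
      obtain ⟨_, x', hx', m', hm', hw2⟩ := hw j hj
      have hi' := (hI i).mp (mem_filter.mp hi).1
      have hj' := (hI j).mp (mem_filter.mp hj).1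
      by_cases hxx : x = x'
      · exact hpar _ _ x hi' hj' hx (hxx ▸ hx')
      · rw [← hij] at hw2
        have := farU _ _ _ _ _ hi' hj' hx hx' hxx (hw1.append hw2.symm)
        omega)
  have hσ : ∀ s ∈ S, G.Adj u (σ s) := fun s hs => (hI _).mp (hσI s hs)
  have hAex : ∀ b s, ∃ A : Finset V, s ∈ S → A ⊆ Gr (σ s) ∧ a s + A.card = k ∧
      ∀ t ∈ B b s, y (σ s) t ∉ A := by
    intro b s
    by_cases h : s ∈ S
    · obtain ⟨A, hA⟩ := exists_drop (Gr (σ s)) (B b s) (y (σ s)) (hGrc _ (hσ s h)) (hB b s h)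
        (hak s)
      exact ⟨A, fun _ => hA⟩
    · exact ⟨∅, fun h' => (h h').elim⟩
  choose A hA using hAex
  let W := (C ∪ S).filter fun x => ¬ D x
  let U := I.biUnion Gr
  have hU : ∀ x, x ∈ U ↔ ∃ i, G.Adj u i ∧ x ∈ Gr i := fun x => by
    simp only [U, mem_biUnion, hI]
  have hSD : ∀ s ∈ S, ¬ D s := fun s hsS h => hs.disj s (hDC s h) hsS
  have hSS : ∀ s ∈ S, ∀ t ∈ S, s ≠ t → ∀ m, Wk Γ m s t → 2 ≤ m := fun s hsS t htS hne m hw =>
    hw.two_le_of_ne hne fun h => h.1.2.elim (fun h => hs.disj s h hsS) (fun h => hs.disj t h htS)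
  have hcardG : ∀ v, (G.neighborSet v).ncard = k := fun v => by rw [card_nbr, hreg]
  obtain ⟨H', h1, h2⟩ := glue2 (Γ := Γ) (W := W) (S := S) (U := U) (k := k)
    (g := 2 * (r + 2) + 1) (β := 2 * r + 1) (η := r) A
    (fun a b h => mem_filter.mpr ⟨by
      rcases h.1.2 with h' | h'
      · exact mem_union_left _ h'
      · exact mem_union.mpr (hs.closed b h' a h.1.1.symm), h.2.1⟩)
    (fun s hsS => mem_filter.mpr ⟨mem_union_right _ hsS, hSD s hsS⟩)
    (fun x hx => by
      obtain ⟨i, hi, hx⟩ := (hU x).mp hx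
      exact mem_filter.mpr ⟨mem_union_left _ (hGrC i x hi hx), hGrD i x hi hx⟩)
    (disjoint_left.mpr fun x hxS hx => by
      obtain ⟨i, hi, hx⟩ := (hU x).mp hx
      exact hs.disj x (hGrC i x hi hx) hxS)
    (fun b s hsS => by
      rw [← (hA b s hsS).2.1]
      congr 1
      simp only [a]
      rw [← Set.ncard_coe_finset]
      congr 1
      ext w
      simp only [mem_neighborSet, coe_filter, Set.mem_ofPred_eq]
      refine ⟨fun h => ⟨h.1.2.resolve_left fun h' => hs.disj s h' hsS, h.1.1⟩, fun h => ?_⟩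
      refine ⟨⟨h.2, Or.inr h.1⟩, hSD s hsS, fun hw => ?_⟩
      have := hD w hw s hsS 1 (Wk.single ⟨h.2.symm, Or.inl h.1⟩)
      omega)
    (fun x hx => by
      obtain ⟨i, hi, hx⟩ := (hU x).mp hx
      rw [← hcardG x]
      refine ncard_insert_nbr ((hGr i x).mp hx).2.symm (fun h => h.2.2 (Or.inr hi))
        (fun y h => h.1.1) (fun y h => ?_)
      by_cases hy : D y
      · left
        rcases hy with rfl | hy
        · exact (hGrD i x hi hx (Or.inr h.symm)).elim
        · exact hpar _ _ x hy hi ((hGr y x).mpr ⟨((hGr i x).mp hx).1, h.symm⟩) hx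
      · exact Or.inr ⟨⟨h, Or.inl (hGrC i x hi hx)⟩, hGrD i x hi hx, hy⟩)
    (fun x hx hxS hxU => by
      obtain ⟨h1, h2⟩ := mem_filter.mp hx
      have hxC : x ∈ C := (mem_union.mp h1).resolve_right hxS
      rw [← hcardG x]
      congr 1
      ext y
      simp only [mem_neighborSet]
      refine ⟨fun h => h.1.1, fun h => ⟨⟨h, Or.inl hxC⟩, h2, ?_⟩⟩
      rintro (rfl | hy)
      · exact h2 (Or.inr h.symm)
      · exact hxU ((hU x).mpr ⟨y, hy, (hGr y x).mpr ⟨fun h => h2 (Or.inl h), h.symm⟩⟩))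
    (fun b s hsS x hx => (hU x).mpr ⟨σ s, hσ s hsS, (hA b s hsS).1 hx⟩)
    (fun b s hsS t htS x h1 h2 => hσi s hsS t htS
      (hpar _ _ x (hσ s hsS) (hσ t htS) ((hA b s hsS).1 h1) ((hA b t htS).1 h2)))
    (hG.anti fun a b h => h.1.1)
    (fun x hx y hy hxy n hw => by
      obtain ⟨i, hi, hx⟩ := (hU x).mp hx
      obtain ⟨j, hj, hy⟩ := (hU y).mp hy
      exact farU i j x y n hi hj hx hy hxy hw)
    (fun x hx s hsS n hw => by
      obtain ⟨i, hi, hx⟩ := (hU x).mp hx
      exact hGrdeep i x hi hx s hsS n (hΓH hw))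
    (fun b s hsS x hx y hy hxy n hw => by
      have := farS _ x y n (hσ s hsS) ((hA b s hsS).1 hx) ((hA b s hsS).1 hy) hxy hw
      omega)
    (fun b s hsS t htS hst x hx y hy n m hw hw' => by
      have a1 := farU _ _ x y n (hσ s hsS) (hσ t htS) ((hA b s hsS).1 hx) ((hA b t htS).1 hy)
        (by
          rintro rfl
          exact hst (hσi s hsS t htS (hpar _ _ x (hσ s hsS) (hσ t htS) ((hA b s hsS).1 hx)
            ((hA b t htS).1 hy)))) hw
      have a2 := hSS s hsS t htS hst m hw'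
      omega)
    (fun s hsS t htS x hx x' hx' n m hw hw' => by
      by_contra hlt
      have gx := (hA _ s hsS).1 hx
      have gx' := (hA _ t htS).1 hx'
      have a1 := hGrdeep _ x (hσ s hsS) gx t htS n (hΓH hw)
      have a2 := hGrdeep _ x' (hσ t htS) gx' s hsS m (hΓH hw')
      have fin : n ≤ r + 1 → m ≤ r + 1 → False := by
        intro hn hm
        obtain ⟨b1, b2⟩ := hyu t _ x n (hσ s hsS) gx hn hw
        obtain ⟨b3, b4⟩ := hyu s _ x' m (hσ t htS) gx' hm hw'
        rcases hconf s hsS t htS b1 b3 with h | h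
        · exact (hA _ s hsS).2.2 t h (b2 ▸ hx)
        · exact (hA _ t htS).2.2 s h (b4 ▸ hx')
      by_cases hn : n ≤ r
      · obtain ⟨b1, b2⟩ := hzu t htS _ x n (hσ s hsS) gx hn hw
        by_cases hst : s = t
        · subst hst
          by_cases hxx : x = x'
          · subst hxx
            obtain ⟨b3, b4⟩ := hyu s _ x n (hσ s hsS) gx (by omega) hw
            rcases hconf s hsS s hsS b3 b3 with h | h
            · exact (hA _ s hsS).2.2 s h (b4 ▸ hx)
            · exact (hA _ s hsS).2.2 s h (b4 ▸ hx')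
          · have := farS _ x x' _ (hσ s hsS) gx gx' hxx (hw.append hw'.symm)
            omega
        · exact (hA _ s hsS).2.2 t (hforce s hsS t b1 b2 hst false)
            ((hyu t _ x n (hσ s hsS) gx (by omega) hw).2 ▸ hx)
      by_cases hm : m ≤ r
      · obtain ⟨b1, b2⟩ := hzu s hsS _ x' m (hσ t htS) gx' hm hw'
        by_cases hst : t = s
        · subst hst
          by_cases hxx : x = x'
          · subst hxx
            obtain ⟨b3, b4⟩ := hyu t _ x m (hσ t hsS) gx (by omega) hw'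
            rcases hconf t hsS t hsS b3 b3 with h | h
            · exact (hA _ t hsS).2.2 t h (b4 ▸ hx)
            · exact (hA _ t hsS).2.2 t h (b4 ▸ hx')
          · have := farS _ x x' _ (hσ t hsS) gx gx' hxx (hw.append hw'.symm)
            omega
        · exact (hA _ t htS).2.2 s (hforce t htS s b1 b2 hst true)
            ((hyu s _ x' m (hσ t htS) gx' (by omega) hw').2 ▸ hx')
      exact fin (by omega) (by omega))
    (by omega) (by omega) (by omega)
  refine ⟨H', _, h1, h2, ?_, ?_⟩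
  · obtain ⟨s, hsS⟩ := card_pos.mp (show 0 < S.card by omega)
    exact ⟨(s, false), mem_product.mpr ⟨mem_filter.mpr ⟨mem_union_right _ hsS, hSD s hsS⟩,
      mem_univ _⟩⟩
  · rw [card_product, card_univ, Fintype.card_bool]
    have a1 : W ⊆ (C ∪ S) \ insert u I := fun x hx => by
      obtain ⟨h1, h2⟩ := mem_filter.mp hx
      refine mem_sdiff.mpr ⟨h1, fun h => h2 ?_⟩
      rcases mem_insert.mp h with h | h
      · exact Or.inl h
      · exact Or.inr ((hI x).mp h)
    have a2 : insert u I ⊆ C ∪ S := fun x h => mem_union_left _ (hDC x (by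
      rcases mem_insert.mp h with h | h
      · exact Or.inl h
      · exact Or.inr ((hI x).mp h)))
    have a3 := card_sdiff_add_card_eq_card a2
    have a4 := card_le_card a1
    have a5 := card_union_le C S
    rw [card_insert_of_notMem (by simp [I])] at a3
    have a6 : I.card = k := hreg u
    omega

end Pool.Agent.MP_0be28d_co

end
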