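import Pool.Agent.MP_0be28d_co.Mg.Odd

-- part MP_0be28d_co.Light
section

/-!
Girth seven: a vertex of the fragment with small weight, and finite assignment lemmas.
-/

set_option autoImplicit false

namespace Pool.Agent.MP_0be28d_co

open SimpleGraph Finset

variable {V : Type*}

/-- the neighbours of `i` other than `u` -/
def kids [Fintype V] [DecidableEq V] (G : SimpleGraph V) [DecidableRel G.Adj] (u i : V) :
    Finset V := (univ.filter fun w => G.Adj i w).erase u

theorem mem_kids [Fintype V] [DecidableEq V] {G : SimpleGraph V} [DecidableRel G.Adj]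
    {u i x : V} : x ∈ kids G u i ↔ x ≠ u ∧ G.Adj i x := by simp [kids]

theorem card_kids [Fintype V] [DecidableEq V] {G : SimpleGraph V} [DecidableRel G.Adj] {k : ℕ}
    (hreg : ∀ v, (univ.filter fun w => G.Adj v w).card = k) {u i : V} (hi : G.Adj u i) :
    (kids G u i).card = k - 1 := by
  have : (kids G u i).card + 1 = k := by
    simp only [kids]
    rw [card_erase_add_one (by simpa using hi.symm), hreg]
  omega

/-- two grandchildren of `u` joined by a short walk avoiding the closed neighbourhood of `u`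
coincide -/
theorem grand_eq {G : SimpleGraph V} (hG : GirthGe G 7) {u i j x y : V} (hi : G.Adj u i)
    (hj : G.Adj u j) (hix : G.Adj i x) (hx : x ≠ u) (hjy : G.Adj j y) (hy : y ≠ u) {n : ℕ}
    (hw : Wk (res G fun z => ¬ (z = u ∨ G.Adj u z)) n x y) (hn : n ≤ 2) : x = y := by
  by_contra hne
  have nx : ¬ (x = u ∨ G.Adj u x) := by
    rintro (h | h)
    · exact hx h
    · exact no_triangle hG (by omega) hi hix h.symm
  have ny : ¬ (y = u ∨ G.Adj u y) := by
    rintro (h | h)
    · exact hy h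
    · exact no_triangle hG (by omega) hj hjy h.symm
  have := hG.outside (Γ := res G fun z => ¬ (z = u ∨ G.Adj u z)) (fun z => z = u ∨ G.Adj u z)
    (fun a b h => h) nx ny hne (Or.inr hi) hix hjy
    (Wk.cons (G := res G fun z => z = u ∨ G.Adj u z) (b := u) ⟨hj.symm, Or.inr hj, Or.inl rfl⟩
      (Wk.single ⟨hi, Or.inl rfl, Or.inr hi⟩)) hw
  omega

theorem grand_notD {G : SimpleGraph V} (hG : GirthGe G 7) {u i x : V} (hi : G.Adj u i)
    (hix : G.Adj i x) (hx : x ≠ u) : ¬ (x = u ∨ G.Adj u x) := by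
  rintro (h | h)
  · exact hx h
  · exact no_triangle hG (by omega) hi hix h.symm

theorem moore7 [Fintype V] [DecidableEq V] {G : SimpleGraph V} [DecidableRel G.Adj] {k : ℕ}
    (hreg : ∀ v, (univ.filter fun w => G.Adj v w).card = k) (hG : GirthGe G 7) (u : V)
    (T : Finset V) (h0 : u ∈ T) (h1 : ∀ i, G.Adj u i → i ∈ T)
    (h2 : ∀ i x, G.Adj u i → G.Adj i x → x ∈ T)
    (h3 : ∀ i x y, G.Adj u i → G.Adj i x → G.Adj x y → y ∈ T) :
    1 + k + k * (k - 1) + k * ((k - 1) * (k - 1)) ≤ T.card := by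
  classical
  let I := univ.filter fun w => G.Adj u w
  have hI : ∀ i, i ∈ I ↔ G.Adj u i := fun i => by simp [I]
  let T2 := I.biUnion (kids G u)
  let R : V → Finset V := fun i => (kids G u i).biUnion (kids G i)
  let T3 := I.biUnion R
  have nD : ∀ i x y, G.Adj u i → x ∈ kids G u i → y ∈ kids G i x → ¬ (y = u ∨ G.Adj u y) := by
    intro i x y hi hx hy
    rw [mem_kids] at hx hy
    rintro (h | h)
    · exact grand_notD hG hi hx.2 hx.1 (Or.inr (h ▸ hy.2).symm)
    · exact hy.1 (no_square hG (by omega) h hi hy.2.symm hx.2 hx.1)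
  have key : ∀ i j x x' y, G.Adj u i → G.Adj u j → x ∈ kids G u i → x' ∈ kids G u j →
      y ∈ kids G i x → y ∈ kids G j x' → x = x' := by
    intro i j x x' y hi hj hx hx' hy hy'
    have a1 := nD i x y hi hx hy
    rw [mem_kids] at hx hx' hy hy'
    exact grand_eq hG hi hj hx.2 hx.1 hx'.2 hx'.1
      (Wk.cons (b := y) ⟨hy.2, grand_notD hG hi hx.2 hx.1, a1⟩
        (Wk.single ⟨hy'.2.symm, a1, grand_notD hG hj hx'.2 hx'.1⟩)) le_rfl
  have c1 : I.card = k := hreg u
  have c2 : T2.card = k * (k - 1) := by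
    rw [card_biUnion]
    · rw [sum_congr rfl fun i hi => card_kids hreg ((hI i).mp hi), sum_const, c1, smul_eq_mul]
    · intro i hi j hj hij
      refine disjoint_left.mpr fun x hx hx' => hij ?_
      rw [mem_kids] at hx hx'
      exact no_square hG (by omega) ((hI i).mp hi) ((hI j).mp hj) hx.2 hx'.2 hx.1
  have cR : ∀ i ∈ I, (R i).card = (k - 1) * (k - 1) := by
    intro i hi
    have hi' := (hI i).mp hi
    rw [card_biUnion]
    · rw [sum_congr rfl fun x hx => card_kids hreg (mem_kids.mp hx).2, sum_const,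
        card_kids hreg hi', smul_eq_mul]
    · intro x hx x' hx' hxx
      exact disjoint_left.mpr fun y hy hy' => hxx (key i i x x' y hi' hi' hx hx' hy hy')
  have c3 : T3.card = k * ((k - 1) * (k - 1)) := by
    rw [card_biUnion]
    · rw [sum_congr rfl cR, sum_const, c1, smul_eq_mul]
    · intro i hi j hj hij
      refine disjoint_left.mpr fun y hy hy' => hij ?_
      obtain ⟨x, hx, hy⟩ := mem_biUnion.mp hy
      obtain ⟨x', hx', hy'⟩ := mem_biUnion.mp hy'
      have e := key i j x x' y ((hI i).mp hi) ((hI j).mp hj) hx hx' hy hy'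
      subst e
      rw [mem_kids] at hx hx'
      exact no_square hG (by omega) ((hI i).mp hi) ((hI j).mp hj) hx.2 hx'.2 hx.1
  have d1 : Disjoint (insert u I) (T2 ∪ T3) := by
    refine disjoint_left.mpr fun z hz hz' => ?_
    have hz2 : z = u ∨ G.Adj u z := by
      rcases mem_insert.mp hz with h | h
      · exact Or.inl h
      · exact Or.inr ((hI z).mp h)
    rcases mem_union.mp hz' with h | h
    · obtain ⟨i, hi, h⟩ := mem_biUnion.mp h
      exact grand_notD hG ((hI i).mp hi) (mem_kids.mp h).2 (mem_kids.mp h).1 hz2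
    · obtain ⟨i, hi, h⟩ := mem_biUnion.mp h
      obtain ⟨x, hx, h⟩ := mem_biUnion.mp h
      exact nD i x z ((hI i).mp hi) hx h hz2
  have d2 : Disjoint T2 T3 := by
    refine disjoint_left.mpr fun z hz hz' => ?_
    obtain ⟨j, hj, hz⟩ := mem_biUnion.mp hz
    obtain ⟨i, hi, h⟩ := mem_biUnion.mp hz'
    obtain ⟨x, hx, h⟩ := mem_biUnion.mp h
    have a1 := nD i x z ((hI i).mp hi) hx h
    rw [mem_kids] at hx hz h
    have := grand_eq hG ((hI i).mp hi) ((hI j).mp hj) hx.2 hx.1 hz.2 hz.1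
      (Wk.single ⟨h.2, grand_notD hG ((hI i).mp hi) hx.2 hx.1, a1⟩) (by omega)
    exact h.2.ne this
  have sub : insert u I ∪ (T2 ∪ T3) ⊆ T := by
    intro z hz
    rcases mem_union.mp hz with h | h
    · rcases mem_insert.mp h with h | h
      · exact h ▸ h0
      · exact h1 z ((hI z).mp h)
    rcases mem_union.mp h with h | h
    · obtain ⟨i, hi, h⟩ := mem_biUnion.mp h
      exact h2 i z ((hI i).mp hi) (mem_kids.mp h).2
    · obtain ⟨i, hi, h⟩ := mem_biUnion.mp h
      obtain ⟨x, hx, h⟩ := mem_biUnion.mp h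
      exact h3 i x z ((hI i).mp hi) (mem_kids.mp hx).2 (mem_kids.mp h).2
  have := card_le_card sub
  rw [card_union_of_disjoint d1, card_union_of_disjoint d2,
    card_insert_of_notMem (by simp [I]), c1, c2, c3] at this
  omega

/-- `s` is a grandchild of `u` through `i`, or adjacent to a grandchild lying in `C` -/
def Near (G : SimpleGraph V) (C : Finset V) (u i s : V) : Prop :=
  G.Adj u i ∧ i ∈ C ∧ ((s ≠ u ∧ G.Adj i s) ∨ ∃ x ∈ C, x ≠ u ∧ G.Adj i x ∧ G.Adj x s)

open Classical in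
theorem exists_light [Fintype V] [DecidableEq V] {G : SimpleGraph V} [DecidableRel G.Adj]
    {k : ℕ} (hreg : ∀ v, (univ.filter fun w => G.Adj v w).card = k) (hk : 2 ≤ k)
    (hG : GirthGe G 7) {S C : Finset V} (hs : Sep G (k - 1) S C) :
    ∃ u ∈ C, (∀ s ∈ S, ¬ G.Adj u s) ∧
      ∑ s ∈ S.filter (fun s => ∃ i, Near G C u i s),
        (1 : ℚ) / ((C.filter fun w => G.Adj s w).card : ℚ) < 1 := by
  obtain ⟨K, rfl⟩ : ∃ K, k = K + 1 := ⟨k - 1, by omega⟩
  simp only [Nat.add_sub_cancel] at hs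
  let a : V → ℕ := fun s => (C.filter fun w => G.Adj s w).card
  obtain ⟨u0, hu0, hd⟩ := exists_deep hreg (show K < K + 1 by omega) hG hs 3 (by omega)
  have big : 1 + (K + 1) + (K + 1) * K + (K + 1) * (K * K) ≤ C.card + K := by
    have d1 : ∀ i, G.Adj u0 i → i ∈ C ∧ Deep (inner G C) S 2 i := fun i hi => by
      have := hd.adj (v := i) ⟨hi, Or.inl hu0⟩
      exact ⟨(hs.closed u0 hu0 i hi).resolve_right this.notMem, this⟩
    have d2 : ∀ i x, G.Adj u0 i → G.Adj i x → x ∈ C := fun i x hi hx => by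
      have := (d1 i hi).2.adj (v := x) ⟨hx, Or.inl (d1 i hi).1⟩
      exact (hs.closed i (d1 i hi).1 x hx).resolve_right this.notMem
    have := moore7 hreg hG u0 (C ∪ S) (mem_union_left _ hu0)
      (fun i hi => mem_union_left _ (d1 i hi).1) (fun i x hi hx => mem_union_left _ (d2 i x hi hx))
      (fun i x y hi hx hy => mem_union.mpr (hs.closed x (d2 i x hi hx) y hy))
    have h2 := card_union_le C S
    have h3 := hs.card
    simp only [Nat.add_sub_cancel] at this
    omega
  have cnt : ∀ s ∈ S, (C.filter fun u => ∃ i, Near G C u i s).card ≤ a s * (K + K * K) := by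
    intro s hsS
    have sub : (C.filter fun u => ∃ i, Near G C u i s) ⊆ (C.filter fun w => G.Adj s w).biUnion
        fun w => kids G s w ∪ (kids G s w).biUnion (kids G w) := by
      intro u hu
      obtain ⟨huC, i, hi, hiC, h | ⟨x, hxC, hx, hix, hxs⟩⟩ := mem_filter.mp hu
      · exact mem_biUnion.mpr ⟨i, mem_filter.mpr ⟨hiC, h.2.symm⟩,
          mem_union_left _ (mem_kids.mpr ⟨h.1.symm, hi.symm⟩)⟩
      · refine mem_biUnion.mpr ⟨x, mem_filter.mpr ⟨hxC, hxs.symm⟩, mem_union_right _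
          (mem_biUnion.mpr ⟨i, mem_kids.mpr ⟨fun h => hs.disj i hiC (h ▸ hsS), hix.symm⟩,
            mem_kids.mpr ⟨hx.symm, hi.symm⟩⟩)⟩
    refine (card_le_card sub).trans (card_biUnion_le.trans ?_)
    refine (sum_le_card_nsmul _ _ (K + K * K) fun w hw => ?_).trans (by simp [a])
    have hw' := (mem_filter.mp hw).2
    have e1 : (kids G s w).card = K := by simpa using card_kids hreg hw'
    refine (card_union_le _ _).trans ?_
    rw [e1]
    refine Nat.add_le_add_left (card_biUnion_le.trans ?_) _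
    refine (sum_le_card_nsmul _ _ K fun x hx => ?_).trans (by simp [e1])
    simpa using (card_kids hreg (mem_kids.mp hx).2).le
  let φ : V → V → ℚ := fun u s => (if G.Adj s u then 1 else 0) +
    (if ∃ i, Near G C u i s then 1 / (a s : ℚ) else 0)
  have tot : ∑ u ∈ C, ∑ s ∈ S, φ u s < ∑ _u ∈ C, (1 : ℚ) := by
    rw [sum_comm]
    have b1 : ∀ s ∈ S, ∑ u ∈ C, φ u s ≤ ((K + 1) + (K + K * K) : ℕ) := by
      intro s hsS
      simp only [φ]
      rw [sum_add_distrib, ← sum_filter, ← sum_filter, sum_const, sum_const]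
      have a1 : a s ≤ K + 1 := by
        rw [← hreg s]; exact card_le_card (filter_subset_filter _ (subset_univ _))
      have a2 := cnt s hsS
      simp only [nsmul_eq_mul, mul_one]
      have a3 : ((C.filter fun u => ∃ i, Near G C u i s).card : ℚ) * (1 / (a s : ℚ)) ≤
          ((K + K * K : ℕ) : ℚ) := by
        rcases Nat.eq_zero_or_pos (a s) with h | h
        · rw [h]; simp; positivity
        · rw [mul_one_div, div_le_iff₀ (by exact_mod_cast h)]
          have : (C.filter fun u => ∃ i, Near G C u i s).card ≤ (K + K * K) * a s := by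
            rw [mul_comm]; exact a2
          exact_mod_cast this
      have a4 : ((C.filter fun u => G.Adj s u).card : ℚ) ≤ ((K + 1 : ℕ) : ℚ) := by
        exact_mod_cast a1
      push_cast at a3 a4 ⊢
      linarith
    have b2 := sum_le_card_nsmul S _ _ b1
    refine lt_of_le_of_lt b2 ?_
    simp only [sum_const, nsmul_eq_mul, mul_one]
    have : S.card * ((K + 1) + (K + K * K)) < C.card := by
      have := Nat.mul_le_mul_right ((K + 1) + (K + K * K)) hs.card
      nlinarith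
    exact_mod_cast this
  obtain ⟨u, hu, hlt⟩ := exists_lt_of_sum_lt tot
  have nn : ∀ s ∈ S, 0 ≤ (if ∃ i, Near G C u i s then 1 / (a s : ℚ) else 0) := fun s _ => by
    split_ifs <;> positivity
  refine ⟨u, hu, fun s hsS h => ?_, ?_⟩
  · have := single_le_sum (f := φ u) (fun t ht => by
      have := nn t ht
      simp only [φ]; split_ifs <;> positivity) hsS
    have h2 := nn s hsS
    simp only [φ, h.symm, if_true] at this
    simp only [φ] at hlt
    linarith
  · rw [sum_filter]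
    refine lt_of_le_of_lt (sum_le_sum fun s _ => ?_) hlt
    simp only [φ, a]
    split_ifs <;> simp

theorem chain_match {α β : Type*} [DecidableEq α] [DecidableEq β] [Nonempty β] (S : Finset α)
    (O : Finset β) (v : β → ℕ) (τ : α → ℕ) (hc : O.card = S.card)
    (h : ∀ m, 1 ≤ m → (O.filter fun i => m ≤ v i).card ≤ (S.filter fun t => m ≤ τ t).card) :
    ∃ σ : α → β, (∀ t ∈ S, σ t ∈ O ∧ v (σ t) ≤ τ t) ∧ ∀ s ∈ S, ∀ t ∈ S, σ s = σ t → s = t := by
  classical
  let N : S → Finset β := fun t => O.filter fun i => v i ≤ τ t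
  have hall : ∀ X : Finset S, X.card ≤ (X.biUnion N).card := by
    intro X
    rcases X.eq_empty_or_nonempty with rfl | hX
    · simp
    obtain ⟨t0, ht0, hmax⟩ := exists_max_image X (fun t => τ t) hX
    have a1 : (O.filter fun i => v i ≤ τ t0).card ≤ (X.biUnion N).card :=
      card_le_card (subset_biUnion_of_mem N ht0)
    have a2 := card_filter_add_card_filter_not (s := O) (fun i => v i ≤ τ t0)
    have a3 := card_filter_add_card_filter_not (s := S) (fun t => τ t ≤ τ t0)
    have a4 := h (τ t0 + 1) (by omega)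
    have a5 : X.card ≤ (S.filter fun t => τ t ≤ τ t0).card :=
      card_le_card_of_injOn Subtype.val (fun t ht => by
        simp only [coe_filter, Set.mem_ofPred_eq]
        exact ⟨t.2, hmax t ht⟩) (fun _ _ _ _ h => Subtype.ext h)
    have e1 : (O.filter fun i => ¬ v i ≤ τ t0) = O.filter fun i => τ t0 + 1 ≤ v i :=
      filter_congr fun _ _ => by omega
    have e2 : (S.filter fun t => ¬ τ t ≤ τ t0) = S.filter fun t => τ t0 + 1 ≤ τ t :=
      filter_congr fun _ _ => by omega
    rw [e1] at a2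
    rw [e2] at a3
    omega
  obtain ⟨f, hf, hft⟩ := (all_card_le_biUnion_card_iff_exists_injective N).mp hall
  refine ⟨fun t => if h : t ∈ S then f ⟨t, h⟩ else Classical.arbitrary β, fun t ht => ?_,
    fun s hs t ht hst => ?_⟩
  · simp only [ht, dif_pos]
    exact mem_filter.mp (hft ⟨t, ht⟩)
  · simp only [hs, ht, dif_pos] at hst
    exact congrArg Subtype.val (hf hst)

/-- counting good items: each bad item carries weight at least `1 / (2 m)` -/
theorem count_good {α : Type*} [DecidableEq α] (S Cl F : Finset α) (grp : α → Finset α)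
    (ld : α → α) (w : α → ℚ) (τ : α → ℕ) (m b : ℕ) (hm : 1 ≤ m) (hw : ∀ s, 0 ≤ w s)
    (hS : Cl ⊆ S) (hg : ∀ f ∈ F, grp f ⊆ Cl) (hld : ∀ f ∈ F, ld f ∈ grp f)
    (hd : ∀ f ∈ F, ∀ f' ∈ F, ∀ s, s ∈ grp f → s ∈ grp f' → f = f')
    (hbad : ∀ f ∈ F, τ (ld f) < m → 1 ≤ 2 * m * ∑ s ∈ grp f, w s)
    (htot : 2 * m * ∑ s ∈ Cl, w s < b) :
    F.card + 1 ≤ (S.filter fun t => m ≤ τ t).card + b := by
  have a1 := card_filter_add_card_filter_not (s := F) (fun f => m ≤ τ (ld f))
  have a2 : (F.filter fun f => m ≤ τ (ld f)).card ≤ (S.filter fun t => m ≤ τ t).card :=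
    card_le_card_of_injOn ld (fun f hf => by
      simp only [coe_filter, Set.mem_ofPred_eq] at hf ⊢
      exact ⟨hS (hg f hf.1 (hld f hf.1)), hf.2⟩) (fun f hf f' hf' h => by
      simp only [coe_filter, Set.mem_ofPred_eq] at hf hf'
      exact hd f hf.1 f' hf'.1 _ (hld f hf.1) (h ▸ hld f' hf'.1))
  set B := F.filter fun f => ¬ m ≤ τ (ld f) with hB
  have a3 : (B.card : ℚ) ≤ 2 * m * ∑ s ∈ Cl, w s := by
    have b1 : ∑ f ∈ B, ∑ s ∈ grp f, w s ≤ ∑ s ∈ Cl, w s := by
      rw [← sum_biUnion (fun f hf f' hf' hne => disjoint_left.mpr fun s h1 h2 =>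
        hne (hd f (mem_filter.mp hf).1 f' (mem_filter.mp hf').1 s h1 h2))]
      exact sum_le_sum_of_subset_of_nonneg
        (biUnion_subset.mpr fun f hf => hg f (mem_filter.mp hf).1) fun s _ _ => hw s
    have b2 : ∑ _f ∈ B, (1 : ℚ) ≤ ∑ f ∈ B, 2 * m * ∑ s ∈ grp f, w s :=
      sum_le_sum fun f hf => hbad f (mem_filter.mp hf).1 (by have := (mem_filter.mp hf).2; omega)
    rw [← mul_sum] at b2
    simp only [sum_const, nsmul_eq_mul, mul_one] at b2
    have : (0 : ℚ) ≤ 2 * m := by positivity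
    exact b2.trans (mul_le_mul_of_nonneg_left b1 this)
  have a4 : B.card < b := by exact_mod_cast a3.trans_lt htot
  omega

end Pool.Agent.MP_0be28d_co

end

-- part MP_0be28d_co.Seven
section

/-!
Girth seven: the surgery.
-/

set_option autoImplicit false

namespace Pool.Agent.MP_0be28d_co

open SimpleGraph Finset

variable {V : Type*}

/-- `x` is a child or a grandchild of `u` -/
def Tw (G : SimpleGraph V) (u x : V) : Prop :=
  G.Adj u x ∨ ∃ i, G.Adj u i ∧ G.Adj i x ∧ x ≠ u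

theorem tw_uniq {G : SimpleGraph V} (hG : GirthGe G 7) {u t w w' : V} (h0 : t ≠ u)
    (h1 : ¬ G.Adj u t) (hw : Tw G u w) (hw' : Tw G u w') (a : G.Adj w t) (a' : G.Adj w' t) :
    w = w' := by
  have nt : ¬ (t = u ∨ G.Adj u t) := fun h => h.elim h0 h1
  have mix : ∀ w w', G.Adj u w → (∃ i, G.Adj u i ∧ G.Adj i w' ∧ w' ≠ u) → G.Adj w t →
      G.Adj w' t → False := by
    rintro w w' hw ⟨i, hi, hiw, hne⟩ a a'
    exact a'.ne (grand_eq hG hi hw hiw hne a h0
      (Wk.single ⟨a', grand_notD hG hi hiw hne, nt⟩) (by omega))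
  rcases hw with hw | hw <;> rcases hw' with hw' | hw'
  · exact no_square hG (by omega) hw hw' a a' h0
  · exact (mix _ _ hw hw' a a').elim
  · exact (mix _ _ hw' hw a' a).elim
  · obtain ⟨i, hi, hiw, hne⟩ := hw
    obtain ⟨j, hj, hjw, hne'⟩ := hw'
    exact grand_eq hG hi hj hiw hne hjw hne'
      (Wk.cons (b := t) ⟨a, grand_notD hG hi hiw hne, nt⟩
        (Wk.single ⟨a'.symm, nt, grand_notD hG hj hjw hne'⟩)) le_rfl

/-- `x` is outside the deleted set `insert u O` and adjacent to it -/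
def Xp (G : SimpleGraph V) (u : V) (O : Finset V) (x : V) : Prop :=
  ¬ (x = u ∨ x ∈ O) ∧ ∃ z, (z = u ∨ z ∈ O) ∧ G.Adj z x

theorem Xp.tw {G : SimpleGraph V} {u x : V} {O : Finset V} (hO : ∀ i ∈ O, G.Adj u i)
    (h : Xp G u O x) : Tw G u x := by
  obtain ⟨h1, z, rfl | hz, h2⟩ := h
  · exact Or.inl h2
  · exact Or.inr ⟨z, hO z hz, h2, fun h => h1 (Or.inl h)⟩

/-- the cut vertex `t` can be given a column with `v` unusable children -/
def Ok [DecidableEq V] (G : SimpleGraph V) [DecidableRel G.Adj] (S C : Finset V) (u : V)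
    (O : Finset V) (ld : V → V) (t : V) (v : ℕ) : Prop :=
  (∀ i, G.Adj u i → G.Adj i t → v + 2 ≤ (C.filter fun w => G.Adj t w).card) ∧
  (∀ y ∈ C, Xp G u O y → G.Adj y t → ld y = t →
    v + (S.filter fun s => G.Adj y s).card + 1 ≤ (C.filter fun w => G.Adj t w).card) ∧
  ((∀ i, G.Adj u i → ¬ G.Adj i t) → 2 * v + 1 ≤ (C.filter fun w => G.Adj t w).card ∧
    ((∀ y ∈ C, Xp G u O y → G.Adj y t → ld y ≠ t) →
      2 * v + 2 ≤ (C.filter fun w => G.Adj t w).card ∧
      ((∃ y ∈ C, Xp G u O y ∧ G.Adj y t) → 2 * v + 3 ≤ (C.filter fun w => G.Adj t w).card)))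

/-- the children of `i` in `C` without a neighbour in `S` -/
def plain [Fintype V] [DecidableEq V] (G : SimpleGraph V) [DecidableRel G.Adj] (S C : Finset V)
    (u i : V) : Finset V := (kids G u i).filter fun x => x ∈ C ∧ ∀ s ∈ S, ¬ G.Adj x s

theorem seven_core [Fintype V] [DecidableEq V] {G : SimpleGraph V} [DecidableRel G.Adj]
    {k : ℕ} (hreg : ∀ v, (univ.filter fun w => G.Adj v w).card = k) (hk : 2 ≤ k)
    (hG : GirthGe G 7) {S C : Finset V} (hs : Sep G (k - 1) S C) (hSc : S.card = k - 1)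
    {u : V} (huC : u ∈ C) (huS : ∀ s ∈ S, ¬ G.Adj u s) {O : Finset V} (hO : ∀ i ∈ O, G.Adj u i)
    {ld : V → V} (hld : ∀ y, ∀ s ∈ S, G.Adj y s → ld y ∈ S ∧ G.Adj y (ld y)) {σ : V → V}
    (hσO : ∀ t ∈ S, σ t ∈ O) (hσi : ∀ s ∈ S, ∀ t ∈ S, σ s = σ t → s = t)
    (hok : ∀ t ∈ S, Ok G S C u O ld t (k - 1 - (plain G S C u (σ t)).card)) :
    ∃ (H : SimpleGraph (V × Bool)) (W : Finset (V × Bool)), RegOn H W k ∧ GirthGe H 7 ∧
      W.Nonempty ∧ W.card < 2 * C.card := by
  classical
  let D : V → Prop := fun z => z = u ∨ z ∈ O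
  let Y := C.filter fun y => Xp G u O y ∧ ∃ s ∈ S, G.Adj y s
  let U := C.filter fun x => Xp G u O x ∧ ∀ s ∈ S, ¬ G.Adj x s
  let Γ : SimpleGraph V :=
    { Adj := fun a b => G.Adj a b ∧ (a ∈ C ∨ b ∈ C) ∧ ¬ D a ∧ ¬ D b ∧
        ¬ (a ∈ Y ∧ b ∈ S ∧ b ≠ ld a) ∧ ¬ (b ∈ Y ∧ a ∈ S ∧ a ≠ ld b)
      symm := ⟨fun _ _ h => ⟨h.1.symm, h.2.1.symm, h.2.2.2.1, h.2.2.1, h.2.2.2.2.2, h.2.2.2.2.1⟩⟩
      loopless := ⟨fun x h => G.loopless.1 x h.1⟩ }
  have hΓ : ∀ a b, Γ.Adj a b → G.Adj a b ∧ ¬ D a ∧ ¬ D b := fun a b h => ⟨h.1, h.2.2.1, h.2.2.2.1⟩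
  have hDC : ∀ z, D z → z ∈ C := by
    rintro z (rfl | h)
    · exact huC
    · exact (hs.closed u huC z (hO z h)).resolve_right fun h' => huS z h' (hO z h)
  have hSD : ∀ s ∈ S, ¬ D s := fun s hsS h => hs.disj s (hDC s h) hsS
  have hSu : ∀ s ∈ S, s ≠ u := fun s hsS h => hSD s hsS (Or.inl h)
  have hY : ∀ y, y ∈ Y ↔ y ∈ C ∧ Xp G u O y ∧ ∃ s ∈ S, G.Adj y s := fun y => mem_filter
  have hU : ∀ y, y ∈ U ↔ y ∈ C ∧ Xp G u O y ∧ ∀ s ∈ S, ¬ G.Adj y s := fun y => mem_filter
  have hldY : ∀ y ∈ Y, ld y ∈ S ∧ G.Adj y (ld y) := fun y hy => by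
    obtain ⟨s, h1, h2⟩ := ((hY y).mp hy).2.2
    exact hld y s h1 h2
  have uq : ∀ t ∈ S, ∀ w w', Tw G u w → Tw G u w' → G.Adj w t → G.Adj w' t → w = w' :=
    fun t ht w w' => tw_uniq hG (hSu t ht) (huS t ht)
  have wD : ∀ z z', D z → D z' → ∃ m ≤ 2, Wk (res G D) m z' z := by
    have a : ∀ z, D z → ∃ m ≤ 1, Wk (res G D) m u z := by
      rintro z (rfl | h)
      · exact ⟨0, by omega, Wk.nil _⟩
      · exact ⟨1, le_rfl, Wk.single ⟨hO z h, Or.inl rfl, Or.inr h⟩⟩
    intro z z' hz hz'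
    obtain ⟨m, hm, h⟩ := a z hz
    obtain ⟨m', hm', h'⟩ := a z' hz'
    exact ⟨m' + m, by omega, h'.symm.append h⟩
  have far : ∀ x y n, Xp G u O x → Xp G u O y → x ≠ y → Wk Γ n x y → 3 ≤ n := by
    rintro x y n ⟨hx, z, hz, hzx⟩ ⟨hy, z', hz', hzy⟩ hxy hw
    obtain ⟨m, hm, h⟩ := wD z z' hz hz'
    have := hG.outside D hΓ hx hy hxy hz hzx hzy h hw
    omega
  have parU : ∀ x z z', ¬ D x → D z → D z' → G.Adj z x → G.Adj z' x → z = z' := by
    rintro x z z' hx (rfl | hz) (rfl | hz') h h'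
    · rfl
    · exact (no_triangle hG (by omega) (hO _ hz') h' h.symm).elim
    · exact (no_triangle hG (by omega) (hO _ hz) h h'.symm).elim
    · exact no_square hG (by omega) (hO _ hz) (hO _ hz') h h' fun h => hx (Or.inl h)
  let P := plain G S C u
  have hP : ∀ i ∈ O, ∀ x ∈ P i, x ∈ U ∧ G.Adj i x := by
    intro i hi x hx
    obtain ⟨h1, h2, h3⟩ := mem_filter.mp hx
    rw [mem_kids] at h1
    refine ⟨(hU x).mpr ⟨h2, ⟨?_, i, Or.inr hi, h1.2⟩, h3⟩, h1.2⟩
    rintro (h | h)
    · exact h1.1 h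
    · exact no_triangle hG (by omega) (hO i hi) h1.2 (hO x h).symm
  have hPX : ∀ i ∈ O, ∀ x ∈ P i, Xp G u O x := fun i hi x hx => ((hU x).mp (hP i hi x hx).1).2.1
  have farS : ∀ i ∈ O, ∀ x ∈ P i, ∀ y ∈ P i, x ≠ y → ∀ n, Wk Γ n x y → 5 ≤ n := by
    intro i hi x hx y hy hxy n hw
    have := hG.outside D hΓ (hPX i hi x hx).1 (hPX i hi y hy).1 hxy (Or.inr hi) (hP i hi x hx).2
      (hP i hi y hy).2 (Wk.nil _) hw
    omega
  have hPc : ∀ i ∈ O, (P i).card ≤ k - 1 := fun i hi => by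
    rw [← card_kids hreg (hO i hi)]; exact card_filter_le _ _
  have hcardG : ∀ v, (G.neighborSet v).ncard = k := fun v => by rw [card_nbr, hreg]
  let nb : V → Finset V := fun t => univ.filter fun w => Γ.Adj t w
  have hnb : ∀ t w, w ∈ nb t ↔ Γ.Adj t w := fun t w => by simp [nb]
  have hdk : ∀ t, (nb t).card ≤ k := fun t => by
    rw [← hreg t]
    exact card_le_card fun w hw => mem_filter.mpr ⟨mem_univ _, ((hnb t w).mp hw).1⟩
  let a : V → ℕ := fun t => (C.filter fun w => G.Adj t w).card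
  -- the neighbours of a cut vertex that are lost
  have lost : ∀ t ∈ S, ∀ w ∈ C, G.Adj t w → Γ.Adj t w ∨ w ∈ O ∨ (w ∈ Y ∧ t ≠ ld w) := by
    intro t ht w hw h
    by_cases h1 : w ∈ O
    · exact Or.inr (Or.inl h1)
    by_cases h2 : w ∈ Y ∧ t ≠ ld w
    · exact Or.inr (Or.inr h2)
    refine Or.inl ⟨h, Or.inr hw, hSD t ht, ?_, fun h3 => hs.disj w hw h3.2.1,
      fun h3 => h2 ⟨h3.1, h3.2.2⟩⟩
    rintro (rfl | h3)
    · exact huS t ht h.symm
    · exact h1 h3
  have lostT : ∀ t w, (w ∈ O ∨ (w ∈ Y ∧ t ≠ ld w)) → Tw G u w := by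
    rintro t w (h | h)
    · exact Or.inl (hO w h)
    · exact ((hY w).mp h.1).2.1.tw hO
  have F1 : ∀ t ∈ S, a t ≤ (nb t).card + 1 := by
    intro t ht
    by_cases h : ∃ w, G.Adj t w ∧ Tw G u w
    · obtain ⟨w, h1, h2⟩ := h
      refine le_trans (card_le_card (t := insert w (nb t)) fun x hx => ?_) (card_insert_le _ _)
      obtain ⟨h3, h4⟩ := mem_filter.mp hx
      rcases lost t ht x h3 h4 with h5 | h5
      · exact mem_insert_of_mem ((hnb t x).mpr h5)
      · exact mem_insert.mpr (Or.inl (uq t ht x w (lostT t x h5) h2 h4.symm h1.symm))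
    · refine le_trans (card_le_card (t := nb t) fun x hx => ?_) (Nat.le_succ _)
      obtain ⟨h3, h4⟩ := mem_filter.mp hx
      exact (hnb t x).mpr ((lost t ht x h3 h4).resolve_right fun h5 => h ⟨x, h4, lostT t x h5⟩)
  have F2 : ∀ t ∈ S, (∀ w, G.Adj t w → ¬ (w ∈ O ∨ (w ∈ Y ∧ t ≠ ld w))) → a t ≤ (nb t).card := by
    intro t ht h
    refine card_le_card fun x hx => ?_
    obtain ⟨h3, h4⟩ := mem_filter.mp hx
    exact (hnb t x).mpr ((lost t ht x h3 h4).resolve_right (h x h4))
  have F3 : ∀ y ∈ Y, a (ld y) ≤ (nb (ld y)).card := by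
    intro y hy
    refine F2 _ (hldY y hy).1 fun w hw h => ?_
    have e := uq _ (hldY y hy).1 w y (lostT _ w h) (((hY y).mp hy).2.1.tw hO) hw.symm (hldY y hy).2
    subst e
    rcases h with h | h
    · exact ((hY w).mp hy).2.1.1 (Or.inr h)
    · exact h.2 rfl
  have hYld : ∀ y ∈ Y, Γ.Adj y (ld y) := fun y hy =>
    ⟨(hldY y hy).2, Or.inl ((hY y).mp hy).1, ((hY y).mp hy).2.1.1, hSD _ (hldY y hy).1,
      fun h => h.2.2 rfl, fun h => hs.disj y ((hY y).mp hy).1 h.2.1⟩
  have F5 : ∀ y ∈ Y, k ≤ (nb y).card + (S.filter fun s => G.Adj y s).card := by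
    intro y hy
    obtain ⟨hyC, ⟨h1, z, hz, hzy⟩, -⟩ := (hY y).mp hy
    have b1 : (univ.filter fun w => G.Adj y w) ⊆
        nb y ∪ insert z ((S.filter fun s => G.Adj y s).erase (ld y)) := by
      intro w hw
      have hw' := (mem_filter.mp hw).2
      by_cases h2 : D w
      · exact mem_union_right _ (mem_insert.mpr (Or.inl (parU y w z h1 h2 hz hw'.symm hzy)))
      by_cases h3 : w ∈ S ∧ w ≠ ld y
      · exact mem_union_right _ (mem_insert_of_mem (mem_erase.mpr ⟨h3.2, mem_filter.mpr ⟨h3.1, hw'⟩⟩))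
      · exact mem_union_left _ ((hnb y w).mpr ⟨hw', Or.inl hyC, h1, h2, fun h => h3 h.2,
          fun h => hs.disj y hyC h.2.1⟩)
    have b2 := (card_le_card b1).trans (card_union_le _ _)
    have b3 := card_insert_le z ((S.filter fun s => G.Adj y s).erase (ld y))
    have b4 := card_erase_add_one (mem_filter.mpr (hldY y hy) : ld y ∈ S.filter fun s => G.Adj y s)
    rw [hreg] at b2
    omega
  let N : V → Finset V := fun t => O.filter fun i => ∃ x ∈ P i, ∃ w, Γ.Adj x w ∧ Γ.Adj w t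
  have hyex : ∀ i t, ∃ p : V × V, i ∈ N t → p.1 ∈ P i ∧ Γ.Adj p.1 p.2 ∧ Γ.Adj p.2 t := by
    intro i t
    by_cases h : i ∈ N t
    · obtain ⟨x, hx, w, hw⟩ := (mem_filter.mp h).2
      exact ⟨(x, w), fun _ => ⟨hx, hw⟩⟩
    · exact ⟨(t, t), fun h' => (h h').elim⟩
  choose y hy using hyex
  have hyu : ∀ t, ∀ i ∈ O, ∀ x ∈ P i, Wk Γ 2 x t → i ∈ N t ∧ (y i t).1 = x := by
    intro t i hi x hx hw
    obtain ⟨w, h1, h2⟩ := hw.succ_elim
    have hN : i ∈ N t := mem_filter.mpr ⟨hi, x, hx, w, h1, h2.adj_of_one⟩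
    obtain ⟨b1, b2, b3⟩ := hy i t hN
    refine ⟨hN, ?_⟩
    by_contra hne
    have := farS i hi _ b1 x hx hne _ ((Wk.cons b2 (Wk.single b3)).append hw.symm)
    omega
  have F4 : ∀ t (T : Finset V), (∀ w, Γ.Adj w t → ¬ Xp G u O w → w ∈ T) → (N t).card ≤ T.card := by
    intro t T hT
    refine card_le_card_of_injOn (fun i => (y i t).2) (fun i hi => ?_) fun i hi j hj hij => ?_
    · obtain ⟨b1, b2, b3⟩ := hy i t hi
      refine hT _ b3 fun h => ?_
      have := far _ _ _ (hPX i (mem_filter.mp hi).1 _ b1) h b2.ne (Wk.single b2)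
      omega
    · obtain ⟨b1, b2, b3⟩ := hy i t hi
      obtain ⟨c1, c2, c3⟩ := hy j t hj
      have hi' := (mem_filter.mp hi).1
      have hj' := (mem_filter.mp hj).1
      simp only at hij
      by_cases e : (y i t).1 = (y j t).1
      · exact parU _ i j (hPX i hi' _ b1).1 (Or.inr hi') (Or.inr hj') (hP i hi' _ b1).2
          (e ▸ (hP j hj' _ c1).2)
      · have := far _ _ _ (hPX i hi' _ b1) (hPX j hj' _ c1) e
          (Wk.cons b2 (Wk.single (hij ▸ c2.symm)))
        omega
  have F6 : ∀ t ∈ S, ∀ i, G.Adj u i → G.Adj i t → (N t).card = 0 := by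
    intro t ht i hi hit
    rw [card_eq_zero, eq_empty_iff_forall_notMem]
    intro j hj
    obtain ⟨b1, b2, b3⟩ := hy j t hj
    have hj' := (mem_filter.mp hj).1
    have nx : (y j t).1 ≠ u := fun h => (hPX j hj' _ b1).1 (Or.inl h)
    have nw : ¬ ((y j t).2 = u ∨ G.Adj u (y j t).2) := by
      rintro (h | h)
      · exact b2.2.2.2.1 (Or.inl h)
      · have e := no_square hG (by omega) h (hO j hj') b2.1.symm (hP j hj' _ b1).2 nx
        exact b2.2.2.2.1 (Or.inr (by rw [e]; exact hj'))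
    have := grand_eq hG (hO j hj') hi (hP j hj' _ b1).2 nx hit (hSu t ht)
      (Wk.cons (b := (y j t).2) ⟨b2.1, grand_notD hG (hO j hj') (hP j hj' _ b1).2 nx, nw⟩
        (Wk.single ⟨b3.1, nw, grand_notD hG hi hit (hSu t ht)⟩)) le_rfl
    exact hs.disj _ ((hU _).mp (hP j hj' _ b1).1).1 (by rw [this]; exact ht)
  have G1 : ∀ t ∈ S, k + ((N t).card + 1) / 2 ≤ (P (σ t)).card + (nb t).card := by
    intro t ht
    obtain ⟨o1, o2, o3⟩ := hok t ht
    have c1 := hPc _ (hσO t ht)
    have c2 := F1 t ht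
    have c3 := F4 t (nb t) fun w hw _ => (hnb t w).mpr hw.symm
    by_cases h1 : ∃ i, G.Adj u i ∧ G.Adj i t
    · obtain ⟨i, hi, hit⟩ := h1
      have := o1 i hi hit
      have := F6 t ht i hi hit
      simp only [a, P] at *
      omega
    obtain ⟨o4, o5⟩ := o3 fun i hi hit => h1 ⟨i, hi, hit⟩
    by_cases h2 : ∃ y ∈ Y, ld y = t
    · obtain ⟨y', hy', rfl⟩ := h2
      have c4 := F3 y' hy'
      have c5 := F4 (ld y') ((nb (ld y')).erase y') fun w hw hx => mem_erase.mpr
        ⟨fun h => hx (h ▸ ((hY y').mp hy').2.1), (hnb _ w).mpr hw.symm⟩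
      have c6 := card_erase_add_one ((hnb _ _).mpr (hYld y' hy').symm)
      simp only [a, P] at *
      omega
    obtain ⟨o6, o7⟩ := o5 fun y' h3 h4 h5 h6 => h2 ⟨y', (hY y').mpr ⟨h3, h4, t, ht, h5⟩, h6⟩
    by_cases h3 : ∃ y ∈ C, Xp G u O y ∧ G.Adj y t
    · have := o7 h3
      simp only [a, P] at *
      omega
    · have := F2 t ht fun w hw h => h.elim (fun h => h1 ⟨w, hO w h, hw.symm⟩)
        fun h => h3 ⟨w, ((hY w).mp h.1).1, ((hY w).mp h.1).2.1, hw.symm⟩
      simp only [a, P] at *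
      omega
  have G2 : ∀ y ∈ Y, k + k ≤ (P (σ (ld y))).card + (nb (ld y)).card + (nb y).card := by
    intro y' hy'
    have c1 := (hok _ (hldY y' hy').1).2.1 y' ((hY y').mp hy').1 ((hY y').mp hy').2.1
      (hldY y' hy').2 rfl
    have c2 := hPc _ (hσO _ (hldY y' hy').1)
    have c3 := F3 y' hy'
    have c4 := F5 y' hy'
    simp only [a, P] at *
    omega
  obtain ⟨B, hB, hconf⟩ := split_rel S (fun s t => σ s ∈ N t ∧ σ t ∈ N s) (fun s t h => h.symm)
    (fun s => ((N s).card + 1) / 2) fun s _ => by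
      refine le_trans (card_le_card_of_injOn (t := N s) σ (fun t ht => (mem_filter.mp ht).2.2)
        fun t ht t' ht' h => hσi t (mem_filter.mp ht).1 t' (mem_filter.mp ht').1 h) (by omega)
  have hA1 : ∀ b t, ∃ A : Finset V, t ∈ S → A ⊆ P (σ t) ∧ (nb t).card + A.card = k ∧
      ∀ s ∈ B b t, (y (σ t) s).1 ∉ A := by
    intro b t
    by_cases ht : t ∈ S
    · have a1 := le_card_sdiff ((B b t).image fun s => (y (σ t) s).1) (P (σ t))
      have a2 : ((B b t).image fun s => (y (σ t) s).1).card ≤ (B b t).card := card_image_le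
      have a3 := hB b t
      have a4 := G1 t ht
      have a5 := hdk t
      obtain ⟨A, hA1, hA2⟩ := exists_subset_card_eq (show k - (nb t).card ≤
        (P (σ t) \ (B b t).image fun s => (y (σ t) s).1).card by omega)
      exact ⟨A, fun _ => ⟨hA1.trans sdiff_subset, by omega, fun s hs h =>
        (mem_sdiff.mp (hA1 h)).2 (mem_image_of_mem _ hs)⟩⟩
    · exact ⟨∅, fun h => (ht h).elim⟩
  choose A1 hA1 using hA1
  have hA2 : ∀ b c, ∃ A : Finset V, c ∈ Y → A ⊆ P (σ (ld c)) \ A1 b (ld c) ∧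
      (nb c).card + A.card = k := by
    intro b c
    by_cases hc : c ∈ Y
    · obtain ⟨a1, a2, -⟩ := hA1 b _ (hldY c hc).1
      have a3 := card_sdiff_add_card_eq_card a1
      have a4 := G2 c hc
      have a5 := hdk c
      obtain ⟨A, hA1, hA2⟩ := exists_subset_card_eq (show k - (nb c).card ≤
        (P (σ (ld c)) \ A1 b (ld c)).card by omega)
      exact ⟨A, fun _ => ⟨hA1, by omega⟩⟩
    · exact ⟨∅, fun h => (hc h).elim⟩
  choose A2 hA2 using hA2
  let A : Bool → V → Finset V := fun b c => if c ∈ S then A1 b c else A2 b c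
  let l : V → V := fun c => if c ∈ S then c else ld c
  have hYS : ∀ c ∈ Y, c ∉ S := fun c hc => hs.disj c ((hY c).mp hc).1
  have AS : ∀ b, ∀ c ∈ S, A b c = A1 b c ∧ l c = c := fun b c hc => by simp [A, l, hc]
  have AY : ∀ b, ∀ c ∈ Y, A b c = A2 b c ∧ l c = ld c := fun b c hc => by simp [A, l, hYS c hc]
  have hA : ∀ b, ∀ c ∈ S ∪ Y, l c ∈ S ∧ A b c ⊆ P (σ (l c)) ∧ (nb c).card + (A b c).card = k := by
    intro b c hc
    rcases mem_union.mp hc with h | h
    · rw [(AS b c h).1, (AS b c h).2]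
      exact ⟨h, (hA1 b c h).1, (hA1 b c h).2.1⟩
    · rw [(AY b c h).1, (AY b c h).2]
      exact ⟨(hldY c h).1, (hA2 b c h).1.trans sdiff_subset, (hA2 b c h).2⟩
  have hAP : ∀ b, ∀ c ∈ S ∪ Y, ∀ x ∈ A b c, σ (l c) ∈ O ∧ x ∈ P (σ (l c)) := fun b c hc x hx =>
    ⟨hσO _ (hA b c hc).1, (hA b c hc).2.1 hx⟩
  have hAd : ∀ b, ∀ s ∈ S ∪ Y, ∀ t ∈ S ∪ Y, ∀ x, x ∈ A b s → x ∈ A b t → s = t := by
    intro b s hsZ t htZ x h1 h2
    obtain ⟨a1, a2⟩ := hAP b s hsZ x h1
    obtain ⟨a3, a4⟩ := hAP b t htZ x h2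
    have e := hσi _ (hA b s hsZ).1 _ (hA b t htZ).1 (parU x _ _ (hPX _ a1 x a2).1 (Or.inr a1)
      (Or.inr a3) (hP _ a1 x a2).2 (hP _ a3 x a4).2)
    rcases mem_union.mp hsZ with h | h <;> rcases mem_union.mp htZ with h' | h'
    · rwa [(AS b s h).2, (AS b t h').2] at e
    · rw [(AS b s h).2, (AY b t h').2] at e
      rw [(AS b s h).1, e] at h1
      rw [(AY b t h').1] at h2
      exact ((mem_sdiff.mp ((hA2 b t h').1 h2)).2 h1).elim
    · rw [(AY b s h).2, (AS b t h').2] at e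
      rw [(AS b t h').1, ← e] at h2
      rw [(AY b s h).1] at h1
      exact ((mem_sdiff.mp ((hA2 b s h).1 h1)).2 h2).elim
    · rw [(AY b s h).2, (AY b t h').2] at e
      exact uq _ (hldY s h).1 s t (((hY s).mp h).2.1.tw hO) (((hY t).mp h').2.1.tw hO)
        (hldY s h).2 (e ▸ (hldY t h').2)
  have hUY : ∀ x ∈ U, ∀ c ∈ Y, ∀ n, Wk Γ n x c → 3 ≤ n := fun x hx c hc n hw =>
    far x c n ((hU x).mp hx).2.1 ((hY c).mp hc).2.1 (by
      rintro rfl
      exact ((hU x).mp hx).2.2 _ (hldY x hc).1 (hldY x hc).2) hw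
  have hUS : ∀ x ∈ U, ∀ c ∈ S ∪ Y, ∀ n, Wk Γ n x c → 2 ≤ n := by
    intro x hx c hc n hw
    rcases mem_union.mp hc with h | h
    · exact hw.two_le_of_ne (fun e => hs.disj x ((hU x).mp hx).1 (e ▸ h))
        fun e => ((hU x).mp hx).2.2 c h e.1
    · exact le_trans (by omega) (hUY x hx c h n hw)
  let W := (C ∪ S).filter fun x => ¬ D x
  obtain ⟨H', h1, h2⟩ := glue2 (Γ := Γ) (W := W) (S := S ∪ Y) (U := U) (k := k)
    (g := 7) (β := 3) (η := 2) A
    (fun a b h => mem_filter.mpr ⟨by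
      rcases h.2.1 with h' | h'
      · exact mem_union_left _ h'
      · exact mem_union.mpr (hs.closed b h' a h.1.symm), h.2.2.1⟩)
    (fun s hsZ => by
      rcases mem_union.mp hsZ with h | h
      · exact mem_filter.mpr ⟨mem_union_right _ h, hSD s h⟩
      · exact mem_filter.mpr ⟨mem_union_left _ ((hY s).mp h).1, ((hY s).mp h).2.1.1⟩)
    (fun x hx => mem_filter.mpr ⟨mem_union_left _ ((hU x).mp hx).1, ((hU x).mp hx).2.1.1⟩)
    (disjoint_left.mpr fun x hxZ hx => by
      have := hUS x hx x hxZ 0 (Wk.nil _)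
      omega)
    (fun b s hsZ => by rw [card_nbr]; convert (hA b s hsZ).2.2)
    (fun x hx => by
      obtain ⟨hxC, ⟨h1, z, hz, hzx⟩, h2⟩ := (hU x).mp hx
      rw [← hcardG x]
      refine ncard_insert_nbr hzx.symm (fun h => h.2.2.2.1 hz) (fun y h => h.1) (fun w h => ?_)
      by_cases hw : D w
      · exact Or.inl (parU x w z h1 hw hz h.symm hzx)
      · exact Or.inr ⟨h, Or.inl hxC, h1, hw, fun h3 => h2 w h3.2.1 h,
          fun h3 => hs.disj x hxC h3.2.1⟩)
    (fun x hx hxZ hxU => by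
      obtain ⟨h1, h2⟩ := mem_filter.mp hx
      have hxC : x ∈ C := (mem_union.mp h1).resolve_right fun h => hxZ (mem_union_left _ h)
      rw [← hcardG x]
      congr 1
      ext w
      simp only [mem_neighborSet]
      refine ⟨fun h => h.1, fun h => ⟨h, Or.inl hxC, h2, fun hw => ?_,
        fun h3 => hxZ (mem_union_right _ h3.1), fun h3 => hs.disj x hxC h3.2.1⟩⟩
      have hX : Xp G u O x := ⟨h2, w, hw, h.symm⟩
      exact hxU ((hU x).mpr ⟨hxC, hX, fun s hsS h3 =>
        hxZ (mem_union_right _ ((hY x).mpr ⟨hxC, hX, s, hsS, h3⟩))⟩))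
    (fun b s hsZ x hx => (hP _ (hAP b s hsZ x hx).1 x (hAP b s hsZ x hx).2).1) hAd
    (hG.anti fun a b h => h.1)
    (fun x hx y hy hxy n hw => far x y n ((hU x).mp hx).2.1 ((hU y).mp hy).2.1 hxy hw) hUS
    (fun b s hsZ x hx y hy hxy n hw => by
      have := farS _ (hAP b s hsZ x hx).1 x (hAP b s hsZ x hx).2 y (hAP b s hsZ y hy).2 hxy n hw
      omega)
    (fun b s hsZ t htZ hst x hx y hy n m hw hw' => by
      have hxy : x ≠ y := fun e => hst (hAd b s hsZ t htZ x hx (e ▸ hy))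
      obtain ⟨a1, a2⟩ := hAP b s hsZ x hx
      obtain ⟨a3, a4⟩ := hAP b t htZ y hy
      by_cases e : l s = l t
      · have := farS _ a1 x a2 y (e ▸ a4) hxy n hw
        omega
      have b1 := far x y n (hPX _ a1 x a2) (hPX _ a3 y a4) hxy hw
      have b2 : 2 ≤ m := hw'.two_le_of_ne hst fun h => by
        rcases mem_union.mp hsZ with h3 | h3 <;> rcases mem_union.mp htZ with h4 | h4
        · exact h.2.1.elim (fun h => hs.disj s h h3) fun h => hs.disj t h h4
        · rw [(AS b s h3).2, (AY b t h4).2] at e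
          exact h.2.2.2.2.2 ⟨h4, h3, e⟩
        · rw [(AY b s h3).2, (AS b t h4).2] at e
          exact h.2.2.2.2.1 ⟨h3, h4, Ne.symm e⟩
        · have := far s t 1 ((hY s).mp h3).2.1 ((hY t).mp h4).2.1 hst (Wk.single h)
          omega
      omega)
    (fun s hsZ t htZ x hx x' hx' n m hw hw' => by
      obtain ⟨a1, a2⟩ := hAP _ s hsZ x hx
      obtain ⟨a3, a4⟩ := hAP _ t htZ x' hx'
      have b1 := hUS x (hP _ a1 x a2).1 t htZ n hw
      have b2 := hUS x' (hP _ a3 x' a4).1 s hsZ m hw'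
      by_contra hlt
      obtain rfl : n = 2 := by omega
      obtain rfl : m = 2 := by omega
      have htS : t ∈ S := (mem_union.mp htZ).resolve_right fun h => by
        have := hUY x (hP _ a1 x a2).1 t h _ hw
        omega
      have hsS : s ∈ S := (mem_union.mp hsZ).resolve_right fun h => by
        have := hUY x' (hP _ a3 x' a4).1 s h _ hw'
        omega
      rw [(AS false s hsS).2] at a1 a2
      rw [(AS true t htS).2] at a3 a4
      rw [(AS false s hsS).1] at hx
      rw [(AS true t htS).1] at hx'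
      obtain ⟨c1, c2⟩ := hyu t _ a1 x a2 hw
      obtain ⟨c3, c4⟩ := hyu s _ a3 x' a4 hw'
      rcases hconf s hsS t htS ⟨c1, c3⟩ with h | h
      · exact (hA1 _ s hsS).2.2 t h (c2 ▸ hx)
      · exact (hA1 _ t htS).2.2 s h (c4 ▸ hx'))
    (by omega) (by omega) (by decide)
  refine ⟨H', _, h1, h2, ?_, ?_⟩
  · obtain ⟨s, hsS⟩ := card_pos.mp (show 0 < S.card by omega)
    exact ⟨(s, false), mem_product.mpr ⟨mem_filter.mpr ⟨mem_union_right _ hsS, hSD s hsS⟩,
      mem_univ _⟩⟩
  · rw [card_product, card_univ, Fintype.card_bool]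
    have a1 : W ⊆ (C ∪ S) \ insert u O := fun x hx => by
      obtain ⟨h1, h2⟩ := mem_filter.mp hx
      exact mem_sdiff.mpr ⟨h1, fun h => h2 (mem_insert.mp h)⟩
    have a2 : insert u O ⊆ C ∪ S := fun x h => mem_union_left _ (hDC x (mem_insert.mp h))
    have a3 := card_sdiff_add_card_eq_card a2
    have a4 := card_le_card a1
    have a5 := card_union_le C S
    rw [card_insert_of_notMem fun h => (hO u h).ne rfl] at a3
    have a6 : S.card ≤ O.card := card_le_card_of_injOn σ hσO hσi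
    omega

theorem Ok.anti [DecidableEq V] {G : SimpleGraph V} [DecidableRel G.Adj] {S C : Finset V} {u : V}
    {O : Finset V} {ld : V → V} {t : V} {v v' : ℕ} (h : Ok G S C u O ld t v) (hv : v' ≤ v) :
    Ok G S C u O ld t v' := by
  obtain ⟨h1, h2, h3⟩ := h
  refine ⟨fun i a b => ?_, fun y a b c d => ?_, fun a => ⟨?_, fun b => ⟨?_, fun c => ?_⟩⟩⟩
  · have := h1 i a b; omega
  · have := h2 y a b c d; omega
  · have := (h3 a).1; omega
  · have := ((h3 a).2 b).1; omega
  · have := ((h3 a).2 b).2 c; omega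

theorem grp_weight (g : Finset V) (a : V → ℕ) (n : ℕ) (h : ∀ s ∈ g, 0 < a s ∧ a s ≤ n) :
    (g.card : ℚ) ≤ n * ∑ s ∈ g, (1 : ℚ) / (a s : ℚ) := by
  rw [mul_sum, card_eq_sum_ones, Nat.cast_sum]
  refine sum_le_sum fun s hs => ?_
  have h1 : (0 : ℚ) < a s := by exact_mod_cast (h s hs).1
  have h2 : (a s : ℚ) ≤ n := by exact_mod_cast (h s hs).2
  rw [mul_one_div, le_div_iff₀ h1]
  simpa using h2

theorem seven_smaller [Fintype V] [DecidableEq V] {G : SimpleGraph V} [DecidableRel G.Adj]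
    {k : ℕ} (hreg : ∀ v, (univ.filter fun w => G.Adj v w).card = k) (hk : 2 ≤ k)
    (hG : GirthGe G 7) {S C : Finset V} (hs : Sep G (k - 1) S C) (hSc : S.card = k - 1)
    (ha : ∀ s ∈ S, 2 ≤ (C.filter fun w => G.Adj s w).card) :
    ∃ (H : SimpleGraph (V × Bool)) (W : Finset (V × Bool)), RegOn H W k ∧ GirthGe H 7 ∧
      W.Nonempty ∧ W.card < 2 * C.card := by
  classical
  obtain ⟨u, huC, huS, hw⟩ := exists_light hreg hk hG hs
  have : Nonempty V := ⟨u⟩
  let a : V → ℕ := fun s => (C.filter fun w => G.Adj s w).card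
  let Cl := S.filter fun s => ∃ i, Near G C u i s
  have hw' : ∑ s ∈ Cl, (1 : ℚ) / (a s : ℚ) < 1 := by convert hw
  have hak : ∀ s, a s ≤ k := fun s => by
    rw [← hreg s]; exact card_le_card (filter_subset_filter _ (subset_univ _))
  have hl : ∀ y, ∃ l, ∀ s ∈ S, G.Adj y s → l ∈ S ∧ G.Adj y l ∧ a s ≤ a l := by
    intro y
    rcases (S.filter fun s => G.Adj y s).eq_empty_or_nonempty with h | h
    · exact ⟨y, fun s h1 h2 => (filter_eq_empty_iff.mp h h1 h2).elim⟩
    · obtain ⟨l, h1, h2⟩ := exists_max_image _ a h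
      exact ⟨l, fun s h3 h4 => ⟨(mem_filter.mp h1).1, (mem_filter.mp h1).2,
        h2 s (mem_filter.mpr ⟨h3, h4⟩)⟩⟩
  choose ld hld using hl
  have hIC : ∀ i, G.Adj u i → i ∈ C := fun i hi =>
    (hs.closed u huC i hi).resolve_right fun h => huS i h hi
  have hSu : ∀ s ∈ S, s ≠ u := fun s hsS h => hs.disj u huC (h ▸ hsS)
  have uq : ∀ t ∈ S, ∀ w w', Tw G u w → Tw G u w' → G.Adj w t → G.Adj w' t → w = w' :=
    fun t ht w w' => tw_uniq hG (hSu t ht) (huS t ht)
  have wnn : ∀ s, (0 : ℚ) ≤ 1 / (a s : ℚ) := fun s => by positivity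
  have gw : ∀ y, ∀ t ∈ S, G.Adj y t → ∀ n, a (ld y) ≤ n → ((S.filter fun s => G.Adj y s).card : ℚ) ≤
      n * ∑ s ∈ S.filter (fun s => G.Adj y s), (1 : ℚ) / (a s : ℚ) := fun y t _ _ n hn =>
    grp_weight _ a n fun s h => ⟨lt_of_lt_of_le (by omega) (ha s (mem_filter.mp h).1),
      (hld y s (mem_filter.mp h).1 (mem_filter.mp h).2).2.2.trans hn⟩
  let v : V → ℕ := fun i => k - 1 - (plain G S C u i).card
  have main : ∀ O O' Cl' : Finset V, (∀ i ∈ O, G.Adj u i) → O' ⊆ O → O'.card = S.card → Cl' ⊆ S →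
      (∀ t ∈ S, ∀ i ∈ O, Near G C u i t → t ∈ Cl' ∧ 3 ≤ a t) →
      (∀ m, 1 ≤ m → (O'.filter fun i => m ≤ v i).Nonempty → ∃ Q ⊆ O, ∃ b : ℕ, (∀ i ∈ Q, m ≤ v i) ∧
        2 * m * ∑ s ∈ Cl', (1 : ℚ) / (a s : ℚ) < b ∧
        (O'.filter fun i => m ≤ v i).card + b ≤ Q.card * m + 1) →
      ∃ (H : SimpleGraph (V × Bool)) (W : Finset (V × Bool)), RegOn H W k ∧ GirthGe H 7 ∧
        W.Nonempty ∧ W.card < 2 * C.card := by
    intro O O' Cl' hO hO' hc hCl h3 hQ
    have ok0 : ∀ t ∈ S, Ok G S C u O ld t 0 := by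
      intro t ht
      have h2 := ha t ht
      refine ⟨fun _ _ _ => by omega, fun y hy hX hyt e => ?_, fun hn => ⟨by omega, fun _ =>
        ⟨by omega, fun ⟨y, hy, hX, hyt⟩ => ?_⟩⟩⟩
      · have b1 := gw y t ht hyt _ le_rfl
        have b2 : ∑ s ∈ S.filter (fun s => G.Adj y s), (1 : ℚ) / (a s : ℚ) ≤
            ∑ s ∈ Cl, (1 : ℚ) / (a s : ℚ) := by
          refine sum_le_sum_of_subset_of_nonneg (fun s h => ?_) fun s _ _ => wnn s
          obtain ⟨h4, h5⟩ := mem_filter.mp h
          refine mem_filter.mpr ⟨h4, ?_⟩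
          rcases hX.tw hO with h6 | ⟨i, h6, h7, h8⟩
          · exact ⟨y, h6, hy, Or.inl ⟨hSu s h4, h5⟩⟩
          · exact ⟨i, h6, hIC i h6, Or.inr ⟨y, hy, h8, h7, h5⟩⟩
        have b3 : (0 : ℚ) < a t := by exact_mod_cast (show 0 < a t from lt_of_lt_of_le (by omega) h2)
        rw [e] at b1
        have b4 : ((S.filter fun s => G.Adj y s).card : ℚ) < a t := by nlinarith
        have b5 : (S.filter fun s => G.Adj y s).card < a t := by exact_mod_cast b4
        simp only [a] at b5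
        omega
      · obtain ⟨h4, z, rfl | hz, h5⟩ := hX
        · exact (hn y h5 hyt).elim
        · exact (h3 t ht z hz ⟨hO z hz, hIC z (hO z hz),
            Or.inr ⟨y, hy, fun h => h4 (Or.inl h), h5, hyt⟩⟩).2
    let τ : V → ℕ := fun t => Nat.findGreatest (Ok G S C u O ld t) k
    have τ1 : ∀ t ∈ S, Ok G S C u O ld t (τ t) := fun t ht =>
      Nat.findGreatest_spec (Nat.zero_le k) (ok0 t ht)
    have τ2 : ∀ t m, Ok G S C u O ld t m → m ≤ τ t := by
      intro t m h
      refine Nat.le_findGreatest ?_ h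
      have := hak t
      by_cases h1 : ∃ i, G.Adj u i ∧ G.Adj i t
      · obtain ⟨i, h1, h2⟩ := h1
        have := h.1 i h1 h2
        simp only [a] at *
        omega
      · have := (h.2.2 fun i h2 h4 => h1 ⟨i, h2, h4⟩).1
        simp only [a] at *
        omega
    obtain ⟨σ, hσ, hσi⟩ := chain_match S O' v τ hc fun m hm => by
      rcases (O'.filter fun i => m ≤ v i).eq_empty_or_nonempty with h | h
      · rw [h]; exact Nat.zero_le _
      obtain ⟨Q, hQO, b, q1, q2, q3⟩ := hQ m hm h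
      let F := Q.biUnion fun i => kids G u i \ plain G S C u i
      have hFc : Q.card * m ≤ F.card := by
        rw [card_biUnion]
        · refine le_trans (by simp) (card_nsmul_le_sum Q _ m fun i hi => ?_)
          have b0 : plain G S C u i ⊆ kids G u i := filter_subset _ _
          have b1 := card_sdiff_add_card_eq_card b0
          have b2 := card_kids hreg (hO i (hQO hi))
          have b3 := q1 i hi
          simp only [v] at b3
          omega
        · intro i hi j hj hij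
          refine disjoint_left.mpr fun x hx hx' => hij ?_
          have b1 := mem_kids.mp (mem_sdiff.mp hx).1
          have b2 := mem_kids.mp (mem_sdiff.mp hx').1
          exact no_square hG (by omega) (hO i (hQO hi)) (hO j (hQO hj)) b1.2 b2.2 b1.1
      have hF : ∀ f ∈ F, ∃ i ∈ O, f ≠ u ∧ G.Adj i f ∧ (f ∉ S → f ∈ C ∧ ∃ s ∈ S, G.Adj f s) := by
        intro f hf
        obtain ⟨i, hi, hf⟩ := mem_biUnion.mp hf
        obtain ⟨b1, b2⟩ := mem_sdiff.mp hf
        have b3 := mem_kids.mp b1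
        refine ⟨i, hQO hi, b3.1, b3.2, fun h => ?_⟩
        have b4 := (hs.closed i (hIC i (hO i (hQO hi))) f b3.2).resolve_right h
        refine ⟨b4, ?_⟩
        by_contra b5
        exact b2 (mem_filter.mpr ⟨b1, b4, fun s h1 h2 => b5 ⟨s, h1, h2⟩⟩)
      have := count_good S Cl' F (fun f => if f ∈ S then {f} else S.filter fun s => G.Adj f s)
        (fun f => if f ∈ S then f else ld f) (fun s => 1 / (a s : ℚ)) τ m b hm wnn hCl
        (fun f hf s hsg => by
          obtain ⟨i, hi, b1, b2, b3⟩ := hF f hf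
          by_cases h : f ∈ S
          · simp only [h, if_true, mem_singleton] at hsg
            subst hsg
            exact (h3 s h i hi ⟨hO i hi, hIC i (hO i hi), Or.inl ⟨b1, b2⟩⟩).1
          · simp only [h, if_false, mem_filter] at hsg
            exact (h3 s hsg.1 i hi ⟨hO i hi, hIC i (hO i hi),
              Or.inr ⟨f, (b3 h).1, b1, b2, hsg.2⟩⟩).1)
        (fun f hf => by
          obtain ⟨i, hi, b1, b2, b3⟩ := hF f hf
          by_cases h : f ∈ S
          · simp only [h, if_true, mem_singleton]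
          · simp only [h, if_false, mem_filter]
            obtain ⟨s, b4, b5⟩ := (b3 h).2
            exact ⟨(hld f s b4 b5).1, (hld f s b4 b5).2.1⟩)
        (fun f hf f' hf' s h1 h2 => by
          obtain ⟨i, hi, b1, b2, -⟩ := hF f hf
          obtain ⟨j, hj, c1, c2, -⟩ := hF f' hf'
          have t1 : Tw G u f := Or.inr ⟨i, hO i hi, b2, b1⟩
          have t2 : Tw G u f' := Or.inr ⟨j, hO j hj, c2, c1⟩
          by_cases h : f ∈ S <;> by_cases h' : f' ∈ S <;>
            simp only [h, h', if_true, if_false, mem_singleton, mem_filter] at h1 h2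
          · rw [← h1, h2]
          · subst h1
            have e := uq s h i f' (Or.inl (hO i hi)) t2 b2 h2.2
            exact (grand_notD hG (hO j hj) c2 c1 (Or.inr (e ▸ hO i hi))).elim
          · subst h2
            have e := uq s h' j f (Or.inl (hO j hj)) t1 c2 h1.2
            exact (grand_notD hG (hO i hi) b2 b1 (Or.inr (e ▸ hO j hj))).elim
          · exact uq s h1.1 f f' t1 t2 h1.2 h2.2)
        (fun f hf hlt => by
          obtain ⟨i, hi, b1, b2, b3⟩ := hF f hf
          have hm' : (1 : ℚ) ≤ m := by exact_mod_cast hm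
          by_cases h : f ∈ S
          · simp only [h, if_true, sum_singleton] at hlt ⊢
            have c1 : a f ≤ 2 * m := by
              by_contra c1
              refine absurd (τ2 f m ⟨fun _ _ _ => ?_, fun y _ hX hy _ => ?_,
                fun hn => (hn i (hO i hi) b2).elim⟩) (by omega)
              · simp only [a] at c1; omega
              · exact (hX.1 (Or.inr (uq f h i y (Or.inl (hO i hi)) (hX.tw hO) b2 hy ▸ hi))).elim
            have := grp_weight {f} a (2 * m) fun s h1 => by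
              rw [mem_singleton.mp h1]
              exact ⟨lt_of_lt_of_le (by omega) (ha f h), c1⟩
            simpa using this
          · simp only [h, if_false] at hlt ⊢
            obtain ⟨fC, s, b4, b5⟩ := b3 h
            obtain ⟨l1, l2, -⟩ := hld f s b4 b5
            have t1 : Tw G u f := Or.inr ⟨i, hO i hi, b2, b1⟩
            have nd := grand_notD hG (hO i hi) b2 b1
            have hX : Xp G u O f := ⟨fun h => nd (h.imp id (hO f)), i, Or.inr hi, b2⟩
            have hpos : 1 ≤ (S.filter fun s => G.Adj f s).card :=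
              card_pos.mpr ⟨s, mem_filter.mpr ⟨b4, b5⟩⟩
            have c1 : a (ld f) ≤ 2 * m * (S.filter fun s => G.Adj f s).card := by
              by_contra c1
              have c2 : 2 * m < a (ld f) := by nlinarith
              have c3 : m + (S.filter fun s => G.Adj f s).card < a (ld f) := by nlinarith
              refine absurd (τ2 (ld f) m ⟨fun j hj hjl => ?_, fun y _ hY hy _ => ?_,
                fun _ => ⟨c2, fun hn => (hn f fC hX l2 rfl).elim⟩⟩) (by omega)
              · exact (nd (Or.inr (uq _ l1 j f (Or.inl hj) t1 hjl l2 ▸ hj))).elim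
              · rw [uq _ l1 y f (hY.tw hO) t1 hy l2]
                exact c3
            have c4 := gw f s b4 b5 _ c1
            have c5 : (0 : ℚ) < (S.filter fun s => G.Adj f s).card := by exact_mod_cast hpos
            push_cast at c4
            by_contra c6
            nlinarith) q2
      omega
    exact seven_core hreg hk hG hs hSc huC huS hO
      (fun y s h1 h2 => ⟨(hld y s h1 h2).1, (hld y s h1 h2).2.1⟩) (fun t ht => hO' (hσ t ht).1) hσi
      fun t ht => (τ1 t ht).anti (hσ t ht).2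
  let I := univ.filter fun w => G.Adj u w
  have hI : ∀ i ∈ I, G.Adj u i := fun i hi => (mem_filter.mp hi).2
  have hIc : I.card = k := hreg u
  by_cases h2 : ∃ t ∈ Cl, a t ≤ 2
  · obtain ⟨t0, ht0, h2⟩ := h2
    obtain ⟨t0S, z, hz⟩ := mem_filter.mp ht0
    have e2 : a t0 = 2 := le_antisymm h2 (ha t0 t0S)
    have hzI : z ∈ I := mem_filter.mpr ⟨mem_univ _, hz.1⟩
    have hsum := add_sum_erase Cl (fun s => (1 : ℚ) / (a s : ℚ)) ht0
    simp only [e2] at hsum
    have half : ∑ s ∈ Cl.erase t0, (1 : ℚ) / (a s : ℚ) < 1 / 2 := by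
      push_cast at hsum
      linarith
    refine main (I.erase z) (I.erase z) (Cl.erase t0) (fun i hi => hI i (mem_erase.mp hi).2)
      Subset.rfl (by rw [card_erase_of_mem hzI]; omega)
      ((erase_subset _ _).trans (filter_subset _ _)) (fun t ht i hi hn => ?_)
      fun m hm hne => ⟨_, filter_subset _ _, m, fun i hi => (mem_filter.mp hi).2, ?_, ?_⟩
    · have b1 : t ∈ Cl.erase t0 := by
        refine mem_erase.mpr ⟨?_, mem_filter.mpr ⟨ht, i, hn⟩⟩
        rintro rfl
        refine (mem_erase.mp hi).1 ?_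
        obtain ⟨a1, -, a2 | ⟨x, -, a2, a3, a4⟩⟩ := hn <;>
          obtain ⟨c1, -, c2 | ⟨x', -, c2, c3, c4⟩⟩ := hz
        · exact uq t ht i z (Or.inl a1) (Or.inl c1) a2.2 c2.2
        · have e := uq t ht i x' (Or.inl a1) (Or.inr ⟨z, c1, c3, c2⟩) a2.2 c4
          exact (grand_notD hG c1 c3 c2 (Or.inr (e ▸ a1))).elim
        · have e := uq t ht z x (Or.inl c1) (Or.inr ⟨i, a1, a3, a2⟩) c2.2 a4
          exact (grand_notD hG a1 a3 a2 (Or.inr (e ▸ c1))).elim
        · have e := uq t ht x x' (Or.inr ⟨i, a1, a3, a2⟩) (Or.inr ⟨z, c1, c3, c2⟩) a4 c4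
          exact no_square hG (by omega) a1 c1 a3 (e ▸ c3) a2
      refine ⟨b1, ?_⟩
      by_contra b2
      have b3 : a t = 2 := le_antisymm (by omega) (ha t ht)
      have b4 := single_le_sum (f := fun s => (1 : ℚ) / (a s : ℚ)) (fun s _ => wnn s) b1
      simp only [b3] at b4
      push_cast at b4
      linarith
    · have : (0 : ℚ) < m := by exact_mod_cast hm
      nlinarith
    · have := card_pos.mpr hne
      nlinarith
  · obtain ⟨z, hzI, hz⟩ := exists_max_image I v (card_pos.mp (by omega))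
    refine main I (I.erase z) Cl hI (erase_subset _ _) (by rw [card_erase_of_mem hzI]; omega)
      (filter_subset _ _) (fun t ht i _ hn => ?_) fun m hm hne =>
        ⟨insert z ((I.erase z).filter fun i => m ≤ v i), ?_, 2 * m, fun i hi => ?_, ?_, ?_⟩
    · have b1 : t ∈ Cl := mem_filter.mpr ⟨ht, i, hn⟩
      exact ⟨b1, by_contra fun b2 => h2 ⟨t, b1, by omega⟩⟩
    · exact insert_subset hzI ((filter_subset _ _).trans (erase_subset _ _))
    · rcases mem_insert.mp hi with rfl | hi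
      · obtain ⟨j, hj⟩ := hne
        exact (mem_filter.mp hj).2.trans (hz j (mem_erase.mp (mem_filter.mp hj).1).2)
      · exact (mem_filter.mp hi).2
    · have : (0 : ℚ) < m := by exact_mod_cast hm
      push_cast
      nlinarith
    · have := card_pos.mpr hne
      rw [card_insert_of_notMem (by simp)]
      nlinarith

theorem regOn_top (k : ℕ) : RegOn (⊤ : SimpleGraph (Fin (k + 1))) univ k := by
  refine ⟨fun _ _ _ => mem_univ _, fun v _ => ?_⟩
  rw [card_nbr]
  simp [filter_ne]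

theorem three_big [Fintype V] [DecidableEq V] {G : SimpleGraph V} [DecidableRel G.Adj] {k K : ℕ}
    (hreg : ∀ v, (univ.filter fun w => G.Adj v w).card = k) {S C : Finset V} (hs : Sep G K S C) :
    k + 2 ≤ Fintype.card V := by
  obtain ⟨x, hx⟩ := hs.ne
  obtain ⟨y, h1, h2⟩ := hs.out
  have := card_le_univ (insert x (insert y (univ.filter fun w => G.Adj x w)))
  rw [card_insert_of_notMem, card_insert_of_notMem, hreg] at this
  · exact this
  · exact fun h => (hs.closed x hx y (mem_filter.mp h).2).elim h1 h2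
  · simp only [mem_insert, mem_filter, SimpleGraph.irrefl, and_false, or_false]
    rintro rfl
    exact h1 hx

end Pool.Agent.MP_0be28d_co

end
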